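import Pool.Agent.PSB.St

set_option autoImplicit false

/-! # PSB Bak: frames come from point pushes -/

namespace Pool.Agent.PSB

open Pool.Agent.PW

/-- keeps the classes, trivial modulo `NC` -/
def Bak_good {g n : ℕ} (γ : MulAut (F g (n + 1))) : Prop :=
  (∀ l, IsConj (γ (gc l)) (gc l : F g (n + 1))) ∧ ∀ x, γ x * x⁻¹ ∈ NC g n

theorem Bak_conj {g n : ℕ} (γ : MulAut (F g (n + 1))) {x y : F g (n + 1)} (h : IsConj x y) :
    IsConj (γ x) (γ y) := MonoidHom.map_isConj γ.toMonoidHom h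

theorem Bak_one {g n : ℕ} : Bak_good (1 : MulAut (F g (n + 1))) :=
  ⟨fun _ => IsConj.refl _, fun x => by simp⟩

theorem Bak_mul {g n : ℕ} {γ δ : MulAut (F g (n + 1))} (h1 : Bak_good γ) (h2 : Bak_good δ) :
    Bak_good (γ * δ) := by
  refine ⟨fun l => ?_, fun x => ?_⟩
  · exact (Bak_conj γ (h2.1 l)).trans (h1.1 l)
  · have h3 := (NC g n).mul_mem (h1.2 (δ x)) (h2.2 x)
    have h4 : γ (δ x) * (δ x)⁻¹ * (δ x * x⁻¹) = (γ * δ) x * x⁻¹ := by
      rw [MulAut.mul_apply]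
      group
    rwa [h4] at h3

theorem Bak_inv {g n : ℕ} {γ : MulAut (F g (n + 1))} (h1 : Bak_good γ) : Bak_good γ⁻¹ := by
  refine ⟨fun l => ?_, fun x => ?_⟩
  · have h2 := Bak_conj γ⁻¹ (h1.1 l)
    rw [MulAut.inv_apply_self] at h2
    exact h2.symm
  · have h2 := h1.2 (γ⁻¹ x)
    rw [MulAut.apply_inv_self] at h2
    have h3 := (NC g n).inv_mem h2
    have h4 : (x * (γ⁻¹ x)⁻¹)⁻¹ = γ⁻¹ x * x⁻¹ := by group
    rwa [h4] at h3

theorem Bak_xk (hC : St_Cls) {g n : ℕ} (k : ℕ) : Bak_good (xk g n k) := by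
  induction k with
  | zero => exact Bak_one
  | succ k ih => exact Bak_mul ih (hC (chi g n k) (Or.inl ⟨k, rfl⟩))

theorem thm_Bak (hX : St_Xk) (hC : St_Cls) (hW : St_Wds) : St_Bak := by
  intro g n k hk α hα
  have h1 : Bak_good α := ⟨hα.2.1, hα.2.2⟩
  have h2 := Bak_mul h1 (Bak_inv (Bak_xk hC (g := g) (n := n) k))
  refine ⟨⟨?_, h2.1⟩, h2.2⟩
  have h3 : (xk g n k)⁻¹ (wd g n 0) = wd g n k := by
    rw [← (hX.2.1 k hk), MulAut.inv_apply_self]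
  have h4 : IsConj (bdry g (n + 1)) (wd g n 0) := by
    rw [← hW.2.2.2.2.2]
    rw [isConj_iff]
    exact ⟨cc g n, rfl⟩
  have h5 := Bak_conj (α * (xk g n k)⁻¹) h4
  have h6 : (α * (xk g n k)⁻¹) (wd g n 0) = α (wd g n k) := by
    rw [MulAut.mul_apply, h3]
  rw [h6] at h5
  exact h5.trans hα.1

end Pool.Agent.PSB
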