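import Pool.Agent.PSB.StB

/-!
# PSB: braiding the marked points
-/

set_option autoImplicit false

namespace Pool.Agent.PSB

open Pool.Agent.PW

variable {g N : ℕ}

/-- The braid. -/
def Brd_h (g : ℕ) {N : ℕ} (p q : Fin N) : F g N →* F g N :=
  FreeGroup.lift fun y => if y = Gen.c p then gc p * gc q * (gc p)⁻¹
    else if y = Gen.c q then gc p else FreeGroup.of y

/-- Its inverse. -/
def Brd_i (g : ℕ) {N : ℕ} (p q : Fin N) : F g N →* F g N :=
  FreeGroup.lift fun y => if y = Gen.c p then gc q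
    else if y = Gen.c q then (gc q)⁻¹ * gc p * gc q else FreeGroup.of y

theorem Brd_hp (p q : Fin N) : Brd_h g p q (gc p) = gc p * gc q * (gc p)⁻¹ := by
  unfold Brd_h gc
  rw [FreeGroup.lift_apply_of, if_pos rfl]

theorem Brd_hq {p q : Fin N} (h : p ≠ q) : Brd_h g p q (gc q) = gc p := by
  unfold Brd_h gc
  rw [FreeGroup.lift_apply_of, if_neg, if_pos rfl]
  intro h'
  exact h (by simpa using h'.symm)

theorem Brd_ip (p q : Fin N) : Brd_i g p q (gc p) = gc q := by
  unfold Brd_i gc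
  rw [FreeGroup.lift_apply_of, if_pos rfl]

theorem Brd_iq {p q : Fin N} (h : p ≠ q) : Brd_i g p q (gc q) = (gc q)⁻¹ * gc p * gc q := by
  unfold Brd_i gc
  rw [FreeGroup.lift_apply_of, if_neg, if_pos rfl]
  intro h'
  exact h (by simpa using h'.symm)

theorem Brd_hy {p q : Fin N} {y : Gen g N} (h1 : y ≠ Gen.c p) (h2 : y ≠ Gen.c q) :
    Brd_h g p q (FreeGroup.of y) = FreeGroup.of y := by
  unfold Brd_h
  rw [FreeGroup.lift_apply_of, if_neg h1, if_neg h2]

theorem Brd_iy {p q : Fin N} {y : Gen g N} (h1 : y ≠ Gen.c p) (h2 : y ≠ Gen.c q) :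
    Brd_i g p q (FreeGroup.of y) = FreeGroup.of y := by
  unfold Brd_i
  rw [FreeGroup.lift_apply_of, if_neg h1, if_neg h2]

theorem Brd_ih {p q : Fin N} (h : p ≠ q) :
    (Brd_i g p q).comp (Brd_h g p q) = MonoidHom.id _ := by
  apply FreeGroup.ext_hom
  intro y
  rw [MonoidHom.comp_apply, MonoidHom.id_apply]
  by_cases h1 : y = Gen.c p
  · rw [h1]
    show Brd_i g p q (Brd_h g p q (gc p)) = gc p
    rw [Brd_hp, map_mul, map_mul, map_inv, Brd_ip, Brd_iq h]
    group
  · by_cases h2 : y = Gen.c q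
    · rw [h2]
      show Brd_i g p q (Brd_h g p q (gc q)) = gc q
      rw [Brd_hq h, Brd_ip]
    · rw [Brd_hy h1 h2, Brd_iy h1 h2]

theorem Brd_hi {p q : Fin N} (h : p ≠ q) :
    (Brd_h g p q).comp (Brd_i g p q) = MonoidHom.id _ := by
  apply FreeGroup.ext_hom
  intro y
  rw [MonoidHom.comp_apply, MonoidHom.id_apply]
  by_cases h1 : y = Gen.c p
  · rw [h1]
    show Brd_h g p q (Brd_i g p q (gc p)) = gc p
    rw [Brd_ip, Brd_hq h]
  · by_cases h2 : y = Gen.c q
    · rw [h2]
      show Brd_h g p q (Brd_i g p q (gc q)) = gc q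
      rw [Brd_iq h, map_mul, map_mul, map_inv, Brd_hp, Brd_hq h]
      group
    · rw [Brd_iy h1 h2, Brd_hy h1 h2]

theorem Brd_bdry {p q : Fin N} (h : (q : ℕ) = p + 1) :
    Brd_h g p q (bdry g N) = bdry g N := by
  have hpq : p ≠ q := by
    intro h'
    rw [h'] at h
    omega
  have hN : N = (p : ℕ) + (1 + (1 + (N - p - 2))) := by
    have := q.2
    omega
  have h1 : cseg g N 0 N = cseg g N 0 p * (gc p * gc q) * cseg g N (p + 2) (N - p - 2) := by
    have h2 : cseg g N 0 N = cseg g N 0 ((p : ℕ) + (1 + (1 + (N - p - 2)))) := by rw [← hN]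
    rw [h2, cseg_add, cseg_add, cseg_add, cseg_one, cseg_one, Nat.zero_add, pc_fin, ← h, pc_fin]
    have h3 : (q : ℕ) + 1 = p + 2 := by omega
    rw [h3]
    group
  have hs : Brd_h g p q (seg g N 0 g) = seg g N 0 g := by
    have := seg_congr (φ := Brd_h g p q) (ψ := MonoidHom.id _) (s := 0) (m := g)
      (fun i _ _ => ⟨Brd_hy (by simp) (by simp), Brd_hy (by simp) (by simp)⟩)
    exact this
  have hc : ∀ s m : ℕ, (∀ i : Fin N, s ≤ i → (i : ℕ) < s + m → i ≠ p ∧ i ≠ q) →
      Brd_h g p q (cseg g N s m) = cseg g N s m := by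
    intro s m hh
    have := cseg_congr (φ := Brd_h g p q) (ψ := MonoidHom.id _) (s := s) (m := m)
      (fun i h1 h2 => Brd_hy (y := Gen.c i) (by simpa using (hh i h1 h2).1)
        (by simpa using (hh i h1 h2).2))
    exact this
  rw [bdry_eq, h1]
  simp only [map_mul]
  rw [hs, hc, hc, Brd_hp, Brd_hq hpq]
  · group
  · intro i h1 h2
    constructor
    · intro h'
      rw [h'] at h1
      omega
    · intro h'
      rw [h'] at h1
      omega
  · intro i h1 h2
    constructor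
    · intro h'
      rw [h'] at h2
      omega
    · intro h'
      rw [h'] at h2
      omega

theorem Brd_gc {p q : Fin N} (h : p ≠ q) (i : Fin N) :
    IsConj (Brd_h g p q (gc i)) (gc (Equiv.swap p q i)) := by
  by_cases h1 : i = p
  · rw [h1, Brd_hp, Equiv.swap_apply_left]
    exact IsConj.symm (isConj_iff.2 ⟨gc p, rfl⟩)
  · by_cases h2 : i = q
    · rw [h2, Brd_hq h, Equiv.swap_apply_right]
    · rw [Equiv.swap_apply_of_ne_of_ne h1 h2]
      have h3 : Brd_h g p q (gc i) = gc i := Brd_hy (by simpa using h1) (by simpa using h2)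
      rw [h3]

theorem Brd_ind {g m : ℕ} (k : ℕ) : ∀ j : Fin (m + 1), (j : ℕ) + k = m →
    ∃ (σ : MulAut (F g (m + 1))) (π : Equiv.Perm (Fin (m + 1))),
      IsConj (σ (bdry g (m + 1))) (bdry g (m + 1)) ∧
      (∀ i, IsConj (σ (gc i)) (gc (π i) : F g (m + 1))) ∧ π j = Fin.last m := by
  induction k with
  | zero =>
    intro j hj
    exact ⟨1, 1, IsConj.refl _, fun i => IsConj.refl _, Fin.ext (by simpa using hj)⟩
  | succ k ih =>
    intro j hj
    obtain ⟨q, hq⟩ : ∃ q : Fin (m + 1), (q : ℕ) = j + 1 := ⟨⟨j + 1, by omega⟩, rfl⟩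
    have hjq : j ≠ q := by
      intro h
      rw [← h] at hq
      omega
    obtain ⟨σ, π, h1, h2, h3⟩ := ih q (by omega)
    refine ⟨σ * mkAut (Brd_h g j q) (Brd_i g j q) (Brd_ih hjq) (Brd_hi hjq),
      π * Equiv.swap j q, ?_, fun i => ?_, ?_⟩
    · rw [MulAut.mul_apply, mkAut_apply, Brd_bdry hq]
      exact h1
    · rw [MulAut.mul_apply, mkAut_apply, Equiv.Perm.mul_apply]
      exact IsConj.trans (MonoidHom.map_isConj σ.toMonoidHom (Brd_gc hjq i)) (h2 _)
    · rw [Equiv.Perm.mul_apply, Equiv.swap_apply_left, h3]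

theorem thm_Brd : St_Brd := by
  intro g m j
  exact Brd_ind (m - j) j (by have := j.2; omega)

end Pool.Agent.PSB
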