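import Pool.Agent.PSB.St

/-!
# Simple branch points: a zero at the base vertex
-/

namespace Pool.Agent.PSB

open Pool.Agent.PW

theorem thm_Chn (h1 : St_Stp) (h2 : St_Inn) (h3 : St_Uni) (h4 : St_Xk) (h5 : St_Frm) :
    St_Chn := by
  intro g n V _ _ _ S e₀ he₀ M hM k hk α hα e p T hO hQ
  obtain ⟨f1, -, -, -, f5, f6⟩ := h5 (g := g) (n := n)
  obtain ⟨-, -, x3⟩ := h4 (g := g) (n := n)
  -- crossings to the end
  have key : ∀ m, k + m ≤ 4 * g + n → ∃ α' ∈ Fr (wd g n (k + m)), ∃ (p' : Pt n V) (T' : ℝ),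
      S.Opt α' none e p' T' ∧ S.Q α' p' = M := by
    intro m
    induction m with
    | zero => exact fun _ => ⟨α, hα, p, T, hO, hQ⟩
    | succ m ih =>
      intro hm
      obtain ⟨α', a1, p', T', a2, a3⟩ := ih (by omega)
      obtain ⟨⟨p'', T'', b1, b2, -⟩, -⟩ := h1 S e₀ he₀ M hM (k + m) (by omega) α' a1 e p' T' a2 a3
      exact ⟨α' * chi g n (k + m), f1 (k + m) (by omega) α' a1, p'', T'', b1, b2⟩
  obtain ⟨α', a1, p', T', a2, a3⟩ := key (4 * g + n - k) (by omega)
  have hend : k + (4 * g + n - k) = 4 * g + n := by omega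
  rw [hend] at a1
  have a0 : α' ∈ Fr (wd g n 0) := (f5 α').2 ((f6 α').1 a1)
  by_contra hcon
  push Not at hcon
  have hT0 : T' ≠ 0 := by
    rintro rfl
    exact hcon α' 0 e p' ⟨by omega, a0, a2, a3⟩
  have key2 : ∀ m, m ≤ 4 * g + n → α' * xk g n m ∈ Fr (wd g n m) ∧ ∃ (q : Pt n V) (U : ℝ),
      S.Opt (α' * xk g n m) none e q U ∧ S.Q (α' * xk g n m) q = M ∧ 0 < T' * U := by
    intro m
    induction m with
    | zero =>
      intro _
      have hx : α' * xk g n 0 = α' := mul_one _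
      rw [hx]
      exact ⟨a0, p', T', a2, a3, mul_self_pos.2 hT0⟩
    | succ m ih =>
      intro hm
      obtain ⟨b1, q, U, b2, b3, b4⟩ := ih (by omega)
      obtain ⟨⟨q', U', c1, c2, c3⟩, -⟩ := h1 S e₀ he₀ M hM m (by omega) _ b1 e q U b2 b3
      have hx : α' * xk g n (m + 1) = α' * xk g n m * chi g n m := (mul_assoc _ _ _).symm
      rw [hx]
      have b5 := f1 m (by omega) _ b1
      refine ⟨b5, q', U', c1, c2, ?_⟩
      have hU' : U' ≠ 0 := by
        rintro rfl
        exact hcon _ (m + 1) e q' ⟨hm, b5, c1, c2⟩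
      have hU : U ≠ 0 := by
        rintro rfl
        rw [mul_zero] at b4
        exact lt_irrefl _ b4
      have h6 : 0 < U * U' := lt_of_le_of_ne c3 (mul_ne_zero hU hU').symm
      have h7 : 0 < (T' * U) * (U * U') := mul_pos b4 h6
      have h8 : (T' * U) * (U * U') = (T' * U') * U ^ 2 := by ring
      rw [h8] at h7
      by_contra h9
      push Not at h9
      have h10 := mul_nonpos_of_nonpos_of_nonneg h9 (sq_nonneg U)
      linarith
  obtain ⟨b1, q, U, b2, b3, b4⟩ := key2 (4 * g + n) le_rfl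
  rw [x3] at b2
  obtain ⟨c1, -⟩ := h2 S α' none e p' T' a2
  obtain ⟨-, d⟩ := h3 S (α' * MulAut.conj (cc g n)) (α' * MulAut.conj (cc g n)) none e e _ _ _ _ 0
    b2 c1 (fun _ => rfl) (fun x => by simp)
  have he : e ≠ 0 := by
    intro h0
    have := a2.ref.norm
    rw [h0, norm_zero] at this
    norm_num at this
  have hU : U = -T' := smul_left_injective ℝ he d
  rw [hU] at b4
  nlinarith [sq_nonneg T']

end Pool.Agent.PSB
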