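import Pool.Agent.PSB.St

/-!
# Simple branch points, module Cls: the elementary automorphisms keep the classes of the marked
points and are trivial modulo the normal closure of `cc`
-/

namespace Pool.Agent.PSB

open Pool.Agent.PW

variable {g n : ℕ}

/-- The automorphisms which are trivial modulo `NC`. -/
private def Cls_N (g n : ℕ) : Subgroup (MulAut (F g (n + 1))) where
  carrier := {φ | ∀ x, φ x * x⁻¹ ∈ NC g n}
  one_mem' := fun x => by simp
  mul_mem' := by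
    intro φ ψ h2 h4 x
    have := Subgroup.mul_mem _ (h2 (ψ x)) (h4 x)
    rwa [MulAut.mul_apply, show φ (ψ x) * x⁻¹ = φ (ψ x) * (ψ x)⁻¹ * (ψ x * x⁻¹) by group]
  inv_mem' := by
    intro φ h2 x
    have := Subgroup.inv_mem _ (h2 (φ⁻¹ x))
    have e : φ (φ⁻¹ x) = x := by simp
    rw [e] at this
    rwa [show φ⁻¹ x * x⁻¹ = (x * (φ⁻¹ x)⁻¹)⁻¹ by group]

/-- The automorphisms which keep the classes of the marked points. -/
private def Cls_C (g n : ℕ) : Subgroup (MulAut (F g (n + 1))) where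
  carrier := {φ | ∀ j, IsConj (φ (gc j)) (gc j : F g (n + 1))}
  one_mem' := fun _ => IsConj.refl _
  mul_mem' := by
    intro φ ψ h2 h4 j
    exact IsConj.trans (MonoidHom.map_isConj φ.toMonoidHom (h4 j)) (h2 j)
  inv_mem' := by
    intro φ h2 j
    have := MonoidHom.map_isConj (φ⁻¹).toMonoidHom (h2 j)
    have h3 : φ⁻¹ (φ (gc j)) = (gc j : F g (n + 1)) := by simp
    have h4 : IsConj (φ⁻¹ (φ (gc j))) (φ⁻¹ (gc j : F g (n + 1))) := this
    rw [h3] at h4
    exact h4.symm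

private theorem Cls_triv {γ : MulAut (F g (n + 1))} (h1 : γ (cc g n) * (cc g n)⁻¹ ∈ NC g n)
    (h2 : ∀ X : Gen g n, γ (lt X) * (lt X)⁻¹ ∈ NC g n) : γ ∈ Cls_N g n := by
  have key : ∀ x y : F g (n + 1),
      QuotientGroup.mk' (NC g n) x = QuotientGroup.mk' (NC g n) y ↔ x * y⁻¹ ∈ NC g n := by
    intro x y
    rw [← div_eq_mul_inv]
    exact QuotientGroup.eq_iff_div_mem
  have h3 : (QuotientGroup.mk' (NC g n)).comp γ.toMonoidHom = QuotientGroup.mk' (NC g n) :=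
    hom_ext' ((key _ _).2 h1) (fun X => (key _ _).2 (h2 X))
  intro x
  exact (key _ _).1 (DFunLike.congr_fun h3 x)

private theorem Cls_cc : cc g n ∈ NC g n := Subgroup.subset_normalClosure (Set.mem_singleton _)

private theorem Cls_cl {γ : MulAut (F g (n + 1))} (h1 : IsConj (γ (cc g n)) (cc g n))
    (h2 : ∀ j : Fin n, IsConj (γ (lt (Gen.c j : Gen g n))) (lt (Gen.c j))) : γ ∈ Cls_C g n := by
  intro l
  rcases Fin.eq_castSucc_or_eq_last l with ⟨j, rfl⟩ | rfl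
  · exact h2 j
  · exact h1

private theorem Cls_lmN (X : Gen g n) : lm X ∈ Cls_N g n := by
  apply Cls_triv
  · rw [lm_cc, mul_inv_cancel]
    exact Subgroup.one_mem _
  · intro Y
    by_cases h : Y = X
    · subst h
      rw [lm_self, mul_inv_cancel_right]
      exact Cls_cc
    · rw [lm_ne h, mul_inv_cancel]
      exact Subgroup.one_mem _

private theorem Cls_rmN (X : Gen g n) : rm X ∈ Cls_N g n := by
  apply Cls_triv
  · rw [rm_cc, mul_inv_cancel]
    exact Subgroup.one_mem _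
  · intro Y
    by_cases h : Y = X
    · subst h
      rw [rm_self]
      exact Subgroup.normalClosure_normal.conj_mem _ (Subgroup.inv_mem _ Cls_cc) _
    · rw [rm_ne h, mul_inv_cancel]
      exact Subgroup.one_mem _

private theorem Cls_mpN (X : Gen g n) : mp X ∈ Cls_N g n := by
  apply Cls_triv
  · rw [mp_cc]
    refine Subgroup.mul_mem _ ?_ (Subgroup.inv_mem _ Cls_cc)
    have := Subgroup.normalClosure_normal.conj_mem _ (Cls_cc (g := g) (n := n)) (lt X)⁻¹
    rwa [inv_inv] at this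
  · intro Y
    rw [mp_lt, mul_inv_cancel]
    exact Subgroup.one_mem _

private theorem Cls_lmC {X : Gen g n} (hX : ∀ j, Gen.c j ≠ X) : lm X ∈ Cls_C g n := by
  apply Cls_cl
  · rw [lm_cc]
  · intro j
    rw [lm_ne (hX j)]

private theorem Cls_rmC {X : Gen g n} (hX : ∀ j, Gen.c j ≠ X) : rm X ∈ Cls_C g n := by
  apply Cls_cl
  · rw [rm_cc]
  · intro j
    rw [rm_ne (hX j)]

private theorem Cls_mpC (X : Gen g n) : mp X ∈ Cls_C g n := by
  apply Cls_cl
  · rw [mp_cc]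
    exact isConj_iff.2 ⟨lt X, by group⟩
  · intro j
    rw [mp_lt]

private theorem Cls_lrC (i : Fin n) :
    lm (Gen.c i : Gen g n) * rm (Gen.c i : Gen g n) ∈ Cls_C g n := by
  apply Cls_cl
  · rw [MulAut.mul_apply, rm_cc, lm_cc]
  · intro j
    rw [MulAut.mul_apply]
    by_cases h : (Gen.c j : Gen g n) = Gen.c i
    · rw [h, rm_self, map_mul, map_inv, lm_self, lm_cc]
      exact isConj_iff.2 ⟨(cc g n)⁻¹, by group⟩
    · rw [rm_ne h, lm_ne h]

private theorem Cls_ztC (i : Fin n) : (zt i : MulAut (F g (n + 1))) ∈ Cls_C g n := by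
  apply Cls_cl
  · rw [zt, MulAut.mul_apply, MulAut.mul_apply, lm_inv_cc, mp_inv_cc, map_mul, map_mul, map_inv,
      lm_self, lm_cc]
    exact isConj_iff.2 ⟨(cc g n * lt (Gen.c i))⁻¹, by group⟩
  · intro j
    rw [zt, MulAut.mul_apply, MulAut.mul_apply]
    by_cases h : (Gen.c j : Gen g n) = Gen.c i
    · rw [h, lm_inv_self]
      simp only [map_mul, map_inv, mp_inv_cc, mp_inv_lt, lm_self, lm_cc]
      exact isConj_iff.2 ⟨(cc g n)⁻¹, by group⟩
    · rw [lm_inv_ne h, mp_inv_lt, lm_ne h]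

private theorem Cls_chi (k : ℕ) : chi g n k ∈ Cls_C g n ∧ chi g n k ∈ Cls_N g n := by
  unfold chi
  split_ifs
  · exact ⟨Cls_lmC (fun j h => by cases h), Cls_lmN _⟩
  · exact ⟨Cls_rmC (fun j h => by cases h), Cls_rmN _⟩
  · exact ⟨Cls_rmC (fun j h => by cases h), Cls_rmN _⟩
  · exact ⟨Cls_lmC (fun j h => by cases h), Cls_lmN _⟩
  · exact ⟨Cls_lrC _, Subgroup.mul_mem _ (Cls_lmN _) (Cls_rmN _)⟩
  · exact ⟨Subgroup.one_mem _, Subgroup.one_mem _⟩

theorem thm_Cls : St_Cls := by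
  intro g n γ h
  suffices h1 : γ ∈ Cls_C g n ∧ γ ∈ Cls_N g n from ⟨h1.1, h1.2⟩
  rcases h with ⟨k, rfl⟩ | ⟨k, rfl⟩ | ⟨k, rfl⟩ | ⟨j, rfl⟩ | ⟨j, rfl⟩ | rfl
  · exact Cls_chi k
  · exact ⟨Subgroup.inv_mem _ (Cls_chi k).1, Subgroup.inv_mem _ (Cls_chi k).2⟩
  · unfold mv
    split_ifs
    · exact ⟨Cls_mpC _, Cls_mpN _⟩
    · exact ⟨Subgroup.inv_mem _ (Cls_mpC _), Subgroup.inv_mem _ (Cls_mpN _)⟩
    · exact ⟨Subgroup.inv_mem _ (Cls_mpC _), Subgroup.inv_mem _ (Cls_mpN _)⟩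
    · exact ⟨Cls_mpC _, Cls_mpN _⟩
    · exact ⟨Subgroup.one_mem _, Subgroup.one_mem _⟩
  · exact ⟨Cls_mpC _, Cls_mpN _⟩
  · exact ⟨Cls_ztC _, Subgroup.mul_mem _ (Subgroup.mul_mem _ (Cls_lmN _)
      (Subgroup.inv_mem _ (Cls_mpN _))) (Subgroup.inv_mem _ (Cls_lmN _))⟩
  · constructor
    · intro l
      rw [MulAut.conj_apply]
      exact isConj_iff.2 ⟨(cc g n)⁻¹, by group⟩
    · intro x
      rw [MulAut.conj_apply, mul_assoc, mul_assoc, ← mul_assoc x]
      exact Subgroup.mul_mem _ Cls_cc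
        (Subgroup.normalClosure_normal.conj_mem _ (Subgroup.inv_mem _ Cls_cc) x)

end Pool.Agent.PSB
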