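import Pool.Agent.PSB.StB

set_option autoImplicit false

/-! # PSB Con: the converse -/

namespace Pool.Agent.PSB

open Pool.Agent.PW

theorem Con_zero {g n : ℕ} (j : Fin n) (K : Subgroup (F g n)) (f' : ↥(K ⊔ Nj g j) → ℚ)
    (hf : IsClass (K ⊔ Nj g j) f') (x : F g n) (hx : x ∈ Nj g j) :
    ∀ h : x ∈ K ⊔ Nj g j, f' ⟨x, h⟩ = 0 := by
  have h1 : f' 1 = 0 := by
    have h2 := hf.add 1 1
    rw [mul_one] at h2
    linarith
  unfold Nj at hx
  rw [Subgroup.normalClosure] at hx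
  induction hx using Subgroup.closure_induction with
  | mem y hy =>
    intro h
    rw [Group.mem_conjugatesOfSet_iff] at hy
    obtain ⟨a, ha, hc⟩ := hy
    rw [Set.mem_singleton_iff] at ha
    subst ha
    refine hf.marked ⟨y, h⟩ j 1 ?_
    rw [pow_one]
    exact hc.symm
  | one =>
    intro h
    exact h1
  | mul y z hy hz ihy ihz =>
    intro h
    have hy' : y ∈ K ⊔ Nj g j := Subgroup.mem_sup_right hy
    have hz' : z ∈ K ⊔ Nj g j := Subgroup.mem_sup_right hz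
    have h2 := hf.add ⟨y, hy'⟩ ⟨z, hz'⟩
    rw [ihy hy', ihz hz', add_zero] at h2
    exact h2
  | inv y hy ihy =>
    intro h
    have hy' : y ∈ K ⊔ Nj g j := Subgroup.mem_sup_right hy
    have h2 := hf.add ⟨y⁻¹, h⟩ ⟨y, hy'⟩
    have h3 : (⟨y⁻¹, h⟩ * ⟨y, hy'⟩ : ↥(K ⊔ Nj g j)) = 1 := by
      apply Subtype.ext
      exact inv_mul_cancel y
    rw [h3, h1, ihy hy', add_zero] at h2
    exact h2.symm

theorem thm_Con : St_Con := by
  intro g n j K f f' hf hext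
  refine (Set.finite_singleton f).subset ?_
  rintro f'' ⟨φ, hφ, hK, hf''⟩
  rw [Set.mem_singleton_iff]
  funext x
  rw [hf'' x, ← hext ⟨φ x, (hK x).1 x.2⟩, ← hext x]
  have h1 : φ (x : F g n) * (x : F g n)⁻¹ ∈ Nj g j := hφ.2 x
  have h2 : φ (x : F g n) * (x : F g n)⁻¹ ∈ K ⊔ Nj g j := Subgroup.mem_sup_right h1
  have h3 := hf.add ⟨_, h2⟩ ⟨x, Subgroup.mem_sup_left x.2⟩
  rw [Con_zero j K f' hf _ h1 h2, zero_add] at h3
  rw [← h3]
  congr 1
  apply Subtype.ext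
  change φ (x : F g n) = φ (x : F g n) * (x : F g n)⁻¹ * x
  group

end Pool.Agent.PSB
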