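import Pool.Agent.PSB.St

/-!
# Simple branch points: the core theorem
-/

namespace Pool.Agent.PSB

open Pool.Agent.PW

variable {g n : ℕ} {V : Type} [NormedAddCommGroup V] [InnerProductSpace ℝ V]

theorem Core_zero (h1 : St_Max) (h2 : St_Chn) (h3 : St_Wlk) [FiniteDimensional ℝ V] (S : RSys g n V)
    (e₀ : V) (he : S.IsRef (cc g n) e₀) : ∃ M, S.Bd M ∧ ∃ α k e p, S.Zero M α k e p := by
  obtain ⟨M, hM, h⟩ := h1 S e₀ he
  refine ⟨M, hM, ?_⟩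
  rcases h with ⟨k, α, e, p, T, hk, hα, hO, hQ⟩ | ⟨j, α, e, p, T, hα, hO, hQ⟩
  · exact h2 S e₀ he M hM k hk α hα e p T hO hQ
  · exact h3 S e₀ he M hM j α hα e p T hO hQ

theorem Core_ρ (S : RSys g n V) (E : Submodule ℝ V) (hE : ∀ x, ∀ y ∈ E, S.ρ x y ∈ E) (x : F g (n + 1))
    (y : V) (hy : ∀ y' ∈ E, inner ℝ y' y = (0 : ℝ)) : ∀ y' ∈ E, inner ℝ y' (S.ρ x y) = (0 : ℝ) := by
  intro y' hy'
  rw [← inner_ρ_inv]
  exact hy _ (hE _ y' hy')

theorem Core_fl (S : RSys g n V) (E : Submodule ℝ V) (hE : ∀ x, ∀ y ∈ E, S.ρ x y ∈ E)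
    (α₀ : MulAut (F g (n + 1))) (h : V) (hc : S.fl (α₀ (cc g n)) h = 0)
    (hl : ∀ X : Gen g n, ∀ y' ∈ E, inner ℝ y' (S.fl (α₀ (lt X)) h) = (0 : ℝ)) (x : F g (n + 1)) :
    ∀ y' ∈ E, inner ℝ y' (S.fl (α₀ x) h) = (0 : ℝ) := by
  induction x using FreeGroup.induction_on with
  | C1 =>
    intro y' _
    rw [map_one, fl_one, inner_zero_right]
  | of y =>
    intro y' hy'
    rcases gen_cases y with rfl | ⟨X, rfl⟩
    · show inner ℝ y' (S.fl (α₀ (cc g n)) h) = (0 : ℝ)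
      rw [hc, inner_zero_right]
    · exact hl X y' hy'
  | inv_of y ih =>
    intro y' hy'
    rw [map_inv, fl_inv, inner_neg_right, Core_ρ S E hE _ _ ih y' hy', neg_zero]
  | mul x y ihx ihy =>
    intro y' hy'
    rw [map_mul, fl_mul, inner_add_right, ihx y' hy', Core_ρ S E hE _ _ ihy y' hy', add_zero]

theorem thm_Core (h1 : St_Max) (h2 : St_Chn) (h3 : St_Wlk) (h4 : St_Spn) : St_Core := by
  intro g n V _ _ _ S e₀ he
  obtain ⟨M, hM, α₀, k₀, e₁, p, hZ⟩ := Core_zero h1 h2 h3 S e₀ he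
  obtain ⟨E, hE1, hE2, hE3, hE4⟩ := h4 S e₀ he M hM α₀ k₀ e₁ p hZ
  obtain ⟨_, hα, hO, _⟩ := hZ
  have hc : S.fl (α₀ (cc g n)) (p none) = 0 := (fl_eq_zero S).2 hO.fix
  have hl : ∀ X : Gen g n, ∀ y' ∈ E, inner ℝ y' (S.fl (α₀ (lt X)) (p none)) = (0 : ℝ) := by
    intro X y' hy'
    have h5 := hE3 y' hy' X
    cases X with
    | a i => exact h5
    | b i => exact h5
    | c j =>
      have h6 : p none = p (some j) + (p none - p (some j)) := by abel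
      have h7 : ∀ y' ∈ E, inner ℝ y' (p none - p (some j)) = (0 : ℝ) := by
        intro y'' hy''
        have := hE4 y'' hy'' j
        rw [← neg_sub, inner_neg_right, this, neg_zero]
      have h5' : inner ℝ y' (S.fl (α₀ (lt (Gen.c j))) (p (some j))) = (0 : ℝ) := h5
      rw [h6, fl_add, inner_add_right, inner_sub_right, h5', Core_ρ S E hE2 _ _ h7 y' hy', h7 y' hy',
        sub_zero, add_zero]
  refine ⟨p none, fun x w => ?_⟩
  have hx := Core_fl S E hE2 α₀ (p none) hc hl (α₀⁻¹ x)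
  have hx1 : α₀ (α₀⁻¹ x) = x := by simp
  rw [hx1] at hx
  obtain ⟨c, hc2⟩ := isConj_iff.1 (hα.2.1 (Fin.last n))
  have h8 : w * cc g n * w⁻¹ = (w * c) * α₀ (cc g n) * (w * c)⁻¹ := by
    have h9 : cc g n = c * α₀ (cc g n) * c⁻¹ := hc2.symm
    calc w * cc g n * w⁻¹ = w * (c * α₀ (cc g n) * c⁻¹) * w⁻¹ := by rw [← h9]
      _ = (w * c) * α₀ (cc g n) * (w * c)⁻¹ := by group
  rw [h8]
  exact (hO.ref.conj (w * c)).eq_self (hx _ (hE2 _ e₁ hE1))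

end Pool.Agent.PSB
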