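import Pool.Agent.PSB.Defs

/-!
# Simple branch points: basic facts on flows and reflections (paper, section 2)
-/

namespace Pool.Agent.PSB

open Pool.Agent.PW

variable {g n : ℕ} {V : Type} [NormedAddCommGroup V] [InnerProductSpace ℝ V] (S : RSys g n V)

/-! ### The automorphisms on the letters -/

theorem lm_apply (X : Gen g n) (x : F g (n + 1)) : lm X x = lmh X 1 x := rfl
theorem rm_apply (X : Gen g n) (x : F g (n + 1)) : rm X x = rmh X (-1) x := rfl
theorem mp_apply (X : Gen g n) (x : F g (n + 1)) : mp X x = mph X 1 x := rfl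
theorem lm_inv_apply (X : Gen g n) (x : F g (n + 1)) : (lm X)⁻¹ x = lmh X (-1) x := rfl
theorem rm_inv_apply (X : Gen g n) (x : F g (n + 1)) : (rm X)⁻¹ x = rmh X 1 x := rfl
theorem mp_inv_apply (X : Gen g n) (x : F g (n + 1)) : (mp X)⁻¹ x = mph X (-1) x := rfl

@[simp] theorem lm_cc (X : Gen g n) : lm X (cc g n) = cc g n := by rw [lm_apply, lmh_cc]
@[simp] theorem rm_cc (X : Gen g n) : rm X (cc g n) = cc g n := by rw [rm_apply, rmh_cc]
@[simp] theorem lm_inv_cc (X : Gen g n) : (lm X)⁻¹ (cc g n) = cc g n := by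
  rw [lm_inv_apply, lmh_cc]
@[simp] theorem rm_inv_cc (X : Gen g n) : (rm X)⁻¹ (cc g n) = cc g n := by
  rw [rm_inv_apply, rmh_cc]
@[simp] theorem mp_cc (X : Gen g n) : mp X (cc g n) = (lt X)⁻¹ * cc g n * lt X := by
  rw [mp_apply, mph_cc]
  simp
@[simp] theorem mp_inv_cc (X : Gen g n) : (mp X)⁻¹ (cc g n) = lt X * cc g n * (lt X)⁻¹ := by
  rw [mp_inv_apply, mph_cc]
  simp
@[simp] theorem lm_self (X : Gen g n) : lm X (lt X) = cc g n * lt X := by
  rw [lm_apply, lmh_self]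
  simp
@[simp] theorem rm_self (X : Gen g n) : rm X (lt X) = lt X * (cc g n)⁻¹ := by
  rw [rm_apply, rmh_self]
  simp
@[simp] theorem lm_inv_self (X : Gen g n) : (lm X)⁻¹ (lt X) = (cc g n)⁻¹ * lt X := by
  rw [lm_inv_apply, lmh_self]
  simp
@[simp] theorem rm_inv_self (X : Gen g n) : (rm X)⁻¹ (lt X) = lt X * cc g n := by
  rw [rm_inv_apply, rmh_self]
  simp
theorem lm_ne {X Y : Gen g n} (h : Y ≠ X) : lm X (lt Y) = lt Y := by rw [lm_apply, lmh_ne h]
theorem rm_ne {X Y : Gen g n} (h : Y ≠ X) : rm X (lt Y) = lt Y := by rw [rm_apply, rmh_ne h]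
theorem lm_inv_ne {X Y : Gen g n} (h : Y ≠ X) : (lm X)⁻¹ (lt Y) = lt Y := by
  rw [lm_inv_apply, lmh_ne h]
theorem rm_inv_ne {X Y : Gen g n} (h : Y ≠ X) : (rm X)⁻¹ (lt Y) = lt Y := by
  rw [rm_inv_apply, rmh_ne h]
@[simp] theorem mp_lt (X Y : Gen g n) : mp X (lt Y) = lt Y := by rw [mp_apply, mph_lt]
@[simp] theorem mp_inv_lt (X Y : Gen g n) : (mp X)⁻¹ (lt Y) = lt Y := by
  rw [mp_inv_apply, mph_lt]

/-- Automorphisms which agree on the letters and on `cc`. -/
theorem aut_ext {φ ψ : MulAut (F g (n + 1))} (h1 : φ (cc g n) = ψ (cc g n))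
    (h2 : ∀ X : Gen g n, φ (lt X) = ψ (lt X)) : φ = ψ := by
  have : φ.toMonoidHom = ψ.toMonoidHom := hom_ext' h1 h2
  ext x
  exact DFunLike.congr_fun this x

/-! ### Flows -/

theorem ρ_one : S.ρ 1 = 1 := map_one _

theorem ρ_mul (x y : F g (n + 1)) (u : V) : S.ρ (x * y) u = S.ρ x (S.ρ y u) := by
  rw [map_mul]
  rfl

@[simp] theorem ρ_inv_apply (x : F g (n + 1)) (u : V) : S.ρ x⁻¹ (S.ρ x u) = u := by
  rw [← ρ_mul, inv_mul_cancel, ρ_one]
  rfl

@[simp] theorem ρ_apply_inv (x : F g (n + 1)) (u : V) : S.ρ x (S.ρ x⁻¹ u) = u := by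
  rw [← ρ_mul, mul_inv_cancel, ρ_one]
  rfl

theorem v_one : S.v 1 = 0 := by
  have := S.coc 1 1
  rw [mul_one, ρ_one] at this
  simpa using this

theorem aff_one (h : V) : S.aff 1 h = h := by
  simp [RSys.aff, v_one, ρ_one]

theorem aff_mul (x y : F g (n + 1)) (h : V) : S.aff (x * y) h = S.aff x (S.aff y h) := by
  simp only [RSys.aff, S.coc, ρ_mul, map_add]
  abel

@[simp] theorem aff_inv_apply (x : F g (n + 1)) (h : V) : S.aff x⁻¹ (S.aff x h) = h := by
  rw [← aff_mul, inv_mul_cancel, aff_one]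

@[simp] theorem aff_apply_inv (x : F g (n + 1)) (h : V) : S.aff x (S.aff x⁻¹ h) = h := by
  rw [← aff_mul, mul_inv_cancel, aff_one]

theorem aff_add (x : F g (n + 1)) (h z : V) : S.aff x (h + z) = S.aff x h + S.ρ x z := by
  simp only [RSys.aff, map_add]
  abel

theorem aff_sub (x : F g (n + 1)) (h h' : V) : S.aff x h - S.aff x h' = S.ρ x (h - h') := by
  simp only [RSys.aff, map_sub]
  abel

theorem fl_one (h : V) : S.fl 1 h = 0 := by simp [RSys.fl, aff_one]

theorem fl_mul (x y : F g (n + 1)) (h : V) : S.fl (x * y) h = S.fl x h + S.ρ x (S.fl y h) := by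
  simp only [RSys.fl, aff_mul, map_sub]
  simp only [RSys.aff]
  simp only [map_add]
  abel

theorem fl_inv (x : F g (n + 1)) (h : V) : S.fl x⁻¹ h = -S.ρ x⁻¹ (S.fl x h) := by
  have := fl_mul S x⁻¹ x h
  rw [inv_mul_cancel, fl_one] at this
  exact eq_neg_of_add_eq_zero_left this.symm

theorem fl_add (x : F g (n + 1)) (h z : V) : S.fl x (h + z) = S.fl x h + (S.ρ x z - z) := by
  simp only [RSys.fl, aff_add]
  abel

theorem fl_eq_zero {x : F g (n + 1)} {h : V} : S.fl x h = 0 ↔ S.aff x h = h := sub_eq_zero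

theorem v_eq (x : F g (n + 1)) (h : V) : S.v x = S.fl x h - (S.ρ x h - h) := by
  simp only [RSys.fl, RSys.aff]
  abel

/-! ### Orthogonality -/

theorem norm_ρ (x : F g (n + 1)) (u : V) : ‖S.ρ x u‖ = ‖u‖ := by
  have h := S.iso x u u
  rw [real_inner_self_eq_norm_sq, real_inner_self_eq_norm_sq] at h
  exact (sq_eq_sq₀ (norm_nonneg _) (norm_nonneg _)).1 h

theorem inner_ρ (x : F g (n + 1)) (u w : V) :
    inner ℝ (S.ρ x u) w = inner ℝ u (S.ρ x⁻¹ w) := by
  rw [← S.iso x u (S.ρ x⁻¹ w), ρ_apply_inv]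

theorem inner_ρ_inv (x : F g (n + 1)) (u w : V) :
    inner ℝ (S.ρ x⁻¹ u) w = inner ℝ u (S.ρ x w) := by
  rw [inner_ρ, inv_inv]

/-- The first variation in one edge. -/
theorem inner_fl (x : F g (n + 1)) (h z : V) :
    inner ℝ (S.fl x h) (S.ρ x z - z) = -inner ℝ (S.fl x h + S.fl x⁻¹ h) z := by
  rw [inner_sub_right, inner_add_left, fl_inv, inner_neg_left, inner_ρ_inv]
  ring

/-! ### Reflections -/

variable {S} {x : F g (n + 1)} {e : V}

theorem RSys.IsRef.norm (hr : S.IsRef x e) : ‖e‖ = 1 := hr.1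

theorem RSys.IsRef.self (hr : S.IsRef x e) : inner ℝ e e = (1 : ℝ) := by
  rw [real_inner_self_eq_norm_sq, hr.1]
  norm_num

theorem RSys.IsRef.apply (hr : S.IsRef x e) (y : V) : S.ρ x y = y - (2 * inner ℝ e y) • e := hr.2 y

theorem RSys.IsRef.apply_self (hr : S.IsRef x e) : S.ρ x e = -e := by
  rw [hr.2, hr.self, mul_one, two_smul]
  abel

theorem RSys.IsRef.eq_self (hr : S.IsRef x e) {y : V} (h : inner ℝ e y = (0 : ℝ)) : S.ρ x y = y := by
  rw [hr.2, h]
  simp

theorem RSys.IsRef.inner_eq_zero (hr : S.IsRef x e) {y : V} (h : S.ρ x y = y) :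
    inner ℝ e y = (0 : ℝ) := by
  have h1 := hr.2 y
  rw [h] at h1
  have h2 : (2 * inner ℝ e y) • e = (0 : V) := by
    have := sub_eq_self.1 h1.symm
    exact this
  have h3 : e ≠ 0 := by
    intro h0
    have := hr.1
    rw [h0, norm_zero] at this
    norm_num at this
  rcases smul_eq_zero.1 h2 with h4 | h4
  · linarith
  · exact absurd h4 h3

theorem RSys.IsRef.mul_self (hr : S.IsRef x e) (y : V) : S.ρ x (S.ρ x y) = y := by
  rw [hr.2 y, map_sub, map_smul, hr.apply_self, hr.2 y]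
  simp

theorem RSys.IsRef.inv (hr : S.IsRef x e) (y : V) : S.ρ x⁻¹ y = S.ρ x y := by
  have := congrArg (S.ρ x⁻¹) (hr.mul_self y)
  rw [ρ_inv_apply] at this
  exact this.symm

/-- The inverse acts as the same reflection. -/
theorem RSys.IsRef.isRef_inv (hr : S.IsRef x e) : S.IsRef x⁻¹ e :=
  ⟨hr.1, fun y => by rw [hr.inv, hr.2]⟩

theorem RSys.IsRef.conj (hr : S.IsRef x e) (y : F g (n + 1)) : S.IsRef (y * x * y⁻¹) (S.ρ y e) := by
  refine ⟨by rw [norm_ρ, hr.1], fun w => ?_⟩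
  rw [ρ_mul, ρ_mul, hr.2, map_sub, map_smul, ρ_apply_inv, inner_ρ]

/-- The same in the form which is used for the moves. -/
theorem RSys.IsRef.conj' (hr : S.IsRef x e) (y : F g (n + 1)) : S.IsRef (y⁻¹ * x * y) (S.ρ y⁻¹ e) := by
  have := hr.conj y⁻¹
  rwa [inv_inv] at this

theorem RSys.IsRef.neg (hr : S.IsRef x e) : S.IsRef x (-e) :=
  ⟨by rw [norm_neg, hr.1], fun y => by rw [inner_neg_left, mul_neg, neg_smul, smul_neg, neg_neg,
    hr.2]⟩

/-- The reflection vector is unique up to the sign. -/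
theorem RSys.IsRef.unique (hr : S.IsRef x e) {e' : V} (hr' : S.IsRef x e') : e' = e ∨ e' = -e := by
  have h1 := hr.apply e'
  rw [hr'.apply_self] at h1
  have h2 : e' = (inner ℝ e e' : ℝ) • e := by
    have h3 : (2 : ℝ) • e' = (2 : ℝ) • ((inner ℝ e e' : ℝ) • e) := by
      rw [smul_smul, two_smul]
      have : e' + e' = e' - -e' := by abel
      rw [this, h1]
      abel
    exact smul_right_injective V (two_ne_zero' ℝ) h3
  have h4 : |(inner ℝ e e' : ℝ)| = 1 := by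
    have h5 : ‖e'‖ = ‖(inner ℝ e e' : ℝ) • e‖ := congrArg (fun z : V => ‖z‖) h2
    rw [norm_smul, hr.1, hr'.1, mul_one, Real.norm_eq_abs] at h5
    exact h5.symm
  rcases eq_or_eq_neg_of_abs_eq h4 with h6 | h6
  · left
    rw [h2, h6, one_smul]
  · right
    rw [h2, h6, neg_smul, one_smul]

theorem RSys.IsRef.fix_inner (hr : S.IsRef x e) {h h' : V} (h1 : S.aff x h = h)
    (h2 : S.aff x h' = h') : inner ℝ e (h - h') = (0 : ℝ) := by
  apply hr.inner_eq_zero
  rw [← aff_sub, h1, h2]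

theorem RSys.IsRef.fix_of_inner (hr : S.IsRef x e) {h h' : V} (h1 : S.aff x h = h)
    (h2 : inner ℝ e (h' - h) = (0 : ℝ)) : S.aff x h' = h' := by
  have h3 := aff_sub S x h' h
  rw [hr.eq_self h2, h1] at h3
  exact sub_left_inj.1 h3

/-- The fixed points of a conjugate. -/
theorem aff_conj_iff (S : RSys g n V) (x y : F g (n + 1)) (h : V) :
    S.aff (y⁻¹ * x * y) h = h ↔ S.aff x (S.aff y h) = S.aff y h := by
  rw [aff_mul, aff_mul]
  constructor
  · intro h1
    have := congrArg (S.aff y) h1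
    rwa [aff_apply_inv] at this
  · intro h1
    rw [h1, aff_inv_apply]

/-- `fl x h` at a fixed point of `c`, for the crossings. -/
theorem fl_fix_mul {c : F g (n + 1)} {h : V} (h1 : S.aff c h = h) (y : F g (n + 1)) :
    S.fl (c * y) h = S.ρ c (S.fl y h) := by
  rw [fl_mul, (fl_eq_zero S).2 h1, zero_add]

theorem aff_inv_fix {c : F g (n + 1)} {h : V} (h1 : S.aff c h = h) : S.aff c⁻¹ h = h := by
  have := congrArg (S.aff c⁻¹) h1
  rw [aff_inv_apply] at this
  exact this.symm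

theorem fl_mul_fix {c : F g (n + 1)} {h : V} (h1 : S.aff c h = h) (y : F g (n + 1)) :
    S.fl (y * c) h = S.fl y h := by
  rw [fl_mul, (fl_eq_zero S).2 h1, map_zero, add_zero]

end Pool.Agent.PSB
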