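import Pool.Agent.PSB.St
import Pool.Agent.PSB.Bas

/-!
# Simple branch points, module Cro: crossings of the ends of an edge
-/

set_option autoImplicit false

namespace Pool.Agent.PSB

open Pool.Agent.PW

variable {g n : ℕ} {V : Type} [NormedAddCommGroup V] [InnerProductSpace ℝ V]

/-- a change in one letter -/
theorem Cro_gen (S : RSys g n V) (α α' : MulAut (F g (n + 1))) (w : Option (Fin n)) (e : V)
    (p : Pt n V) (T r : ℝ) (X : Gen g n) (hO : S.Opt α w e p T) (hX : vx X = w)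
    (hc : α' (cc g n) = α (cc g n)) (hne : ∀ Y, Y ≠ X → α' (lt Y) = α (lt Y))
    (hn : ‖S.fl (α' (lt X)) (p w)‖ = ‖S.fl (α (lt X)) (p w)‖)
    (hf : S.fl (α' (lt X)) (p w) + S.fl (α' (lt X))⁻¹ (p w) =
      S.fl (α (lt X)) (p w) + S.fl (α (lt X))⁻¹ (p w) - (2 * r) • e) :
    S.Opt α' w e p (T - 2 * r) ∧ S.Q α' p = S.Q α p := by
  refine ⟨⟨?_, ?_, ?_, ?_⟩, ?_⟩
  · rw [hc]
    exact hO.ref
  · rw [hc]
    exact hO.fix
  · rw [sub_smul, ← hO.at_w]
    unfold RSys.out
    rw [← Finset.add_sum_erase _ _ (Finset.mem_univ X),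
      ← Finset.add_sum_erase (Finset.univ : Finset (Gen g n)) (fun X : Gen g n =>
        if vx X = w then S.fl (α (lt X)) (p w) + S.fl (α (lt X))⁻¹ (p w) else 0)
        (Finset.mem_univ X)]
    rw [if_pos hX, if_pos hX, hf]
    have h1 : ∑ Y ∈ Finset.univ.erase X,
        (if vx Y = w then S.fl (α' (lt Y)) (p w) + S.fl (α' (lt Y))⁻¹ (p w) else 0) =
        ∑ Y ∈ Finset.univ.erase X,
        (if vx Y = w then S.fl (α (lt Y)) (p w) + S.fl (α (lt Y))⁻¹ (p w) else 0) :=
      Finset.sum_congr rfl fun Y hY => by rw [hne Y (Finset.ne_of_mem_erase hY)]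
    rw [h1]
    abel
  · intro w' hw'
    rw [← hO.off_w w' hw']
    unfold RSys.out
    congr 1
    refine Finset.sum_congr rfl fun Y _ => ?_
    by_cases h1 : vx Y = w'
    · have h2 : Y ≠ X := by
        rintro rfl
        exact hw' (h1.symm.trans hX)
      rw [hne Y h2]
    · rw [if_neg h1, if_neg h1]
  · unfold RSys.Q
    congr 1
    refine Finset.sum_congr rfl fun Y _ => ?_
    by_cases h1 : Y = X
    · subst h1
      rw [hX, hn]
    · rw [hne Y h1]

theorem thm_Cro : St_Cro := by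
  intro g n V _ _ S α w e p T X hO hX
  have hfix := hO.fix
  have hfix' := aff_inv_fix hfix
  have href := hO.ref
  have href' := href.isRef_inv
  refine ⟨?_, ?_, ?_, ?_⟩
  · have h1 : (α * lm X) (lt X) = α (cc g n) * α (lt X) := by
      rw [MulAut.mul_apply, lm_self, map_mul]
    refine Cro_gen S α (α * lm X) w e p T _ X hO hX ?_ ?_ ?_ ?_
    · rw [MulAut.mul_apply, lm_cc]
    · intro Y hY
      rw [MulAut.mul_apply, lm_ne hY]
    · rw [h1, fl_fix_mul hfix, norm_ρ]
    · rw [h1, fl_fix_mul hfix, mul_inv_rev, fl_mul_fix hfix', href.apply]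
      abel
  · have h1 : (α * rm X) (lt X) = α (lt X) * (α (cc g n))⁻¹ := by
      rw [MulAut.mul_apply, rm_self, map_mul, map_inv]
    refine Cro_gen S α (α * rm X) w e p T _ X hO hX ?_ ?_ ?_ ?_
    · rw [MulAut.mul_apply, rm_cc]
    · intro Y hY
      rw [MulAut.mul_apply, rm_ne hY]
    · rw [h1, fl_mul_fix hfix']
    · rw [h1, fl_mul_fix hfix', mul_inv_rev, inv_inv, fl_fix_mul hfix, href.apply]
      abel
  · have h1 : (α * (lm X)⁻¹) (lt X) = (α (cc g n))⁻¹ * α (lt X) := by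
      rw [MulAut.mul_apply, lm_inv_self, map_mul, map_inv]
    refine Cro_gen S α (α * (lm X)⁻¹) w e p T _ X hO hX ?_ ?_ ?_ ?_
    · rw [MulAut.mul_apply, lm_inv_cc]
    · intro Y hY
      rw [MulAut.mul_apply, lm_inv_ne hY]
    · rw [h1, fl_fix_mul hfix', norm_ρ]
    · rw [h1, fl_fix_mul hfix', mul_inv_rev, inv_inv, fl_mul_fix hfix, href'.apply]
      abel
  · have h1 : (α * (rm X)⁻¹) (lt X) = α (lt X) * α (cc g n) := by
      rw [MulAut.mul_apply, rm_inv_self, map_mul]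
    refine Cro_gen S α (α * (rm X)⁻¹) w e p T _ X hO hX ?_ ?_ ?_ ?_
    · rw [MulAut.mul_apply, rm_inv_cc]
    · intro Y hY
      rw [MulAut.mul_apply, rm_inv_ne hY]
    · rw [h1, fl_mul_fix hfix]
    · rw [h1, fl_mul_fix hfix, mul_inv_rev, fl_fix_mul hfix', href'.apply]
      abel

end Pool.Agent.PSB
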