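import Pool.Agent.PSB.St

/-!
# Existence of optimal potentials
-/

namespace Pool.Agent.PSB

open Pool.Agent.PW

private theorem Exi_min {E P : Type*} [NormedAddCommGroup E] [InnerProductSpace ℝ E]
    [AddCommGroup P] [Module ℝ P] [FiniteDimensional ℝ P] (A : P →ₗ[ℝ] E) (W : Submodule ℝ P)
    (b : E) : ∃ z₀ ∈ W, ∀ z ∈ W, inner ℝ (A z₀ + b) (A z) = (0 : ℝ) := by
  have : FiniteDimensional ℝ (W.map A) := inferInstance
  obtain ⟨y, hy, z', hz', h⟩ := (W.map A).exists_add_mem_mem_orthogonal (-b)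
  obtain ⟨z₀, hz₀, rfl⟩ := Submodule.mem_map.1 hy
  refine ⟨z₀, hz₀, fun z hz => ?_⟩
  have h2 : A z₀ + b = -z' := by
    have : b = -(A z₀ + z') := by rw [← h, neg_neg]
    rw [this]
    abel
  rw [h2, inner_neg_left, neg_eq_zero, real_inner_comm]
  exact hz' _ (Submodule.mem_map_of_mem hz)

variable {g n : ℕ} {V : Type} [NormedAddCommGroup V] [InnerProductSpace ℝ V]

/-- The value at a vertex. -/
private def Exi_P (w : Option (Fin n)) : Pt n V →ₗ[ℝ] V := LinearMap.proj w

/-- The linear part of the flows. -/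
private def Exi_A (S : RSys g n V) (α : MulAut (F g (n + 1))) :
    Pt n V →ₗ[ℝ] PiLp 2 (fun _ : Gen g n ⊕ Fin n => V) :=
  (WithLp.linearEquiv 2 ℝ (Gen g n ⊕ Fin n → V)).symm.toLinearMap ∘ₗ
    LinearMap.pi (Sum.elim
      (fun X : Gen g n => (S.ρ (α (lt X)) - 1) ∘ₗ Exi_P (vx X))
      (fun j : Fin n => Exi_P (some j) - Exi_P none))

private theorem Exi_A_inl (S : RSys g n V) (α : MulAut (F g (n + 1))) (z : Pt n V) (X : Gen g n) :
    Exi_A S α z (Sum.inl X) = S.ρ (α (lt X)) (z (vx X)) - z (vx X) := rfl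

private theorem Exi_A_inr (S : RSys g n V) (α : MulAut (F g (n + 1))) (z : Pt n V) (j : Fin n) :
    Exi_A S α z (Sum.inr j) = z (some j) - z none := rfl

/-- The constant part. -/
private noncomputable def Exi_b (S : RSys g n V) (α : MulAut (F g (n + 1))) (h : V) :
    PiLp 2 (fun _ : Gen g n ⊕ Fin n => V) :=
  WithLp.toLp 2 (Sum.elim (fun X => S.fl (α (lt X)) h) (fun _ => 0))

private theorem Exi_b_inl (S : RSys g n V) (α : MulAut (F g (n + 1))) (h : V) (X : Gen g n) :
    Exi_b S α h (Sum.inl X) = S.fl (α (lt X)) h := rfl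

private theorem Exi_b_inr (S : RSys g n V) (α : MulAut (F g (n + 1))) (h : V) (j : Fin n) :
    Exi_b S α h (Sum.inr j) = 0 := rfl

/-- The expansion of the energy. -/
private theorem Exi_Q (S : RSys g n V) (α : MulAut (F g (n + 1))) (h : V) (z₀ z : Pt n V) :
    S.Q α ((fun _ => h) + z₀ + z) = S.Q α ((fun _ => h) + z₀) +
      2 * inner ℝ (Exi_A S α z₀ + Exi_b S α h) (Exi_A S α z) + S.Q0 α z := by
  rw [PiLp.inner_apply, Fintype.sum_sum_type]
  unfold RSys.Q RSys.Q0
  simp only [PiLp.add_apply, Exi_A_inl, Exi_A_inr, Exi_b_inl, Exi_b_inr, Pi.add_apply]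
  rw [mul_add, Finset.mul_sum, Finset.mul_sum]
  have e1 : ∀ X : Gen g n, ‖S.fl (α (lt X)) (h + z₀ (vx X) + z (vx X))‖ ^ 2 =
      ‖S.fl (α (lt X)) (h + z₀ (vx X))‖ ^ 2 +
      2 * inner ℝ (S.ρ (α (lt X)) (z₀ (vx X)) - z₀ (vx X) + S.fl (α (lt X)) h)
        (S.ρ (α (lt X)) (z (vx X)) - z (vx X)) +
      ‖S.ρ (α (lt X)) (z (vx X)) - z (vx X)‖ ^ 2 := by
    intro X
    rw [fl_add S _ (h + z₀ (vx X)), norm_add_sq_real, fl_add S _ h,
      add_comm (S.fl (α (lt X)) h)]
  have e2 : ∀ j : Fin n, ‖h + z₀ (some j) + z (some j) - (h + z₀ none + z none)‖ ^ 2 =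
      ‖h + z₀ (some j) - (h + z₀ none)‖ ^ 2 +
      2 * inner ℝ (z₀ (some j) - z₀ none + 0) (z (some j) - z none) +
      ‖z (some j) - z none‖ ^ 2 := by
    intro j
    have a1 : h + z₀ (some j) + z (some j) - (h + z₀ none + z none) =
        (z₀ (some j) - z₀ none) + (z (some j) - z none) := by abel
    have a2 : h + z₀ (some j) - (h + z₀ none) = z₀ (some j) - z₀ none := by abel
    rw [a1, a2, norm_add_sq_real, add_zero]
  rw [Finset.sum_congr rfl fun X _ => e1 X, Finset.sum_congr rfl fun j _ => e2 j]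
  simp only [Finset.sum_add_distrib]
  ring

theorem thm_Exi (h1 : St_Gre) : St_Exi := by
  intro g n V _ _ _ S α w e he hfix
  obtain ⟨h, hh⟩ := hfix
  let W : Submodule ℝ (Pt n V) := LinearMap.ker ((innerₛₗ ℝ e) ∘ₗ LinearMap.proj w)
  have hW : ∀ z : Pt n V, z ∈ W ↔ inner ℝ e (z w) = (0 : ℝ) := fun z => Iff.rfl
  obtain ⟨z₀, hz₀, hmin⟩ := Exi_min (Exi_A S α) W (Exi_b S α h)
  set p : Pt n V := (fun _ => h) + z₀ with hp
  have key : ∀ z : Pt n V, inner ℝ e (z w) = (0 : ℝ) →
      ∑ w', inner ℝ (S.out α p w') (z w') = (0 : ℝ) := by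
    intro z hz
    have a := h1 S α p z
    have b := Exi_Q S α h z₀ z
    rw [hmin z ((hW z).2 hz)] at b
    rw [← hp, a] at b
    linarith
  have hoff : ∀ w', w' ≠ w → S.out α p w' = 0 := by
    intro w' hw
    have := key (Pi.single w' (S.out α p w')) (by
      rw [Pi.single_eq_of_ne hw.symm, inner_zero_right])
    rw [Finset.sum_eq_single w'] at this
    · rw [Pi.single_eq_same] at this
      exact inner_self_eq_zero.1 this
    · intro b _ hb
      rw [Pi.single_eq_of_ne hb, inner_zero_right]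
    · intro hb
      exact absurd (Finset.mem_univ _) hb
  have hat : S.out α p w = (inner ℝ e (S.out α p w) : ℝ) • e := by
    set o := S.out α p w with ho
    set y := o - (inner ℝ e o : ℝ) • e with hy
    have hey : inner ℝ e y = (0 : ℝ) := by
      rw [hy, inner_sub_right, inner_smul_right, he.self]
      ring
    have := key (Pi.single w y) (by rw [Pi.single_eq_same]; exact hey)
    rw [Finset.sum_eq_single w] at this
    · rw [Pi.single_eq_same, ← ho] at this
      have h3 : inner ℝ y y = (0 : ℝ) := by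
        have h4 : inner ℝ y y = inner ℝ o y - (inner ℝ e o : ℝ) * inner ℝ e y := by
          conv_lhs => rw [hy, inner_sub_left, inner_smul_left]
          simp [hy]
        rw [h4, this, hey]
        ring
      have h5 := inner_self_eq_zero.1 h3
      rw [hy] at h5
      exact sub_eq_zero.1 h5
    · intro b _ hb
      rw [Pi.single_eq_of_ne hb, inner_zero_right]
    · intro hb
      exact absurd (Finset.mem_univ _) hb
  refine ⟨p, inner ℝ e (S.out α p w), ⟨he, ?_, hat, hoff⟩⟩
  apply he.fix_of_inner hh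
  have := (hW z₀).1 hz₀
  rw [hp, Pi.add_apply, add_sub_cancel_left]
  exact this

end Pool.Agent.PSB
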