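import Pool.Agent.PSB.StB

/-!
# PSB: [Ext] from invariant flows to an extension of the class (helper63)
-/

set_option autoImplicit false
set_option linter.unusedSectionVars false

namespace Pool.Agent.PSB

open Pool.Agent.PW

section

variable {g n : ℕ} (K : Subgroup (F g n)) [Fintype (F g n ⧸ K)] (f : K → ℚ)
  (h : EuclideanSpace ℝ (F g n ⧸ K))

/-- the flow -/
private noncomputable def Ext_fl (x : F g n) : EuclideanSpace ℝ (F g n ⧸ K) :=
  iv K f x + iρ K x h - h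

private theorem Ext_mul (hcoc : ∀ x y, iv K f (x * y) = iv K f x + iρ K x (iv K f y))
    (x y : F g n) : Ext_fl K f h (x * y) = Ext_fl K f h x + iρ K x (Ext_fl K f h y) := by
  simp only [Ext_fl]
  rw [hcoc, map_mul, map_sub, map_add]
  show iv K f x + iρ K x (iv K f y) + iρ K x (iρ K y h) - h = _
  abel

/-- the elements which fix a vector -/
private def Ext_fix (v : EuclideanSpace ℝ (F g n ⧸ K)) : Subgroup (F g n) where
  carrier := {m | iρ K m v = v}
  one_mem' := by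
    show iρ K 1 v = v
    rw [map_one]
    rfl
  mul_mem' := by
    intro a b ha hb
    show iρ K (a * b) v = v
    rw [map_mul]
    show iρ K a (iρ K b v) = v
    rw [show iρ K b v = v from hb]
    exact ha
  inv_mem' := by
    intro a ha
    show iρ K a⁻¹ v = v
    have h1 : iρ K a⁻¹ (iρ K a v) = v := by
      have h2 : iρ K (a⁻¹ * a) v = v := by
        rw [inv_mul_cancel, map_one]
        rfl
      rw [map_mul] at h2
      exact h2
    rw [show iρ K a v = v from ha] at h1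
    exact h1

private theorem Ext_N (c : F g n) (v : EuclideanSpace ℝ (F g n ⧸ K))
    (hfix : ∀ w, iρ K (w * c * w⁻¹) v = v) (m : F g n) (hm : m ∈ Subgroup.normalClosure {c}) :
    iρ K m v = v := by
  have h1 : Subgroup.normalClosure {c} ≤ Ext_fix K v := by
    rw [Subgroup.normalClosure, Subgroup.closure_le]
    intro y hy
    rw [Group.mem_conjugatesOfSet_iff] at hy
    obtain ⟨a, ha, hc⟩ := hy
    rw [Set.mem_singleton_iff] at ha
    subst ha
    rw [isConj_iff] at hc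
    obtain ⟨w, rfl⟩ := hc
    exact hfix w
  exact h1 hm

/-- the value at the coset of `1` -/
private noncomputable def Ext_F (x : F g n) : ℝ := Ext_fl K f h x ((1 : F g n) : F g n ⧸ K)

private theorem Ext_add (hcoc : ∀ x y, iv K f (x * y) = iv K f x + iρ K x (iv K f y)) (c : F g n)
    (hfix : ∀ x w, iρ K (w * c * w⁻¹) (Ext_fl K f h x) = Ext_fl K f h x) {x : F g n}
    (hx : x ∈ K ⊔ Subgroup.normalClosure {c}) (y : F g n) :
    Ext_F K f h (x * y) = Ext_F K f h x + Ext_F K f h y := by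
  rw [Subgroup.mem_sup_of_normal_right] at hx
  obtain ⟨k, hk, m, hm, rfl⟩ := hx
  have h1 := Ext_mul K f h hcoc (k * m) y
  simp only [Ext_F]
  rw [h1, PiLp.add_apply]
  congr 1
  rw [iρ_apply]
  have h2 : (k * m)⁻¹ • ((1 : F g n) : F g n ⧸ K) = m⁻¹ • ((1 : F g n) : F g n ⧸ K) := by
    rw [mul_inv_rev, mul_smul]
    congr 1
    rw [MulAction.Quotient.smul_coe, smul_eq_mul, mul_one, QuotientGroup.eq, inv_inv, mul_one]
    exact hk
  rw [h2, ← iρ_apply, Ext_N K c _ (hfix y) m hm]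

private theorem Ext_K (hf : IsClass K f) (x : F g n) (hx : x ∈ K) :
    Ext_F K f h x = ((f ⟨x, hx⟩ : ℚ) : ℝ) := by
  have h1 : x⁻¹ • ((1 : F g n) : F g n ⧸ K) = ((1 : F g n) : F g n ⧸ K) := by
    rw [MulAction.Quotient.smul_coe, smul_eq_mul, mul_one, QuotientGroup.eq, inv_inv, mul_one]
    exact hx
  have ht : ((1 : F g n) : F g n ⧸ K).out ∈ K := by
    have h2 : ((((1 : F g n) : F g n ⧸ K).out : F g n) : F g n ⧸ K) = ((1 : F g n) : F g n ⧸ K) :=
      QuotientGroup.out_eq' _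
    rw [QuotientGroup.eq, mul_one] at h2
    exact K.inv_mem_iff.mp h2
  simp only [Ext_F, Ext_fl]
  rw [PiLp.sub_apply, PiLp.add_apply, iρ_apply, h1, add_sub_cancel_right, iv_apply, h1]
  generalize ((1 : F g n) : F g n ⧸ K).out = t at ht
  have h3 : t⁻¹ * x * t ∈ K := K.mul_mem (K.mul_mem (K.inv_mem ht) hx) ht
  rw [ext0_mem h3]
  have h4 : f ⟨t⁻¹ * x * t, h3⟩ = f ⟨x, hx⟩ := by
    have e1 : f (⟨t⁻¹, K.inv_mem ht⟩ * ⟨x, hx⟩ * ⟨t, ht⟩) =
        f ⟨t⁻¹, K.inv_mem ht⟩ + f ⟨x, hx⟩ + f ⟨t, ht⟩ := by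
      rw [hf.add, hf.add]
    have e2 : f (⟨t⁻¹, K.inv_mem ht⟩ * ⟨t, ht⟩) = f ⟨t⁻¹, K.inv_mem ht⟩ + f ⟨t, ht⟩ := hf.add _ _
    have e3 : (⟨t⁻¹, K.inv_mem ht⟩ * ⟨t, ht⟩ : K) = 1 := Subtype.ext (inv_mul_cancel t)
    have e4 : f 1 = 0 := by
      have := hf.add 1 1
      rw [mul_one] at this
      linarith
    rw [e3, e4] at e2
    have e5 : f ⟨t⁻¹ * x * t, h3⟩ = f (⟨t⁻¹, K.inv_mem ht⟩ * ⟨x, hx⟩ * ⟨t, ht⟩) := rfl
    rw [e5, e1]
    linarith
  rw [h4]

private theorem Ext_pow (hcoc : ∀ x y, iv K f (x * y) = iv K f x + iρ K x (iv K f y)) (c : F g n)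
    (hfix : ∀ x w, iρ K (w * c * w⁻¹) (Ext_fl K f h x) = Ext_fl K f h x) {x : F g n}
    (hx : x ∈ K ⊔ Subgroup.normalClosure {c}) (m : ℕ) :
    Ext_F K f h (x ^ m) = m * Ext_F K f h x := by
  induction m with
  | zero =>
    have h1 := Ext_add K f h hcoc c hfix (x := 1) (Subgroup.one_mem _) 1
    rw [mul_one] at h1
    rw [pow_zero, Nat.cast_zero, zero_mul]
    linarith
  | succ m ih =>
    rw [pow_succ', Ext_add K f h hcoc c hfix hx, ih]
    push_cast
    ring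

end

theorem thm_Ext : St_Ext := by
  intro g n K _ _ f hf hbd hcoc c h hfix
  have hfix' : ∀ x w, iρ K (w * c * w⁻¹) (Ext_fl K f h x) = Ext_fl K f h x := hfix
  have hpow : ∀ x ∈ K ⊔ Subgroup.normalClosure {c}, ∃ (m : ℕ) (hm : x ^ m ∈ K), 0 < m ∧
      (m : ℝ) * Ext_F K f h x = ((f ⟨x ^ m, hm⟩ : ℚ) : ℝ) := by
    intro x hx
    obtain ⟨m, hm0, -, hm⟩ := Subgroup.exists_pow_mem_of_index_ne_zero
      (Subgroup.FiniteIndex.index_ne_zero (H := K)) x
    refine ⟨m, hm, hm0, ?_⟩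
    rw [← Ext_pow K f h hcoc c hfix' hx, Ext_K K f h hf _ hm]
  have hq : ∀ x : ↥(K ⊔ Subgroup.normalClosure {c}), ∃ q : ℚ, (q : ℝ) = Ext_F K f h x := by
    rintro ⟨x, hx⟩
    obtain ⟨m, hm, hm0, h1⟩ := hpow x hx
    refine ⟨f ⟨x ^ m, hm⟩ / m, ?_⟩
    have hm' : (m : ℝ) ≠ 0 := by
      exact_mod_cast hm0.ne'
    push_cast
    rw [← h1]
    field_simp
  choose f' hf' using hq
  have hval : ∀ (x : F g n) (hx : x ∈ K) (hx' : x ∈ K ⊔ Subgroup.normalClosure {c}),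
      f' ⟨x, hx'⟩ = f ⟨x, hx⟩ := by
    intro x hx hx'
    have h1 := hf' ⟨x, hx'⟩
    rw [Ext_K K f h hf x hx] at h1
    exact_mod_cast h1
  refine ⟨f', ⟨?_, ?_, ?_⟩, fun x => hval x.1 x.2 _⟩
  · intro x y
    have h1 := hf' (x * y)
    have h2 : Ext_F K f h ((x * y : ↥(K ⊔ Subgroup.normalClosure {c})) : F g n) =
        Ext_F K f h x + Ext_F K f h y := Ext_add K f h hcoc c hfix' x.2 y
    rw [h2, ← hf' x, ← hf' y] at h1
    exact_mod_cast h1
  · rintro ⟨x, hx⟩ hc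
    have h1 : x ∈ K.normalCore := by
      have hc' : IsConj (bdry g n) x := hc.symm
      rw [isConj_iff] at hc'
      obtain ⟨w, rfl⟩ := hc'
      exact K.normalCore_normal.conj_mem _ hbd w
    have h2 : x ∈ K := K.normalCore_le h1
    rw [hval x h2 hx]
    exact hf.bdry ⟨x, h2⟩ hc
  · rintro ⟨x, hx⟩ j r hc
    obtain ⟨m, hm, hm0, h1⟩ := hpow x hx
    have h2 : f ⟨x ^ m, hm⟩ = 0 := by
      refine hf.marked ⟨x ^ m, hm⟩ j (r * m) ?_
      show IsConj (x ^ m) (gc j ^ (r * m))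
      rw [pow_mul]
      exact hc.pow m
    rw [h2, ← hf' ⟨x, hx⟩] at h1
    have h3 : (m : ℚ) * f' ⟨x, hx⟩ = 0 := by exact_mod_cast h1
    have hm' : (m : ℚ) ≠ 0 := by
      exact_mod_cast hm0.ne'
    exact (mul_eq_zero.mp h3).resolve_left hm'

end Pool.Agent.PSB
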