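import Pool.Agent.PSB.St

/-!
# PSB: finitely many energies
-/

set_option autoImplicit false

namespace Pool.Agent.PSB

open Pool.Agent.PW

theorem Fin_adm {g n : ℕ} {α : MulAut (F g (n + 1))} {w : Option (Fin n)} (h : Adm g n α w) :
    ∃ k ≤ 4 * g + n, α ∈ Fr (wd g n k) := by
  cases w with
  | none => exact h
  | some j =>
    rcases h with h | h
    · exact ⟨4 * g + j, by have := j.2; omega, h⟩
    · exact ⟨4 * g + j + 1, by have := j.2; omega, h⟩

theorem thm_Fin (h1 : St_Uni) (h2 : St_Bak) : St_Fin := by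
  intro g n V _ _ S
  obtain ⟨SS, hSS, horb⟩ := S.orb
  have hf1 : Finite SS := hSS.to_subtype
  have hf2 : Finite (Set.range S.ρ) := S.fin.to_subtype
  -- the data of an energy
  have hex : ∀ E : {E | ∃ w α e p T, Adm g n α w ∧ S.Opt α w e p T ∧ S.Q α p = E},
      ∃ (w : Option (Fin n)) (α : MulAut (F g (n + 1))) (e : V) (p : Pt n V) (T : ℝ)
        (k : Fin (4 * g + n + 1)) (s : SS) (r : Gen g (n + 1) → Set.range S.ρ) (u : V),
        S.Opt α w e p T ∧ S.Q α p = E ∧
        (∀ y, ((r y : Set.range S.ρ) : Module.End ℝ V) =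
          S.ρ ((α * (xk g n k)⁻¹) (FreeGroup.of y))) ∧
        ∀ x, S.v (α x) = (s : F g (n + 1) → V) (xk g n k x) + (S.ρ (α x) u - u) := by
    rintro ⟨E, w, α, e, p, T, hA, hO, hE⟩
    obtain ⟨k, hk, hα⟩ := Fin_adm hA
    have hβ := h2 k hk α hα
    obtain ⟨s, hs, u, hu⟩ := horb _ hβ
    refine ⟨w, α, e, p, T, ⟨k, by omega⟩, ⟨s, hs⟩,
      fun y => ⟨S.ρ ((α * (xk g n k)⁻¹) (FreeGroup.of y)), ⟨_, rfl⟩⟩, u, hO, hE,
      fun y => rfl, fun x => ?_⟩
    have h3 := hu (xk g n k x)
    have h4 : (α * (xk g n k)⁻¹) (xk g n k x) = α x := by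
      rw [MulAut.mul_apply]
      congr 1
      simp
    rw [h4] at h3
    exact h3
  choose w α e p T k s r u hO hE hr hv using hex
  have hinj : Function.Injective (fun E : {E | ∃ w α e p T, Adm g n α w ∧ S.Opt α w e p T ∧
      S.Q α p = E} => (w E, k E, s E, r E)) := by
    intro E E' h
    simp only [Prod.mk.injEq] at h
    obtain ⟨hw, hk, hs, hrr⟩ := h
    have hρβ : ∀ x, S.ρ ((α E * (xk g n (k E))⁻¹) x) = S.ρ ((α E' * (xk g n (k E))⁻¹) x) := by
      have h3 : S.ρ.comp (MulEquiv.toMonoidHom (α E * (xk g n (k E))⁻¹)) =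
          S.ρ.comp (MulEquiv.toMonoidHom (α E' * (xk g n (k E))⁻¹)) := by
        apply FreeGroup.ext_hom
        intro y
        have h4 := hr E y
        have h5 := hr E' y
        rw [← hk, ← hrr, h4] at h5
        exact h5
      intro x
      exact DFunLike.congr_fun h3 x
    have hρ : ∀ x, S.ρ (α E' x) = S.ρ (α E x) := by
      intro x
      have h3 := hρβ (xk g n (k E) x)
      have h4 : ∀ α : MulAut (F g (n + 1)), (α * (xk g n (k E))⁻¹) (xk g n (k E) x) = α x := by
        intro α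
        rw [MulAut.mul_apply]
        congr 1
        simp
      rw [h4, h4] at h3
      exact h3.symm
    have h5 := h1 S (α E) (α E') (w E) (e E) (e E') (p E) (p E') (T E) (T E') (u E' - u E)
      (hO E) (by rw [hw]; exact hO E') hρ (fun x => by
        rw [hv E, hv E', hρ x, ← hk, ← hs, map_sub]
        abel)
    apply Subtype.ext
    rw [← hE E, ← hE E']
    exact h5.1
  exact Finite.of_injective _ hinj

end Pool.Agent.PSB
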