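import Pool.Agent.PSB.St

/-!
# Simple branch points: frames under crossings and moves (module Frm, helper18)
-/

set_option autoImplicit false

namespace Pool.Agent.PSB

open Pool.Agent.PW

variable {g n : ℕ}

/-- composition of a frame with an automorphism which keeps the classes of the marked points and is
trivial modulo `NC` -/
theorem Frm_mul {w w' : F g (n + 1)} {α γ : MulAut (F g (n + 1))} (hα : α ∈ Fr w)
    (hγ : (∀ l, IsConj (γ (gc l)) (gc l : F g (n + 1))) ∧ ∀ x, γ x * x⁻¹ ∈ NC g n)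
    (hw : IsConj (γ w') w) : α * γ ∈ Fr w' := by
  obtain ⟨h1, h2, h3⟩ := hα
  refine ⟨?_, fun j => ?_, fun x => ?_⟩
  · exact (MonoidHom.map_isConj α.toMonoidHom hw).trans h1
  · exact (MonoidHom.map_isConj α.toMonoidHom (hγ.1 j)).trans (h2 j)
  · have h4 := Subgroup.mul_mem _ (h3 (γ x)) (hγ.2 x)
    rwa [MulAut.mul_apply, show α (γ x) * x⁻¹ = α (γ x) * (γ x)⁻¹ * (γ x * x⁻¹) by group]

theorem Frm_bd (α : MulAut (F g (n + 1))) : α ∈ Fr (bdry g (n + 1)) ↔ α ∈ Push g n := by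
  constructor
  · rintro ⟨h1, h2, h3⟩
    exact ⟨⟨h1, h2⟩, h3⟩
  · rintro ⟨⟨h1, h2⟩, h3⟩
    exact ⟨h1, h2, h3⟩

/-- conjugate words have the same frames -/
theorem Frm_conj {w w' : F g (n + 1)} (h : IsConj w w') {α : MulAut (F g (n + 1))}
    (hα : α ∈ Fr w) : α ∈ Fr w' := by
  obtain ⟨h1, h2, h3⟩ := hα
  exact ⟨(MonoidHom.map_isConj α.toMonoidHom h.symm).trans h1, h2, h3⟩

theorem thm_Frm (h1 : St_Wds) (h2 : St_Cls) : St_Frm := by
  intro g n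
  obtain ⟨w1, w2, w3, w4, w5, w6⟩ := @h1 g n
  refine ⟨?_, ?_, ?_, ?_, ?_, ?_⟩
  · intro k hk α hα
    refine Frm_mul hα (h2 (chi g n k) (Or.inl ⟨k, rfl⟩)) ?_
    rw [w1 k hk]
  · intro k hk α hα
    refine Frm_mul hα (h2 ((chi g n k)⁻¹) (Or.inr (Or.inl ⟨k, rfl⟩))) ?_
    have h3 : (chi g n k)⁻¹ (wd g n k) = wd g n (k + 1) := by
      rw [← w1 k hk]
      simp
    rw [h3]
  · intro k hk α hα
    refine ⟨Frm_mul hα (h2 (mv g n k) (Or.inr (Or.inr (Or.inl ⟨k, rfl⟩)))) ?_, (w2 k hk).2⟩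
    rw [(w2 k hk).1]
  · intro j α hα
    refine ⟨Frm_mul hα (h2 _ (Or.inr (Or.inr (Or.inr (Or.inl ⟨j, rfl⟩))))) ?_,
      Frm_mul hα (h2 _ (Or.inr (Or.inr (Or.inr (Or.inr (Or.inl ⟨j, rfl⟩)))))) ?_⟩
    · rw [w3 j]
    · rw [w4 j]
  · intro α
    have h3 : IsConj (bdry g (n + 1)) (wd g n 0) := isConj_iff.2 ⟨cc g n, w6⟩
    rw [← Frm_bd]
    exact ⟨Frm_conj h3.symm, Frm_conj h3⟩
  · intro α
    rw [w5]
    exact Frm_bd α

end Pool.Agent.PSB
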