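import Pool.Agent.PSB.St

/-!
# Simple branch points: from a Zero state along a half edge
-/

namespace Pool.Agent.PSB

open Pool.Agent.PW

variable {g n : ℕ}

theorem Gmv_lt (k : ℕ) (X : Gen g n) : mv g n k (lt X) = lt X := by
  unfold mv
  split_ifs
  · exact mp_lt _ _
  · exact mp_inv_lt _ _
  · exact mp_inv_lt _ _
  · exact mp_lt _ _
  · rfl

theorem Gmv_cc (k : ℕ) (hk : k < 4 * g) :
    mv g n k (cc g n) = (lab g n k)⁻¹ * cc g n * lab g n k := by
  have h : k / 4 < g := by omega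
  unfold mv lab
  rw [dif_pos h, dif_pos h]
  split_ifs
  · exact mp_cc _
  · rw [mp_inv_cc, inv_inv]
    rfl
  · rw [mp_inv_cc, inv_inv]
    rfl
  · exact mp_cc _

variable {V : Type} [NormedAddCommGroup V] [InnerProductSpace ℝ V]

/-- The out vectors depend only on the letters. -/
theorem Gmv_out (S : RSys g n V) {α β : MulAut (F g (n + 1))} (h : ∀ X : Gen g n, β (lt X) = α (lt X))
    (p : Pt n V) (w : Option (Fin n)) : S.out β p w = S.out α p w := by
  unfold RSys.out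
  simp only [h]

theorem Gmv_Q (S : RSys g n V) {α β : MulAut (F g (n + 1))} (h : ∀ X : Gen g n, β (lt X) = α (lt X))
    (p : Pt n V) : S.Q β p = S.Q α p := by
  unfold RSys.Q
  simp only [h]

theorem thm_Gmv (h1 : St_Stp) (h2 : St_Frm) (_ : St_Pos) : St_Gmv := by
  intro g n V _ _ _ S e₀ he₀ M hM k α e p hk hZ
  obtain ⟨hk', hα, hO, hQ⟩ := hZ
  obtain ⟨-, -, f3, -, -, -⟩ := h2 (g := g) (n := n)
  obtain ⟨-, hs⟩ := h1 S e₀ he₀ M hM k (by omega) α hα e p 0 hO hQ
  obtain ⟨-, -, hx, -⟩ := hs rfl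
  have hx0 := hx hk
  refine ⟨hx0, (f3 k hk α hα).2, (f3 k hk α hα).1, ?_, ?_⟩
  · have hl : ∀ X : Gen g n, (α * mv g n k) (lt X) = α (lt X) := by
      intro X
      rw [MulAut.mul_apply, Gmv_lt]
    have hc : (α * mv g n k) (cc g n) = (α (lab g n k))⁻¹ * α (cc g n) * α (lab g n k) := by
      rw [MulAut.mul_apply, Gmv_cc k hk, map_mul, map_mul, map_inv]
    refine ⟨?_, ?_, ?_, ?_⟩
    · rw [hc]
      exact hO.ref.conj' _
    · rw [hc, aff_conj_iff]
      exact hO.ref.fix_of_inner hO.fix hx0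
    · rw [Gmv_out S hl, hO.at_w, zero_smul, zero_smul]
    · intro w' hw'
      rw [Gmv_out S hl, hO.off_w w' hw']
  · rw [Gmv_Q S (α := α)]
    · exact hQ
    · intro X
      rw [MulAut.mul_apply, Gmv_lt]

end Pool.Agent.PSB
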