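import Pool.Agent.PSB.St

/-!
# Simple branch points: from a Zero state through a monogon
-/

namespace Pool.Agent.PSB

open Pool.Agent.PW

section

variable {g n : ℕ} {V : Type} [NormedAddCommGroup V] [InnerProductSpace ℝ V]

theorem Gpu_out (S : RSys g n V) {α β : MulAut (F g (n + 1))} (h : ∀ X : Gen g n, β (lt X) = α (lt X))
    (p : Pt n V) (w : Option (Fin n)) : S.out β p w = S.out α p w := by
  unfold RSys.out
  simp only [h]

theorem Gpu_Q (S : RSys g n V) {α β : MulAut (F g (n + 1))} (h : ∀ X : Gen g n, β (lt X) = α (lt X))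
    (p : Pt n V) : S.Q β p = S.Q α p := by
  unfold RSys.Q
  simp only [h]

/-- With `T = 0` the vertex of the moving point can be changed. -/
theorem Gpu_change {S : RSys g n V} {α : MulAut (F g (n + 1))} {w w' : Option (Fin n)} {e : V}
    {p : Pt n V} (hO : S.Opt α w e p 0) (hf : S.aff (α (cc g n)) (p w') = p w') :
    S.Opt α w' e p 0 := by
  have h0 : ∀ v, S.out α p v = 0 := by
    intro v
    by_cases h : v = w
    · rw [h, hO.at_w, zero_smul]
    · exact hO.off_w v h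
  refine ⟨hO.ref, hf, ?_, fun v _ => h0 v⟩
  rw [h0, zero_smul]

end

theorem thm_Gpu (h1 : St_Stp) (h2 : St_Mov) (h3 : St_Stm) (h4 : St_Exi) (h5 : St_Pos)
    (h6 : St_Frm) : St_Gpu := by
  intro g n V _ _ _ S e₀ he₀ M hM j α e p hZ
  obtain ⟨hk', hα, hO, hQ⟩ := hZ
  have hj := j.2
  obtain ⟨-, -, -, f4, -, -⟩ := h6 (g := g) (n := n)
  obtain ⟨-, hs⟩ := h1 S e₀ he₀ M hM (4 * g + j) (by omega) α hα e p 0 hO hQ
  obtain ⟨-, -, -, hs4⟩ := hs rfl
  have hx := hs4 j rfl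
  -- the state at the marked point
  have hfj : S.aff (α (cc g n)) (p (some j)) = p (some j) := hO.ref.fix_of_inner hO.fix hx
  have hOj : S.Opt α (some j) e p 0 := Gpu_change hO hfj
  obtain ⟨hfr, -⟩ := f4 j α hα
  have hadm : Adm g n (α * mp (Gen.c j : Gen g n)) (some j) := Or.inr hfr
  have hadm' : Adm g n (α * mp (Gen.c j : Gen g n)) none := ⟨4 * g + j + 1, by omega, hfr⟩
  obtain ⟨-, -, q3, ⟨e2, q4⟩, q5⟩ := h5 S e₀ he₀ _ _ hfr
  have hl : ∀ X : Gen g n, (α * mp (Gen.c j : Gen g n)) (lt X) = α (lt X) := by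
    intro X
    rw [MulAut.mul_apply, mp_lt]
  have hc : (α * mp (Gen.c j : Gen g n)) (cc g n) =
      (α (lt (Gen.c j)))⁻¹ * α (cc g n) * α (lt (Gen.c j)) := by
    rw [MulAut.mul_apply, mp_cc, map_mul, map_mul, map_inv]
  obtain ⟨p', T', hO'⟩ := h4 S (α * mp (Gen.c j : Gen g n)) (some j) e2 q4 (q3 (Fin.last n))
  have hb := hM _ _ _ _ _ hadm hO'
  rw [Gpu_Q S hl] at hb
  have hfix' := hO'.fix
  rw [hc] at hfix'
  obtain ⟨-, hm⟩ := h2 S α (some j) e p p' 0 (Gen.c j) (lt (Gen.c j)) hOj rfl (Or.inl rfl) hfix'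
  obtain ⟨-, -, -, -, hout⟩ := h5 S e₀ he₀ _ _ hα
  have hy := (hm rfl (by rw [hQ]; exact hb)).2 (hout ⟨4 * g + j, hk', rfl⟩)
  -- the state in the new frame, at the marked point
  have hfj2 : S.aff ((α * mp (Gen.c j : Gen g n)) (cc g n)) (p (some j)) = p (some j) := by
    rw [hc, aff_conj_iff]
    exact hO.ref.fix_of_inner hfj hy
  have hOj2 : S.Opt (α * mp (Gen.c j : Gen g n)) (some j) (S.ρ (α (lt (Gen.c j)))⁻¹ e) p 0 := by
    refine ⟨?_, hfj2, ?_, ?_⟩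
    · rw [hc]
      exact hO.ref.conj' _
    · rw [Gpu_out S hl, hOj.at_w]
      simp
    · intro w' hw'
      rw [Gpu_out S hl, hOj.off_w w' hw']
  have hQ2 : S.Q (α * mp (Gen.c j : Gen g n)) p = M := by
    rw [Gpu_Q S hl]
    exact hQ
  obtain ⟨p'', T'', hO''⟩ := h4 S (α * mp (Gen.c j : Gen g n)) none e2 q4 (q3 (Fin.last n))
  have hb'' := hM _ _ _ _ _ hadm' hO''
  obtain ⟨-, hm2⟩ := h3 S (α * mp (Gen.c j : Gen g n)) (some j) none _ p p'' 0 j hOj2
    (Or.inr ⟨rfl, rfl⟩) hO''.fix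
  have hz := (hm2 rfl (by rw [hQ2]; exact hb'')).2 (q5 ⟨4 * g + j + 1, by omega, rfl⟩)
  refine ⟨hx, hy, by omega, hfr, Gpu_change hOj2 ?_, hQ2⟩
  exact hOj2.ref.fix_of_inner hOj2.fix hz

end Pool.Agent.PSB
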