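import Pool.Agent.PSB.St

/-!
# Simple branch points: the first variation of the energy
-/

namespace Pool.Agent.PSB

open Pool.Agent.PW

section

variable {g n : ℕ} {V : Type} [NormedAddCommGroup V] [InnerProductSpace ℝ V]

theorem Gre_stem (p z : Pt n V) : ∑ w, inner ℝ (stem p w) (z w) =
    -∑ j : Fin n, inner ℝ (p (some j) - p none) (z (some j) - z none) := by
  rw [Fintype.sum_option]
  have h1 : stem p none = ∑ j, (p (some j) - p none) := rfl
  have h2 : ∀ j, stem p (some j) = p none - p (some j) := fun _ => rfl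
  rw [h1, sum_inner, ← Finset.sum_add_distrib, ← Finset.sum_neg_distrib]
  apply Finset.sum_congr rfl
  intro j _
  rw [h2, inner_sub_right, ← neg_sub (p (some j)) (p none), inner_neg_left]
  ring

theorem Gre_out (S : RSys g n V) (α : MulAut (F g (n + 1))) (p z : Pt n V) :
    ∑ w, inner ℝ (S.out α p w) (z w) =
      ∑ X : Gen g n, inner ℝ (S.fl (α (lt X)) (p (vx X)) + S.fl (α (lt X))⁻¹ (p (vx X)))
        (z (vx X)) - ∑ j : Fin n, inner ℝ (p (some j) - p none) (z (some j) - z none) := by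
  have h1 : ∀ w, inner ℝ (S.out α p w) (z w) =
      ∑ X : Gen g n, (if vx X = w then
        inner ℝ (S.fl (α (lt X)) (p w) + S.fl (α (lt X))⁻¹ (p w)) (z w) else 0) +
        inner ℝ (stem p w) (z w) := by
    intro w
    unfold RSys.out
    rw [inner_add_left, sum_inner]
    congr 1
    apply Finset.sum_congr rfl
    intro X _
    split_ifs
    · rfl
    · exact inner_zero_left _
  have h2 : ∀ X : Gen g n, ∑ w, (if vx X = w then
        inner ℝ (S.fl (α (lt X)) (p w) + S.fl (α (lt X))⁻¹ (p w)) (z w) else 0) =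
      inner ℝ (S.fl (α (lt X)) (p (vx X)) + S.fl (α (lt X))⁻¹ (p (vx X))) (z (vx X)) := by
    intro X
    rw [Finset.sum_ite_eq, if_pos (Finset.mem_univ _)]
  rw [Finset.sum_congr rfl fun w _ => h1 w, Finset.sum_add_distrib, Finset.sum_comm,
    Finset.sum_congr rfl fun X _ => h2 X, Gre_stem, sub_eq_add_neg]

end

/-- (Gre) The first variation. -/
theorem thm_Gre : St_Gre := by
  intro g n V _ _ S α p z
  have h1 : ∀ X : Gen g n, ‖S.fl (α (lt X)) ((p + z) (vx X))‖ ^ 2 =
      ‖S.fl (α (lt X)) (p (vx X))‖ ^ 2 -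
      2 * inner ℝ (S.fl (α (lt X)) (p (vx X)) + S.fl (α (lt X))⁻¹ (p (vx X))) (z (vx X)) +
      ‖S.ρ (α (lt X)) (z (vx X)) - z (vx X)‖ ^ 2 := by
    intro X
    rw [Pi.add_apply, fl_add, norm_add_sq_real, inner_fl]
    ring
  have h2 : ∀ j : Fin n, ‖(p + z) (some j) - (p + z) none‖ ^ 2 = ‖p (some j) - p none‖ ^ 2 +
      2 * inner ℝ (p (some j) - p none) (z (some j) - z none) +
      ‖z (some j) - z none‖ ^ 2 := by
    intro j
    rw [Pi.add_apply, Pi.add_apply, add_sub_add_comm, norm_add_sq_real]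
  unfold RSys.Q RSys.Q0
  rw [Gre_out, Finset.sum_congr rfl fun X _ => h1 X, Finset.sum_congr rfl fun j _ => h2 j,
    Finset.sum_add_distrib, Finset.sum_add_distrib, Finset.sum_add_distrib,
    Finset.sum_sub_distrib, ← Finset.mul_sum, ← Finset.mul_sum]
  ring

end Pool.Agent.PSB
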