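import Pool.Agent.PSB.StB

/-!
# Simple branch points: the induced cocycle
-/

namespace Pool.Agent.PSB

open Pool.Agent.PW

/-- The telescoping sum. -/
theorem IndA_tel {V : Type} [AddCommGroup V] [Module ℝ V] (r : Module.End ℝ V) (v : V) (m : ℕ) :
    ∑ i ∈ Finset.range m, (i : ℝ) • (r ^ (i + 1)) v - ∑ i ∈ Finset.range m, (i : ℝ) • (r ^ i) v =
      (m : ℝ) • (r ^ m) v - ∑ i ∈ Finset.range m, (r ^ (i + 1)) v := by
  induction m with
  | zero => simp
  | succ m ih =>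
    rw [Finset.sum_range_succ, Finset.sum_range_succ, Finset.sum_range_succ]
    have h1 : ∑ i ∈ Finset.range m, (i : ℝ) • (r ^ (i + 1)) v + (m : ℝ) • (r ^ (m + 1)) v -
        (∑ i ∈ Finset.range m, (i : ℝ) • (r ^ i) v + (m : ℝ) • (r ^ m) v) =
        (∑ i ∈ Finset.range m, (i : ℝ) • (r ^ (i + 1)) v -
          ∑ i ∈ Finset.range m, (i : ℝ) • (r ^ i) v) + (m : ℝ) • (r ^ (m + 1)) v -
          (m : ℝ) • (r ^ m) v := by abel
    rw [h1, ih]
    push_cast
    rw [add_smul, one_smul]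
    abel

/-- A periodic cocycle is a coboundary. -/
theorem IndA_per {V : Type} [AddCommGroup V] [Module ℝ V] (r : Module.End ℝ V) (v : V) (m : ℕ)
    (hm : 0 < m) (h1 : r ^ m = 1) (h2 : ∑ i ∈ Finset.range m, (r ^ i) v = 0) :
    ∃ k, v = r k - k := by
  refine ⟨(m : ℝ)⁻¹ • ∑ i ∈ Finset.range m, (i : ℝ) • (r ^ i) v, ?_⟩
  have hm0 : (m : ℝ) ≠ 0 := by exact_mod_cast hm.ne'
  have e1 : r (∑ i ∈ Finset.range m, (i : ℝ) • (r ^ i) v) =
      ∑ i ∈ Finset.range m, (i : ℝ) • (r ^ (i + 1)) v := by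
    rw [map_sum]
    refine Finset.sum_congr rfl fun i _ => ?_
    rw [map_smul, pow_succ']
    rfl
  have e2 : ∑ i ∈ Finset.range m, (r ^ (i + 1)) v = 0 := by
    have : ∑ i ∈ Finset.range m, (r ^ (i + 1)) v = r (∑ i ∈ Finset.range m, (r ^ i) v) := by
      rw [map_sum]
      refine Finset.sum_congr rfl fun i _ => ?_
      rw [pow_succ']
      rfl
    rw [this, h2, map_zero]
  rw [map_smul, e1, ← smul_sub, IndA_tel, e2, sub_zero, h1, smul_smul, inv_mul_cancel₀ hm0,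
    one_smul]
  rfl

section

variable {g n : ℕ} (K : Subgroup (F g n)) (f : K → ℚ)

theorem IndA_mem (x : F g n) (q : F g n ⧸ K) : q.out⁻¹ * x * (x⁻¹ • q).out ∈ K := by
  have h1 : ((x⁻¹ * q.out : F g n) : F g n ⧸ K) = (((x⁻¹ • q).out : F g n) : F g n ⧸ K) := by
    rw [QuotientGroup.out_eq']
    have h2 : x⁻¹ • ((q.out : F g n) : F g n ⧸ K) = x⁻¹ • q := by rw [QuotientGroup.out_eq']
    rw [← h2]
    rfl
  have h3 := QuotientGroup.eq.mp h1
  have h4 : (x⁻¹ * q.out)⁻¹ * (x⁻¹ • q).out = q.out⁻¹ * x * (x⁻¹ • q).out := by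
    rw [mul_inv_rev, inv_inv]
  rw [h4] at h3
  exact h3

theorem IndA_add (hf : IsClass K f) {a b : F g n} (ha : a ∈ K) (hb : b ∈ K) :
    ext0 K f (a * b) = ext0 K f a + ext0 K f b := by
  rw [ext0_mem (K.mul_mem ha hb), ext0_mem ha, ext0_mem hb, ← hf.add]
  rfl

/-- The elements of the normal core act trivially. -/
theorem IndA_triv {x : F g n} (hx : x ∈ K.normalCore) (q : F g n ⧸ K) : x⁻¹ • q = q := by
  have h1 : ((x⁻¹ * q.out : F g n) : F g n ⧸ K) = ((q.out : F g n) : F g n ⧸ K) := by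
    rw [QuotientGroup.eq]
    have h2 : q.out⁻¹ * x * q.out⁻¹⁻¹ ∈ K := hx q.out⁻¹
    have h3 : (x⁻¹ * q.out)⁻¹ * q.out = q.out⁻¹ * x * q.out⁻¹⁻¹ := by
      rw [mul_inv_rev, inv_inv, inv_inv]
    rw [h3]
    exact h2
  have h4 : x⁻¹ • ((q.out : F g n) : F g n ⧸ K) = ((q.out : F g n) : F g n ⧸ K) := h1
  rwa [QuotientGroup.out_eq'] at h4

theorem IndA_rho_one {x : F g n} (hx : x ∈ K.normalCore) : iρ K x = 1 := by
  apply LinearMap.ext
  intro H
  ext q
  show H (x⁻¹ • q) = H q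
  rw [IndA_triv K hx]

theorem IndA_iv_triv {x : F g n} (hx : x ∈ K.normalCore)
    (h0 : ∀ y : K, IsConj (y : F g n) x → f y = 0) : iv K f x = 0 := by
  ext q
  rw [iv_apply, IndA_triv K hx]
  have h1 : q.out⁻¹ * x * q.out ∈ K := by
    have h2 : q.out⁻¹ * x * q.out⁻¹⁻¹ ∈ K := hx q.out⁻¹
    rwa [inv_inv] at h2
  rw [ext0_mem h1, h0 ⟨_, h1⟩]
  · simp
  · refine isConj_iff.mpr ⟨q.out, ?_⟩
    show q.out * (q.out⁻¹ * x * q.out) * q.out⁻¹ = x
    group

theorem IndA_coc (hf : IsClass K f) (x y : F g n) :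
    iv K f (x * y) = iv K f x + iρ K x (iv K f y) := by
  ext q
  show iv K f (x * y) q = iv K f x q + iv K f y (x⁻¹ • q)
  rw [iv_apply, iv_apply, iv_apply]
  have e : (x * y)⁻¹ • q = y⁻¹ • x⁻¹ • q := by rw [mul_inv_rev, mul_smul]
  rw [e]
  have e2 : q.out⁻¹ * (x * y) * (y⁻¹ • x⁻¹ • q).out = (q.out⁻¹ * x * (x⁻¹ • q).out) *
      ((x⁻¹ • q).out⁻¹ * y * (y⁻¹ • x⁻¹ • q).out) := by group
  rw [e2, IndA_add K f hf (IndA_mem K x q) (IndA_mem K y (x⁻¹ • q))]
  push_cast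
  rfl

end

theorem thm_IndA : St_IndA := by
  intro g n K _ _ f hf hb
  have hc := IndA_coc K f hf
  refine ⟨hc, ?_, ?_, IndA_rho_one K hb, IndA_iv_triv K f hb hf.bdry, ?_⟩
  · intro x u w
    rw [PiLp.inner_apply, PiLp.inner_apply]
    exact Equiv.sum_comp (MulAction.toPerm (x⁻¹ : F g n))
      (fun q : F g n ⧸ K => (inner ℝ (u q) (w q) : ℝ))
  · have h1 : (Set.range fun s : Equiv.Perm (F g n ⧸ K) =>
        ({ toFun := fun H => WithLp.toLp 2 fun q => H (s⁻¹ q)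
           map_add' := fun H H' => rfl
           map_smul' := fun c H => rfl } : Module.End ℝ (EuclideanSpace ℝ (F g n ⧸ K)))).Finite :=
      Set.finite_range _
    refine h1.subset ?_
    rintro _ ⟨x, rfl⟩
    exact ⟨MulAction.toPerm x, rfl⟩
  · intro j
    obtain ⟨m, hm, -, hmK⟩ := Subgroup.exists_pow_mem_of_index_ne_zero
      (H := K.normalCore) Subgroup.FiniteIndex.index_ne_zero (gc j : F g n)
    have hpow : ∀ i : ℕ, iv K f ((gc j : F g n) ^ i) =
        ∑ l ∈ Finset.range i, ((iρ K (gc j)) ^ l) (iv K f (gc j)) := by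
      intro i
      induction i with
      | zero =>
        rw [pow_zero, Finset.range_zero, Finset.sum_empty]
        have h1 := hc 1 1
        rw [mul_one, map_one] at h1
        have h2 : iv K f 1 = iv K f 1 + iv K f 1 := h1
        exact left_eq_add.mp h2
      | succ i ih =>
        rw [pow_succ, hc, ih, Finset.sum_range_succ, map_pow]
    refine IndA_per _ _ m hm ?_ ?_
    · rw [← map_pow]
      exact IndA_rho_one K hmK
    · rw [← hpow]
      exact IndA_iv_triv K f hmK fun y hy => hf.marked y j m hy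

end Pool.Agent.PSB
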