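import Pool.Agent.PSB.StB

/-!
# The orbit of the induced cocycle is finite modulo coboundaries
-/

namespace Pool.Agent.PSB

open Pool.Agent.PW

private theorem IndC_reps {α β : Type*} (S : Set α) (Φ : α → β) (h : (Φ '' S).Finite) :
    ∃ P : Set α, P ⊆ S ∧ P.Finite ∧ ∀ x ∈ S, ∃ y ∈ P, Φ y = Φ x := by
  have h1 : ∀ b : Φ '' S, ∃ a, a ∈ S ∧ Φ a = b := fun b => b.2
  choose r hr1 hr2 using h1
  have : Finite (Φ '' S) := h
  refine ⟨Set.range r, ?_, Set.finite_range r, ?_⟩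
  · rintro _ ⟨b, rfl⟩
    exact hr1 b
  · intro x hx
    exact ⟨r ⟨Φ x, x, hx, rfl⟩, ⟨_, rfl⟩, hr2 _⟩

private theorem IndC_finite_hom {g n : ℕ} (Q : Type*) [Group Q] [Finite Q] :
    Finite (F g n →* Q) := by
  have : Finite (Gen g n → Q) := inferInstance
  exact Finite.of_equiv _ (FreeGroup.lift (α := Gen g n) (β := Q))

/-- A cocycle which vanishes on `N` is a coboundary. -/
private theorem IndC_cob {G : Type*} [Group G] (N : Subgroup G) [N.Normal] [N.FiniteIndex]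
    {V : Type*} [AddCommGroup V] [Module ℝ V] (ρ : G →* Module.End ℝ V)
    (D : G → V) (hD : ∀ x y, D (x * y) = D x + ρ x (D y))
    (h0 : ∀ x ∈ N, D x = 0) : ∃ u, ∀ x, D x = ρ x u - u := by
  classical
  have : Fintype (G ⧸ N) := Fintype.ofFinite _
  have hq : ∀ x y : G, (x : G ⧸ N) = y → D x = D y := by
    intro x y hxy
    have h1 : x⁻¹ * y ∈ N := QuotientGroup.eq.mp hxy
    have e : y = x * (x⁻¹ * y) := by group
    rw [e, hD, h0 _ h1, map_zero, add_zero]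
  set Sg : V := ∑ q : G ⧸ N, D q.out with hSg
  set m : ℝ := (Fintype.card (G ⧸ N) : ℝ) with hm
  have hm0 : m ≠ 0 := by
    rw [hm]
    exact_mod_cast Fintype.card_ne_zero
  have key : ∀ x, Sg = m • D x + ρ x Sg := by
    intro x
    have h1 : ∑ q : G ⧸ N, D (x * q.out) = Sg := by
      rw [hSg]
      have h2 : ∀ q : G ⧸ N, D (x * q.out) = (fun q' : G ⧸ N => D q'.out) ((x : G ⧸ N) * q) := by
        intro q
        apply hq
        rw [QuotientGroup.mk_mul, QuotientGroup.out_eq', QuotientGroup.out_eq']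
      rw [Finset.sum_congr rfl fun q _ => h2 q]
      exact Equiv.sum_comp (Equiv.mulLeft (x : G ⧸ N)) (fun q' : G ⧸ N => D q'.out)
    have h3 : ∑ q : G ⧸ N, D (x * q.out) = m • D x + ρ x Sg := by
      rw [Finset.sum_congr rfl fun q _ => hD x q.out, Finset.sum_add_distrib, Finset.sum_const,
        Finset.card_univ, ← map_sum, ← Nat.cast_smul_eq_nsmul ℝ]
    rw [← h3, h1]
  refine ⟨-(m⁻¹ • Sg), fun x => ?_⟩
  have h1 := key x
  have h2 : m • D x = Sg - ρ x Sg := by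
    rw [eq_sub_iff_add_eq]
    exact h1.symm
  have h3 : D x = m⁻¹ • (m • D x) := by
    rw [smul_smul, inv_mul_cancel₀ hm0, one_smul]
  rw [h3, h2, map_neg, map_smul, smul_sub]
  abel

variable {g n : ℕ}

/-- The normal core acts trivially on the cosets. -/
private theorem IndC_smul (K : Subgroup (F g n)) {m : F g n} (hm : m ∈ K.normalCore)
    (q : F g n ⧸ K) : m • q = q := by
  have hN : K.normalCore.Normal := K.normalCore_normal
  induction q using QuotientGroup.induction_on with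
  | H a =>
    show ((m * a : F g n) : F g n ⧸ K) = a
    rw [QuotientGroup.eq]
    have h1 := hN.conj_mem _ (K.normalCore.inv_mem hm) a⁻¹
    have e : (m * a)⁻¹ * a = a⁻¹ * m⁻¹ * a⁻¹⁻¹ := by group
    rw [e]
    exact K.normalCore_le h1

private theorem IndC_rho (K : Subgroup (F g n)) {m : F g n} (hm : m ∈ K.normalCore) :
    iρ K m = 1 := by
  apply LinearMap.ext
  intro H
  ext q
  rw [iρ_apply, IndC_smul K (K.normalCore.inv_mem hm)]
  rfl

private theorem IndC_rho_eq (K : Subgroup (F g n)) {x y : F g n} (h : x * y⁻¹ ∈ K.normalCore) :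
    iρ K x = iρ K y := by
  have e : x = (x * y⁻¹) * y := by group
  rw [e, map_mul, IndC_rho K h, one_mul]

private theorem IndC_iv (K : Subgroup (F g n)) (f : K → ℚ) {x : F g n} (hx : x ∈ K.normalCore)
    (q : F g n ⧸ K) : iv K f x q = ((ext0 K f (q.out⁻¹ * x * q.out⁻¹⁻¹) : ℚ) : ℝ) := by
  rw [iv_apply, IndC_smul K (K.normalCore.inv_mem hx), inv_inv]

/-- Two automorphisms which are trivial modulo `N` and agree on `f`. -/
private theorem IndC_pair (K : Subgroup (F g n)) [K.FiniteIndex] [Fintype (F g n ⧸ K)]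
    {f : K → ℚ} (hf : AddOn K.normalCore (ext0 K f))
    (hc : ∀ x y, iv K f (x * y) = iv K f x + iρ K x (iv K f y))
    (ψ ψ' : MulAut (F g n)) (h1 : ∀ x, ψ x * x⁻¹ ∈ K.normalCore)
    (h2 : ∀ x, ψ' x * x⁻¹ ∈ K.normalCore)
    (h : ∀ x ∈ K.normalCore, ext0 K f (ψ x) = ext0 K f (ψ' x)) :
    ∃ u, ∀ x, iv K f (ψ x) = iv K f (ψ' x) + (iρ K x u - u) := by
  have hN : K.normalCore.Normal := K.normalCore_normal
  have hin : ∀ (θ : MulAut (F g n)), (∀ x, θ x * x⁻¹ ∈ K.normalCore) →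
      ∀ x ∈ K.normalCore, θ x ∈ K.normalCore := by
    intro θ hθ x hx
    have := K.normalCore.mul_mem (hθ x) hx
    rwa [inv_mul_cancel_right] at this
  have hcj : ∀ (θ : MulAut (F g n)), (∀ x, θ x * x⁻¹ ∈ K.normalCore) →
      ∀ x ∈ K.normalCore, ∀ w,
      ext0 K f (w * θ x * w⁻¹) = ext0 K f (θ (w * x * w⁻¹)) := by
    intro θ hθ x hx w
    have e : θ (w * x * w⁻¹) = (θ w * w⁻¹) * (w * θ x * w⁻¹) * (θ w * w⁻¹)⁻¹ := by
      rw [map_mul, map_mul, map_inv]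
      group
    rw [e, hf.conj (hθ w) (hN.conj_mem _ (hin θ hθ x hx) w)]
  obtain ⟨u, hu⟩ := IndC_cob K.normalCore (iρ K) (fun x => iv K f (ψ x) - iv K f (ψ' x)) (by
    intro x y
    show iv K f (ψ (x * y)) - iv K f (ψ' (x * y)) =
      (iv K f (ψ x) - iv K f (ψ' x)) +
        iρ K x (iv K f (ψ y) - iv K f (ψ' y))
    rw [map_mul, map_mul, hc, hc, IndC_rho_eq K (h1 x),
      IndC_rho_eq K (h2 x), map_sub]
    abel) (by
    intro x hx
    show iv K f (ψ x) - iv K f (ψ' x) = 0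
    rw [sub_eq_zero]
    ext q
    rw [IndC_iv K f (hin ψ h1 x hx), IndC_iv K f (hin ψ' h2 x hx), hcj ψ h1 x hx,
      hcj ψ' h2 x hx, h _ (hN.conj_mem _ hx _)])
  refine ⟨u, fun x => ?_⟩
  rw [← hu x]
  abel

theorem thm_IndC (h1 : St_IndA) : St_IndC := by
  intro g n H K _ _ f hf hb hfin
  have hN : K.normalCore.Normal := K.normalCore_normal
  have hle : K.normalCore ≤ K := K.normalCore_le
  have hadd : AddOn K.normalCore (ext0 K f) := by
    intro x hx y hy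
    rw [ext0_mem (K.mul_mem (hle hx) (hle hy)), ext0_mem (hle hx), ext0_mem (hle hy), ← hf.add]
    rfl
  have hc := (h1 K f hf hb).1
  have hfq : Finite (F g n ⧸ K.normalCore) := inferInstance
  have hfh : Finite (F g n →* (F g n ⧸ K.normalCore)) := IndC_finite_hom _
  obtain ⟨P, hPS, hPf, hP⟩ := IndC_reps (H : Set (MulAut (F g n)))
    (fun φ => (QuotientGroup.mk' K.normalCore).comp φ.toMonoidHom) (Set.toFinite _)
  obtain ⟨P', hPS', hPf', hP'⟩ := IndC_reps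
    {ψ : MulAut (F g n) | ψ ∈ H ∧ ∀ x, ψ x * x⁻¹ ∈ K.normalCore}
    (fun ψ => fun x : K => ext0 K f (ψ x)) (by
      apply hfin.subset
      rintro _ ⟨ψ, ⟨h1, h2⟩, rfl⟩
      have hK : ∀ x, x ∈ K ↔ ψ x ∈ K := by
        intro x
        have h3 := hle (h2 x)
        constructor
        · intro h
          have := K.mul_mem h3 h
          rwa [inv_mul_cancel_right] at this
        · intro h
          have := K.mul_mem (K.inv_mem h3) h
          have e : (ψ x * x⁻¹)⁻¹ * ψ x = x := by group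
          rwa [e] at this
      exact ⟨ψ, h1, hK, fun x => ext0_mem ((hK x).1 x.2)⟩)
  refine ⟨(fun p : MulAut (F g n) × MulAut (F g n) =>
    fun x => iv K f (p.1 (p.2 x))) '' (P' ×ˢ P),
    (hPf'.prod hPf).image _, ?_⟩
  intro φ hφ
  obtain ⟨φ₁, hφ₁, he⟩ := hP φ hφ
  have he' : ∀ x, φ x * (φ₁ x)⁻¹ ∈ K.normalCore := by
    intro x
    have h1 : ((φ₁ x : F g n) : F g n ⧸ K.normalCore) = ((φ x : F g n) : F g n ⧸ K.normalCore) :=
      DFunLike.congr_fun he x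
    have h2 := hN.conj_mem _ (QuotientGroup.eq.mp h1) (φ₁ x)
    have e : φ₁ x * ((φ₁ x)⁻¹ * φ x) * (φ₁ x)⁻¹ = φ x * (φ₁ x)⁻¹ := by group
    rwa [e] at h2
  have hψ : ∀ x, (φ * φ₁⁻¹ : MulAut (F g n)) x * x⁻¹ ∈ K.normalCore := by
    intro x
    have h1 := he' ((φ₁⁻¹ : MulAut (F g n)) x)
    have e : φ₁ ((φ₁⁻¹ : MulAut (F g n)) x) = x := by simp
    rw [e] at h1
    exact h1
  obtain ⟨ψ₁, hψ₁, he1⟩ := hP' (φ * φ₁⁻¹)
    ⟨H.mul_mem hφ (H.inv_mem (hPS hφ₁)), hψ⟩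
  obtain ⟨u, hu⟩ := IndC_pair K hadd hc (φ * φ₁⁻¹) ψ₁ hψ (hPS' hψ₁).2 (by
    intro x hx
    exact (congrFun he1 ⟨x, hle hx⟩).symm)
  refine ⟨_, ⟨(ψ₁, φ₁), ⟨hψ₁, hφ₁⟩, rfl⟩, u, fun x => ?_⟩
  have h1 := hu (φ₁ x)
  have e : (φ * φ₁⁻¹ : MulAut (F g n)) (φ₁ x) = φ x := by simp
  rw [e] at h1
  rw [h1, IndC_rho_eq K (he' x)]

end Pool.Agent.PSB
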