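import Pool.Agent.PSB.St

/-!
# The inner automorphism by the moving loop (paper, (Inn))
-/

namespace Pool.Agent.PSB

open Pool.Agent.PW

variable {g n : ℕ} {V : Type} [NormedAddCommGroup V] [InnerProductSpace ℝ V]

theorem Inn_fl (S : RSys g n V) (c y : F g (n + 1)) (h : V) :
    S.fl (c * y * c⁻¹) (S.aff c h) = S.ρ c (S.fl y h) := by
  have h1 : S.aff (c * y * c⁻¹) (S.aff c h) = S.aff c (S.aff y h) := by
    rw [aff_mul, aff_mul, aff_inv_apply]
  rw [RSys.fl, h1, aff_sub, RSys.fl]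

theorem Inn_cc (α : MulAut (F g (n + 1))) :
    (α * MulAut.conj (cc g n)) (cc g n) = α (cc g n) := by
  rw [MulAut.mul_apply, MulAut.conj_apply, mul_inv_cancel_right]

theorem Inn_lt (α : MulAut (F g (n + 1))) (x : F g (n + 1)) :
    (α * MulAut.conj (cc g n)) x = α (cc g n) * α x * (α (cc g n))⁻¹ := by
  rw [MulAut.mul_apply, MulAut.conj_apply, map_mul, map_mul, map_inv]

theorem Inn_stem (S : RSys g n V) (c : F g (n + 1)) (p : Pt n V) (w : Option (Fin n)) :
    stem (fun w' => S.aff c (p w')) w = S.ρ c (stem p w) := by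
  cases w with
  | none =>
    simp only [stem]
    rw [map_sum]
    exact Finset.sum_congr rfl fun j _ => aff_sub S c _ _
  | some j =>
    simp only [stem]
    exact aff_sub S c _ _

theorem Inn_out (S : RSys g n V) (α : MulAut (F g (n + 1))) (p : Pt n V) (w : Option (Fin n)) :
    S.out (α * MulAut.conj (cc g n)) (fun w' => S.aff (α (cc g n)) (p w')) w =
      S.ρ (α (cc g n)) (S.out α p w) := by
  simp only [RSys.out]
  rw [map_add, map_sum, Inn_stem]
  congr 1
  refine Finset.sum_congr rfl fun X _ => ?_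
  by_cases hX : vx X = w
  · rw [if_pos hX, if_pos hX, map_add, Inn_lt, Inn_fl]
    have h2 : (α (cc g n) * α (lt X) * (α (cc g n))⁻¹)⁻¹ =
        α (cc g n) * (α (lt X))⁻¹ * (α (cc g n))⁻¹ := by group
    rw [h2, Inn_fl]
  · rw [if_neg hX, if_neg hX, map_zero]

theorem thm_Inn : St_Inn := by
  intro g n V _ _ S α w e p T h
  refine ⟨⟨?_, ?_, ?_, ?_⟩, ?_⟩
  · rw [Inn_cc]
    exact h.ref
  · rw [Inn_cc]
    show S.aff (α (cc g n)) (S.aff (α (cc g n)) (p w)) = S.aff (α (cc g n)) (p w)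
    rw [h.fix, h.fix]
  · rw [Inn_out, h.at_w, map_smul, h.ref.apply_self, smul_neg, neg_smul]
  · intro w' hw'
    rw [Inn_out, h.off_w w' hw', map_zero]
  · simp only [RSys.Q]
    congr 1
    · refine Finset.sum_congr rfl fun X _ => ?_
      rw [Inn_lt, Inn_fl, norm_ρ]
    · refine Finset.sum_congr rfl fun j _ => ?_
      rw [aff_sub, norm_ρ]

end Pool.Agent.PSB
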