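import Pool.Agent.PSB.StB

/-!
# PSB Jth: from the last marked point to all marked points
-/

namespace Pool.Agent.PSB

open Pool.Agent.PW

variable {g n : ℕ}

theorem Jth_map {G : Type} [Group G] (σ : MulAut G) {a b : G} (h : IsConj a b) :
    IsConj (σ a) (σ b) := MonoidHom.map_isConj σ.toMonoidHom h

theorem Jth_inv {G : Type} [Group G] (σ : MulAut G) {a b : G} (h : IsConj (σ a) b) :
    IsConj (σ⁻¹ b) a := by
  have h1 := Jth_map σ⁻¹ h
  rw [MulAut.inv_apply_self] at h1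
  exact h1.symm

theorem Jth_pow {G : Type} [Group G] {a b : G} (h : IsConj a b) (m : ℕ) :
    IsConj (a ^ m) (b ^ m) := by
  obtain ⟨c, rfl⟩ := isConj_iff.1 h
  exact isConj_iff.2 ⟨c, by rw [conj_pow]⟩

theorem Jth_nc {G : Type} [Group G] (σ : MulAut G) {a b : G} (h : IsConj (σ a) b) {x : G}
    (hx : x ∈ Subgroup.normalClosure {a}) : σ x ∈ Subgroup.normalClosure {b} := by
  have h1 : Subgroup.normalClosure {a} ≤ (Subgroup.normalClosure {b}).comap σ.toMonoidHom := by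
    apply Subgroup.normalClosure_le_normal
    rw [Set.singleton_subset_iff]
    show σ a ∈ Subgroup.normalClosure {b}
    obtain ⟨c, hc⟩ := isConj_iff.1 h.symm
    rw [← hc]
    exact Subgroup.normalClosure_normal.conj_mem _
      (Subgroup.subset_normalClosure (Set.mem_singleton b)) c
  exact h1 hx

theorem thm_Jth (h1 : St_Brd) : St_Jth := by
  intro hM g n j K _ f hf hb hs ho
  cases n with
  | zero => exact j.elim0
  | succ m =>
  obtain ⟨σ, π, hσb, hσc, hπ⟩ := h1 (g := g) j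
  have hcc : IsConj (σ (gc j : F g (m + 1))) (cc g m) := by
    have := hσc j
    rw [hπ] at this
    exact this
  have hinv : ∀ x : F g (m + 1), σ⁻¹ (σ x) = x := fun x => MulAut.inv_apply_self _ σ x
  have hinv' : ∀ x : F g (m + 1), σ (σ⁻¹ x) = x := fun x => MulAut.apply_inv_self _ σ x
  obtain ⟨K₁, hK₁⟩ : ∃ K₁ : Subgroup (F g (m + 1)), ∀ x, x ∈ K₁ ↔ σ⁻¹ x ∈ K :=
    ⟨K.comap (σ⁻¹).toMonoidHom, fun x => Iff.rfl⟩
  have hfi : K₁.FiniteIndex := by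
    have e : K₁ = K.comap (σ⁻¹).toMonoidHom := Subgroup.ext fun x => hK₁ x
    refine ⟨?_⟩
    rw [e, Subgroup.index_comap_of_surjective]
    · exact Subgroup.FiniteIndex.index_ne_zero
    · exact (σ⁻¹).surjective
  obtain ⟨f₁, hf₁⟩ : ∃ f₁ : K₁ → ℚ, ∀ x : K₁, f₁ x = f ⟨σ⁻¹ x, (hK₁ x).1 x.2⟩ := ⟨_, fun _ => rfl⟩
  have hfK : ∀ {x y : F g (m + 1)} (hx : x ∈ K) (hy : y ∈ K), x = y → f ⟨x, hx⟩ = f ⟨y, hy⟩ := by
    intro x y hx hy h
    subst h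
    rfl
  have hcl : IsClass K₁ f₁ := by
    refine ⟨fun x y => ?_, fun x hx => ?_, fun x i k hx => ?_⟩
    · rw [hf₁, hf₁, hf₁, ← hf.add]
      exact hfK _ _ (map_mul σ⁻¹ (x : F g (m + 1)) y)
    · rw [hf₁]
      apply hf.bdry
      exact (Jth_map σ⁻¹ hx).trans (Jth_inv σ hσb)
    · rw [hf₁]
      apply hf.marked _ (π.symm i) k
      have h2 := hσc (π.symm i)
      rw [Equiv.apply_symm_apply] at h2
      have h3 := Jth_map σ⁻¹ hx
      rw [map_pow] at h3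
      exact h3.trans (Jth_pow (Jth_inv σ h2) k)
  have hcore : bdry g (m + 1) ∈ K₁.normalCore := by
    intro b
    rw [hK₁, map_mul, map_mul, map_inv]
    obtain ⟨c, hc⟩ := isConj_iff.1 (Jth_inv σ hσb).symm
    rw [← hc]
    have h2 := hb (σ⁻¹ b * c)
    have e : σ⁻¹ b * (c * bdry g (m + 1) * c⁻¹) * (σ⁻¹ b)⁻¹ =
        σ⁻¹ b * c * bdry g (m + 1) * (σ⁻¹ b * c)⁻¹ := by group
    rw [e]
    exact h2
  obtain ⟨w, hw⟩ := isConj_iff.1 hcc
  have hmk : ∀ a b : F g (m + 1), ((w * σ a : F g (m + 1)) : F g (m + 1) ⧸ K₁) =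
      ((w * σ b : F g (m + 1)) : F g (m + 1) ⧸ K₁) ↔
      ((a : F g (m + 1) ⧸ K) = (b : F g (m + 1) ⧸ K)) := by
    intro a b
    rw [QuotientGroup.eq, QuotientGroup.eq, hK₁]
    have e : (w * σ a)⁻¹ * (w * σ b) = σ (a⁻¹ * b) := by
      rw [map_mul, map_inv]
      group
    rw [e, hinv]
  have hsm : ∀ a : F g (m + 1), cc g m • ((w * σ a : F g (m + 1)) : F g (m + 1) ⧸ K₁) =
      ((w * σ (gc j * a) : F g (m + 1)) : F g (m + 1) ⧸ K₁) := by
    intro a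
    show ((cc g m * (w * σ a) : F g (m + 1)) : F g (m + 1) ⧸ K₁) = _
    congr 1
    rw [← hw, map_mul]
    group
  have hsimple : Simple K₁ (cc g m) := by
    obtain ⟨p, q, hpq, hp, hq, hr⟩ := hs
    obtain ⟨a, rfl⟩ := QuotientGroup.mk_surjective p
    obtain ⟨b, rfl⟩ := QuotientGroup.mk_surjective q
    refine ⟨((w * σ a : F g (m + 1)) : F g (m + 1) ⧸ K₁),
      ((w * σ b : F g (m + 1)) : F g (m + 1) ⧸ K₁), ?_, ?_, ?_, ?_⟩
    · intro h
      exact hpq ((hmk a b).1 h)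
    · rw [hsm]
      exact (hmk _ _).2 hp
    · rw [hsm]
      exact (hmk _ _).2 hq
    · intro r hr1 hr2
      obtain ⟨c', rfl⟩ := QuotientGroup.mk_surjective r
      obtain ⟨c, rfl⟩ : ∃ c, c' = w * σ c := ⟨σ⁻¹ (w⁻¹ * c'), by rw [hinv', mul_inv_cancel_left]⟩
      have h3 : (c : F g (m + 1) ⧸ K) ≠ (a : F g (m + 1) ⧸ K) := fun h => hr1 ((hmk _ _).2 h)
      have h4 : (c : F g (m + 1) ⧸ K) ≠ (b : F g (m + 1) ⧸ K) := fun h => hr2 ((hmk _ _).2 h)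
      have h5 := hr _ h3 h4
      show cc g m • ((w * σ c : F g (m + 1)) : F g (m + 1) ⧸ K₁) =
        ((w * σ c : F g (m + 1)) : F g (m + 1) ⧸ K₁)
      rw [hsm]
      exact (hmk _ _).2 h5
  have horb : (orbitH (Push g m) K₁ f₁).Finite := by
    refine (ho.image fun (u : K → ℚ) (x : K₁) => u ⟨σ⁻¹ x, (hK₁ x).1 x.2⟩).subset ?_
    rintro f' ⟨φ, ⟨⟨hφ1, hφ2⟩, hφ3⟩, hφK, hφf⟩
    have hψ : ∀ x, (σ⁻¹ * φ * σ) x = σ⁻¹ (φ (σ x)) := fun x => rfl
    have hψK : ∀ x, x ∈ K ↔ (σ⁻¹ * φ * σ) x ∈ K := by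
      intro x
      rw [hψ, ← hK₁, ← hφK, hK₁, hinv]
    refine ⟨fun x => f ⟨(σ⁻¹ * φ * σ) x, (hψK x).1 x.2⟩, ⟨σ⁻¹ * φ * σ, ⟨⟨?_, ?_⟩, ?_⟩, hψK,
      fun x => rfl⟩, ?_⟩
    · rw [hψ]
      exact Jth_inv σ (hσb.trans (hφ1.symm.trans (Jth_map φ hσb.symm)))
    · intro i
      rw [hψ]
      exact Jth_inv σ ((hσc i).trans ((hφ2 (π i)).symm.trans (Jth_map φ (hσc i).symm)))
    · intro x
      rw [hψ]
      have h2 := hφ3 (σ x)
      have h3 : σ⁻¹ (φ (σ x) * (σ x)⁻¹) ∈ Subgroup.normalClosure {(gc j : F g (m + 1))} :=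
        Jth_nc σ⁻¹ (Jth_inv σ hcc) h2
      rw [map_mul, map_inv, hinv] at h3
      exact h3
    · funext x
      show f ⟨(σ⁻¹ * φ * σ) (σ⁻¹ x), _⟩ = f' x
      rw [hφf, hf₁]
      apply hfK
      rw [hψ, hinv']
  obtain ⟨f₂, hf₂, hext⟩ := hM K₁ f₁ hcl hcore hsimple horb
  have hle : ∀ x ∈ K ⊔ Nj g j, σ x ∈ K₁ ⊔ Subgroup.normalClosure {cc g m} := by
    have h2 : K ⊔ Nj g j ≤ (K₁ ⊔ Subgroup.normalClosure {cc g m}).comap σ.toMonoidHom := by
      apply sup_le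
      · intro x hx
        apply Subgroup.mem_sup_left
        show σ x ∈ K₁
        rw [hK₁, hinv]
        exact hx
      · intro x hx
        exact Subgroup.mem_sup_right (Jth_nc σ hcc hx)
    exact fun x hx => h2 hx
  refine ⟨fun x => f₂ ⟨σ x, hle x x.2⟩, ⟨fun x y => ?_, fun x hx => ?_, fun x i k hx => ?_⟩, ?_⟩
  · show f₂ ⟨σ ((x * y : ↥(K ⊔ Nj g j)) : F g (m + 1)), _⟩ = _
    rw [← hf₂.add]
    congr 1
    exact Subtype.ext (map_mul σ (x : F g (m + 1)) y)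
  · exact hf₂.bdry _ ((Jth_map σ hx).trans hσb)
  · have h3 := Jth_map σ hx
    rw [map_pow] at h3
    exact hf₂.marked _ (π i) k (h3.trans (Jth_pow (hσc i) k))
  · intro x
    have h3 : σ (x : F g (m + 1)) ∈ K₁ := by
      rw [hK₁, hinv]
      exact x.2
    have h4 := hext ⟨σ x, h3⟩
    show f₂ ⟨σ x, _⟩ = f x
    rw [hf₁] at h4
    rw [h4]
    exact hfK _ _ (hinv x)

end Pool.Agent.PSB
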