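import Pool.Agent.PSB.St

/-!
# Simple branch points: the loop around the moving point and a marked point has finite order
-/

namespace Pool.Agent.PSB

open Pool.Agent.PW

variable {g n : ℕ} {V : Type} [NormedAddCommGroup V] [InnerProductSpace ℝ V]

theorem Kil_fix_inv (S : RSys g n V) {x : F g (n + 1)} {u : V} (h : S.ρ x u = u) :
    S.ρ x⁻¹ u = u := by
  have h1 := congrArg (S.ρ x⁻¹) h
  rw [ρ_inv_apply] at h1
  exact h1.symm

theorem Kil_inner (S : RSys g n V) {x : F g (n + 1)} {u : V} (h : S.ρ x u = u) (y : V) :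
    (inner ℝ (S.ρ x y) u : ℝ) = inner ℝ y u := by
  rw [inner_ρ, Kil_fix_inv S h]

theorem Kil_v_inv (S : RSys g n V) (x : F g (n + 1)) : S.v x⁻¹ = -S.ρ x⁻¹ (S.v x) := by
  have h := S.coc x⁻¹ x
  rw [inv_mul_cancel, v_one] at h
  exact eq_neg_of_add_eq_zero_left h.symm

/-- The pairing of the cocycle with a fixed vector is additive. -/
theorem Kil_add (S : RSys g n V) {x : F g (n + 1)} {u : V} (h : S.ρ x u = u)
    (y : F g (n + 1)) :
    (inner ℝ (S.v (x * y)) u : ℝ) = inner ℝ (S.v x) u + inner ℝ (S.v y) u := by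
  rw [S.coc, inner_add_left, Kil_inner S h]

theorem Kil_neg (S : RSys g n V) {x : F g (n + 1)} {u : V} (h : S.ρ x u = u) :
    (inner ℝ (S.v x⁻¹) u : ℝ) = -inner ℝ (S.v x) u := by
  rw [Kil_v_inv, inner_neg_left, Kil_inner S (Kil_fix_inv S h)]

/-- The elements which fix `u` and whose cocycle is orthogonal to `u`. -/
def Kil_sub (S : RSys g n V) (α : MulAut (F g (n + 1))) (u : V) : Subgroup (F g (n + 1)) where
  carrier := {x | S.ρ (α x) u = u ∧ (inner ℝ (S.v (α x)) u : ℝ) = 0}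
  one_mem' := by
    refine ⟨?_, ?_⟩
    · rw [map_one, ρ_one]
      rfl
    · rw [map_one, v_one, inner_zero_left]
  mul_mem' := by
    rintro x y ⟨h1, h2⟩ ⟨h3, h4⟩
    refine ⟨?_, ?_⟩
    · rw [map_mul, ρ_mul, h3, h1]
    · rw [map_mul, Kil_add S h1, h2, h4, add_zero]
  inv_mem' := by
    rintro x ⟨h1, h2⟩
    refine ⟨?_, ?_⟩
    · rw [map_inv]
      exact Kil_fix_inv S h1
    · rw [map_inv, Kil_neg S h1, h2, neg_zero]

theorem Kil_mem_iff (S : RSys g n V) (α : MulAut (F g (n + 1))) (u : V) (x : F g (n + 1)) :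
    x ∈ Kil_sub S α u ↔ S.ρ (α x) u = u ∧ (inner ℝ (S.v (α x)) u : ℝ) = 0 := Iff.rfl

/-- A commutator of elements which fix `u`. -/
theorem Kil_cm (S : RSys g n V) (α : MulAut (F g (n + 1))) {u : V} {x y : F g (n + 1)}
    (hx : S.ρ (α x) u = u) (hy : S.ρ (α y) u = u) : cm x y ∈ Kil_sub S α u := by
  have hx' := Kil_fix_inv S hx
  have hy' := Kil_fix_inv S hy
  have hxy : S.ρ (α x * α y) u = u := by rw [ρ_mul, hy, hx]
  have hxyx : S.ρ (α x * α y * (α x)⁻¹) u = u := by rw [ρ_mul, hx', hxy]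
  rw [Kil_mem_iff]
  have h : α (cm x y) = α x * α y * (α x)⁻¹ * (α y)⁻¹ := by simp [cm]
  rw [h]
  refine ⟨?_, ?_⟩
  · rw [ρ_mul, hy', hxyx]
  · rw [Kil_add S hxyx, Kil_add S hxy, Kil_add S hx, Kil_neg S hx, Kil_neg S hy]
    ring

/-- An element which fixes `u` and has a fixed point. -/
theorem Kil_pt (S : RSys g n V) (α : MulAut (F g (n + 1))) {u : V} {x : F g (n + 1)}
    (hx : S.ρ (α x) u = u) (hf : ∃ h, S.aff (α x) h = h) : x ∈ Kil_sub S α u := by
  obtain ⟨h, hh⟩ := hf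
  rw [Kil_mem_iff]
  refine ⟨hx, ?_⟩
  rw [v_eq S (α x) h, (fl_eq_zero S).2 hh, zero_sub, neg_sub, inner_sub_left, Kil_inner S hx,
    sub_self]

/-! ### The automorphism `zt` -/

/-- The loop around the moving point and the marked point. -/
def Kil_z (j : Fin n) : F g (n + 1) := cc g n * lt (Gen.c j : Gen g n)

theorem Kil_zt_apply (j : Fin n) (x : F g (n + 1)) : zt j x =
    lm (Gen.c j : Gen g n) ((mp (Gen.c j : Gen g n))⁻¹ ((lm (Gen.c j : Gen g n))⁻¹ x)) := rfl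

theorem Kil_zt_cc (j : Fin n) :
    zt j (cc g n) = Kil_z j * cc g n * (Kil_z j)⁻¹ := by
  rw [Kil_zt_apply, lm_inv_cc, mp_inv_cc]
  simp [Kil_z]

theorem Kil_zt_self (j : Fin n) :
    zt j (lt (Gen.c j : Gen g n)) = Kil_z j * lt (Gen.c j) * (Kil_z j)⁻¹ := by
  rw [Kil_zt_apply, lm_inv_self, map_mul, map_inv, mp_inv_cc, mp_inv_lt]
  simp only [map_mul, map_inv, lm_cc, lm_self, Kil_z]
  group

theorem Kil_zt_ne (j : Fin n) {Y : Gen g n} (h : Y ≠ Gen.c j) : zt j (lt Y) = lt Y := by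
  rw [Kil_zt_apply, lm_inv_ne h, mp_inv_lt, lm_ne h]

theorem Kil_zt_z (j : Fin n) : zt j (Kil_z j : F g (n + 1)) = Kil_z j := by
  rw [Kil_z, map_mul, Kil_zt_cc, Kil_zt_self, Kil_z]
  group

theorem Kil_pow_z (j : Fin n) (M : ℕ) : (zt j ^ M) (Kil_z j : F g (n + 1)) = Kil_z j := by
  induction M with
  | zero => rfl
  | succ M ih => rw [pow_succ, MulAut.mul_apply, Kil_zt_z, ih]

theorem Kil_pow_cc (j : Fin n) (M : ℕ) :
    (zt j ^ M) (cc g n) = Kil_z j ^ M * cc g n * (Kil_z j ^ M)⁻¹ := by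
  induction M with
  | zero => simp
  | succ M ih =>
    rw [pow_succ, MulAut.mul_apply, Kil_zt_cc, map_mul, map_mul, map_inv, Kil_pow_z, ih, pow_succ']
    group

theorem Kil_pow_self (j : Fin n) (M : ℕ) :
    (zt j ^ M) (lt (Gen.c j : Gen g n)) = Kil_z j ^ M * lt (Gen.c j) * (Kil_z j ^ M)⁻¹ := by
  induction M with
  | zero => simp
  | succ M ih =>
    rw [pow_succ, MulAut.mul_apply, Kil_zt_self, map_mul, map_mul, map_inv, Kil_pow_z, ih,
      pow_succ']
    group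

theorem Kil_pow_ne (j : Fin n) {Y : Gen g n} (h : Y ≠ Gen.c j) (M : ℕ) :
    (zt j ^ M) (lt Y) = lt Y := by
  induction M with
  | zero => rfl
  | succ M ih => rw [pow_succ, MulAut.mul_apply, Kil_zt_ne j h, ih]

/-! ### The conjugate of `zt` is a push -/

theorem Kil_conj {α : MulAut (F g (n + 1))} {x y : F g (n + 1)} (h : IsConj x y) :
    IsConj (α x) (α y) := MonoidHom.map_isConj α.toMonoidHom h

theorem Kil_push {α γ : MulAut (F g (n + 1))} {w : F g (n + 1)} (hα : α ∈ Fr w)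
    (hγ : α * γ ∈ Fr w) : α * γ * α⁻¹ ∈ Push g n := by
  obtain ⟨h1, h2, h3⟩ := hα
  obtain ⟨h4, h5, h6⟩ := hγ
  have key : ∀ x, (α * γ * α⁻¹) (α x) = (α * γ) x := by
    intro x
    rw [MulAut.mul_apply]
    congr 1
    exact MulAut.inv_apply_self _ α x
  refine ⟨⟨?_, fun l => ?_⟩, fun y => ?_⟩
  · have e1 : IsConj ((α * γ * α⁻¹) (bdry g (n + 1))) ((α * γ * α⁻¹) (α w)) := Kil_conj h1.symm
    rw [key] at e1
    exact e1.trans h4
  · have e1 : IsConj ((α * γ * α⁻¹) (gc l : F g (n + 1))) ((α * γ * α⁻¹) (α (gc l))) :=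
      Kil_conj (h2 l).symm
    rw [key] at e1
    exact e1.trans (h5 l)
  · obtain ⟨x, rfl⟩ := α.surjective y
    rw [key]
    have e1 := Subgroup.mul_mem _ (h6 x) (Subgroup.inv_mem _ (h3 x))
    rwa [show (α * γ) x * x⁻¹ * (α x * x⁻¹)⁻¹ = (α * γ) x * (α x)⁻¹ by group] at e1

theorem Kil_conj_pow (α γ : MulAut (F g (n + 1))) (M : ℕ) (x : F g (n + 1)) :
    ((α * γ * α⁻¹) ^ M) (α x) = α ((γ ^ M) x) := by
  rw [conj_pow, MulAut.mul_apply, MulAut.mul_apply]
  congr 2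
  exact MulAut.inv_apply_self _ α x

theorem Kil_pow_v (S : RSys g n V) (y : F g (n + 1)) (hy : S.ρ y = 1) (m : ℕ) :
    S.v (y ^ m) = m • S.v y := by
  induction m with
  | zero => simp [v_one]
  | succ m ih =>
    rw [pow_succ', S.coc, hy, ih, succ_nsmul']
    rfl

/-- The loop around the moving point and a marked point has finite order. -/
theorem thm_Kil (h1 : St_Pig) (h2 : St_Frm) (h3 : St_Pos) (h4 : St_Prs) : St_Kil := by
  intro g n V _ _ S e he j N hN α hα hz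
  have hzt := (h2.2.2.2.1 j α hα).2
  obtain ⟨M, hM, ⟨m, hm⟩, hρ, u, hu⟩ := h1 S _ (Kil_push hα hzt) N hN
  have hz' : S.ρ (α (Kil_z j)) ^ N = 1 := hz
  obtain ⟨p1, p2, p3, -, -⟩ := h3 S e he _ α hα
  -- the powers of the loop
  have hρN : S.ρ (α (Kil_z j ^ N)) = 1 := by rw [map_pow, map_pow, hz']
  have hρM : S.ρ (α (Kil_z j ^ M)) = 1 := by
    rw [hm, pow_mul, map_pow, map_pow, hρN, one_pow]
  set ν := S.v (α (Kil_z j ^ M)) with hν
  -- (a)
  have ha : ∀ Y : Gen g n, Y ≠ Gen.c j → S.ρ (α (lt Y)) u = u := by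
    intro Y hY
    have e1 := hu (α (lt Y))
    rw [Kil_conj_pow, Kil_pow_ne j hY] at e1
    have e2 := left_eq_add.mp e1
    exact sub_eq_zero.mp e2
  -- (b)
  have hb : ∀ y : F g (n + 1), (zt j ^ M) y = Kil_z j ^ M * y * (Kil_z j ^ M)⁻¹ →
      S.ρ (α y) (u + ν) = u + ν := by
    intro y hy
    have e1 := hu (α y)
    rw [Kil_conj_pow, hy, map_mul, map_mul, map_inv, S.coc, S.coc, Kil_v_inv, ← hν, ρ_mul] at e1
    have e2 : S.ρ (α (Kil_z j ^ M))⁻¹ ν = ν := Kil_fix_inv S (by rw [hρM]; rfl)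
    rw [e2, hρM, map_neg, map_neg] at e1
    have e3 : ν + S.v (α y) + -S.ρ (α y) ν = S.v (α y) + (S.ρ (α y) u - u) := e1
    rw [map_add]
    have e4 : S.ρ (α y) u + S.ρ (α y) ν
        = ν + S.v (α y) + S.ρ (α y) u - (ν + S.v (α y) + -S.ρ (α y) ν) := by abel
    rw [e4, e3]
    abel
  -- (c)
  have hPt : ∀ l : Fin n, l ≠ j → lt (Gen.c l : Gen g n) ∈ Kil_sub S α u := by
    intro l hl
    refine Kil_pt S α (ha _ (by simpa using hl)) ?_
    exact p3 l.castSucc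
  have hcs : ∀ s k, s + k ≤ n → (∀ i, s ≤ i → i < s + k → i ≠ j.val) →
      cseg g (n + 1) s k ∈ Kil_sub S α u := by
    intro s k hsk hj
    unfold cseg
    apply Subgroup.list_prod_mem
    intro x hx
    rw [List.mem_map] at hx
    obtain ⟨i, hi, rfl⟩ := hx
    rw [List.mem_range'_1] at hi
    have hin : i < n := by omega
    have e1 : pc g (n + 1) i = lt (Gen.c ⟨i, hin⟩ : Gen g n) := by
      unfold pc
      rw [dif_pos (by omega)]
      rfl
    rw [e1]
    exact hPt _ (fun h => hj i hi.1 hi.2 (congrArg Fin.val h))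
  have hsg : seg g (n + 1) 0 g ∈ Kil_sub S α u := by
    unfold seg
    apply Subgroup.list_prod_mem
    intro x hx
    rw [List.mem_map] at hx
    obtain ⟨i, hi, rfl⟩ := hx
    rw [List.mem_range'_1] at hi
    have hig : i < g := by omega
    have e1 : hd g (n + 1) i = cm (ga ⟨i, hig⟩) (gb ⟨i, hig⟩) := by
      unfold hd
      rw [dif_pos hig]
    rw [e1]
    exact Kil_cm S α (ha (Gen.a ⟨i, hig⟩) (by simp)) (ha (Gen.b ⟨i, hig⟩) (by simp))
  have hwd : wd g n (4 * g + j) ∈ Kil_sub S α u := by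
    rw [Kil_mem_iff, p1, p2, inner_zero_left]
    exact ⟨rfl, rfl⟩
  have hzu : Kil_z j ∈ Kil_sub S α u := by
    have e1 := (h4 (g := g) (n := n)).2 j
    have e2 := hcs 0 j (by omega) (fun i _ hi => by omega)
    have e3 := hcs (j + 1) (n - j - 1) (by omega) (fun i hi _ => by omega)
    have e4 := Subgroup.mul_mem _ hsg e2
    have e5 : (Kil_z j : F g (n + 1)) = (seg g (n + 1) 0 g * cseg g (n + 1) 0 j)⁻¹ *
        wd g n (4 * g + j) * (cseg g (n + 1) (j + 1) (n - j - 1))⁻¹ := by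
      rw [e1]
      unfold Kil_z
      group
    rw [e5]
    exact Subgroup.mul_mem _ (Subgroup.mul_mem _ (Subgroup.inv_mem _ e4) hwd)
      (Subgroup.inv_mem _ e3)
  have hc : (inner ℝ ν u : ℝ) = 0 := (Subgroup.pow_mem _ hzu M).2
  -- (d)
  have hcc : cc g n ∈ Kil_sub S α (u + ν) :=
    Kil_pt S α (hb _ (Kil_pow_cc j M)) (p3 (Fin.last n))
  have hlt : lt (Gen.c j : Gen g n) ∈ Kil_sub S α (u + ν) :=
    Kil_pt S α (hb _ (Kil_pow_self j M)) (p3 j.castSucc)
  have hd' : (inner ℝ ν (u + ν) : ℝ) = 0 :=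
    (Subgroup.pow_mem _ (Subgroup.mul_mem _ hcc hlt) M).2
  have hν0 : ν = 0 := by
    rw [inner_add_right, hc, zero_add] at hd'
    exact inner_self_eq_zero.mp hd'
  -- (e)
  rw [hν, hm, pow_mul, map_pow, Kil_pow_v S _ hρN] at hν0
  have hm0 : m ≠ 0 := by
    rintro rfl
    omega
  have h5 : S.v (α (Kil_z j ^ N)) = 0 := by
    rw [← Nat.cast_smul_eq_nsmul ℝ] at hν0
    exact (smul_eq_zero.mp hν0).resolve_left (Nat.cast_ne_zero.mpr hm0)
  rw [map_pow] at h5
  exact h5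

end Pool.Agent.PSB
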