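import Pool.Agent.PSB.St

set_option autoImplicit false

namespace Pool.Agent.PSB

open Pool.Agent.PW

theorem Low_cs {V : Type} [NormedAddCommGroup V] [InnerProductSpace ℝ V] (e w : V)
    (he : ‖e‖ = 1) : (inner ℝ e w : ℝ) ^ 2 ≤ ‖w‖ ^ 2 := by
  have h := abs_real_inner_le_norm e w
  rw [he, one_mul] at h
  rw [← sq_abs]
  exact pow_le_pow_left₀ (abs_nonneg _) h 2

theorem thm_Low : St_Low := by
  intro g n V _ _ S α z e he
  have h1 : ∀ X : Gen g n, ‖S.ρ (α (lt X)) (z (vx X)) - z (vx X)‖ ^ 2 ≤ S.Q0 α z := by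
    intro X
    have h2 : ‖S.ρ (α (lt X)) (z (vx X)) - z (vx X)‖ ^ 2 ≤
        ∑ X : Gen g n, ‖S.ρ (α (lt X)) (z (vx X)) - z (vx X)‖ ^ 2 :=
      Finset.single_le_sum (f := fun X : Gen g n => ‖S.ρ (α (lt X)) (z (vx X)) - z (vx X)‖ ^ 2)
        (fun _ _ => sq_nonneg _) (Finset.mem_univ X)
    have h3 : 0 ≤ ∑ j : Fin n, ‖z (some j) - z none‖ ^ 2 :=
      Finset.sum_nonneg fun _ _ => sq_nonneg _
    rw [RSys.Q0]
    linarith
  have h4 : ∀ j : Fin n, ‖z (some j) - z none‖ ^ 2 ≤ S.Q0 α z := by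
    intro j
    have h2 : ‖z (some j) - z none‖ ^ 2 ≤ ∑ j : Fin n, ‖z (some j) - z none‖ ^ 2 :=
      Finset.single_le_sum (f := fun j : Fin n => ‖z (some j) - z none‖ ^ 2)
        (fun _ _ => sq_nonneg _) (Finset.mem_univ j)
    have h3 : 0 ≤ ∑ X : Gen g n, ‖S.ρ (α (lt X)) (z (vx X)) - z (vx X)‖ ^ 2 :=
      Finset.sum_nonneg fun _ _ => sq_nonneg _
    rw [RSys.Q0]
    linarith
  refine ⟨?_, fun j => (Low_cs e _ he).trans (h4 j)⟩
  rintro X y (rfl | rfl)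
  · exact (Low_cs e _ he).trans (h1 X)
  · refine (Low_cs e _ he).trans ?_
    have h5 : S.ρ (α (lt X)⁻¹) (z (vx X)) - z (vx X) =
        S.ρ (α (lt X))⁻¹ (z (vx X) - S.ρ (α (lt X)) (z (vx X))) := by
      rw [map_sub, ρ_inv_apply, map_inv]
    rw [h5, norm_ρ, norm_sub_rev]
    exact h1 X

end Pool.Agent.PSB
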