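import Pool.Agent.PSB.St

set_option autoImplicit false

/-! # PSB Max: a state of maximal energy -/

namespace Pool.Agent.PSB

open Pool.Agent.PW

theorem Max_chi {g n : ℕ} (j : Fin n) :
    chi g n (4 * g + j) = lm (Gen.c j : Gen g n) * rm (Gen.c j : Gen g n) := by
  have h1 : ¬ (4 * g + (j : ℕ)) / 4 < g := by omega
  have h2 : 4 * g + (j : ℕ) - 4 * g < n := by
    have := j.2
    omega
  unfold chi
  rw [dif_neg h1, dif_pos h2]
  have h3 : (⟨4 * g + (j : ℕ) - 4 * g, h2⟩ : Fin n) = j := by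
    apply Fin.ext
    change 4 * g + (j : ℕ) - 4 * g = (j : ℕ)
    omega
  rw [h3]

theorem thm_Max (hF : St_Fin) (hE : St_Exi) (hP : St_Pos) (hR : St_Frm) (hC : St_Cro) : St_Max := by
  intro g n V _ _ _ S e₀ he₀
  have h1mem : (1 : MulAut (F g (n + 1))) ∈ Fr (wd g n (4 * g + n)) :=
    (hR.2.2.2.2.2 1).2 (Push g n).one_mem
  have hne : {E | ∃ w α e p T, Adm g n α w ∧ S.Opt α w e p T ∧ S.Q α p = E}.Nonempty := by
    have h2 := hP S e₀ he₀ _ 1 h1mem
    obtain ⟨h, hh⟩ := h2.2.2.1 (Fin.last n)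
    have h3 : S.IsRef ((1 : MulAut (F g (n + 1))) (cc g n)) e₀ := he₀
    obtain ⟨p, T, hopt⟩ := hE S 1 none e₀ h3 ⟨h, hh⟩
    exact ⟨S.Q 1 p, none, 1, e₀, p, T, ⟨4 * g + n, le_rfl, h1mem⟩, hopt, rfl⟩
  obtain ⟨M, hM, hmax⟩ := Set.exists_max_image _ (fun E : ℝ => E) (hF S) hne
  refine ⟨M, ?_, ?_⟩
  · intro w α e p T hA hO
    exact hmax _ ⟨w, α, e, p, T, hA, hO, rfl⟩
  · obtain ⟨w, α, e, p, T, hA, hO, hQ⟩ := hM
    rcases w with _ | j
    · obtain ⟨k, hk, hα⟩ := hA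
      exact Or.inl ⟨k, α, e, p, T, hk, hα, hO, hQ⟩
    · right
      rcases hA with hα | hα
      · exact ⟨j, α, e, p, T, hα, hO, hQ⟩
      · have hlt : 4 * g + (j : ℕ) < 4 * g + n := by
          have := j.2
          omega
        have h2 := hR.2.1 (4 * g + j) hlt α hα
        have h3 := (hC S α (some j) e p T (Gen.c j) hO rfl).2.2.2
        have h4 := (hC S _ (some j) e p _ (Gen.c j) h3.1 rfl).2.2.1
        have h5 : α * (chi g n (4 * g + j))⁻¹ =
            α * (rm (Gen.c j : Gen g n))⁻¹ * (lm (Gen.c j : Gen g n))⁻¹ := by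
          rw [Max_chi, mul_inv_rev, mul_assoc]
        rw [h5] at h2
        exact ⟨j, _, e, p, _, h2, h4.1, by rw [h4.2, h3.2, hQ]⟩

end Pool.Agent.PSB
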