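import Pool.Agent.PSB.St

/-!
# Simple branch points: the pigeonhole
-/

set_option autoImplicit false

namespace Pool.Agent.PSB

open Pool.Agent.PW

theorem Pig_rho {g n : ℕ} {V : Type} [NormedAddCommGroup V] [InnerProductSpace ℝ V]
    (S : RSys g n V) (φ : MulAut (F g (n + 1))) :
    ∃ M₀ : ℕ, 0 < M₀ ∧ ∀ x, S.ρ ((φ ^ M₀) x) = S.ρ x := by
  have hfin : Finite (Set.range S.ρ) := S.fin
  obtain ⟨a, b, hab, hf⟩ := Finite.exists_ne_map_eq_of_infinite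
    fun (i : ℕ) (X : Gen g (n + 1)) =>
      (⟨S.ρ ((φ ^ i) (FreeGroup.of X)), Set.mem_range_self _⟩ : Set.range S.ρ)
  have key : ∀ a b : ℕ, a < b → (∀ X : Gen g (n + 1),
      S.ρ ((φ ^ a) (FreeGroup.of X)) = S.ρ ((φ ^ b) (FreeGroup.of X))) →
      ∃ M₀ : ℕ, 0 < M₀ ∧ ∀ x, S.ρ ((φ ^ M₀) x) = S.ρ x := by
    intro a b hab h
    have h1 : S.ρ.comp (φ ^ a).toMonoidHom = S.ρ.comp (φ ^ b).toMonoidHom :=
      FreeGroup.ext_hom _ _ h
    refine ⟨b - a, Nat.sub_pos_of_lt hab, fun y => ?_⟩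
    have h2 := DFunLike.congr_fun h1 ((φ ^ a)⁻¹ y)
    have h3 : S.ρ ((φ ^ a) ((φ ^ a)⁻¹ y)) = S.ρ ((φ ^ b) ((φ ^ a)⁻¹ y)) := h2
    rw [← MulAut.mul_apply, ← MulAut.mul_apply, mul_inv_cancel, MulAut.one_apply] at h3
    have h4 : φ ^ b * (φ ^ a)⁻¹ = φ ^ (b - a) := (pow_sub φ hab.le).symm
    rw [h4] at h3
    exact h3.symm
  have hf' : ∀ X : Gen g (n + 1),
      S.ρ ((φ ^ a) (FreeGroup.of X)) = S.ρ ((φ ^ b) (FreeGroup.of X)) := fun X =>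
    congrArg Subtype.val (congrFun hf X)
  rcases lt_or_gt_of_ne hab with h | h
  · exact key a b h hf'
  · exact key b a h fun X => (hf' X).symm

theorem thm_Pig : St_Pig := by
  intro g n V _ _ S φ hφ N hN
  obtain ⟨M₀, hM₀, hρ₀⟩ := Pig_rho S φ
  have hρk : ∀ k : ℕ, ∀ x, S.ρ ((φ ^ (M₀ * k)) x) = S.ρ x := by
    intro k
    induction k with
    | zero => intro x; rw [Nat.mul_zero, pow_zero, MulAut.one_apply]
    | succ k ih =>
      intro x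
      rw [Nat.mul_succ, add_comm (M₀ * k) M₀, pow_add, MulAut.mul_apply, hρ₀, ih]
  obtain ⟨T, hTf, hT⟩ := S.orb
  have h1 : ∀ i : ℕ, ∃ s : T, ∃ u, ∀ x, S.v ((φ ^ (M₀ * i)) x) = s.1 x + (S.ρ x u - u) := by
    intro i
    obtain ⟨s, hs, u, hu⟩ := hT (φ ^ (M₀ * i)) ((Push g n).pow_mem hφ _)
    refine ⟨⟨s, hs⟩, u, fun x => ?_⟩
    rw [hu x, hρk]
  choose s u hu using h1
  have : Finite T := hTf
  obtain ⟨i, j, hij, hs⟩ := Finite.exists_ne_map_eq_of_infinite s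
  have key : ∀ i j : ℕ, i < j → s i = s j → ∃ M₁ : ℕ, 0 < M₁ ∧ M₀ ∣ M₁ ∧ ∃ u', ∀ x,
      S.v ((φ ^ M₁) x) = S.v x + (S.ρ x u' - u') := by
    intro i j hij hs
    refine ⟨M₀ * (j - i), Nat.mul_pos hM₀ (Nat.sub_pos_of_lt hij), ⟨_, rfl⟩, u j - u i,
      fun y => ?_⟩
    have h2 := hu i ((φ ^ (M₀ * i))⁻¹ y)
    have h3 := hu j ((φ ^ (M₀ * i))⁻¹ y)
    have h4 : S.ρ ((φ ^ (M₀ * i))⁻¹ y) = S.ρ y := by
      rw [← hρk i ((φ ^ (M₀ * i))⁻¹ y), ← MulAut.mul_apply, mul_inv_cancel, MulAut.one_apply]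
    have h5 : φ ^ (M₀ * j) * (φ ^ (M₀ * i))⁻¹ = φ ^ (M₀ * (j - i)) := by
      rw [Nat.mul_sub]
      exact (pow_sub φ (Nat.mul_le_mul_left _ hij.le)).symm
    rw [← MulAut.mul_apply, mul_inv_cancel, MulAut.one_apply, h4] at h2
    rw [← MulAut.mul_apply, h5, h4] at h3
    rw [h3, h2, hs, map_sub]
    abel
  obtain ⟨M₁, hM₁, ⟨k, hk⟩, u', hu'⟩ : ∃ M₁ : ℕ, 0 < M₁ ∧ M₀ ∣ M₁ ∧ ∃ u', ∀ x,
      S.v ((φ ^ M₁) x) = S.v x + (S.ρ x u' - u') := by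
    rcases lt_or_gt_of_ne hij with h | h
    · exact key i j h hs
    · exact key j i h hs.symm
  have hit : ∀ m : ℕ, ∀ x, S.v ((φ ^ (m * M₁)) x) = S.v x + m • (S.ρ x u' - u') := by
    intro m
    induction m with
    | zero =>
      intro x
      rw [Nat.zero_mul, pow_zero, MulAut.one_apply, zero_smul, add_zero]
    | succ m ih =>
      intro x
      have h6 : S.ρ ((φ ^ (m * M₁)) x) = S.ρ x := by
        rw [hk, show m * (M₀ * k) = M₀ * (m * k) by ring]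
        exact hρk _ x
      rw [Nat.succ_mul, add_comm (m * M₁) M₁, pow_add, MulAut.mul_apply, hu', ih, h6, add_smul,
        one_smul]
      abel
  refine ⟨N * M₁, Nat.mul_pos hN hM₁, ⟨_, rfl⟩, fun x => ?_, N • u', fun x => ?_⟩
  · rw [hk, show N * (M₀ * k) = M₀ * (N * k) by ring]
    exact hρk _ x
  · rw [hit, map_nsmul, smul_sub]

end Pool.Agent.PSB
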