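import Pool.Agent.PSB.St

/-!
# Simple branch points (MP_26af1b_gt), Pos: properties of the frames
-/

set_option autoImplicit false

namespace Pool.Agent.PSB

open Pool.Agent.PW

private theorem Pos_conj {G : Type*} [Group G] {a b : G} (h : IsConj a b) :
    ∃ c : G, a = c⁻¹ * b * c := by
  obtain ⟨c, hc⟩ := isConj_iff.1 h
  refine ⟨c, ?_⟩
  rw [← hc]
  group

theorem thm_Pos (h1 : St_Prs) : St_Pos := by
  intro g n V _ _ S e hr w α hα
  obtain ⟨hw, hc, -⟩ := hα
  have hρ1 : S.ρ (α w) = 1 := by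
    obtain ⟨c, hc1⟩ := Pos_conj hw
    rw [hc1, map_mul, map_mul, S.bd, mul_one, ← map_mul, inv_mul_cancel, map_one]
  have hv : S.v (α w) = 0 := by
    obtain ⟨c, hc1⟩ := Pos_conj hw
    have hb : ∀ y : V, S.aff (bdry g (n + 1)) y = y := by
      intro y
      unfold RSys.aff
      rw [S.bv, S.bd, zero_add]
      rfl
    have h2 : S.aff (α w) 0 = 0 := by
      rw [hc1, aff_mul, aff_mul, hb, aff_inv_apply]
    unfold RSys.aff at h2
    rwa [map_zero, add_zero] at h2
  refine ⟨hρ1, hv, ?_, ?_, ?_⟩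
  · intro l
    obtain ⟨c, hc1⟩ := Pos_conj (hc l)
    obtain ⟨k, hk⟩ := S.par l
    have hfix : S.aff (gc l) (-k) = -k := by
      unfold RSys.aff
      rw [hk, map_neg]
      abel
    refine ⟨S.aff c⁻¹ (-k), ?_⟩
    rw [hc1, aff_conj_iff, aff_apply_inv, hfix]
  · obtain ⟨c, hc1⟩ := Pos_conj (hc (Fin.last n))
    refine ⟨S.ρ c⁻¹ e, ?_⟩
    have h3 : α (cc g n) = c⁻¹ * cc g n * c := hc1
    rw [h3]
    exact hr.conj' c
  · rintro ⟨k, hk, rfl⟩ x hx
    obtain ⟨P, hP, Q, hQ, hPQ⟩ := h1.1 k hk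
    have hL : ∀ y ∈ Lts g n, S.ρ (α y) x = x := by
      intro y hy
      refine Subgroup.closure_induction (p := fun y _ => S.ρ (α y) x = x) ?_ ?_ ?_ ?_ hy
      · rintro _ ⟨X, rfl⟩
        exact hx X
      · rw [map_one, ρ_one]
        rfl
      · intro a b _ _ ha hb
        rw [map_mul, ρ_mul, hb, ha]
      · intro a _ ha
        rw [map_inv]
        have := congrArg (S.ρ (α a)⁻¹) ha
        rw [ρ_inv_apply] at this
        exact this.symm
    have h4 : S.ρ (α P) (S.ρ (α (cc g n)) x) = x := by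
      have h5 : S.ρ (α (wd g n k)) x = x := by
        rw [hρ1]
        rfl
      rw [hPQ, map_mul α, map_mul α, ρ_mul, ρ_mul, hL Q hQ] at h5
      exact h5
    have h6 := congrArg (S.ρ (α P)⁻¹) h4
    rw [ρ_inv_apply, ← map_inv, hL _ (Subgroup.inv_mem _ hP)] at h6
    exact h6

end Pool.Agent.PSB
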