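import Pool.Agent.PSB.StB

/-!
# Classes which extend to the whole group
-/

namespace Pool.Agent.PSB

open Pool.Agent.PW

/-- The homomorphism to the rationals. -/
private def Prm_hom {g n : ℕ} (f' : F g n → ℚ) (hf : ∀ x y, f' (x * y) = f' x + f' y) :
    F g n →* Multiplicative ℚ where
  toFun x := Multiplicative.ofAdd (f' x)
  map_one' := by
    have h := hf 1 1
    rw [mul_one] at h
    have h' : f' 1 = 0 := by linarith
    rw [h']
    rfl
  map_mul' x y := by
    rw [hf]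
    rfl

private theorem Prm_zpow {g n : ℕ} (f' : F g n → ℚ) (hf : ∀ x y, f' (x * y) = f' x + f' y)
    (x : F g n) (k : ℤ) : f' (x ^ k) = k * f' x := by
  have h := map_zpow (Prm_hom f' hf) x k
  have h2 : f' (x ^ k) = k • f' x := congrArg Multiplicative.toAdd h
  rw [h2, zsmul_eq_mul]

private theorem Prm_pow {g n : ℕ} (f' : F g n → ℚ) (hf : ∀ x y, f' (x * y) = f' x + f' y)
    (x : F g n) (k : ℕ) : f' (x ^ k) = k * f' x := by
  have h := Prm_zpow f' hf x k
  rw [zpow_natCast] at h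
  rw [h]
  push_cast
  ring

/-- A power of every automorphism acts trivially modulo the core. -/
private theorem Prm_power {g n : ℕ} (K : Subgroup (F g n)) [K.FiniteIndex] (T : MulAut (F g n)) :
    ∃ L : ℕ, 0 < L ∧ ∀ x, (T ^ L) x * x⁻¹ ∈ K.normalCore := by
  have hfin : Finite (F g n ⧸ K.normalCore) := inferInstance
  have hfin2 : Finite (F g n →* F g n ⧸ K.normalCore) :=
    Finite.of_equiv (Gen g n → F g n ⧸ K.normalCore) FreeGroup.lift
  let o : ℕ → (F g n →* F g n ⧸ K.normalCore) := fun m =>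
    (QuotientGroup.mk' K.normalCore).comp (T ^ m).toMonoidHom
  obtain ⟨i, j, hij, ho⟩ := Finite.exists_ne_map_eq_of_infinite o
  wlog hlt : i < j generalizing i j with H
  · exact H j i hij.symm ho.symm (lt_of_le_of_ne (not_lt.mp hlt) hij.symm)
  refine ⟨j - i, Nat.sub_pos_of_lt hlt, fun y => ?_⟩
  obtain ⟨x, rfl⟩ := (T ^ i).surjective y
  have h1 : ((T ^ i) x : F g n ⧸ K.normalCore) = ((T ^ j) x : F g n ⧸ K.normalCore) :=
    DFunLike.congr_fun ho x
  have h2 : (T ^ j) x = (T ^ (j - i)) ((T ^ i) x) := by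
    rw [← MulAut.mul_apply, ← pow_add]
    congr 2
    omega
  rw [h2] at h1
  have h3 := QuotientGroup.eq.1 h1.symm
  have h4 := (K.normalCore_normal).conj_mem _ h3 ((T ^ (j - i)) ((T ^ i) x))
  have e : (T ^ (j - i)) ((T ^ i) x) * (((T ^ (j - i)) ((T ^ i) x))⁻¹ * (T ^ i) x) *
      ((T ^ (j - i)) ((T ^ i) x))⁻¹ = ((T ^ (j - i)) ((T ^ i) x) * ((T ^ i) x)⁻¹)⁻¹ := by group
  rw [e] at h4
  exact (K.normalCore.inv_mem_iff).1 h4

/-- Two powers give the same function. -/
private theorem Prm_two {g n : ℕ} (K : Subgroup (F g n)) [K.FiniteIndex] (f : K → ℚ)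
    (hfin : (orbit K f).Finite) (f' : F g n → ℚ) (hf' : ∀ x y, f' (x * y) = f' x + f' y)
    (hff : ∀ x : K, f' x = f x) (T : MulAut (F g n)) (hT : T ∈ MCG g n) :
    ∃ L a b : ℕ, 0 < L ∧ a < b ∧ ∀ x, f' (((T ^ L) ^ a) x) = f' (((T ^ L) ^ b) x) := by
  obtain ⟨L, hL, hx⟩ := Prm_power K T
  have hle : K.normalCore ≤ K := K.normalCore_le
  have hx' : ∀ (j : ℕ) (x : F g n), ((T ^ L) ^ j) x * x⁻¹ ∈ K.normalCore := by
    intro j
    induction j with
    | zero =>
      intro x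
      simp [K.normalCore.one_mem]
    | succ j ih =>
      intro x
      rw [pow_succ, MulAut.mul_apply]
      have := K.normalCore.mul_mem (ih ((T ^ L) x)) (hx x)
      have e : ((T ^ L) ^ j) ((T ^ L) x) * ((T ^ L) x)⁻¹ * ((T ^ L) x * x⁻¹) =
          ((T ^ L) ^ j) ((T ^ L) x) * x⁻¹ := by group
      rwa [e] at this
  have hK : ∀ (j : ℕ) (x : F g n), x ∈ K ↔ ((T ^ L) ^ j) x ∈ K := by
    intro j x
    have h1 := hle (hx' j x)
    constructor
    · intro h
      have := K.mul_mem h1 h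
      rwa [inv_mul_cancel_right] at this
    · intro h
      have := K.mul_mem (K.inv_mem h1) h
      have e : (((T ^ L) ^ j) x * x⁻¹)⁻¹ * ((T ^ L) ^ j) x = x := by group
      rwa [e] at this
  let o : ℕ → orbit K f := fun j =>
    ⟨fun x => f ⟨((T ^ L) ^ j) x, (hK j x).1 x.2⟩, (T ^ L) ^ j,
      (MCG g n).pow_mem ((MCG g n).pow_mem hT L) j, hK j, fun _ => rfl⟩
  have : Finite (orbit K f) := hfin
  obtain ⟨i, j, hij, ho⟩ := Finite.exists_ne_map_eq_of_infinite o
  wlog hlt : i < j generalizing i j with H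
  · exact H j i hij.symm ho.symm (lt_of_le_of_ne (not_lt.mp hlt) hij.symm)
  refine ⟨L, i, j, hL, hlt, fun x => ?_⟩
  obtain ⟨r, hr, -, hrK⟩ := Subgroup.exists_pow_mem_of_index_ne_zero
    (Subgroup.FiniteIndex.index_ne_zero (H := K)) x
  have h1 := congrFun (congrArg Subtype.val ho) ⟨x ^ r, hrK⟩
  have h2 : f ⟨((T ^ L) ^ i) (x ^ r), (hK i _).1 hrK⟩ = f ⟨((T ^ L) ^ j) (x ^ r), (hK j _).1 hrK⟩ := h1
  rw [← hff, ← hff] at h2
  have h3 : f' (((T ^ L) ^ i) (x ^ r)) = f' (((T ^ L) ^ j) (x ^ r)) := h2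
  rw [map_pow, map_pow, Prm_pow f' hf', Prm_pow f' hf'] at h3
  have hr' : (r : ℚ) ≠ 0 := by
    have : r ≠ 0 := hr.ne'
    exact_mod_cast this
  exact mul_left_cancel₀ hr' h3

private theorem Prm_e1_pow {g n : ℕ} (i : Fin g) (k : ℤ) (m : ℕ) :
    (e1 i k : MulAut (F g n)) ^ m = e1 i (k * m) := by
  induction m with
  | zero =>
    apply MulEquiv.ext
    intro x
    rw [e1_apply, Nat.cast_zero, mul_zero, e1h_zero]
    rfl
  | succ m ih =>
    rw [pow_succ, ih]
    apply MulEquiv.ext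
    intro x
    rw [MulAut.mul_apply, e1_apply, e1_apply, e1_apply, ← MonoidHom.comp_apply, e1h_comp]
    congr 2
    push_cast
    ring

private theorem Prm_zero (u w : ℚ) (L a b : ℕ) (hL : 0 < L) (hab : a < b)
    (h : u + ((1 * L * a : ℤ) : ℚ) * w = u + ((1 * L * b : ℤ) : ℚ) * w) : w = 0 := by
  have h1 : ((L : ℚ) * ((b : ℚ) - a)) * w = 0 := by
    push_cast at h
    linarith
  have h2 : (L : ℚ) ≠ 0 := by
    have : L ≠ 0 := hL.ne'
    exact_mod_cast this
  have h3 : (b : ℚ) - a ≠ 0 := by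
    have : (a : ℚ) < b := by exact_mod_cast hab
    linarith
  exact (mul_eq_zero.1 h1).resolve_left (mul_ne_zero h2 h3)

theorem thm_Prm : St_Prm := by
  intro g n K _ f hcl hfin f' hf' hff
  have hb : ∀ i : Fin g, f' (gb i) = 0 := by
    intro i
    obtain ⟨L, a, b, hL, hab, h⟩ := Prm_two K f hfin f' hf' hff (e2 i 1) (e2_mem i 1)
    have h1 := h (ga i)
    rw [e2_pow, e2_pow, e2_pow, e2_apply, e2_apply, e2h_a, e2h_a, hf', hf', Prm_zpow f' hf',
      Prm_zpow f' hf'] at h1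
    exact Prm_zero _ _ L a b hL hab h1
  have ha : ∀ i : Fin g, f' (ga i) = 0 := by
    intro i
    obtain ⟨L, a, b, hL, hab, h⟩ := Prm_two K f hfin f' hf' hff (e1 i 1) (e1_mem i 1)
    have h1 := h (gb i)
    rw [Prm_e1_pow, Prm_e1_pow, Prm_e1_pow, e1_apply, e1_apply, e1h_b, e1h_b, hf', hf',
      Prm_zpow f' hf', Prm_zpow f' hf'] at h1
    exact Prm_zero _ _ L a b hL hab h1
  have hc : ∀ j : Fin n, f' (gc j) = 0 := by
    intro j
    obtain ⟨r, hr, -, hrK⟩ := Subgroup.exists_pow_mem_of_index_ne_zero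
      (Subgroup.FiniteIndex.index_ne_zero (H := K)) (gc j)
    have h1 : f' (gc j ^ r) = 0 := by
      have h2 := hff ⟨gc j ^ r, hrK⟩
      rw [hcl.marked ⟨gc j ^ r, hrK⟩ j r (IsConj.refl _)] at h2
      exact h2
    rw [Prm_pow f' hf'] at h1
    have hr' : (r : ℚ) ≠ 0 := by
      have : r ≠ 0 := hr.ne'
      exact_mod_cast this
    exact (mul_eq_zero.1 h1).resolve_left hr'
  have hhom : Prm_hom f' hf' = 1 := by
    apply hom_ext
    · intro i
      show Multiplicative.ofAdd (f' (ga i)) = 1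
      rw [ha]
      rfl
    · intro i
      show Multiplicative.ofAdd (f' (gb i)) = 1
      rw [hb]
      rfl
    · intro j
      show Multiplicative.ofAdd (f' (gc j)) = 1
      rw [hc]
      rfl
  funext x
  rw [← hff]
  exact congrArg Multiplicative.toAdd (DFunLike.congr_fun hhom (x : F g n))

end Pool.Agent.PSB
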