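import Pool.Agent.PSB.St

/-!
# Simple branch points: the words contain `cc` once
-/

namespace Pool.Agent.PSB

open Pool.Agent.PW

theorem Prs_lt {g n : ℕ} (X : Gen g n) : (lt X : F g (n + 1)) ∈ Lts g n :=
  Subgroup.subset_closure ⟨X, rfl⟩

theorem Prs_ga {g n : ℕ} (i : Fin g) : (ga i : F g (n + 1)) ∈ Lts g n := Prs_lt (Gen.a i)

theorem Prs_gb {g n : ℕ} (i : Fin g) : (gb i : F g (n + 1)) ∈ Lts g n := Prs_lt (Gen.b i)

theorem Prs_seg {g n : ℕ} (s m : ℕ) : seg g (n + 1) s m ∈ Lts g n :=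
  seg_mem fun i _ _ => ⟨Prs_ga i, Prs_gb i⟩

theorem Prs_pc {g n : ℕ} (j : Fin n) : pc g (n + 1) j = lt (Gen.c j) := by
  unfold pc
  rw [dif_pos (Nat.lt_succ_of_lt j.2)]
  rfl

theorem Prs_cseg {g n : ℕ} (s m : ℕ) (h : s + m ≤ n) : cseg g (n + 1) s m ∈ Lts g n := by
  unfold cseg
  apply Subgroup.list_prod_mem
  intro x hx
  rw [List.mem_map] at hx
  obtain ⟨k, hk, rfl⟩ := hx
  rw [List.mem_range'_1] at hk
  have hkn : k < n := by omega
  rw [show k = ((⟨k, hkn⟩ : Fin n) : ℕ) from rfl, Prs_pc]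
  exact Prs_lt _

theorem thm_Prs : St_Prs := by
  intro g n
  constructor
  · intro k hk
    unfold wd
    split_ifs with h
    · have ha := Prs_ga (n := n) (⟨k / 4, h⟩ : Fin g)
      have hb := Prs_gb (n := n) (⟨k / 4, h⟩ : Fin g)
      have h1 : seg g (n + 1) (k / 4 + 1) (g - k / 4 - 1) * cseg g (n + 1) 0 n ∈ Lts g n :=
        mul_mem (Prs_seg _ _) (Prs_cseg _ _ (by omega))
      have h0 := Prs_seg (g := g) (n := n) 0 (k / 4)
      unfold stg
      split_ifs with h2 h3 h4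
      · refine ⟨_, h0, _, mul_mem (mul_mem (mul_mem (mul_mem ha hb) (inv_mem ha)) (inv_mem hb)) h1,
          ?_⟩
        group
      · refine ⟨_, mul_mem h0 (mul_mem (mul_mem ha hb) (inv_mem ha)), _, mul_mem (inv_mem hb) h1,
          ?_⟩
        group
      · refine ⟨_, mul_mem h0 (mul_mem ha hb), _, mul_mem (mul_mem (inv_mem ha) (inv_mem hb)) h1,
          ?_⟩
        group
      · refine ⟨_, mul_mem h0 ha, _, mul_mem (mul_mem (mul_mem hb (inv_mem ha)) (inv_mem hb)) h1,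
          ?_⟩
        group
    · refine ⟨_, mul_mem (Prs_seg 0 g) (Prs_cseg 0 (k - 4 * g) (by omega)), _,
        Prs_cseg (k - 4 * g) (n - (k - 4 * g)) (by omega), rfl⟩
  · intro j
    unfold wd
    have h : ¬ (4 * g + (j : ℕ)) / 4 < g := by omega
    rw [dif_neg h]
    have h1 : 4 * g + (j : ℕ) - 4 * g = j := by omega
    rw [h1]
    have h2 : n - (j : ℕ) = 1 + (n - j - 1) := by
      have := j.2
      omega
    have h3 : cseg g (n + 1) j (n - j) =
        lt (Gen.c j) * cseg g (n + 1) (j + 1) (n - j - 1) := by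
      rw [h2, cseg_add, cseg_one, Prs_pc]
      congr 2
      omega
    rw [h3]
    group

end Pool.Agent.PSB
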