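import Pool.Agent.PSB.Gmv

/-!
# Simple branch points: Zero states at all reached frames
-/

namespace Pool.Agent.PSB

open Pool.Agent.PW

theorem thm_Rch (h1 : St_Stp) (h2 : St_Gmv) (h3 : St_Gpu) (h4 : St_Frm) : St_Rch := by
  intro g n V _ _ _ S e₀ he₀ M hM α₀ k₀ e₁ p hZ₀ α k hR
  obtain ⟨f1, -, -, -, f5, f6⟩ := h4 (g := g) (n := n)
  induction hR with
  | base => exact ⟨e₁, hZ₀, fun _ => rfl⟩
  | @cr α k _ hk ih =>
    obtain ⟨e, hZ, hfl⟩ := ih
    obtain ⟨a1, a2, a3, a4⟩ := hZ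
    obtain ⟨-, hs⟩ := h1 S e₀ he₀ M hM k hk α a2 e p 0 a3 a4
    obtain ⟨b1, b2, b3, b4⟩ := hs rfl
    refine ⟨e, ⟨by omega, f1 k hk α a2, b1, b2⟩, fun X => ?_⟩
    rw [← hfl X, MulAut.mul_apply]
    by_cases hkg : k < 4 * g
    · have h : k / 4 < g := by omega
      have hx := b3 hkg
      have hL : ∀ Y : Gen g n, lab g n k = lt Y → vx Y = none →
          S.fl (α (lm Y (lt X))) (p (vx X)) = S.fl (α (lt X)) (p (vx X)) := by
        intro Y hY hv
        by_cases hXY : X = Y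
        · subst hXY
          rw [lm_self, map_mul, hv, fl_fix_mul a3.fix]
          rw [hY] at hx
          exact a3.ref.eq_self hx
        · rw [lm_ne hXY]
      have hRm : ∀ Y : Gen g n, vx Y = none →
          S.fl (α (rm Y (lt X))) (p (vx X)) = S.fl (α (lt X)) (p (vx X)) := by
        intro Y hv
        by_cases hXY : X = Y
        · subst hXY
          rw [rm_self, map_mul, hv, map_inv, fl_mul_fix (aff_inv_fix a3.fix)]
        · rw [rm_ne hXY]
      unfold chi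
      rw [dif_pos h]
      unfold lab at hL
      rw [dif_pos h] at hL
      split_ifs with c0 c1 c2
      · exact hL _ (by rw [if_pos c0]; rfl) rfl
      · exact hRm _ rfl
      · exact hRm _ rfl
      · exact hL _ (by rw [if_neg c0, if_neg c1, if_neg c2]; rfl) rfl
    · have h : ¬ k / 4 < g := by omega
      have h' : k - 4 * g < n := by omega
      unfold chi
      rw [dif_neg h, dif_pos h', MulAut.mul_apply]
      have hkj : k = 4 * g + ((⟨k - 4 * g, h'⟩ : Fin n) : ℕ) := by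
        show k = 4 * g + (k - 4 * g)
        omega
      have hZ' : S.Zero M α (4 * g + ((⟨k - 4 * g, h'⟩ : Fin n) : ℕ)) e p := by
        rw [← hkj]
        exact ⟨a1, a2, a3, a4⟩
      obtain ⟨c1, c2, -⟩ := h3 S e₀ he₀ M hM ⟨k - 4 * g, h'⟩ α e p hZ'
      have hfj := a3.ref.fix_of_inner a3.fix c1
      by_cases hX : X = Gen.c ⟨k - 4 * g, h'⟩
      · subst hX
        rw [rm_self, map_mul, lm_self, map_inv, lm_cc, map_mul, map_mul, map_inv,
          show vx (Gen.c ⟨k - 4 * g, h'⟩ : Gen g n) = some ⟨k - 4 * g, h'⟩ from rfl,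
          fl_mul_fix (aff_inv_fix hfj), fl_fix_mul hfj]
        exact a3.ref.eq_self c2
      · rw [rm_ne hX, lm_ne hX]
  | @wr α _ ih =>
    obtain ⟨e, ⟨a1, a2, a3, a4⟩, hfl⟩ := ih
    exact ⟨e, ⟨by omega, (f5 α).2 ((f6 α).1 a2), a3, a4⟩, hfl⟩
  | @mv α k _ hk ih =>
    obtain ⟨e, hZ, hfl⟩ := ih
    refine ⟨_, (h2 S e₀ he₀ M hM k α e p hk hZ).2, fun X => ?_⟩
    rw [← hfl X, MulAut.mul_apply, Gmv_lt]
  | @pu α j _ ih =>
    obtain ⟨e, hZ, hfl⟩ := ih
    refine ⟨_, (h3 S e₀ he₀ M hM j α e p hZ).2.2, fun X => ?_⟩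
    rw [← hfl X, MulAut.mul_apply, mp_lt]

end Pool.Agent.PSB
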