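import Pool.Agent.PSB.StB

/-!
# Simple branch points, module Sim: two simple branch points
-/

namespace Pool.Agent.PSB

open Pool.Agent.PW

theorem Sim_eq {G : Type} [Group G] (K : Subgroup G) (d u v : G) :
    d • (QuotientGroup.mk u : G ⧸ K) = QuotientGroup.mk v ↔ v⁻¹ * (d * u) ∈ K := by
  rw [MulAction.Quotient.smul_mk, eq_comm, QuotientGroup.eq]
  rfl

theorem thm_Sim : St_Sim := by
  intro G _ K c d hc hd w
  by_contra hw
  have hKL : K ≤ K ⊔ Subgroup.normalClosure {c} := le_sup_left
  obtain ⟨L, hL⟩ : ∃ L, L = K ⊔ Subgroup.normalClosure {c} := ⟨_, rfl⟩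
  rw [← hL] at hw hKL
  rcases hd with ⟨p, q, hpq, hdp, hdq, hdr⟩ | hd
  · obtain ⟨p', q', hpq', hcp, -, -⟩ := hc
    obtain ⟨u, rfl⟩ := QuotientGroup.mk_surjective p'
    have hl1 : u⁻¹ * (c * u) ∉ K := by
      intro h
      rw [← Sim_eq, hcp] at h
      exact hpq' h.symm
    have hl2 : u⁻¹ * (c * u) ∈ L := by
      rw [hL]
      refine Subgroup.mem_sup_right ?_
      have h := (Subgroup.normalClosure_normal (s := {c})).conj_mem c
        (Subgroup.subset_normalClosure (Set.mem_singleton c)) u⁻¹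
      rwa [inv_inv, mul_assoc] at h
    obtain ⟨l, hl⟩ : ∃ l, l = u⁻¹ * (c * u) := ⟨_, rfl⟩
    rw [← hl] at hl1 hl2
    obtain ⟨a, ha⟩ : ∃ a : G ⧸ K, a = QuotientGroup.mk w := ⟨_, rfl⟩
    obtain ⟨b, hb⟩ : ∃ b : G ⧸ K, b = QuotientGroup.mk (w * l) := ⟨_, rfl⟩
    have hab : a ≠ b := by
      intro h
      rw [ha, hb, QuotientGroup.eq] at h
      apply hl1
      rwa [inv_mul_cancel_left] at h
    have hda : d • a ≠ a := by
      intro h
      rw [ha, Sim_eq] at h
      apply hw
      rw [mul_assoc]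
      exact hKL h
    have hdb : d • b ≠ b := by
      intro h
      rw [hb, Sim_eq] at h
      apply hw
      have h1 := L.mul_mem (L.mul_mem hl2 (hKL h)) (L.inv_mem hl2)
      have h2 : l * ((w * l)⁻¹ * (d * (w * l))) * l⁻¹ = w⁻¹ * d * w := by group
      rwa [h2] at h1
    have hdab : d • a ≠ b := by
      intro h
      rw [ha, hb, Sim_eq] at h
      apply hw
      have h1 := L.mul_mem hl2 (hKL h)
      have h2 : l * ((w * l)⁻¹ * (d * w)) = w⁻¹ * d * w := by group
      rwa [h2] at h1
    have ha' : a = p ∨ a = q := by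
      by_contra hcon
      push Not at hcon
      exact hda (hdr a hcon.1 hcon.2)
    have hb' : b = p ∨ b = q := by
      by_contra hcon
      push Not at hcon
      exact hdb (hdr b hcon.1 hcon.2)
    rcases ha' with rfl | rfl
    · rcases hb' with rfl | rfl
      · exact hab rfl
      · exact hdab hdp
    · rcases hb' with rfl | rfl
      · exact hdab hdq
      · exact hab rfl
  · have h := hd (QuotientGroup.mk w)
    rw [Sim_eq] at h
    apply hw
    rw [mul_assoc]
    exact hKL h

end Pool.Agent.PSB
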