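import Pool.Agent.PSB.St

/-!
# Simple branch points: the span of the vectors is invariant
-/

set_option autoImplicit false

namespace Pool.Agent.PSB

open Pool.Agent.PW

variable {g n : ℕ}

theorem Spn_chi_cc (k : ℕ) : chi g n k (cc g n) = cc g n := by
  unfold chi
  split_ifs <;> simp [MulAut.mul_apply]

theorem Spn_mv_lt (k : ℕ) (X : Gen g n) : mv g n k (lt X) = lt X := by
  unfold mv
  split_ifs
  · exact mp_lt _ _
  · exact mp_inv_lt _ _
  · exact mp_inv_lt _ _
  · exact mp_lt _ _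
  · rfl

theorem Spn_chi (k : ℕ) (hk : k < 4 * g + n) : ∃ Y : Gen g n,
    (chi g n k = lm Y ∧ lab g n k = lt Y ∧ k < 4 * g) ∨ chi g n k = rm Y ∨
      ∃ j : Fin n, Y = Gen.c j ∧ k = 4 * g + j ∧ chi g n k = lm Y * rm Y := by
  by_cases h : k / 4 < g
  · have hk4 : k < 4 * g := by omega
    by_cases h0 : k % 4 = 0
    · refine ⟨Gen.a ⟨k / 4, h⟩, Or.inl ⟨?_, ?_, hk4⟩⟩
      · unfold chi
        rw [dif_pos h, if_pos h0]
      · unfold lab
        rw [dif_pos h, if_pos h0]
        rfl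
    · by_cases h1 : k % 4 = 1
      · refine ⟨Gen.b ⟨k / 4, h⟩, Or.inr (Or.inl ?_)⟩
        unfold chi
        rw [dif_pos h, if_neg h0, if_pos h1]
      · by_cases h2 : k % 4 = 2
        · refine ⟨Gen.a ⟨k / 4, h⟩, Or.inr (Or.inl ?_)⟩
          unfold chi
          rw [dif_pos h, if_neg h0, if_neg h1, if_pos h2]
        · refine ⟨Gen.b ⟨k / 4, h⟩, Or.inl ⟨?_, ?_, hk4⟩⟩
          · unfold chi
            rw [dif_pos h, if_neg h0, if_neg h1, if_neg h2]
          · unfold lab
            rw [dif_pos h, if_neg h0, if_neg h1, if_neg h2]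
            rfl
  · have hk4 : k - 4 * g < n := by omega
    refine ⟨Gen.c ⟨k - 4 * g, hk4⟩, Or.inr (Or.inr ⟨⟨k - 4 * g, hk4⟩, rfl, ?_, ?_⟩)⟩
    · show k = 4 * g + (k - 4 * g)
      omega
    · unfold chi
      rw [dif_neg h, dif_pos hk4]

/-- Rotation upwards. -/
theorem Spn_up {α₀ : MulAut (F g (n + 1))} {k₀ : ℕ} {α : MulAut (F g (n + 1))} {k : ℕ}
    (h : Rch g n α₀ k₀ α k) (m : ℕ) (hkm : k ≤ m) (hm : m ≤ 4 * g + n) :
    ∃ α', Rch g n α₀ k₀ α' m ∧ α' (cc g n) = α (cc g n) := by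
  induction m, hkm using Nat.le_induction with
  | base => exact ⟨α, h, rfl⟩
  | succ m _ ih =>
    obtain ⟨α', h1, h2⟩ := ih (by omega)
    exact ⟨α' * chi g n m, Rch.cr h1 (by omega), by rw [MulAut.mul_apply, Spn_chi_cc, h2]⟩

/-- Rotation. -/
theorem Spn_rot {α₀ : MulAut (F g (n + 1))} {k₀ : ℕ} {α : MulAut (F g (n + 1))} {k : ℕ}
    (h : Rch g n α₀ k₀ α k) (hk : k ≤ 4 * g + n) (m : ℕ) (hm : m ≤ 4 * g + n) :
    ∃ α', Rch g n α₀ k₀ α' m ∧ α' (cc g n) = α (cc g n) := by
  obtain ⟨α', h1, h2⟩ := Spn_up h (4 * g + n) hk le_rfl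
  obtain ⟨α'', h3, h4⟩ := Spn_up (Rch.wr h1) m (Nat.zero_le _) hm
  exact ⟨α'', h3, h4.trans h2⟩

variable {V : Type} [NormedAddCommGroup V] [InnerProductSpace ℝ V]

theorem Spn_zero {S : RSys g n V} {M : ℝ} {α : MulAut (F g (n + 1))} {k : ℕ} {e e' : V}
    {p : Pt n V} (h : S.Zero M α k e p) (h' : S.IsRef (α (cc g n)) e') : S.Zero M α k e' p := by
  obtain ⟨h1, h2, h3, h4⟩ := h
  refine ⟨h1, h2, ⟨h', h3.fix, ?_, h3.off_w⟩, h4⟩
  rw [h3.at_w, zero_smul, zero_smul]

theorem thm_Spn (h1 : St_Rch) (h2 : St_Gmv) (h3 : St_Gpu) : St_Spn := by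
  intro g n V _ _ _ S e₀ hr M hB α₀ k₀ e₁ p hz
  have hR := h1 S e₀ hr M hB α₀ k₀ e₁ p hz
  let E : Submodule ℝ V :=
    Submodule.span ℝ {e | ∃ α k, Rch g n α₀ k₀ α k ∧ S.Zero M α k e p}
  have hE : ∀ α k e, Rch g n α₀ k₀ α k → S.Zero M α k e p → e ∈ E := by
    intro α k e h h'
    exact Submodule.subset_span ⟨α, k, h, h'⟩
  have hEr : ∀ α k e, Rch g n α₀ k₀ α k → S.IsRef (α (cc g n)) e → S.Zero M α k e p := by
    intro α k e h h'
    obtain ⟨e', he', -⟩ := hR α k h
    exact Spn_zero he' h'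
  -- the images of the vectors
  have hmv : ∀ α k e, Rch g n α₀ k₀ α k → k < 4 * g → S.Zero M α k e p →
      S.ρ (α (lab g n k))⁻¹ e ∈ E := by
    intro α k e h hk h'
    exact hE _ _ _ (Rch.mv h hk) (h2 S e₀ hr M hB k α e p hk h').2
  have hpu : ∀ α (j : Fin n) e, Rch g n α₀ k₀ α (4 * g + j) → S.Zero M α (4 * g + j) e p →
      S.ρ (α (lt (Gen.c j)))⁻¹ e ∈ E := by
    intro α j e h h'
    exact hE _ _ _ (Rch.pu j h) (h3 S e₀ hr M hB j α e p h').2.2
  -- (A)
  have hA : ∀ α k, Rch g n α₀ k₀ α k → ∀ (X : Gen g n) (y : V),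
      S.ρ (α (lt X))⁻¹ y - S.ρ (α₀ (lt X))⁻¹ y ∈ E := by
    intro α k h
    induction h with
    | base =>
      intro X y
      rw [sub_self]
      exact E.zero_mem
    | @cr α k h hk ih =>
      intro X y
      obtain ⟨e, he, -⟩ := hR α k h
      have hre : S.IsRef (α (cc g n)) e := he.2.2.1.ref
      have heE : e ∈ E := hE _ _ _ h he
      have hstep : S.ρ ((α * chi g n k) (lt X))⁻¹ y - S.ρ (α (lt X))⁻¹ y ∈ E := by
        obtain ⟨Y, ⟨hY, hlab, hk4⟩ | hY | ⟨j, hj, hkj, hY⟩⟩ := Spn_chi k hk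
        · rw [hY, MulAut.mul_apply]
          by_cases hXY : X = Y
          · subst hXY
            rw [lm_self, map_mul, mul_inv_rev, ρ_mul, hre.inv, hre.apply, map_sub, map_smul,
              sub_sub_cancel_left]
            refine E.neg_mem (E.smul_mem _ ?_)
            have := hmv α k e h hk4 he
            rwa [hlab] at this
          · rw [lm_ne hXY, sub_self]
            exact E.zero_mem
        · rw [hY, MulAut.mul_apply]
          by_cases hXY : X = Y
          · subst hXY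
            rw [rm_self, map_mul α, map_inv α, mul_inv_rev, inv_inv, ρ_mul, hre.apply,
              sub_sub_cancel_left]
            exact E.neg_mem (E.smul_mem _ heE)
          · rw [rm_ne hXY, sub_self]
            exact E.zero_mem
        · rw [hY, MulAut.mul_apply, MulAut.mul_apply]
          by_cases hXY : X = Y
          · subst hXY
            have hl : lm X (rm X (lt X)) = cc g n * lt X * (cc g n)⁻¹ := by
              rw [rm_self, map_mul (lm X), map_inv (lm X), lm_self, lm_cc]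
            rw [hl, map_mul α, map_mul α, map_inv α, mul_inv_rev, inv_inv, mul_inv_rev, ρ_mul, ρ_mul,
              hre.inv, hre.apply y, map_sub, map_smul, hre.apply]
            have h4 : S.ρ (α (lt X))⁻¹ e ∈ E := by
              subst hj
              subst hkj
              exact hpu α j e h he
            have h5 : S.ρ (α (lt X))⁻¹ y - (2 * inner ℝ e y) • S.ρ (α (lt X))⁻¹ e -
                (2 * inner ℝ e (S.ρ (α (lt X))⁻¹ y - (2 * inner ℝ e y) •
                  S.ρ (α (lt X))⁻¹ e)) • e - S.ρ (α (lt X))⁻¹ y =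
                -((2 * inner ℝ e y) • S.ρ (α (lt X))⁻¹ e) -
                (2 * inner ℝ e (S.ρ (α (lt X))⁻¹ y - (2 * inner ℝ e y) •
                  S.ρ (α (lt X))⁻¹ e)) • e := by abel
            rw [h5]
            exact E.sub_mem (E.neg_mem (E.smul_mem _ h4)) (E.smul_mem _ heE)
          · rw [rm_ne hXY, lm_ne hXY, sub_self]
            exact E.zero_mem
      have := E.add_mem hstep (ih X y)
      rwa [sub_add_sub_cancel] at this
    | wr h ih => exact ih
    | @mv α k h hk ih =>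
      intro X y
      rw [MulAut.mul_apply, Spn_mv_lt]
      exact ih X y
    | @pu α j h ih =>
      intro X y
      rw [MulAut.mul_apply, mp_lt]
      exact ih X y
  -- (B)
  have hB' : ∀ e ∈ {e | ∃ α k, Rch g n α₀ k₀ α k ∧ S.Zero M α k e p}, ∀ X : Gen g n,
      S.ρ (α₀ (lt X))⁻¹ e ∈ E ∧ inner ℝ e (S.fl (α₀ (lt X)) (p (vx X))) = (0 : ℝ) ∧
        ∀ j, X = Gen.c j → inner ℝ e (p (some j) - p none) = (0 : ℝ) := by
    rintro e ⟨α, k, h, he⟩ X
    have hre : S.IsRef (α (cc g n)) e := he.2.2.1.ref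
    -- the corner of the letter
    have hcor : ∀ m, m < 4 * g → lab g n m = lt X → vx X = none →
        S.ρ (α₀ (lt X))⁻¹ e ∈ E ∧ inner ℝ e (S.fl (α₀ (lt X)) (p (vx X))) = (0 : ℝ) := by
      intro m hm hlab hvx
      obtain ⟨α', h4, h5⟩ := Spn_rot h he.1 m (by omega)
      have h6 : S.Zero M α' m e p := hEr _ _ _ h4 (by rw [h5]; exact hre)
      have h7 := hmv α' m e h4 hm h6
      rw [hlab] at h7
      have h8 := E.sub_mem h7 (hA α' m h4 X e)
      rw [sub_sub_cancel] at h8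
      refine ⟨h8, ?_⟩
      have h9 := (h2 S e₀ hr M hB m α' e p hm h6).1
      rw [hlab] at h9
      obtain ⟨-, -, h10⟩ := hR α' m h4
      rw [← h10 X, hvx]
      exact h9
    cases X with
    | a i =>
      have hi := i.2
      have h4 := hcor (4 * i) (by omega) (by
        unfold lab
        have h5 : 4 * (i : ℕ) / 4 < g := by omega
        rw [dif_pos h5, if_pos (by omega)]
        have h6 : (⟨4 * (i : ℕ) / 4, h5⟩ : Fin g) = i := by
          apply Fin.ext
          show 4 * (i : ℕ) / 4 = i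
          omega
        rw [h6]
        rfl) rfl
      exact ⟨h4.1, h4.2, fun j hj => by cases hj⟩
    | b i =>
      have hi := i.2
      have h4 := hcor (4 * i + 3) (by omega) (by
        unfold lab
        have h5 : (4 * (i : ℕ) + 3) / 4 < g := by omega
        rw [dif_pos h5, if_neg (by omega), if_neg (by omega), if_neg (by omega)]
        have h6 : (⟨(4 * (i : ℕ) + 3) / 4, h5⟩ : Fin g) = i := by
          apply Fin.ext
          show (4 * (i : ℕ) + 3) / 4 = i
          omega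
        rw [h6]
        rfl) rfl
      exact ⟨h4.1, h4.2, fun j hj => by cases hj⟩
    | c j =>
      have hj := j.2
      obtain ⟨α', h4, h5⟩ := Spn_rot h he.1 (4 * g + j) (by omega)
      have h6 : S.Zero M α' (4 * g + j) e p := hEr _ _ _ h4 (by rw [h5]; exact hre)
      have h7 := hpu α' j e h4 h6
      have h8 := E.sub_mem h7 (hA α' _ h4 (Gen.c j) e)
      rw [sub_sub_cancel] at h8
      obtain ⟨h9, h10, -⟩ := h3 S e₀ hr M hB j α' e p h6
      obtain ⟨-, -, h11⟩ := hR α' _ h4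
      refine ⟨h8, ?_, ?_⟩
      · rw [← h11 (Gen.c j)]
        exact h10
      · intro j' hj'
        cases hj'
        exact h9
  have hre₁ : S.IsRef (α₀ (cc g n)) e₁ := hz.2.2.1.ref
  have he₁ : e₁ ∈ E := hE _ _ _ Rch.base hz
  -- (C)
  have hinv : ∀ x : F g (n + 1), (∀ y ∈ E, S.ρ x⁻¹ y ∈ E) → ∀ y ∈ E, S.ρ x y ∈ E := by
    intro x hx y hy
    let f : E →ₗ[ℝ] E := (S.ρ x⁻¹).restrict hx
    have hinj : Function.Injective f := by
      intro a b hab
      have h4 : S.ρ x⁻¹ (a : V) = S.ρ x⁻¹ (b : V) := congrArg Subtype.val hab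
      have h5 := congrArg (S.ρ x) h4
      rw [ρ_apply_inv, ρ_apply_inv] at h5
      exact Subtype.ext h5
    have hsurj := LinearMap.injective_iff_surjective.1 hinj
    obtain ⟨z, hz'⟩ := hsurj ⟨y, hy⟩
    have h4 : S.ρ x⁻¹ (z : V) = y := congrArg Subtype.val hz'
    rw [← h4, ρ_apply_inv]
    exact z.2
  have hlt : ∀ X : Gen g n, ∀ y ∈ E, S.ρ (α₀ (lt X))⁻¹ y ∈ E := by
    intro X y hy
    have hle : E ≤ E.comap (S.ρ (α₀ (lt X))⁻¹) := by
      refine Submodule.span_le.2 fun e he => ?_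
      exact (hB' e he X).1
    exact hle hy
  have hcc : ∀ y ∈ E, S.ρ (α₀ (cc g n)) y ∈ E := by
    intro y hy
    rw [hre₁.apply]
    exact E.sub_mem hy (E.smul_mem _ he₁)
  have hcc' : ∀ y ∈ E, S.ρ (α₀ (cc g n))⁻¹ y ∈ E := by
    intro y hy
    rw [hre₁.inv]
    exact hcc y hy
  let G : Subgroup (F g (n + 1)) :=
    { carrier := {x | (∀ y ∈ E, S.ρ (α₀ x) y ∈ E) ∧ ∀ y ∈ E, S.ρ (α₀ x)⁻¹ y ∈ E}
      one_mem' := by
        refine ⟨fun y hy => ?_, fun y hy => ?_⟩
        · rw [map_one, ρ_one]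
          exact hy
        · rw [map_one, inv_one, ρ_one]
          exact hy
      mul_mem' := by
        rintro a b ⟨ha, ha'⟩ ⟨hb, hb'⟩
        refine ⟨fun y hy => ?_, fun y hy => ?_⟩
        · rw [map_mul, ρ_mul]
          exact ha _ (hb y hy)
        · rw [map_mul, mul_inv_rev, ρ_mul]
          exact hb' _ (ha' y hy)
      inv_mem' := by
        rintro a ⟨ha, ha'⟩
        refine ⟨fun y hy => ?_, fun y hy => ?_⟩
        · rw [map_inv α₀]
          exact ha' y hy
        · rw [map_inv α₀, inv_inv]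
          exact ha y hy }
  have hG : ∀ x, x ∈ G := by
    intro x
    refine FreeGroup.induction_on x G.one_mem (fun y => ?_) (fun y h => G.inv_mem h)
      fun a b ha hb => G.mul_mem ha hb
    rcases gen_cases y with rfl | ⟨X, rfl⟩
    · exact ⟨hcc, hcc'⟩
    · exact ⟨hinv _ (hlt X), hlt X⟩
  refine ⟨E, he₁, ?_, ?_, ?_⟩
  · intro x y hy
    have h4 := (hG (α₀⁻¹ x)).1 y hy
    have h5 : α₀ (α₀⁻¹ x) = x := by simp
    rwa [h5] at h4
  · intro y hy X
    induction hy using Submodule.span_induction with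
    | mem e he => exact (hB' e he X).2.1
    | zero => rw [inner_zero_left]
    | add a b _ _ ha hb => rw [inner_add_left, ha, hb, add_zero]
    | smul r a _ ha => rw [real_inner_smul_left, ha, mul_zero]
  · intro y hy j
    induction hy using Submodule.span_induction with
    | mem e he => exact (hB' e he (Gen.c j)).2.2 j rfl
    | zero => rw [inner_zero_left]
    | add a b _ _ ha hb => rw [inner_add_left, ha, hb, add_zero]
    | smul r a _ ha => rw [real_inner_smul_left, ha, mul_zero]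

end Pool.Agent.PSB
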