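import Pool.Agent.PSB.St

/-!
# Simple branch points: crossing of a stem
-/

namespace Pool.Agent.PSB

open Pool.Agent.PW

section

variable {g n : ℕ} {V : Type} [NormedAddCommGroup V] [InnerProductSpace ℝ V]

/-- The crossing of the stem `j`. -/
def Stc_m (g : ℕ) {n : ℕ} (j : Fin n) : MulAut (F g (n + 1)) :=
  lm (Gen.c j : Gen g n) * rm (Gen.c j : Gen g n)

theorem Stc_cc (α : MulAut (F g (n + 1))) (j : Fin n) :
    (α * Stc_m g j) (cc g n) = α (cc g n) := by
  unfold Stc_m
  rw [MulAut.mul_apply, MulAut.mul_apply, rm_cc, lm_cc]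

theorem Stc_self (α : MulAut (F g (n + 1))) (j : Fin n) :
    (α * Stc_m g j) (lt (Gen.c j : Gen g n)) =
      α (cc g n) * α (lt (Gen.c j : Gen g n)) * (α (cc g n))⁻¹ := by
  unfold Stc_m
  rw [MulAut.mul_apply, MulAut.mul_apply, rm_self, map_mul, lm_self, map_inv, lm_cc, map_mul,
    map_mul, map_inv]

theorem Stc_ne (α : MulAut (F g (n + 1))) (j : Fin n) {Y : Gen g n} (h : Y ≠ Gen.c j) :
    (α * Stc_m g j) (lt Y) = α (lt Y) := by
  unfold Stc_m
  rw [MulAut.mul_apply, MulAut.mul_apply, rm_ne h, lm_ne h]

theorem Stc_vx (Y : Gen g n) (j : Fin n) : vx Y = some j ↔ Y = Gen.c j := by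
  cases Y with
  | a i => simp [vx]
  | b i => simp [vx]
  | c i => simp [vx]

theorem Stc_flc (S : RSys g n V) (c x : F g (n + 1)) (h : V) :
    S.fl (c * x * c⁻¹) (S.aff c h) = S.ρ c (S.fl x h) := by
  unfold RSys.fl
  rw [aff_mul, aff_mul, aff_inv_apply, aff_sub]

theorem Stc_flci (S : RSys g n V) (c x : F g (n + 1)) (h : V) :
    S.fl (c * x * c⁻¹)⁻¹ (S.aff c h) = S.ρ c (S.fl x⁻¹ h) := by
  rw [← Stc_flc]
  congr 1
  group

/-- The flow in the letter `Y` after the crossing. -/
theorem Stc_fl (S : RSys g n V) (α : MulAut (F g (n + 1))) (p : Pt n V) (j : Fin n)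
    (Y : Gen g n) :
    S.fl ((α * Stc_m g j) (lt Y))
        ((Function.update p (some j) (S.aff (α (cc g n)) (p (some j)))) (vx Y)) =
      (if vx Y = some j then S.ρ (α (cc g n)) (S.fl (α (lt Y)) (p (vx Y)))
        else S.fl (α (lt Y)) (p (vx Y))) ∧
    S.fl ((α * Stc_m g j) (lt Y))⁻¹
        ((Function.update p (some j) (S.aff (α (cc g n)) (p (some j)))) (vx Y)) =
      (if vx Y = some j then S.ρ (α (cc g n)) (S.fl (α (lt Y))⁻¹ (p (vx Y)))
        else S.fl (α (lt Y))⁻¹ (p (vx Y))) := by
  by_cases h : vx Y = some j
  · rw [if_pos h, if_pos h, h, Function.update_self]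
    have h1 := (Stc_vx Y j).1 h
    subst h1
    rw [Stc_self, Stc_flc, Stc_flci]
    exact ⟨rfl, rfl⟩
  · rw [if_neg h, if_neg h, Function.update_of_ne h]
    have h1 : Y ≠ Gen.c j := fun h2 => h ((Stc_vx Y j).2 h2)
    rw [Stc_ne α j h1]
    exact ⟨rfl, rfl⟩

theorem Stc_stem (S : RSys g n V) (c : F g (n + 1)) (p : Pt n V) (j : Fin n)
    (hf : S.aff c (p none) = p none) :
    S.aff c (p (some j)) - p none = S.ρ c (p (some j) - p none) := by
  rw [← aff_sub, hf]

end

/-- (Stc) Crossing of a stem. -/
theorem thm_Stc : St_Stc := by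
  intro g n V _ _ S α e p T j hO
  have hf : S.aff (α (cc g n)) (p none) = p none := hO.fix
  have hr := hO.ref
  have hst := Stc_stem S (α (cc g n)) p j hf
  have hm : lm (Gen.c j : Gen g n) * rm (Gen.c j : Gen g n) = Stc_m g j := rfl
  rw [hm]
  obtain ⟨p', hp'⟩ : ∃ p', p' = Function.update p (some j) (S.aff (α (cc g n)) (p (some j))) :=
    ⟨_, rfl⟩
  have hfl : ∀ Y : Gen g n, S.fl ((α * Stc_m g j) (lt Y)) (p' (vx Y)) =
      (if vx Y = some j then S.ρ (α (cc g n)) (S.fl (α (lt Y)) (p (vx Y)))
        else S.fl (α (lt Y)) (p (vx Y))) ∧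
    S.fl ((α * Stc_m g j) (lt Y))⁻¹ (p' (vx Y)) =
      (if vx Y = some j then S.ρ (α (cc g n)) (S.fl (α (lt Y))⁻¹ (p (vx Y)))
        else S.fl (α (lt Y))⁻¹ (p (vx Y))) := by
    intro Y
    rw [hp']
    exact Stc_fl S α p j Y
  have hn : p' none = p none := by
    rw [hp', Function.update_of_ne (by simp)]
  have hj : p' (some j) = S.aff (α (cc g n)) (p (some j)) := by
    rw [hp', Function.update_self]
  have hi : ∀ i, i ≠ j → p' (some i) = p (some i) := by
    intro i h
    rw [hp', Function.update_of_ne (by simpa using h)]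
  rw [← hp']
  refine ⟨⟨?_, ?_, ?_, ?_⟩, ?_⟩
  · rw [Stc_cc]
    exact hr
  · rw [Stc_cc, hn]
    exact hf
  · -- out at none
    have h1 := hO.at_w
    have h2 : S.out (α * Stc_m g j) p' none = S.out α p none -
        (2 * inner ℝ e (p (some j) - p none)) • e := by
      unfold RSys.out
      rw [add_sub_assoc]
      congr 1
      · apply Finset.sum_congr rfl
        intro Y _
        by_cases h : vx Y = none
        · rw [if_pos h, if_pos h]
          have h3 := hfl Y
          have h4 : vx Y ≠ some j := by
            rw [h]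
            simp
          rw [if_neg h4, if_neg h4, h] at h3
          rw [h3.1, h3.2]
        · rw [if_neg h, if_neg h]
      · show ∑ i, (p' (some i) - p' none) = ∑ i, (p (some i) - p none) - _
        rw [eq_sub_iff_add_eq, ← Finset.add_sum_erase _ _ (Finset.mem_univ j),
          ← Finset.add_sum_erase (f := fun i => p (some i) - p none) _ (Finset.mem_univ j),
          Finset.sum_congr rfl (g := fun i => p (some i) - p none)]
        · rw [hj, hn, hst, hr.apply]
          abel
        · intro i hi'
          rw [hi i (Finset.ne_of_mem_erase hi'), hn]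
    rw [h2, h1, ← sub_smul]
  · -- out at the other vertices
    intro w' hw'
    cases w' with
    | none => exact absurd rfl hw'
    | some i =>
      have h1 := hO.off_w (some i) hw'
      by_cases hij : i = j
      · subst hij
        have h2 : S.out (α * Stc_m g i) p' (some i) = S.ρ (α (cc g n)) (S.out α p (some i)) := by
          unfold RSys.out
          rw [map_add, map_sum]
          congr 1
          · apply Finset.sum_congr rfl
            intro Y _
            by_cases h : vx Y = some i
            · rw [if_pos h, if_pos h, map_add]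
              have h3 := hfl Y
              rw [if_pos h, if_pos h, h] at h3
              rw [h3.1, h3.2]
            · rw [if_neg h, if_neg h, map_zero]
          · show p' none - p' (some i) = S.ρ (α (cc g n)) (p none - p (some i))
            rw [hj, hn, ← neg_sub, hst, ← neg_sub (p (some i)) (p none), map_neg]
        rw [h2, h1, map_zero]
      · have h2 : S.out (α * Stc_m g j) p' (some i) = S.out α p (some i) := by
          unfold RSys.out
          congr 1
          · apply Finset.sum_congr rfl
            intro Y _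
            by_cases h : vx Y = some i
            · rw [if_pos h, if_pos h]
              have h3 := hfl Y
              have h4 : vx Y ≠ some j := by
                rw [h]
                simpa using hij
              rw [if_neg h4, if_neg h4, h] at h3
              rw [h3.1, h3.2]
            · rw [if_neg h, if_neg h]
          · show p' none - p' (some i) = p none - p (some i)
            rw [hn, hi i hij]
        rw [h2, h1]
  · -- the energy
    unfold RSys.Q
    congr 1
    · apply Finset.sum_congr rfl
      intro Y _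
      rw [(hfl Y).1]
      split_ifs
      · rw [norm_ρ]
      · rfl
    · apply Finset.sum_congr rfl
      intro i _
      by_cases hij : i = j
      · rw [hij, hj, hn, hst, norm_ρ]
      · rw [hn, hi i hij]

end Pool.Agent.PSB
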