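import Pool.Agent.PSB.St

/-!
# Simple branch points: the move along a stem
-/

namespace Pool.Agent.PSB

open Pool.Agent.PW

variable {g n : ℕ} {V : Type} [NormedAddCommGroup V] [InnerProductSpace ℝ V]

/-- The energy after a change of the potential. -/
theorem Stm_gre (h1 : St_Gre) {S : RSys g n V} {α : MulAut (F g (n + 1))} {w : Option (Fin n)}
    {e : V} {p : Pt n V} {T : ℝ} (hO : S.Opt α w e p T) (p' : Pt n V) :
    S.Q α p' = S.Q α p - 2 * T * inner ℝ e ((p' - p) w) + S.Q0 α (p' - p) := by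
  have h := h1 S α p (p' - p)
  rw [add_sub_cancel] at h
  rw [h]
  have h2 : ∑ w', inner ℝ (S.out α p w') ((p' - p) w') = T * inner ℝ e ((p' - p) w) := by
    rw [Finset.sum_eq_single w]
    · rw [hO.at_w, real_inner_smul_left]
    · intro w' _ hw'
      rw [hO.off_w w' hw', inner_zero_left]
    · intro h
      exact absurd (Finset.mem_univ _) h
  rw [h2]
  ring

theorem thm_Stm (h1 : St_Gre) (h2 : St_Low) (h3 : St_Zer) : St_Stm := by
  intro g n V _ _ S α w w' e p p' T j hO hw hfix
  have hg := Stm_gre h1 hO p'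
  have hx : inner ℝ e ((p' - p) w') = -inner ℝ e (p w' - p w) := by
    have h4 := hO.ref.fix_inner hfix hO.fix
    have h5 : p' w' - p w = (p' - p) w' + (p w' - p w) := by
      rw [Pi.sub_apply]
      abel
    rw [h5, inner_add_right] at h4
    linarith
  have hlow : (inner ℝ e (p w' - p w) + inner ℝ e ((p' - p) w)) ^ 2 ≤ S.Q0 α (p' - p) := by
    have h6 := (h2 S α (p' - p) e hO.ref.norm).2 j
    rw [inner_sub_right] at h6
    rcases hw with ⟨rfl, rfl⟩ | ⟨rfl, rfl⟩
    · rw [hx] at h6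
      refine le_trans (le_of_eq ?_) h6
      ring
    · rw [hx] at h6
      refine le_trans (le_of_eq ?_) h6
      ring
  generalize inner ℝ e (p w' - p w) = x at hx hlow ⊢
  generalize hY : inner ℝ e ((p' - p) w) = Y at hlow hg
  refine ⟨by nlinarith [sq_nonneg (x + Y - T)], ?_⟩
  intro hT hQ
  subst hT
  have h0 : S.Q0 α (p' - p) = 0 := by
    have : (0 : ℝ) ≤ S.Q0 α (p' - p) := le_trans (sq_nonneg _) hlow
    linarith
  refine ⟨h0, fun hout => ?_⟩
  obtain ⟨z1, z2, -, -, -⟩ := h3 S α p (p' - p) h0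
  have hc : S.ρ (α (cc g n)) ((p' - p) none) = (p' - p) none := hout _ z2
  rw [z1 w', hO.ref.inner_eq_zero hc] at hx
  linarith

end Pool.Agent.PSB
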