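import Pool.Agent.PSB.St

/-!
# Simple branch points: one crossing at maximal energy
-/

namespace Pool.Agent.PSB

open Pool.Agent.PW

variable {g n : ℕ} {V : Type} [NormedAddCommGroup V] [InnerProductSpace ℝ V]

theorem Stp_cases (k : ℕ) (hk : k < 4 * g) : ∃ X : Gen g n, vx X = none ∧
    ((chi g n k = lm X ∧ lab g n k = lt X ∧ mv g n k = mp X) ∨
      (chi g n k = rm X ∧ lab g n k = (lt X)⁻¹ ∧ mv g n k = (mp X)⁻¹)) := by
  have h : k / 4 < g := by omega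
  have h4 : k % 4 = 0 ∨ k % 4 = 1 ∨ k % 4 = 2 ∨ k % 4 = 3 := by omega
  rcases h4 with h0 | h1 | h2 | h3
  · refine ⟨Gen.a ⟨k / 4, h⟩, rfl, Or.inl ⟨?_, ?_, ?_⟩⟩
    · simp [chi, h, h0]
    · simp only [lab, h, h0, dif_pos, if_true]
      rfl
    · simp [mv, h, h0]
  · refine ⟨Gen.b ⟨k / 4, h⟩, rfl, Or.inr ⟨?_, ?_, ?_⟩⟩
    · simp [chi, h, h1]
    · have e : lab g n k = (gb ⟨k / 4, h⟩ : F g (n + 1))⁻¹ := by simp [lab, h, h1]
      rw [e]
      rfl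
    · simp [mv, h, h1]
  · refine ⟨Gen.a ⟨k / 4, h⟩, rfl, Or.inr ⟨?_, ?_, ?_⟩⟩
    · simp [chi, h, h2]
    · have e : lab g n k = (ga ⟨k / 4, h⟩ : F g (n + 1))⁻¹ := by simp [lab, h, h2]
      rw [e]
      rfl
    · simp [mv, h, h2]
  · refine ⟨Gen.b ⟨k / 4, h⟩, rfl, Or.inl ⟨?_, ?_, ?_⟩⟩
    · simp [chi, h, h3]
    · have e : lab g n k = (gb ⟨k / 4, h⟩ : F g (n + 1)) := by simp [lab, h, h3]
      rw [e]
      rfl
    · simp [mv, h, h3]

/-- The comparison with the optimal state after the move. -/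
theorem Stp_edge [FiniteDimensional ℝ V] (h3 : St_Mov) (h5 : St_Exi) (h6 : St_Pos)
    (S : RSys g n V) (e₀ : V) (he : S.IsRef (cc g n) e₀) (M : ℝ) (hM : S.Bd M) (k : ℕ)
    (hk : k ≤ 4 * g + n) (α : MulAut (F g (n + 1))) (hα : α ∈ Fr (wd g n k)) (e : V) (p : Pt n V)
    (T : ℝ) (hO : S.Opt α none e p T) (hQ : S.Q α p = M) (X : Gen g n) (hX : vx X = none)
    (y : F g (n + 1)) (hy : y = lt X ∨ y = (lt X)⁻¹) (δ : MulAut (F g (n + 1)))
    (hδ : ∀ Y : Gen g n, δ (lt Y) = lt Y) (hδc : δ (cc g n) = y⁻¹ * cc g n * y) (k' : ℕ)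
    (hk' : k' ≤ 4 * g + n) (hαδ : α * δ ∈ Fr (wd g n k')) :
    0 ≤ T * (T - 2 * inner ℝ e (S.fl (α y) (p none))) ∧
      (T = 0 → inner ℝ e (S.fl (α y) (p none)) = (0 : ℝ)) := by
  obtain ⟨-, -, hfix, ⟨e', he'⟩, -⟩ := h6 S e₀ he _ _ hαδ
  obtain ⟨p', T', hO'⟩ := h5 S (α * δ) none e' he' (hfix (Fin.last n))
  have hb : S.Q (α * δ) p' ≤ M := hM none (α * δ) e' p' T' ⟨k', hk', hαδ⟩ hO'
  have hQe : S.Q (α * δ) p' = S.Q α p' := by
    unfold RSys.Q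
    congr 1
    refine Finset.sum_congr rfl fun Y _ => ?_
    rw [MulAut.mul_apply, hδ]
  have hfx : S.aff ((α y)⁻¹ * α (cc g n) * α y) (p' none) = p' none := by
    have h := hO'.fix
    rwa [MulAut.mul_apply, hδc, map_mul, map_mul, map_inv] at h
  obtain ⟨m1, m2⟩ := h3 S α none e p p' T X y hO hX hy hfx
  rw [hQe] at hb
  have hout : S.OutRel α := (h6 S e₀ he _ _ hα).2.2.2.2 ⟨k, hk, rfl⟩
  refine ⟨by linarith, fun hT => ?_⟩
  exact (m2 hT (by linarith)).2 hout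

theorem thm_Stp (h1 : St_Cro) (h2 : St_Stc) (h3 : St_Mov) (h4 : St_Stm) (h5 : St_Exi)
    (h6 : St_Pos) (h7 : St_Frm) : St_Stp := by
  intro g n V _ _ _ S e₀ he M hM k hk α hα e p T hO hQ
  rcases lt_or_ge k (4 * g) with hk4 | hk4
  · obtain ⟨f1, f2⟩ := h7.2.2.1 k hk4 α hα
    have key : ∀ x : ℝ, x = inner ℝ e (S.fl (α (lab g n k)) (p none)) →
        (S.Opt (α * chi g n k) none e p (T - 2 * x) ∧ S.Q (α * chi g n k) p = S.Q α p) →
        (0 ≤ T * (T - 2 * x) ∧ (T = 0 → x = 0)) →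
        (∃ p' T', S.Opt (α * chi g n k) none e p' T' ∧ S.Q (α * chi g n k) p' = M ∧
          0 ≤ T * T') ∧
        (T = 0 → S.Opt (α * chi g n k) none e p 0 ∧ S.Q (α * chi g n k) p = M ∧
          (k < 4 * g → inner ℝ e (S.fl (α (lab g n k)) (p none)) = (0 : ℝ)) ∧
          ∀ j : Fin n, k = 4 * g + j → inner ℝ e (p (some j) - p none) = (0 : ℝ)) := by
      rintro x hx ⟨o1, o2⟩ ⟨i1, i2⟩
      refine ⟨⟨p, T - 2 * x, o1, o2.trans hQ, i1⟩, fun hT => ⟨?_, o2.trans hQ, fun _ => ?_, ?_⟩⟩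
      · have : T - 2 * x = 0 := by rw [i2 hT, hT]; ring
        rwa [this] at o1
      · rw [← hx, i2 hT]
      · intro j hj
        omega
    obtain ⟨X, hX, ⟨c1, c2, c3⟩ | ⟨c1, c2, c3⟩⟩ := Stp_cases (n := n) k hk4
    · refine key _ rfl ?_ ?_
      · rw [c1, c2]
        exact (h1 S α none e p T X hO hX).1
      · rw [c2]
        refine Stp_edge h3 h5 h6 S e₀ he M hM k hk.le α hα e p T hO hQ X hX _ (Or.inl rfl)
          (mv g n k) ?_ ?_ (tg k) f2 f1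
        · intro Y
          rw [c3, mp_lt]
        · rw [c3, mp_cc]
    · refine key _ rfl ?_ ?_
      · rw [c1, c2, map_inv]
        exact (h1 S α none e p T X hO hX).2.1
      · rw [c2]
        refine Stp_edge h3 h5 h6 S e₀ he M hM k hk.le α hα e p T hO hQ X hX _ (Or.inr rfl)
          (mv g n k) ?_ ?_ (tg k) f2 f1
        · intro Y
          rw [c3, mp_inv_lt]
        · rw [c3, mp_inv_cc, inv_inv]
  · have hj : k - 4 * g < n := by omega
    have hchi : chi g n k = lm (Gen.c ⟨k - 4 * g, hj⟩) * rm (Gen.c ⟨k - 4 * g, hj⟩) := by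
      have hn : ¬ k / 4 < g := by omega
      simp [chi, hn, hj]
    obtain ⟨s1, s2⟩ := h2 S α e p T ⟨k - 4 * g, hj⟩ hO
    obtain ⟨p', T', hO'⟩ := h5 S α (some ⟨k - 4 * g, hj⟩) e hO.ref ⟨p none, hO.fix⟩
    have hkj : 4 * g + ((⟨k - 4 * g, hj⟩ : Fin n) : ℕ) = k := by
      simp only
      omega
    have hb : S.Q α p' ≤ M := by
      refine hM (some ⟨k - 4 * g, hj⟩) α e p' T' (Or.inl ?_) hO'
      rw [hkj]
      exact hα
    obtain ⟨m1, m2⟩ := h4 S α none (some ⟨k - 4 * g, hj⟩) e p p' T ⟨k - 4 * g, hj⟩ hO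
      (Or.inl ⟨rfl, rfl⟩) hO'.fix
    have hout : S.OutRel α := (h6 S e₀ he _ _ hα).2.2.2.2 ⟨k, hk.le, rfl⟩
    rw [hchi]
    refine ⟨⟨_, _, s1, s2.trans hQ, by linarith⟩, fun hT => ?_⟩
    have hx : inner ℝ e (p (some ⟨k - 4 * g, hj⟩) - p none) = (0 : ℝ) :=
      (m2 hT (by linarith)).2 hout
    have hfx : S.aff (α (cc g n)) (p (some ⟨k - 4 * g, hj⟩)) = p (some ⟨k - 4 * g, hj⟩) :=
      hO.ref.fix_of_inner hO.fix hx
    rw [hfx, Function.update_eq_self] at s1 s2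
    refine ⟨?_, s2.trans hQ, fun h => by omega, fun j hj' => ?_⟩
    · rw [hx, hT] at s1
      simpa using s1
    · have : j = ⟨k - 4 * g, hj⟩ := by
        ext
        simp only
        omega
      rw [this]
      exact hx

end Pool.Agent.PSB
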