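import Pool.Agent.PSB.StB

/-!
# A transposition acts as a reflection
-/

set_option autoImplicit false

namespace Pool.Agent.PSB

open Pool.Agent.PW

section

variable {ι : Type} [Fintype ι] [DecidableEq ι]

/-- The vector of the reflection. -/
noncomputable def Swi_e (p q : ι) : EuclideanSpace ℝ ι :=
  (1 / √2) • (EuclideanSpace.single p (1 : ℝ) - EuclideanSpace.single q (1 : ℝ))

theorem Swi_inner (p q : ι) (y : EuclideanSpace ℝ ι) :
    (inner ℝ (Swi_e p q) y : ℝ) = (1 / √2) * (y p - y q) := by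
  unfold Swi_e
  rw [real_inner_smul_left, inner_sub_left, EuclideanSpace.inner_single_left,
    EuclideanSpace.inner_single_left]
  simp

theorem Swi_sq : (1 / √2 : ℝ) * (1 / √2) = 1 / 2 := by
  rw [div_mul_div_comm, Real.mul_self_sqrt (by norm_num), one_mul]

omit [Fintype ι] in
theorem Swi_apply (p q r : ι) : (Swi_e p q) r =
    (1 / √2) * ((if r = p then 1 else 0) - (if r = q then 1 else 0)) := by
  unfold Swi_e
  simp

theorem Swi_norm {p q : ι} (h : p ≠ q) : ‖Swi_e p q‖ = 1 := by
  have h1 : (inner ℝ (Swi_e p q) (Swi_e p q) : ℝ) = 1 := by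
    rw [Swi_inner, Swi_apply, Swi_apply]
    rw [if_pos rfl, if_neg h, if_neg h.symm, if_pos rfl]
    have h2 := Swi_sq
    ring_nf at h2 ⊢
    linarith
  rw [real_inner_self_eq_norm_sq] at h1
  have h2 := norm_nonneg (Swi_e p q)
  nlinarith

end

theorem thm_Swi : St_Swi := by
  classical
  intro g n K _ x hx
  obtain ⟨p, q, hpq, h1, h2, h3⟩ := hx
  refine ⟨Swi_e p q, Swi_norm hpq, fun y => ?_⟩
  ext r
  rw [iρ_apply]
  have h4 : (y - (2 * (inner ℝ (Swi_e p q) y : ℝ)) • Swi_e p q) r =
      y r - (2 * (inner ℝ (Swi_e p q) y : ℝ)) * (Swi_e p q) r := by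
    simp
  rw [h4, Swi_inner, Swi_apply]
  have hs := Swi_sq
  by_cases hp : r = p
  · have h5 : x⁻¹ • r = q := by
      rw [hp, inv_smul_eq_iff, h2]
    rw [h5, if_pos hp, if_neg (by rw [hp]; exact hpq), hp]
    linear_combination (-2 * (y p - y q)) * (-hs)
  · by_cases hq : r = q
    · have h5 : x⁻¹ • r = p := by
        rw [hq, inv_smul_eq_iff, h1]
      rw [h5, if_neg hp, if_pos hq, hq]
      linear_combination (-2 * (y p - y q)) * hs
    · have h5 : x⁻¹ • r = r := by
        rw [inv_smul_eq_iff, h3 r hp hq]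
      rw [h5, if_neg hp, if_neg hq]
      ring

end Pool.Agent.PSB
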