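import Pool.Agent.PSB.StB

/-!
# Trf : orbits of an extension
-/

namespace Pool.Agent.PSB

open Pool.Agent.PW

variable {g n : ℕ}

private theorem Trf_reps {α β : Type*} (S : Set α) (Φ : α → β) (h : (Φ '' S).Finite) :
    ∃ P : Set α, P ⊆ S ∧ P.Finite ∧ ∀ x ∈ S, ∃ y ∈ P, Φ y = Φ x := by
  have h1 : ∀ b : Φ '' S, ∃ a, a ∈ S ∧ Φ a = b := fun b => b.2
  choose r hr1 hr2 using h1
  have : Finite (Φ '' S) := h
  refine ⟨Set.range r, ?_, Set.finite_range r, ?_⟩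
  · rintro _ ⟨b, rfl⟩
    exact hr1 b
  · intro x hx
    exact ⟨r ⟨Φ x, x, hx, rfl⟩, ⟨_, rfl⟩, hr2 _⟩

private theorem Trf_finite_hom (Q : Type*) [Group Q] [Finite Q] : Finite (F g n →* Q) := by
  have : Finite (Gen g n → Q) := inferInstance
  exact Finite.of_equiv _ (FreeGroup.lift (α := Gen g n) (β := Q))

/-- Powers. -/
private theorem Trf_pow {L : Subgroup (F g n)} {f : L → ℚ} (hf : IsClass L f) (x : L) (m : ℕ) :
    f (x ^ m) = m * f x := by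
  induction m with
  | zero =>
    have h := hf.add 1 1
    rw [mul_one] at h
    have h0 : f 1 = 0 := by linarith
    rw [pow_zero, h0]
    simp
  | succ m ih =>
    rw [pow_succ, hf.add, ih]
    push_cast
    ring

theorem thm_Trf : St_Trf := by
  intro g n K L _ hKL f' hf' hfin
  have hle : K.normalCore ≤ K := K.normalCore_le
  have hfq : Finite (F g n ⧸ K.normalCore) := inferInstance
  have hfh : Finite (F g n →* (F g n ⧸ K.normalCore)) := Trf_finite_hom _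
  obtain ⟨P, hPS, hPf, hP⟩ := Trf_reps {φ : MulAut (F g n) | φ ∈ MCG g n ∧ ∀ x, x ∈ L ↔ φ x ∈ L}
    (fun φ => (QuotientGroup.mk' K.normalCore).comp φ.toMonoidHom) (Set.toFinite _)
  have hkeep : ∀ (M : Subgroup (F g n)) (ψ : MulAut (F g n)), (∀ x, ψ x * x⁻¹ ∈ M) →
      ∀ x, x ∈ M ↔ ψ x ∈ M := by
    intro M ψ h x
    constructor
    · intro hx
      have := M.mul_mem (h x) hx
      rwa [inv_mul_cancel_right] at this
    · intro hx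
      have := M.mul_mem (M.inv_mem (h x)) hx
      rwa [mul_inv_rev, inv_inv, mul_assoc, inv_mul_cancel, mul_one] at this
  obtain ⟨P', hPS', hPf', hP'⟩ := Trf_reps
    {ψ : MulAut (F g n) | ψ ∈ MCG g n ∧ ∀ x, ψ x * x⁻¹ ∈ K.normalCore}
    (fun ψ => fun x : K => ext0 L f' (ψ x)) (by
      apply hfin.subset
      rintro _ ⟨ψ, ⟨h1, h2⟩, rfl⟩
      have hK := hkeep K ψ fun x => hle (h2 x)
      refine ⟨ψ, h1, hK, fun x => ?_⟩
      exact ext0_mem (hKL ((hK x).1 x.2)))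
  apply (hPf'.image2 (fun ψ φ => fun x : L => ext0 L f' (ψ (φ x))) hPf).subset
  rintro h ⟨φ, hφ, hφL, hh⟩
  obtain ⟨φ₁, hφ₁, he⟩ := hP φ ⟨hφ, hφL⟩
  have hS := hPS hφ₁
  have hψ : φ * φ₁⁻¹ ∈ MCG g n ∧ ∀ x, (φ * φ₁⁻¹) x * x⁻¹ ∈ K.normalCore := by
    refine ⟨(MCG g n).mul_mem hφ ((MCG g n).inv_mem hS.1), fun x => ?_⟩
    have h1 := DFunLike.congr_fun he (φ₁⁻¹ x)
    have h2 : φ₁ (φ₁⁻¹ x) = x := by simp
    have h3 : ((φ₁ (φ₁⁻¹ x) : F g n) : F g n ⧸ K.normalCore) = (φ (φ₁⁻¹ x) : F g n) := h1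
    rw [h2] at h3
    have h4 : (x⁻¹ : F g n) * φ (φ₁⁻¹ x) ∈ K.normalCore := QuotientGroup.eq.mp h3
    have h5 := (K.normalCore_normal).conj_mem _ h4 x
    rwa [← mul_assoc, mul_inv_cancel, one_mul] at h5
  obtain ⟨ψ₁, hψ₁, he'⟩ := hP' _ hψ
  have hψ₁' := hPS' hψ₁
  refine ⟨ψ₁, hψ₁, φ₁, hφ₁, ?_⟩
  funext x
  rw [hh x]
  show ext0 L f' (ψ₁ (φ₁ x)) = _
  have hy : φ₁ x ∈ L := (hS.2 x).1 x.2
  have e : φ x = (φ * φ₁⁻¹) (φ₁ x) := by simp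
  have key : ∀ y ∈ L, ext0 L f' (ψ₁ y) = ext0 L f' ((φ * φ₁⁻¹) y) := by
    intro y hy
    obtain ⟨m, hm0, _, hm⟩ := Subgroup.exists_pow_mem_of_index_ne_zero
      (Subgroup.FiniteIndex.index_ne_zero (H := K)) y
    have h1 := (hkeep L ψ₁ (fun x => hKL (hle (hψ₁'.2 x))) y).1 hy
    have h2 := (hkeep L (φ * φ₁⁻¹) (fun x => hKL (hle (hψ.2 x))) y).1 hy
    have h3 := congrFun he' ⟨y ^ m, hm⟩
    simp only [map_pow] at h3
    rw [ext0_mem (L.pow_mem h1 m), ext0_mem (L.pow_mem h2 m)] at h3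
    rw [ext0_mem h1, ext0_mem h2]
    have h4 := Trf_pow hf' ⟨_, h1⟩ m
    have h5 := Trf_pow hf' ⟨_, h2⟩ m
    have h6 : (m : ℚ) ≠ 0 := by
      exact_mod_cast hm0.ne'
    have h7 : (m : ℚ) * f' ⟨ψ₁ y, h1⟩ = m * f' ⟨(φ * φ₁⁻¹) y, h2⟩ := by
      rw [← h4, ← h5]
      exact h3
    exact mul_left_cancel₀ h6 h7
  rw [key _ hy, ← e]
  exact ext0_mem ((hφL x).1 x.2)

end Pool.Agent.PSB
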