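import Pool.Agent.PSB.St

/-!
# Simple branch points, module Uni: uniqueness of the energy and of the discrepancy (helper52)
-/

set_option autoImplicit false

namespace Pool.Agent.PSB

open Pool.Agent.PW

section

variable {g n : ℕ} {V : Type} [NormedAddCommGroup V] [InnerProductSpace ℝ V]

theorem Uni_fl (S : RSys g n V) {α α' : MulAut (F g (n + 1))} {u : V}
    (h1 : ∀ x, S.ρ (α' x) = S.ρ (α x)) (h2 : ∀ x, S.v (α' x) = S.v (α x) + (S.ρ (α x) u - u))
    (x : F g (n + 1)) (h : V) : S.fl (α' x) (h - u) = S.fl (α x) h := by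
  simp only [RSys.fl, RSys.aff, h1, h2, map_sub]
  abel

/-- the out vectors after the change of the frame. -/
theorem Uni_out (S : RSys g n V) {α α' : MulAut (F g (n + 1))} {u : V}
    (h1 : ∀ x, S.ρ (α' x) = S.ρ (α x)) (h2 : ∀ x, S.v (α' x) = S.v (α x) + (S.ρ (α x) u - u))
    (p : Pt n V) (w : Option (Fin n)) : S.out α' (fun w => p w - u) w = S.out α p w := by
  have h3 : stem (fun w => p w - u) w = stem p w := by
    cases w with
    | none =>
      exact Finset.sum_congr rfl fun j _ => sub_sub_sub_cancel_right (p (some j)) (p none) u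
    | some j => exact sub_sub_sub_cancel_right (p none) (p (some j)) u
  unfold RSys.out
  rw [h3]
  congr 1
  refine Finset.sum_congr rfl fun X _ => ?_
  rw [← map_inv α', ← map_inv α, Uni_fl S h1 h2, Uni_fl S h1 h2]

/-- the energy after the change of the frame. -/
theorem Uni_Q (S : RSys g n V) {α α' : MulAut (F g (n + 1))} {u : V}
    (h1 : ∀ x, S.ρ (α' x) = S.ρ (α x)) (h2 : ∀ x, S.v (α' x) = S.v (α x) + (S.ρ (α x) u - u))
    (p : Pt n V) : S.Q α' (fun w => p w - u) = S.Q α p := by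
  unfold RSys.Q
  congr 1
  · refine Finset.sum_congr rfl fun X _ => ?_
    rw [Uni_fl S h1 h2]
  · refine Finset.sum_congr rfl fun j _ => ?_
    have : p (some j) - u - (p none - u) = p (some j) - p none := by abel
    rw [this]

/-- the optimal potentials after the change of the frame. -/
theorem Uni_opt (S : RSys g n V) {α α' : MulAut (F g (n + 1))} {w : Option (Fin n)} {e : V}
    {p : Pt n V} {T : ℝ} {u : V} (h : S.Opt α w e p T)
    (h1 : ∀ x, S.ρ (α' x) = S.ρ (α x)) (h2 : ∀ x, S.v (α' x) = S.v (α x) + (S.ρ (α x) u - u)) :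
    S.Opt α' w e (fun w => p w - u) T := by
  refine ⟨⟨h.ref.1, fun y => ?_⟩, ?_, ?_, fun w' hw' => ?_⟩
  · rw [h1, h.ref.2]
  · rw [← fl_eq_zero, Uni_fl S h1 h2, fl_eq_zero]
    exact h.fix
  · rw [Uni_out S h1 h2, h.at_w]
  · rw [Uni_out S h1 h2, h.off_w w' hw']

theorem Uni_Q0_nonneg (S : RSys g n V) (α : MulAut (F g (n + 1))) (z : Pt n V) :
    0 ≤ S.Q0 α z := by
  unfold RSys.Q0
  exact add_nonneg (Finset.sum_nonneg fun _ _ => sq_nonneg _)
    (Finset.sum_nonneg fun _ _ => sq_nonneg _)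

/-- one comparison: `z` is orthogonal to the discrepancy. -/
theorem Uni_cmp (hG : St_Gre) (S : RSys g n V) {α : MulAut (F g (n + 1))}
    {w : Option (Fin n)} {e : V} {p : Pt n V} {T : ℝ} (h : S.Opt α w e p T) (z : Pt n V)
    (hz : inner ℝ e (z w) = (0 : ℝ)) : S.Q α (p + z) = S.Q α p + S.Q0 α z := by
  have h1 := hG S α p z
  have h2 : ∑ w', inner ℝ (S.out α p w') (z w') = (0 : ℝ) := by
    refine Finset.sum_eq_zero fun w' _ => ?_
    by_cases hw : w' = w
    · subst hw
      rw [h.at_w, inner_smul_left, hz, mul_zero]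
    · rw [h.off_w w' hw, inner_zero_left]
  rw [h1, h2]
  ring

/-- uniqueness for one frame. -/
theorem Uni_one (hG : St_Gre) (hZ : St_Zer) (S : RSys g n V) {α : MulAut (F g (n + 1))}
    {w : Option (Fin n)} {e e' : V} {p p' : Pt n V} {T T' : ℝ} (h : S.Opt α w e p T)
    (h' : S.Opt α w e' p' T') : S.Q α p = S.Q α p' ∧ T • e = T' • e' := by
  set z : Pt n V := p' - p with hz
  have z1 : p + z = p' := by rw [hz]; abel
  have z2 : p' + -z = p := by rw [hz]; abel
  have i1 : inner ℝ e (z w) = (0 : ℝ) := h.ref.fix_inner h'.fix h.fix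
  have i2 : inner ℝ e' ((-z) w) = (0 : ℝ) := by
    have h3 := h'.ref.fix_inner h.fix h'.fix
    have h4 : (-z) w = p w - p' w := by
      rw [hz]
      simp
    rw [h4]
    exact h3
  have c1 := Uni_cmp hG S h z i1
  have c2 := Uni_cmp hG S h' (-z) i2
  rw [z1] at c1
  rw [z2] at c2
  have n1 := Uni_Q0_nonneg S α z
  have n2 := Uni_Q0_nonneg S α (-z)
  have q0 : S.Q0 α z = 0 := by linarith
  obtain ⟨-, -, h5, -, h6⟩ := hZ S α p z q0
  rw [z1] at h6
  refine ⟨h6.symm, ?_⟩
  have h7 := h5 w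
  rw [z1, h.at_w, h'.at_w] at h7
  exact h7.symm

end

theorem thm_Uni (h1 : St_Gre) (h2 : St_Zer) : St_Uni := by
  intro g n V _ _ S α α' w e e' p p' T T' u ho ho' hρ hv
  have h3 := Uni_opt S ho hρ hv
  have h4 := Uni_one h1 h2 S h3 ho'
  rw [Uni_Q S hρ hv] at h4
  exact h4

end Pool.Agent.PSB
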