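import Pool.Agent.PSB.St

/-!
# Simple branch points: words (statement Wds)
-/

namespace Pool.Agent.PSB

open Pool.Agent.PW

variable {g n : ℕ}

/-- An automorphism which fixes the letters of a segment fixes the segment. -/
theorem Wds_seg_fix (φ : MulAut (F g (n + 1))) {s m : ℕ}
    (h : ∀ i : Fin g, s ≤ i → (i : ℕ) < s + m →
      φ (ga i) = (ga i : F g (n + 1)) ∧ φ (gb i) = (gb i : F g (n + 1))) :
    φ (seg g (n + 1) s m) = seg g (n + 1) s m :=
  seg_congr (φ := φ.toMonoidHom) (ψ := MonoidHom.id _) h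

theorem Wds_cseg_fix (φ : MulAut (F g (n + 1))) {s m : ℕ} (hm : s + m ≤ n)
    (h : ∀ j : Fin n, s ≤ j → (j : ℕ) < s + m → φ (lt (Gen.c j)) = (lt (Gen.c j) : F g (n + 1))) :
    φ (cseg g (n + 1) s m) = cseg g (n + 1) s m := by
  refine cseg_congr (φ := φ.toMonoidHom) (ψ := MonoidHom.id _) ?_
  intro i h1 h2
  exact h ⟨i, by omega⟩ h1 h2

theorem Wds_h (i : Fin g) {r : ℕ} (hr : r < 4) : wd g n (4 * i + r) =
    seg g (n + 1) 0 i * stg i r *
      (seg g (n + 1) (i + 1) (g - i - 1) * cseg g (n + 1) 0 n) := by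
  have h1 : (4 * (i : ℕ) + r) / 4 = i := by omega
  have h2 : (4 * (i : ℕ) + r) % 4 = r := by omega
  unfold wd
  rw [dif_pos (by rw [h1]; exact i.2)]
  simp only [h1, h2, Fin.eta]

theorem Wds_p (j : ℕ) : wd g n (4 * g + j) =
    seg g (n + 1) 0 g * cseg g (n + 1) 0 j * cc g n * cseg g (n + 1) j (n - j) := by
  have h1 : ¬ (4 * g + j) / 4 < g := by omega
  have h2 : 4 * g + j - 4 * g = j := by omega
  unfold wd
  rw [dif_neg h1, h2]

theorem Wds_seg_succ (i : Fin g) : seg g (n + 1) 0 (i + 1) =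
    seg g (n + 1) 0 i * (ga i * gb i * (ga i)⁻¹ * (gb i)⁻¹) := by
  rw [seg_add, seg_one, Nat.zero_add, hd_fin]
  rfl

theorem Wds_seg_head (i : Fin g) : seg g (n + 1) i (g - i) =
    (ga i * gb i * (ga i)⁻¹ * (gb i)⁻¹) * seg g (n + 1) (i + 1) (g - i - 1) := by
  have h : g - i = 1 + (g - i - 1) := by omega
  have h1 : seg g (n + 1) i (g - i) = seg g (n + 1) i (1 + (g - i - 1)) := by rw [← h]
  rw [h1, seg_add, seg_one, hd_fin]
  rfl

theorem Wds_four (i : Fin g) : wd g n (4 * i + 4) =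
    seg g (n + 1) 0 i * (ga i * gb i * (ga i)⁻¹ * (gb i)⁻¹ * cc g n) *
      (seg g (n + 1) (i + 1) (g - i - 1) * cseg g (n + 1) 0 n) := by
  by_cases h : (i : ℕ) + 1 < g
  · have h1 : 4 * (i : ℕ) + 4 = 4 * ((⟨i + 1, h⟩ : Fin g) : ℕ) + 0 := by
      simp only
      omega
    rw [h1, Wds_h _ (by norm_num)]
    simp only [stg, if_true]
    have h2 := Wds_seg_head (n := n) (⟨i + 1, h⟩ : Fin g)
    simp only at h2
    have h3 : g - i - 1 = g - (i + 1) := by omega
    rw [Wds_seg_succ, h3, h2]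
    group
  · have h1 : 4 * (i : ℕ) + 4 = 4 * g + 0 := by omega
    have h2 : g - i - 1 = 0 := by omega
    have h3 : g = (i : ℕ) + 1 := by omega
    have h4 : seg g (n + 1) 0 g = seg g (n + 1) 0 (i + 1) := by rw [← h3]
    rw [h1, Wds_p, h2, h4, Wds_seg_succ, cseg_zero, seg_zero, Nat.sub_zero]
    group

/-! ### The marked points -/

theorem Wds_pc (j : Fin n) : pc g (n + 1) j = lt (Gen.c j) := by
  have h : ((j.castSucc : Fin (n + 1)) : ℕ) = j := rfl
  rw [← h, pc_fin]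
  rfl

theorem Wds_pc_last : pc g (n + 1) n = cc g n := pc_fin (Fin.last n)

theorem Wds_cseg_succ (j : Fin n) : cseg g (n + 1) 0 (j + 1) =
    cseg g (n + 1) 0 j * lt (Gen.c j) := by
  rw [cseg_add, cseg_one, Nat.zero_add, Wds_pc]

theorem Wds_cseg_head (j : Fin n) : cseg g (n + 1) j (n - j) =
    lt (Gen.c j) * cseg g (n + 1) (j + 1) (n - j - 1) := by
  have h : n - j = 1 + (n - j - 1) := by omega
  have h1 : cseg g (n + 1) j (n - j) = cseg g (n + 1) j (1 + (n - j - 1)) := by rw [← h]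
  rw [h1, cseg_add, cseg_one, Wds_pc]

theorem Wds_p0 (j : Fin n) : wd g n (4 * g + j) =
    seg g (n + 1) 0 g * cseg g (n + 1) 0 j * (cc g n * lt (Gen.c j)) *
      cseg g (n + 1) (j + 1) (n - j - 1) := by
  rw [Wds_p, Wds_cseg_head]
  group

theorem Wds_p1 (j : Fin n) : wd g n (4 * g + j + 1) =
    seg g (n + 1) 0 g * cseg g (n + 1) 0 j * (lt (Gen.c j) * cc g n) *
      cseg g (n + 1) (j + 1) (n - j - 1) := by
  rw [add_assoc, Wds_p, Wds_cseg_succ, Nat.sub_add_eq]
  group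

/-! ### Automorphisms which fix the letters -/

/-- An automorphism which fixes the letters other than those of the handle `i`. -/
theorem Wds_handle (φ : MulAut (F g (n + 1))) (i : Fin g)
    (ha : ∀ i', i' ≠ i → φ (ga i') = (ga i' : F g (n + 1)))
    (hb : ∀ i', i' ≠ i → φ (gb i') = (gb i' : F g (n + 1)))
    (hc : ∀ j : Fin n, φ (lt (Gen.c j)) = (lt (Gen.c j) : F g (n + 1))) (x : F g (n + 1)) :
    φ (seg g (n + 1) 0 i * x * (seg g (n + 1) (i + 1) (g - i - 1) * cseg g (n + 1) 0 n)) =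
      seg g (n + 1) 0 i * φ x *
        (seg g (n + 1) (i + 1) (g - i - 1) * cseg g (n + 1) 0 n) := by
  have h1 : φ (seg g (n + 1) 0 i) = seg g (n + 1) 0 i := by
    apply Wds_seg_fix
    intro i' _ h
    have : i' ≠ i := by
      rintro rfl
      omega
    exact ⟨ha i' this, hb i' this⟩
  have h2 : φ (seg g (n + 1) (i + 1) (g - i - 1)) = seg g (n + 1) (i + 1) (g - i - 1) := by
    apply Wds_seg_fix
    intro i' h _
    have : i' ≠ i := by
      rintro rfl
      omega
    exact ⟨ha i' this, hb i' this⟩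
  have h3 : φ (cseg g (n + 1) 0 n) = cseg g (n + 1) 0 n :=
    Wds_cseg_fix φ (by omega) fun j _ _ => hc j
  rw [map_mul, map_mul, map_mul, h1, h2, h3]

/-- An automorphism which fixes the letters other than the one of the marked point `j`. -/
theorem Wds_point (φ : MulAut (F g (n + 1))) (j : Fin n)
    (ha : ∀ i', φ (ga i') = (ga i' : F g (n + 1)))
    (hb : ∀ i', φ (gb i') = (gb i' : F g (n + 1)))
    (hc : ∀ j' : Fin n, j' ≠ j → φ (lt (Gen.c j')) = (lt (Gen.c j') : F g (n + 1)))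
    (x : F g (n + 1)) :
    φ (seg g (n + 1) 0 g * cseg g (n + 1) 0 j * x * cseg g (n + 1) (j + 1) (n - j - 1)) =
      seg g (n + 1) 0 g * cseg g (n + 1) 0 j * φ x * cseg g (n + 1) (j + 1) (n - j - 1) := by
  have h1 : φ (seg g (n + 1) 0 g) = seg g (n + 1) 0 g :=
    Wds_seg_fix φ fun i' _ _ => ⟨ha i', hb i'⟩
  have h2 : φ (cseg g (n + 1) 0 j) = cseg g (n + 1) 0 j := by
    apply Wds_cseg_fix φ (by omega)
    intro j' _ h
    apply hc
    rintro rfl
    omega
  have h3 : φ (cseg g (n + 1) (j + 1) (n - j - 1)) = cseg g (n + 1) (j + 1) (n - j - 1) := by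
    apply Wds_cseg_fix φ (by omega)
    intro j' h _
    apply hc
    rintro rfl
    omega
  rw [map_mul, map_mul, map_mul, h1, h2, h3]

/-! ### The crossings -/

theorem Wds_lm_a (i : Fin g) (x : F g (n + 1)) :
    lm (Gen.a i : Gen g n) (seg g (n + 1) 0 i * x *
      (seg g (n + 1) (i + 1) (g - i - 1) * cseg g (n + 1) 0 n)) =
      seg g (n + 1) 0 i * lm (Gen.a i : Gen g n) x *
        (seg g (n + 1) (i + 1) (g - i - 1) * cseg g (n + 1) 0 n) := by
  apply Wds_handle
  · intro i' h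
    exact lm_ne (X := (Gen.a i : Gen g n)) (Y := Gen.a i') (by simpa using h)
  · intro i' h
    exact lm_ne (X := (Gen.a i : Gen g n)) (Y := Gen.b i') (by simp)
  · intro j
    exact lm_ne (by simp)

theorem Wds_lm_b (i : Fin g) (x : F g (n + 1)) :
    lm (Gen.b i : Gen g n) (seg g (n + 1) 0 i * x *
      (seg g (n + 1) (i + 1) (g - i - 1) * cseg g (n + 1) 0 n)) =
      seg g (n + 1) 0 i * lm (Gen.b i : Gen g n) x *
        (seg g (n + 1) (i + 1) (g - i - 1) * cseg g (n + 1) 0 n) := by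
  apply Wds_handle
  · intro i' h
    exact lm_ne (X := (Gen.b i : Gen g n)) (Y := Gen.a i') (by simp)
  · intro i' h
    exact lm_ne (X := (Gen.b i : Gen g n)) (Y := Gen.b i') (by simpa using h)
  · intro j
    exact lm_ne (by simp)

theorem Wds_rm_a (i : Fin g) (x : F g (n + 1)) :
    rm (Gen.a i : Gen g n) (seg g (n + 1) 0 i * x *
      (seg g (n + 1) (i + 1) (g - i - 1) * cseg g (n + 1) 0 n)) =
      seg g (n + 1) 0 i * rm (Gen.a i : Gen g n) x *
        (seg g (n + 1) (i + 1) (g - i - 1) * cseg g (n + 1) 0 n) := by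
  apply Wds_handle
  · intro i' h
    exact rm_ne (X := (Gen.a i : Gen g n)) (Y := Gen.a i') (by simpa using h)
  · intro i' h
    exact rm_ne (X := (Gen.a i : Gen g n)) (Y := Gen.b i') (by simp)
  · intro j
    exact rm_ne (by simp)

theorem Wds_rm_b (i : Fin g) (x : F g (n + 1)) :
    rm (Gen.b i : Gen g n) (seg g (n + 1) 0 i * x *
      (seg g (n + 1) (i + 1) (g - i - 1) * cseg g (n + 1) 0 n)) =
      seg g (n + 1) 0 i * rm (Gen.b i : Gen g n) x *
        (seg g (n + 1) (i + 1) (g - i - 1) * cseg g (n + 1) 0 n) := by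
  apply Wds_handle
  · intro i' h
    exact rm_ne (X := (Gen.b i : Gen g n)) (Y := Gen.a i') (by simp)
  · intro i' h
    exact rm_ne (X := (Gen.b i : Gen g n)) (Y := Gen.b i') (by simpa using h)
  · intro j
    exact rm_ne (by simp)

theorem Wds_mp (X : Gen g n) (i : Fin g) (x : F g (n + 1)) :
    mp X (seg g (n + 1) 0 i * x *
      (seg g (n + 1) (i + 1) (g - i - 1) * cseg g (n + 1) 0 n)) =
      seg g (n + 1) 0 i * mp X x *
        (seg g (n + 1) (i + 1) (g - i - 1) * cseg g (n + 1) 0 n) := by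
  apply Wds_handle
  · intro i' h
    exact mp_lt X (Gen.a i')
  · intro i' h
    exact mp_lt X (Gen.b i')
  · intro j
    exact mp_lt X (Gen.c j)

theorem Wds_mpi (X : Gen g n) (i : Fin g) (x : F g (n + 1)) :
    (mp X)⁻¹ (seg g (n + 1) 0 i * x *
      (seg g (n + 1) (i + 1) (g - i - 1) * cseg g (n + 1) 0 n)) =
      seg g (n + 1) 0 i * (mp X)⁻¹ x *
        (seg g (n + 1) (i + 1) (g - i - 1) * cseg g (n + 1) 0 n) := by
  apply Wds_handle
  · intro i' h
    exact mp_inv_lt X (Gen.a i')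
  · intro i' h
    exact mp_inv_lt X (Gen.b i')
  · intro j
    exact mp_inv_lt X (Gen.c j)

theorem Wds_chi (i : Fin g) {r : ℕ} (hr : r < 4) : chi g n (4 * i + r) =
    if r = 0 then lm (Gen.a i) else if r = 1 then rm (Gen.b i)
    else if r = 2 then rm (Gen.a i) else lm (Gen.b i) := by
  have h1 : (4 * (i : ℕ) + r) / 4 = i := by omega
  have h2 : (4 * (i : ℕ) + r) % 4 = r := by omega
  unfold chi
  rw [dif_pos (by rw [h1]; exact i.2)]
  simp only [h1, h2, Fin.eta]

theorem Wds_mv (i : Fin g) {r : ℕ} (hr : r < 4) : mv g n (4 * i + r) =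
    if r = 0 then mp (Gen.a i) else if r = 1 then (mp (Gen.b i))⁻¹
    else if r = 2 then (mp (Gen.a i))⁻¹ else mp (Gen.b i) := by
  have h1 : (4 * (i : ℕ) + r) / 4 = i := by omega
  have h2 : (4 * (i : ℕ) + r) % 4 = r := by omega
  unfold mv
  rw [dif_pos (by rw [h1]; exact i.2)]
  simp only [h1, h2, Fin.eta]

theorem Wds_chi_p (j : Fin n) : chi g n (4 * g + j) =
    lm (Gen.c j : Gen g n) * rm (Gen.c j : Gen g n) := by
  have h1 : ¬ (4 * g + (j : ℕ)) / 4 < g := by omega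
  have h2 : 4 * g + (j : ℕ) - 4 * g = j := by omega
  unfold chi
  rw [dif_neg h1, dif_pos (by rw [h2]; exact j.2)]
  simp only [h2, Fin.eta]

theorem Wds_ga (i : Fin g) : (ga i : F g (n + 1)) = lt (Gen.a i) := rfl

theorem Wds_gb (i : Fin g) : (gb i : F g (n + 1)) = lt (Gen.b i) := rfl

theorem Wds_one (k : ℕ) (hk : k < 4 * g + n) : chi g n k (wd g n (k + 1)) = wd g n k := by
  by_cases h : k < 4 * g
  · obtain ⟨i, r, hr, rfl⟩ : ∃ (i : Fin g) (r : ℕ), r < 4 ∧ k = 4 * i + r :=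
      ⟨⟨k / 4, by omega⟩, k % 4, by omega, by simp only; omega⟩
    have hab : (Gen.a i : Gen g n) ≠ Gen.b i := by simp
    have hba : (Gen.b i : Gen g n) ≠ Gen.a i := by simp
    rw [Wds_chi i hr, Wds_h i hr]
    have hr4 : r = 0 ∨ r = 1 ∨ r = 2 ∨ r = 3 := by omega
    rcases hr4 with rfl | rfl | rfl | rfl
    · rw [show 4 * (i : ℕ) + 0 + 1 = 4 * i + 1 by omega, Wds_h i (by norm_num)]
      simp only [stg, if_true, one_ne_zero, if_false]
      rw [Wds_lm_a]
      simp only [Wds_ga, Wds_gb, map_mul, map_inv, lm_self, lm_ne hba, lm_cc]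
      group
    · rw [show 4 * (i : ℕ) + 1 + 1 = 4 * i + 2 by omega, Wds_h i (by norm_num)]
      simp only [stg, if_true, one_ne_zero, if_false, OfNat.ofNat_ne_zero, OfNat.ofNat_ne_one]
      rw [Wds_rm_b]
      simp only [Wds_ga, Wds_gb, map_mul, map_inv, rm_self, rm_ne hab, rm_cc]
      group
    · rw [show 4 * (i : ℕ) + 2 + 1 = 4 * i + 3 by omega, Wds_h i (by norm_num)]
      simp only [stg, if_true, if_false, OfNat.ofNat_ne_zero, OfNat.ofNat_ne_one,
        show (3 : ℕ) ≠ 2 by norm_num]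
      rw [Wds_rm_a]
      simp only [Wds_ga, Wds_gb, map_mul, map_inv, rm_self, rm_ne hba, rm_cc]
      group
    · rw [show 4 * (i : ℕ) + 3 + 1 = 4 * i + 4 by omega, Wds_four i]
      simp only [stg, if_false, OfNat.ofNat_ne_zero, OfNat.ofNat_ne_one,
        show (3 : ℕ) ≠ 2 by norm_num]
      rw [Wds_lm_b]
      simp only [Wds_ga, Wds_gb, map_mul, map_inv, lm_self, lm_ne hab, lm_cc]
      group
  · obtain ⟨j, rfl⟩ : ∃ j : Fin n, k = 4 * g + j := ⟨⟨k - 4 * g, by omega⟩, by simp only; omega⟩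
    rw [Wds_chi_p, Wds_p1, Wds_p0, Wds_point]
    · simp only [MulAut.mul_apply, map_mul, map_inv, lm_self, rm_self, lm_cc, rm_cc]
      group
    · intro i'
      rw [MulAut.mul_apply, Wds_ga, rm_ne (by simp), lm_ne (by simp)]
    · intro i'
      rw [MulAut.mul_apply, Wds_gb, rm_ne (by simp), lm_ne (by simp)]
    · intro j' hj
      rw [MulAut.mul_apply, rm_ne (by simpa using hj), lm_ne (by simpa using hj)]

theorem Wds_two (k : ℕ) (hk : k < 4 * g) :
    mv g n k (wd g n (tg k)) = wd g n k ∧ tg k ≤ 4 * g + n := by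
  obtain ⟨i, r, hr, rfl⟩ : ∃ (i : Fin g) (r : ℕ), r < 4 ∧ k = 4 * i + r :=
    ⟨⟨k / 4, by omega⟩, k % 4, by omega, by simp only; omega⟩
  have hi := i.2
  rw [Wds_mv i hr, Wds_h i hr]
  have hr4 : r = 0 ∨ r = 1 ∨ r = 2 ∨ r = 3 := by omega
  rcases hr4 with rfl | rfl | rfl | rfl
  · have ht : tg (4 * (i : ℕ) + 0) = 4 * i + 3 := by
      unfold tg
      rw [if_pos (by omega)]
    refine ⟨?_, by rw [ht]; omega⟩
    rw [ht, Wds_h i (by norm_num)]
    simp only [stg, if_true, if_false, OfNat.ofNat_ne_zero, OfNat.ofNat_ne_one,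
      show (3 : ℕ) ≠ 2 by norm_num]
    rw [Wds_mp]
    simp only [Wds_ga, Wds_gb, map_mul, map_inv, mp_lt, mp_cc]
    group
  · have ht : tg (4 * (i : ℕ) + 1) = 4 * i + 4 := by
      unfold tg
      rw [if_pos (by omega)]
    refine ⟨?_, by rw [ht]; omega⟩
    rw [ht, Wds_four i]
    simp only [stg, if_true, if_false, one_ne_zero]
    rw [Wds_mpi]
    simp only [Wds_ga, Wds_gb, map_mul, map_inv, mp_inv_lt, mp_inv_cc]
    group
  · have ht : tg (4 * (i : ℕ) + 2) = 4 * i + 1 := by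
      unfold tg
      rw [if_neg (by omega)]
      omega
    refine ⟨?_, by rw [ht]; omega⟩
    rw [ht, Wds_h i (by norm_num)]
    simp only [stg, if_true, if_false, one_ne_zero, OfNat.ofNat_ne_zero, OfNat.ofNat_ne_one]
    rw [Wds_mpi]
    simp only [Wds_ga, Wds_gb, map_mul, map_inv, mp_inv_lt, mp_inv_cc]
    group
  · have ht : tg (4 * (i : ℕ) + 3) = 4 * i + 2 := by
      unfold tg
      rw [if_neg (by omega)]
      omega
    refine ⟨?_, by rw [ht]; omega⟩
    rw [ht, Wds_h i (by norm_num)]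
    simp only [stg, if_true, if_false, OfNat.ofNat_ne_zero, OfNat.ofNat_ne_one,
      show (3 : ℕ) ≠ 2 by norm_num]
    rw [Wds_mp]
    simp only [Wds_ga, Wds_gb, map_mul, map_inv, mp_lt, mp_cc]
    group

theorem Wds_three (j : Fin n) :
    mp (Gen.c j : Gen g n) (wd g n (4 * g + j + 1)) = wd g n (4 * g + j) := by
  rw [Wds_p1, Wds_p0, Wds_point]
  · simp only [map_mul, mp_lt, mp_cc]
    group
  · intro i'
    rw [Wds_ga, mp_lt]
  · intro i'
    rw [Wds_gb, mp_lt]
  · intro j' _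
    rw [mp_lt]

theorem Wds_zt (j : Fin n) : zt j (wd g n (4 * g + j)) = wd g n (4 * g + j) := by
  rw [Wds_p0, Wds_point]
  · simp only [zt, MulAut.mul_apply, map_mul, lm_inv_self, lm_inv_cc, map_inv]
    simp only [mul_inv_cancel_left, mp_inv_lt, lm_self]
  · intro i'
    rw [zt, MulAut.mul_apply, MulAut.mul_apply, Wds_ga, lm_inv_ne (by simp), mp_inv_lt,
      lm_ne (by simp)]
  · intro i'
    rw [zt, MulAut.mul_apply, MulAut.mul_apply, Wds_gb, lm_inv_ne (by simp), mp_inv_lt,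
      lm_ne (by simp)]
  · intro j' hj
    rw [zt, MulAut.mul_apply, MulAut.mul_apply, lm_inv_ne (by simpa using hj), mp_inv_lt,
      lm_ne (by simpa using hj)]

theorem Wds_end : wd g n (4 * g + n) = bdry g (n + 1) := by
  rw [Wds_p, bdry_eq, Nat.sub_self, cseg_zero, cseg_add, cseg_one, Nat.zero_add, Wds_pc_last]
  group

theorem Wds_start : cc g n * bdry g (n + 1) * (cc g n)⁻¹ = wd g n 0 := by
  rw [← Wds_end, Wds_p, Nat.sub_self, cseg_zero]
  by_cases h : 0 < g
  · have h1 := Wds_h (n := n) (⟨0, h⟩ : Fin g) (r := 0) (by norm_num)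
    have h2 := Wds_seg_head (n := n) (⟨0, h⟩ : Fin g)
    simp only [mul_zero, Nat.sub_zero, seg_zero, stg, if_true, zero_add] at h1 h2
    rw [h1, h2]
    group
  · obtain rfl : g = 0 := by omega
    have h1 := Wds_p (g := 0) (n := n) 0
    simp only [mul_zero, Nat.sub_zero, cseg_zero, zero_add] at h1
    rw [h1, seg_zero]
    group

theorem thm_Wds : St_Wds := by
  intro g n
  exact ⟨Wds_one, Wds_two, Wds_three, Wds_zt, Wds_end, Wds_start⟩

end Pool.Agent.PSB
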