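import Pool.Agent.PSB.St

/-!
# Simple branch points, module Wlk: a zero from a state at a marked point
-/

namespace Pool.Agent.PSB

open Pool.Agent.PW

variable {g n : ℕ} {V : Type} [NormedAddCommGroup V] [InnerProductSpace ℝ V] (S : RSys g n V)

theorem Wlk_zt (j : Fin n) :
    zt j (cc g n * lt (Gen.c j)) = cc g n * lt (Gen.c j : Gen g n) := by
  unfold zt
  rw [MulAut.mul_apply, MulAut.mul_apply, map_mul, lm_inv_cc, lm_inv_self, mul_inv_cancel_left,
    mp_inv_lt, lm_self]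

theorem Wlk_zt_pow (j : Fin n) (i : ℕ) :
    (zt j ^ i) (cc g n * lt (Gen.c j)) = cc g n * lt (Gen.c j : Gen g n) := by
  induction i with
  | zero => rfl
  | succ i ih => rw [pow_succ, MulAut.mul_apply, Wlk_zt, ih]

theorem Wlk_fin (x : F g (n + 1)) : ∃ N, 0 < N ∧ S.ρ (x ^ N) = 1 := by
  obtain ⟨a, b, hab, h⟩ := Set.Finite.exists_lt_map_eq_of_forall_mem
    (f := fun i : ℕ => S.ρ (x ^ i)) (fun i => Set.mem_range_self (x ^ i)) S.fin
  refine ⟨b - a, by omega, ?_⟩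
  have h' : S.ρ (x ^ a) = S.ρ (x ^ b) := h
  have e1 : x ^ (b - a) = (x ^ a)⁻¹ * x ^ b := by
    have e2 : x ^ b = x ^ a * x ^ (b - a) := by
      rw [← pow_add]
      congr 1
      omega
    rw [e2, inv_mul_cancel_left]
  rw [e1, map_mul, ← h', ← map_mul, inv_mul_cancel, map_one]

theorem Wlk_sum (x : F g (n + 1)) (h : V) (N : ℕ) :
    S.fl (x ^ N) h = ∑ i ∈ Finset.range N, S.ρ (x ^ i) (S.fl x h) := by
  induction N with
  | zero => rw [pow_zero, fl_one, Finset.range_zero, Finset.sum_empty]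
  | succ N ih => rw [pow_succ, fl_mul, ih, Finset.sum_range_succ]

theorem Wlk_inv (x : F g (n + 1)) (e G : V) (N : ℕ) (hN : S.ρ (x ^ N) = 1) (i : ℕ) :
    inner ℝ (∑ i ∈ Finset.range N, S.ρ (x ^ i) e) (S.ρ (x ^ i) G) =
      (inner ℝ (∑ i ∈ Finset.range N, S.ρ (x ^ i) e) G : ℝ) := by
  have hinv : S.ρ x (∑ i ∈ Finset.range N, S.ρ (x ^ i) e) =
      ∑ i ∈ Finset.range N, S.ρ (x ^ i) e := by
    rw [map_sum]
    have h1 : ∀ i, S.ρ x (S.ρ (x ^ i) e) = S.ρ (x ^ (i + 1)) e := by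
      intro i
      rw [← ρ_mul, pow_succ']
    rw [Finset.sum_congr rfl fun i _ => h1 i]
    have h2 := Finset.sum_range_succ (fun i => S.ρ (x ^ i) e) N
    have h3 := Finset.sum_range_succ' (fun i => S.ρ (x ^ i) e) N
    rw [h3] at h2
    have h4 : S.ρ (x ^ 0) e = S.ρ (x ^ N) e := by
      rw [hN, pow_zero, map_one]
    rw [h4] at h2
    exact add_right_cancel h2
  induction i with
  | zero => rw [pow_zero, ρ_one]; rfl
  | succ i ih =>
    rw [pow_succ', ρ_mul]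
    nth_rw 1 [← hinv]
    rw [S.iso, ih]

theorem thm_Wlk (h1 : St_Wst) (h2 : St_Kil) (h3 : St_Frm) : St_Wlk := by
  intro g n V _ _ _ S e₀ hr M hB j α hα e p T hO hQ
  by_contra hz
  set z : F g (n + 1) := cc g n * lt (Gen.c j) with hzz
  set γ : F g (n + 1) := α z with hγ
  set G : V := S.fl γ (p (some j)) with hG
  have happ : ∀ i : ℕ, (α * zt j ^ i : MulAut (F g (n + 1))) z = γ := by
    intro i
    rw [MulAut.mul_apply, hzz, Wlk_zt_pow]
  have hFr : ∀ i : ℕ, α * zt j ^ i ∈ Fr (wd g n (4 * g + j)) := by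
    intro i
    induction i with
    | zero => rw [pow_zero, mul_one]; exact hα
    | succ i ih =>
      rw [pow_succ, ← mul_assoc]
      exact (h3.2.2.2.1 j _ ih).2
  have key : ∀ i : ℕ, ∃ p' T', S.Opt (α * zt j ^ i) (some j) (S.ρ (γ ^ i) e) p' T' ∧
      S.Q (α * zt j ^ i) p' = M ∧ S.fl γ (p' (some j)) = G := by
    intro i
    induction i with
    | zero =>
      refine ⟨p, T, ?_, ?_, rfl⟩
      · rw [pow_zero, mul_one, pow_zero, ρ_one]
        exact hO
      · rw [pow_zero, mul_one]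
        exact hQ
    | succ i ih =>
      obtain ⟨p1, T1, a1, a2, a3⟩ := ih
      rcases h1 S e₀ hr M hB j _ (hFr i) _ p1 T1 a1 a2 with h | ⟨-, p2, T2, b1, b2, b3⟩
      · exact absurd h hz
      · rw [← hzz, happ] at b1 b3
        refine ⟨p2, T2, ?_, ?_, ?_⟩
        · rw [pow_succ, ← mul_assoc, pow_succ', ρ_mul]
          exact b1
        · rw [pow_succ, ← mul_assoc]
          exact b2
        · rw [b3, a3]
  have hpos : ∀ i : ℕ, 0 < inner ℝ (S.ρ (γ ^ i) e) G * inner ℝ (S.ρ (γ ^ (i + 1)) e) G := by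
    intro i
    obtain ⟨p1, T1, a1, a2, a3⟩ := key i
    rcases h1 S e₀ hr M hB j _ (hFr i) _ p1 T1 a1 a2 with h | ⟨b, -⟩
    · exact absurd h hz
    · rw [← hzz, happ, a3, ← ρ_mul, ← pow_succ'] at b
      exact b
  have hpos0 : ∀ i : ℕ, 0 < inner ℝ (S.ρ (γ ^ 0) e) G * inner ℝ (S.ρ (γ ^ i) e) G := by
    intro i
    induction i with
    | zero =>
      have h := hpos 0
      have hne : inner ℝ (S.ρ (γ ^ 0) e) G ≠ (0 : ℝ) := by
        intro h0
        rw [h0, zero_mul] at h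
        exact lt_irrefl _ h
      exact mul_self_pos.2 hne
    | succ i ih =>
      have h := hpos i
      have h' := mul_pos ih h
      have hne : inner ℝ (S.ρ (γ ^ i) e) G ≠ (0 : ℝ) := by
        intro h0
        rw [h0, zero_mul] at h
        exact lt_irrefl _ h
      have hsq : 0 < inner ℝ (S.ρ (γ ^ i) e) G * inner ℝ (S.ρ (γ ^ i) e) G :=
        mul_self_pos.2 hne
      have e1 : inner ℝ (S.ρ (γ ^ 0) e) G * inner ℝ (S.ρ (γ ^ i) e) G *
          (inner ℝ (S.ρ (γ ^ i) e) G * inner ℝ (S.ρ (γ ^ (i + 1)) e) G) =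
          inner ℝ (S.ρ (γ ^ i) e) G * inner ℝ (S.ρ (γ ^ i) e) G *
            (inner ℝ (S.ρ (γ ^ 0) e) G * inner ℝ (S.ρ (γ ^ (i + 1)) e) G) := by ring
      rw [e1] at h'
      exact (mul_pos_iff_of_pos_left hsq).1 h'
  obtain ⟨N, hN0, hN⟩ := Wlk_fin S γ
  have hv : S.v (γ ^ N) = 0 := h2 S e₀ hr j N hN0 α hα (by
    rw [← hzz, ← hγ, ← map_pow]
    exact hN)
  have hfl : S.fl (γ ^ N) (p (some j)) = 0 := by
    unfold RSys.fl RSys.aff
    rw [hv, hN, zero_add]
    exact sub_self _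
  rw [Wlk_sum, ← hG] at hfl
  have hinner : ∑ i ∈ Finset.range N, (inner ℝ (∑ i ∈ Finset.range N, S.ρ (γ ^ i) e)
      (S.ρ (γ ^ i) G) : ℝ) = 0 := by
    rw [← inner_sum, hfl, inner_zero_right]
  rw [Finset.sum_congr rfl fun i _ => Wlk_inv S γ e G N hN i, Finset.sum_const,
    Finset.card_range, nsmul_eq_mul] at hinner
  have hzero : (inner ℝ (∑ i ∈ Finset.range N, S.ρ (γ ^ i) e) G : ℝ) = 0 :=
    (mul_eq_zero.1 hinner).resolve_left (by exact_mod_cast hN0.ne')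
  rw [sum_inner] at hzero
  have hlast : 0 < ∑ i ∈ Finset.range N,
      inner ℝ (S.ρ (γ ^ 0) e) G * inner ℝ (S.ρ (γ ^ i) e) G :=
    Finset.sum_pos (fun i _ => hpos0 i) ⟨0, Finset.mem_range.2 hN0⟩
  rw [← Finset.mul_sum, hzero, mul_zero] at hlast
  exact lt_irrefl _ hlast

end Pool.Agent.PSB
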