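import Pool.Agent.PSB.St

/-!
# Simple branch points: one step at the vertex of a marked point (Wst)
-/

set_option autoImplicit false

namespace Pool.Agent.PSB

open Pool.Agent.PW

variable {g n : ℕ} {V : Type} [NormedAddCommGroup V] [InnerProductSpace ℝ V]

private theorem Wst_Q_mp (S : RSys g n V) (α : MulAut (F g (n + 1))) (X : Gen g n) (p : Pt n V) :
    S.Q (α * mp X) p = S.Q α p := by
  simp only [RSys.Q, MulAut.mul_apply, mp_lt]

private theorem Wst_Q_mpi (S : RSys g n V) (α : MulAut (F g (n + 1))) (X : Gen g n) (p : Pt n V) :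
    S.Q (α * (mp X)⁻¹) p = S.Q α p := by
  simp only [RSys.Q, MulAut.mul_apply, mp_inv_lt]

private theorem Wst_out (S : RSys g n V) (α : MulAut (F g (n + 1))) (p : Pt n V) (j : Fin n) :
    S.out α p (some j) = S.fl (α (lt (Gen.c j))) (p (some j)) +
      S.fl (α (lt (Gen.c j)))⁻¹ (p (some j)) + (p none - p (some j)) := by
  have h1 : ∑ X : Gen g n, (if vx X = some j then S.fl (α (lt X)) (p (some j)) +
      S.fl (α (lt X))⁻¹ (p (some j)) else 0) = S.fl (α (lt (Gen.c j))) (p (some j)) +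
      S.fl (α (lt (Gen.c j)))⁻¹ (p (some j)) := by
    rw [Finset.sum_eq_single (Gen.c j : Gen g n)]
    · exact if_pos rfl
    · intro Y _ hY
      apply if_neg
      intro h
      apply hY
      cases Y with
      | a i => exact absurd h (by simp [vx])
      | b i => exact absurd h (by simp [vx])
      | c i =>
        have h2 : some i = some j := h
        rw [Option.some.inj h2]
    · intro h
      exact absurd (Finset.mem_univ _) h
  unfold RSys.out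
  rw [h1]
  rfl

private theorem Wst_chi (j : Fin n) : chi g n (4 * g + j) =
    lm (Gen.c j : Gen g n) * rm (Gen.c j : Gen g n) := by
  unfold chi
  have h1 : ¬ (4 * g + (j : ℕ)) / 4 < g := by omega
  have h2 : 4 * g + (j : ℕ) - 4 * g < n := by
    have := j.2
    omega
  rw [dif_neg h1, dif_pos h2]
  have h3 : (⟨4 * g + (j : ℕ) - 4 * g, h2⟩ : Fin n) = j := Fin.ext (by simp)
  rw [h3]

/-- from a marked point to the base vertex in the same frame -/
private theorem Wst_stm (h3 : St_Stm) (h5 : St_Exi) [FiniteDimensional ℝ V] (S : RSys g n V) (M : ℝ)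
    (hM : S.Bd M) (k : ℕ) (hk : k ≤ 4 * g + n) (α : MulAut (F g (n + 1))) (hα : α ∈ Fr (wd g n k))
    (j : Fin n) (e : V) (p : Pt n V) (T : ℝ) (hp : S.Opt α (some j) e p T) (hQ : S.Q α p = M) :
    0 ≤ T * (T - 2 * inner ℝ e (p none - p (some j))) ∧
      (T = 0 → ∃ p', S.Opt α none e p' (inner ℝ e (S.out α p' none)) ∧ S.Q α p' ≤ M ∧
        S.Q0 α (p' - p) = 0) := by
  obtain ⟨p', T', hp'⟩ := h5 S α none e hp.ref ⟨_, hp.fix⟩
  have hle : S.Q α p' ≤ M := hM none α e p' T' ⟨k, hk, hα⟩ hp'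
  obtain ⟨a1, a2⟩ := h3 S α (some j) none e p p' T j hp (Or.inr ⟨rfl, rfl⟩) hp'.fix
  have hT' : inner ℝ e (S.out α p' none) = T' := by
    rw [hp'.at_w, inner_smul_right, hp.ref.self, mul_one]
  refine ⟨?_, fun hT => ⟨p', ?_, hle, ?_⟩⟩
  · rw [hQ] at a1
    linarith
  · rw [hT']
    exact hp'
  · exact (a2 hT (by rw [hQ]; exact hle)).1

private theorem Wst_zero (h3 : St_Stm) (h4 : St_Zer) (h5 : St_Exi) [FiniteDimensional ℝ V]
    (S : RSys g n V) (M : ℝ)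
    (hM : S.Bd M) (k : ℕ) (hk : k ≤ 4 * g + n) (α : MulAut (F g (n + 1))) (hα : α ∈ Fr (wd g n k))
    (j : Fin n) (e : V) (p : Pt n V) (hp : S.Opt α (some j) e p 0) (hQ : S.Q α p = M) :
    ∃ p', S.Zero M α k e p' := by
  obtain ⟨p', hp', hle, hQ0⟩ := (Wst_stm h3 h5 S M hM k hk α hα j e p 0 hp hQ).2 rfl
  obtain ⟨_, _, z3, _, z5⟩ := h4 S α p (p' - p) hQ0
  rw [add_sub_cancel] at z3 z5
  have ho : S.out α p' none = 0 := by
    rw [z3 none]
    exact hp.off_w none (by simp)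
  rw [ho, inner_zero_right] at hp'
  exact ⟨p', hk, hα, hp', by rw [z5, hQ]⟩

theorem thm_Wst (h1 : St_Cro) (h2 : St_Mov) (h3 : St_Stm) (h4 : St_Zer) (h5 : St_Exi) (_h6 : St_Pos)
    (h7 : St_Frm) : St_Wst := by
  intro g n V _ _ _ S e₀ _ M hM j α hα e p T hp hQ
  obtain ⟨X, hX⟩ : ∃ X : Gen g n, X = Gen.c j := ⟨_, rfl⟩
  have hvx : vx X = some j := by rw [hX]; rfl
  have hjn : (j : ℕ) < n := j.2
  obtain ⟨f, hf⟩ : ∃ f : V, f = S.fl (α (lt X)) (p (some j)) := ⟨_, rfl⟩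
  obtain ⟨f', hf'⟩ : ∃ f' : V, f' = S.fl (α (lt X))⁻¹ (p (some j)) := ⟨_, rfl⟩
  obtain ⟨γ, hγ⟩ : ∃ γ : F g (n + 1), γ = α (cc g n * lt X) := ⟨_, rfl⟩
  rw [← hX, ← hγ]
  have hγ' : γ = α (cc g n) * α (lt X) := by rw [hγ, map_mul]
  -- the discrepancies
  have hT : T = inner ℝ e f + inner ℝ e f' + inner ℝ e (p none - p (some j)) := by
    have a1 := hp.at_w
    rw [Wst_out, ← hX, ← hf, ← hf'] at a1
    have a2 : inner ℝ e (f + f' + (p none - p (some j))) = inner ℝ e (T • e) := by rw [a1]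
    rw [inner_smul_right, hp.ref.self, mul_one, inner_add_right, inner_add_right] at a2
    exact a2.symm
  have hfix : S.aff (α (cc g n)) (p (some j)) = p (some j) := hp.fix
  -- the frame `α * lm X`
  obtain ⟨⟨o1, q1⟩, _⟩ := h1 S α (some j) e p T X hp hvx
  rw [← hf] at o1
  have hα1c : (α * lm X) (cc g n) = α (cc g n) := by rw [MulAut.mul_apply, lm_cc]
  have hα1X : (α * lm X) (lt X) = γ := by rw [MulAut.mul_apply, lm_self, hγ]
  have hfl' : S.fl γ⁻¹ (p (some j)) = f' := by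
    rw [hγ', mul_inv_rev, fl_mul_fix (aff_inv_fix hfix), hf']
  obtain ⟨_, ⟨o2, q2⟩, _⟩ := h1 S (α * lm X) (some j) e p _ X o1 hvx
  rw [hα1X, hfl'] at o2
  have hQ1 : S.Q (α * lm X) p = M := by rw [q1, hQ]
  have hQ2 : S.Q (α * lm X * rm X) p = M := by rw [q2, hQ1]
  obtain ⟨T1, hT1⟩ : ∃ T1 : ℝ, T1 = T - 2 * inner ℝ e f := ⟨_, rfl⟩
  rw [← hT1] at o1 o2
  obtain ⟨T2, hT2⟩ : ∃ T2 : ℝ, T2 = T1 - 2 * inner ℝ e f' := ⟨_, rfl⟩
  rw [← hT2] at o2
  have hT2' : T2 = -(T - 2 * inner ℝ e (p none - p (some j))) := by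
    rw [hT2, hT1]
    linarith
  -- frames
  obtain ⟨r1, _, _, r4, _, _⟩ := h7 (g := g) (n := n)
  obtain ⟨fr1, fr2⟩ := r4 j α hα
  have hk : 4 * g + (j : ℕ) < 4 * g + n := by omega
  have fr3 : α * lm X * rm X ∈ Fr (wd g n (4 * g + j + 1)) := by
    have := r1 (4 * g + j) hk α hα
    rw [Wst_chi, ← hX, ← mul_assoc] at this
    exact this
  -- (iii)
  have i3 := (Wst_stm h3 h5 S M hM (4 * g + j) hk.le α hα j e p T hp hQ).1
  have i3' : T * T2 ≤ 0 := by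
    rw [hT2', mul_neg]
    linarith
  -- (i)
  have i1 : 0 ≤ T * T1 := by
    have hc : (α * mp X) (cc g n) = (α (lt X))⁻¹ * α (cc g n) * α (lt X) := by
      rw [MulAut.mul_apply, mp_cc, map_mul, map_mul, map_inv]
    have hr : S.IsRef ((α * mp X) (cc g n)) (S.ρ (α (lt X))⁻¹ e) := by
      rw [hc]
      exact hp.ref.conj' _
    have hfx : ∃ h, S.aff ((α * mp X) (cc g n)) h = h := by
      refine ⟨S.aff (α (lt X))⁻¹ (p (some j)), ?_⟩
      rw [hc, aff_conj_iff, aff_apply_inv]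
      exact hfix
    obtain ⟨p', T', hp'⟩ := h5 S (α * mp X) (some j) _ hr hfx
    have hle : S.Q (α * mp X) p' ≤ M := by
      refine hM (some j) _ _ p' T' (Or.inr ?_) hp'
      rw [hX]
      exact fr1
    rw [Wst_Q_mp] at hle
    have hfix' := hp'.fix
    rw [hc] at hfix'
    have a1 := (h2 S α (some j) e p p' T X (lt X) hp hvx (Or.inl rfl) hfix').1
    rw [hQ, ← hf, ← hT1] at a1
    linarith
  -- (ii)
  have hc2 : (α * lm X * (mp X)⁻¹) (cc g n) = γ * α (cc g n) * γ⁻¹ := by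
    rw [MulAut.mul_apply, mp_inv_cc, map_mul, map_mul, map_inv, hα1X, hα1c]
  have hr2 : S.IsRef ((α * lm X * (mp X)⁻¹) (cc g n)) (S.ρ γ e) := by
    rw [hc2]
    exact hp.ref.conj _
  have hfx2 : ∃ h, S.aff ((α * lm X * (mp X)⁻¹) (cc g n)) h = h := by
    refine ⟨S.aff γ (p (some j)), ?_⟩
    rw [hc2, aff_mul, aff_mul, aff_inv_apply, hfix]
  obtain ⟨p', T', hp'⟩ := h5 S (α * lm X * (mp X)⁻¹) (some j) _ hr2 hfx2
  obtain ⟨_, _, ⟨o3, q3⟩, _⟩ := h1 S (α * lm X * (mp X)⁻¹) (some j) _ p' T' X hp' hvx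
  have hzt : α * lm X * (mp X)⁻¹ * (lm X)⁻¹ = α * zt j := by
    rw [hX]
    unfold zt
    simp only [mul_assoc]
  rw [hzt] at o3 q3
  have hle : S.Q (α * zt j) p' ≤ M := hM (some j) _ _ p' _ (Or.inl fr2) o3
  have q4 : S.Q (α * zt j) p' = S.Q (α * lm X) p' := by rw [q3, Wst_Q_mpi]
  have hfix' : S.aff (((α * lm X) (lt X)⁻¹)⁻¹ * (α * lm X) (cc g n) * (α * lm X) (lt X)⁻¹)
      (p' (some j)) = p' (some j) := by
    have := hp'.fix
    rw [hc2] at this
    rw [map_inv, inv_inv, hα1X, hα1c]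
    exact this
  obtain ⟨a1, a2⟩ := h2 S (α * lm X) (some j) e p p' T1 X (lt X)⁻¹ o1 hvx (Or.inr rfl) hfix'
  rw [map_inv, hα1X, hfl', ← hT2, hQ1] at a1
  have i2 : 0 ≤ T1 * T2 := by linarith
  -- the cases
  by_cases hT0 : T = 0
  · left
    rw [hT0] at hp
    obtain ⟨p', hz⟩ := Wst_zero h3 h4 h5 S M hM (4 * g + j) hk.le α hα j e p hp hQ
    exact ⟨_, _, _, _, hz⟩
  by_cases hT20 : T2 = 0
  · left
    rw [hT20] at o2
    obtain ⟨p', hz⟩ := Wst_zero h3 h4 h5 S M hM (4 * g + j + 1) hk _ fr3 j e p o2 hQ2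
    exact ⟨_, _, _, _, hz⟩
  right
  have hneg : T * T2 < 0 := lt_of_le_of_ne i3' (mul_ne_zero hT0 hT20)
  have hT10 : T1 = 0 := by
    have b1 : 0 ≤ (T * T1) * (T1 * T2) := mul_nonneg i1 i2
    have b2 : (T * T1) * (T1 * T2) = T1 ^ 2 * (T * T2) := by ring
    rw [b2] at b1
    by_contra hne
    have b3 : 0 < T1 ^ 2 := by positivity
    have b4 : T1 ^ 2 * (T * T2) < 0 := mul_neg_of_pos_of_neg b3 hneg
    linarith
  obtain ⟨G, hG⟩ : ∃ G : V, G = S.fl γ (p (some j)) := ⟨_, rfl⟩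
  rw [← hG]
  have hG1 : G = S.ρ (α (cc g n)) f := by
    rw [hG, hγ', fl_fix_mul hfix, hf]
  have hG2 : inner ℝ e G = -(inner ℝ e f : ℝ) := by
    rw [hG1, hp.ref.apply, inner_sub_right, inner_smul_right, hp.ref.self]
    ring
  have hG3 : inner ℝ (S.ρ γ e) G = -(inner ℝ e f' : ℝ) := by
    have b1 : f' = -S.ρ γ⁻¹ G := by
      rw [← hfl', fl_inv, hG]
    rw [inner_ρ, b1, inner_neg_right, neg_neg]
  have c1 : inner ℝ e G = -(T / 2) := by
    rw [hG2]
    linarith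
  have c2 : inner ℝ (S.ρ γ e) G = T2 / 2 := by
    rw [hG3]
    linarith
  refine ⟨?_, p', _, o3, ?_, ?_⟩
  · rw [c1, c2]
    have : -(T / 2) * (T2 / 2) = -(T * T2) / 4 := by ring
    rw [this]
    linarith
  · have b1 := (a2 hT10 (by rw [← q4, hQ1]; exact hle)).1
    obtain ⟨_, _, _, _, z5⟩ := h4 S (α * lm X) p (p' - p) b1
    rw [add_sub_cancel] at z5
    rw [q4, z5, hQ1]
  · have b1 := (a2 hT10 (by rw [← q4, hQ1]; exact hle)).1
    obtain ⟨_, _, _, z4, _⟩ := h4 S (α * lm X) p (p' - p) b1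
    have b2 := z4 X
    rw [add_sub_cancel, hα1X, hvx] at b2
    rw [b2, hG]

end Pool.Agent.PSB
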