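import Pool.Agent.PSB.St

/-!
# Simple branch points: the full circle of crossings (statement `St_Xk`)
-/

set_option autoImplicit false

namespace Pool.Agent.PSB

open Pool.Agent.PW

section

variable {g n : ℕ}

theorem Xk_chi_cc (k : ℕ) : chi g n k (cc g n) = cc g n := by
  unfold chi
  split_ifs
  · exact lm_cc _
  · exact rm_cc _
  · exact rm_cc _
  · exact lm_cc _
  · rw [MulAut.mul_apply, rm_cc, lm_cc]
  · rfl

theorem Xk_chi_a (k : ℕ) (i : Fin g) : chi g n k (lt (Gen.a i)) =
    if k = 4 * (i : ℕ) then cc g n * lt (Gen.a i)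
    else if k = 4 * (i : ℕ) + 2 then lt (Gen.a i) * (cc g n)⁻¹ else lt (Gen.a i) := by
  have hi := i.2
  unfold chi
  by_cases h : k / 4 < g
  · rw [dif_pos h]
    have hcase : k % 4 = 0 ∨ k % 4 = 1 ∨ k % 4 = 2 ∨ k % 4 = 3 := by omega
    by_cases he : k / 4 = i
    · have hf : (⟨k / 4, h⟩ : Fin g) = i := Fin.ext he
      rw [hf]
      rcases hcase with h0 | h0 | h0 | h0
      · rw [if_pos h0, if_pos (by omega), lm_self]
      · rw [if_neg (by omega), if_pos h0, if_neg (by omega), if_neg (by omega),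
          rm_ne (by simp)]
      · rw [if_neg (by omega), if_neg (by omega), if_pos h0, if_neg (by omega),
          if_pos (by omega), rm_self]
      · rw [if_neg (by omega), if_neg (by omega), if_neg (by omega), if_neg (by omega),
          if_neg (by omega), lm_ne (by simp)]
    · have hf : (Gen.a i : Gen g n) ≠ Gen.a ⟨k / 4, h⟩ := by
        intro hc
        rw [Gen.a.injEq] at hc
        apply he
        rw [hc]
      rw [if_neg (show ¬ k = 4 * (i : ℕ) by omega), if_neg (show ¬ k = 4 * (i : ℕ) + 2 by omega)]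
      rcases hcase with h0 | h0 | h0 | h0
      · rw [if_pos h0, lm_ne hf]
      · rw [if_neg (by omega), if_pos h0, rm_ne (by simp)]
      · rw [if_neg (by omega), if_neg (by omega), if_pos h0, rm_ne hf]
      · rw [if_neg (by omega), if_neg (by omega), if_neg (by omega), lm_ne (by simp)]
  · rw [dif_neg h, if_neg (show ¬ k = 4 * (i : ℕ) by omega),
      if_neg (show ¬ k = 4 * (i : ℕ) + 2 by omega)]
    by_cases h2 : k - 4 * g < n
    · rw [dif_pos h2, MulAut.mul_apply, rm_ne (by simp), lm_ne (by simp)]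
    · rw [dif_neg h2]
      rfl

theorem Xk_chi_b (k : ℕ) (i : Fin g) : chi g n k (lt (Gen.b i)) =
    if k = 4 * (i : ℕ) + 1 then lt (Gen.b i) * (cc g n)⁻¹
    else if k = 4 * (i : ℕ) + 3 then cc g n * lt (Gen.b i) else lt (Gen.b i) := by
  have hi := i.2
  unfold chi
  by_cases h : k / 4 < g
  · rw [dif_pos h]
    have hcase : k % 4 = 0 ∨ k % 4 = 1 ∨ k % 4 = 2 ∨ k % 4 = 3 := by omega
    by_cases he : k / 4 = i
    · have hf : (⟨k / 4, h⟩ : Fin g) = i := Fin.ext he
      rw [hf]
      rcases hcase with h0 | h0 | h0 | h0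
      · rw [if_pos h0, if_neg (by omega), if_neg (by omega), lm_ne (by simp)]
      · rw [if_neg (by omega), if_pos h0, if_pos (by omega), rm_self]
      · rw [if_neg (by omega), if_neg (by omega), if_pos h0, if_neg (by omega),
          if_neg (by omega), rm_ne (by simp)]
      · rw [if_neg (by omega), if_neg (by omega), if_neg (by omega), if_neg (by omega),
          if_pos (by omega), lm_self]
    · have hf : (Gen.b i : Gen g n) ≠ Gen.b ⟨k / 4, h⟩ := by
        intro hc
        rw [Gen.b.injEq] at hc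
        apply he
        rw [hc]
      rw [if_neg (show ¬ k = 4 * (i : ℕ) + 1 by omega),
        if_neg (show ¬ k = 4 * (i : ℕ) + 3 by omega)]
      rcases hcase with h0 | h0 | h0 | h0
      · rw [if_pos h0, lm_ne (by simp)]
      · rw [if_neg (by omega), if_pos h0, rm_ne hf]
      · rw [if_neg (by omega), if_neg (by omega), if_pos h0, rm_ne (by simp)]
      · rw [if_neg (by omega), if_neg (by omega), if_neg (by omega), lm_ne hf]
  · rw [dif_neg h, if_neg (show ¬ k = 4 * (i : ℕ) + 1 by omega),
      if_neg (show ¬ k = 4 * (i : ℕ) + 3 by omega)]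
    by_cases h2 : k - 4 * g < n
    · rw [dif_pos h2, MulAut.mul_apply, rm_ne (by simp), lm_ne (by simp)]
    · rw [dif_neg h2]
      rfl

theorem Xk_chi_c (k : ℕ) (j : Fin n) : chi g n k (lt (Gen.c j)) =
    if k = 4 * g + (j : ℕ) then cc g n * lt (Gen.c j) * (cc g n)⁻¹ else lt (Gen.c j) := by
  have hj := j.2
  unfold chi
  by_cases h : k / 4 < g
  · rw [dif_pos h, if_neg (show ¬ k = 4 * g + (j : ℕ) by omega)]
    split_ifs
    · exact lm_ne (by simp)
    · exact rm_ne (by simp)
    · exact rm_ne (by simp)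
    · exact lm_ne (by simp)
  · rw [dif_neg h]
    by_cases h2 : k - 4 * g < n
    · rw [dif_pos h2, MulAut.mul_apply]
      by_cases he : k - 4 * g = j
      · have hf : (⟨k - 4 * g, h2⟩ : Fin n) = j := Fin.ext he
        rw [hf, if_pos (by omega), rm_self, map_mul, map_inv, lm_self, lm_cc]
      · have hf : (Gen.c j : Gen g n) ≠ Gen.c ⟨k - 4 * g, h2⟩ := by
          intro hc
          rw [Gen.c.injEq] at hc
          apply he
          rw [hc]
        rw [if_neg (by omega), rm_ne hf, lm_ne hf]
    · rw [dif_neg h2, if_neg (by omega)]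
      rfl

theorem Xk_cc (k : ℕ) : xk g n k (cc g n) = cc g n := by
  induction k with
  | zero => rfl
  | succ k ih =>
    have : xk g n (k + 1) = xk g n k * chi g n k := rfl
    rw [this, MulAut.mul_apply, Xk_chi_cc, ih]

theorem Xk_succ (k : ℕ) (x : F g (n + 1)) : xk g n (k + 1) x = xk g n k (chi g n k x) := rfl

theorem Xk_a (k : ℕ) (i : Fin g) : xk g n k (lt (Gen.a i)) =
    if k ≤ 4 * (i : ℕ) then lt (Gen.a i)
    else if k ≤ 4 * (i : ℕ) + 2 then cc g n * lt (Gen.a i)
    else cc g n * lt (Gen.a i) * (cc g n)⁻¹ := by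
  induction k with
  | zero => rw [if_pos (Nat.zero_le _)]; rfl
  | succ k ih =>
    rw [Xk_succ, Xk_chi_a]
    by_cases h1 : k = 4 * (i : ℕ)
    · rw [if_pos h1, map_mul, Xk_cc, ih, if_pos (by omega), if_neg (by omega),
        if_pos (by omega)]
    · rw [if_neg h1]
      by_cases h2 : k = 4 * (i : ℕ) + 2
      · rw [if_pos h2, map_mul, map_inv, Xk_cc, ih, if_neg (by omega), if_pos (by omega),
          if_neg (by omega), if_neg (by omega)]
      · rw [if_neg h2, ih]
        by_cases h3 : k ≤ 4 * (i : ℕ)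
        · rw [if_pos h3, if_pos (by omega)]
        · by_cases h4 : k ≤ 4 * (i : ℕ) + 2
          · rw [if_neg h3, if_pos h4, if_neg (by omega), if_pos (by omega)]
          · rw [if_neg h3, if_neg h4, if_neg (by omega), if_neg (by omega)]

theorem Xk_b (k : ℕ) (i : Fin g) : xk g n k (lt (Gen.b i)) =
    if k ≤ 4 * (i : ℕ) + 1 then lt (Gen.b i)
    else if k ≤ 4 * (i : ℕ) + 3 then lt (Gen.b i) * (cc g n)⁻¹
    else cc g n * lt (Gen.b i) * (cc g n)⁻¹ := by
  induction k with
  | zero => rw [if_pos (Nat.zero_le _)]; rfl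
  | succ k ih =>
    rw [Xk_succ, Xk_chi_b]
    by_cases h1 : k = 4 * (i : ℕ) + 1
    · rw [if_pos h1, map_mul, map_inv, Xk_cc, ih, if_pos (by omega), if_neg (by omega),
        if_pos (by omega)]
    · rw [if_neg h1]
      by_cases h2 : k = 4 * (i : ℕ) + 3
      · rw [if_pos h2, map_mul, Xk_cc, ih, if_neg (by omega), if_pos (by omega),
          if_neg (by omega), if_neg (by omega), mul_assoc]
      · rw [if_neg h2, ih]
        by_cases h3 : k ≤ 4 * (i : ℕ) + 1
        · rw [if_pos h3, if_pos (by omega)]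
        · by_cases h4 : k ≤ 4 * (i : ℕ) + 3
          · rw [if_neg h3, if_pos h4, if_neg (by omega), if_pos (by omega)]
          · rw [if_neg h3, if_neg h4, if_neg (by omega), if_neg (by omega)]

theorem Xk_c (k : ℕ) (j : Fin n) : xk g n k (lt (Gen.c j)) =
    if k ≤ 4 * g + (j : ℕ) then lt (Gen.c j)
    else cc g n * lt (Gen.c j) * (cc g n)⁻¹ := by
  induction k with
  | zero => rw [if_pos (Nat.zero_le _)]; rfl
  | succ k ih =>
    rw [Xk_succ, Xk_chi_c]
    by_cases h1 : k = 4 * g + (j : ℕ)
    · rw [if_pos h1, map_mul, map_mul, map_inv, Xk_cc, ih, if_pos (by omega), if_neg (by omega)]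
    · rw [if_neg h1, ih]
      by_cases h3 : k ≤ 4 * g + (j : ℕ)
      · rw [if_pos h3, if_pos (by omega)]
      · rw [if_neg h3, if_neg (by omega)]

end

theorem thm_Xk (h1 : St_Wds) : St_Xk := by
  intro g n
  refine ⟨Xk_cc, ?_, ?_⟩
  · intro k
    induction k with
    | zero => intro _; rfl
    | succ k ih =>
      intro hk
      rw [Xk_succ, h1.1 k (by omega)]
      exact ih (by omega)
  · apply aut_ext
    · rw [Xk_cc, MulAut.conj_apply, mul_inv_cancel_right]
    · intro X
      rw [MulAut.conj_apply]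
      cases X with
      | a i =>
        have hi := i.2
        rw [Xk_a, if_neg (by omega), if_neg (by omega)]
      | b i =>
        have hi := i.2
        rw [Xk_b, if_neg (by omega), if_neg (by omega)]
      | c j =>
        have hj := j.2
        rw [Xk_c, if_neg (by omega)]

end Pool.Agent.PSB
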