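import Pool.Agent.PSB.Asm2
import Pool.Agent.PSB.Bak
import Pool.Agent.PSB.Brd
import Pool.Agent.PSB.Chn
import Pool.Agent.PSB.Conv
import Pool.Agent.PSB.Core
import Pool.Agent.PSB.Exi
import Pool.Agent.PSB.Ext
import Pool.Agent.PSB.Fin
import Pool.Agent.PSB.Gmv
import Pool.Agent.PSB.Gpu
import Pool.Agent.PSB.IndA
import Pool.Agent.PSB.IndC
import Pool.Agent.PSB.Inn
import Pool.Agent.PSB.Jth
import Pool.Agent.PSB.Kil
import Pool.Agent.PSB.Max
import Pool.Agent.PSB.Mov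
import Pool.Agent.PSB.Pig
import Pool.Agent.PSB.Pos
import Pool.Agent.PSB.Prm
import Pool.Agent.PSB.Prs
import Pool.Agent.PSB.Rch
import Pool.Agent.PSB.Sim
import Pool.Agent.PSB.Spn
import Pool.Agent.PSB.Stc
import Pool.Agent.PSB.Stm
import Pool.Agent.PSB.Stp
import Pool.Agent.PSB.Swi
import Pool.Agent.PSB.Trf
import Pool.Agent.PSB.Uni
import Pool.Agent.PSB.Wds
import Pool.Agent.PSB.Wlk
import Pool.Agent.PSB.Wst
import Pool.Agent.PSB.Xk
import Pool.Agent.PSB.Zer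
import Pool.Agent.PSB.Cls
import Pool.Agent.PSB.Cro
import Pool.Agent.PSB.Frm
import Pool.Agent.PSB.Gre
import Pool.Agent.PSB.Low

/-!
# Simple branch points: the theorem
-/

namespace Pool.Agent.PSB

open Pool.Agent.PW

theorem core : St_Core := by
  have gre : St_Gre := thm_Gre
  have zer : St_Zer := thm_Zer
  have low : St_Low := thm_Low
  have exi : St_Exi := thm_Exi gre
  have uni : St_Uni := thm_Uni gre zer
  have mov : St_Mov := thm_Mov gre low zer
  have stm : St_Stm := thm_Stm gre low zer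
  have wds : St_Wds := thm_Wds
  have frm : St_Frm := thm_Frm wds thm_Cls
  have xk : St_Xk := thm_Xk wds
  have bak : St_Bak := thm_Bak xk thm_Cls wds
  have prs : St_Prs := thm_Prs
  have pos : St_Pos := thm_Pos prs
  have kil : St_Kil := thm_Kil thm_Pig frm pos prs
  have fin : St_Fin := thm_Fin uni bak
  have max : St_Max := thm_Max fin exi pos frm thm_Cro
  have stp : St_Stp := thm_Stp thm_Cro thm_Stc mov stm exi pos frm
  have chn : St_Chn := thm_Chn stp thm_Inn uni xk frm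
  have wst : St_Wst := thm_Wst thm_Cro mov stm zer exi pos frm
  have wlk : St_Wlk := thm_Wlk wst kil frm
  have gmv : St_Gmv := thm_Gmv stp frm pos
  have gpu : St_Gpu := thm_Gpu stp mov stm exi pos frm
  have rch : St_Rch := thm_Rch stp gmv gpu frm
  have spn : St_Spn := thm_Spn rch gmv gpu
  have res : St_Core := thm_Core max chn wlk spn
  exact @res

theorem simple_branch (g n : ℕ) (j : Fin n) (K : Subgroup (F g n)) [K.FiniteIndex]
    (hR : bdry g n ∈ K.normalCore) (hs : Simple K (gc j)) (f : K → ℚ) (hf : IsClass K f) :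
    ((orbitH (PushAt j) K f).Finite ↔ ∃ f' : ↥(K ⊔ Nj g j) → ℚ, IsClass (K ⊔ Nj g j) f' ∧
      ∀ x : K, f' ⟨x, Subgroup.mem_sup_left x.2⟩ = f x) ∧
    ((orbit K f).Finite ↔ ∃ f' : ↥(K ⊔ Nj g j) → ℚ, IsClass (K ⊔ Nj g j) f' ∧
      (∀ x : K, f' ⟨x, Subgroup.mem_sup_left x.2⟩ = f x) ∧ (orbit (K ⊔ Nj g j) f').Finite) ∧
    ((K ⊔ Nj g j = ⊤ ∨ 9 ≤ g ∧ derivedSeries (Deck (K ⊔ Nj g j)) 2 = ⊥) → f ≠ 0 →
      (orbit K f).Infinite) ∧
    ((∀ i, Simple K (gc i) ∨ ∀ r : F g n ⧸ K, (gc i : F g n) • r = r) →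
      K ⊔ Nj g j = K ⊔ Subgroup.normalClosure (Set.range gc)) :=
  asm_result (asm_fin1 thm_IndA (thm_IndC thm_IndA) thm_Swi thm_Ext core (thm_Jth thm_Brd))
    thm_Trf thm_Prm thm_Con thm_Sim g n j K hR hs f hf

end Pool.Agent.PSB
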