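import Pool.Agent.PSB.Bas

/-!
# Simple branch points: statements on covers (paper: /team-store/PSB_paper.md, part 2)

Each statement `St_X` is proved in its own file as `theorem thm_X (h : St_Y) .. : St_X`.  `N_j` is the normal
closure of `gc j`.
-/

namespace Pool.Agent.PSB

open Pool.Agent.PW

/-! ### The induced system -/

/-- Translation of the functions on `G ⧸ K`. -/
noncomputable def iρ {G : Type} [Group G] (K : Subgroup G) :
    G →* Module.End ℝ (EuclideanSpace ℝ (G ⧸ K)) where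
  toFun x :=
    { toFun := fun H => WithLp.toLp 2 fun q => H (x⁻¹ • q)
      map_add' := fun H H' => rfl
      map_smul' := fun c H => rfl }
  map_one' := by
    apply LinearMap.ext
    intro H
    ext q
    show H ((1 : G)⁻¹ • q) = H q
    rw [inv_one, one_smul]
  map_mul' x y := by
    apply LinearMap.ext
    intro H
    ext q
    show H ((x * y)⁻¹ • q) = H (y⁻¹ • x⁻¹ • q)
    rw [mul_inv_rev, mul_smul]

theorem iρ_apply {G : Type} [Group G] (K : Subgroup G) (x : G) (H : EuclideanSpace ℝ (G ⧸ K))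
    (q : G ⧸ K) : iρ K x H q = H (x⁻¹ • q) := rfl

variable {g n : ℕ}

/-- The cocycle of a function on `K`. -/
noncomputable def iv (K : Subgroup (F g n)) (f : K → ℚ) (x : F g n) :
    EuclideanSpace ℝ (F g n ⧸ K) :=
  WithLp.toLp 2 fun q => ((ext0 K f (q.out⁻¹ * x * (x⁻¹ • q).out) : ℚ) : ℝ)

theorem iv_apply (K : Subgroup (F g n)) (f : K → ℚ) (x : F g n) (q : F g n ⧸ K) :
    iv K f x q = ((ext0 K f (q.out⁻¹ * x * (x⁻¹ • q).out) : ℚ) : ℝ) := rfl

/-- The monodromy of `x` is a transposition. -/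
def Simple {G : Type} [Group G] (K : Subgroup G) (x : G) : Prop :=
  ∃ p q : G ⧸ K, p ≠ q ∧ x • p = q ∧ x • q = p ∧ ∀ r, r ≠ p → r ≠ q → x • r = r

/-- The normal closure of the loop around the marked point `j`. -/
abbrev Nj (g : ℕ) {n : ℕ} (j : Fin n) : Subgroup (F g n) := Subgroup.normalClosure {(gc j : F g n)}

/-- (IndA) The induced cocycle.  Proof.  `q.out⁻¹ * x * (x⁻¹ • q).out ∈ K` always.  Cocycle:
`q.out⁻¹ x y ((x y)⁻¹ q).out = (q.out⁻¹ x (x⁻¹ q).out) ((x⁻¹ q).out⁻¹ y (y⁻¹ x⁻¹ q).out)` and `hf.add`.  Isometry: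
`∑ q, H (x⁻¹ q) H' (x⁻¹ q)`, reindex.  Finite range: `iρ K x` depends only on the permutation
`toPermHom x`, of a finite set.  `bdry ∈ K.normalCore` acts trivially (conjugates of `bdry` are in `K`), so `iρ = 1`, and
`iv bdry q = f (q.out⁻¹ bdry q.out) = 0` (`hf.bdry`).  `gc j`, more generally any `x`, `m > 0` with `iρ (x ^ m) = 1` and
`iv (x ^ m) = 0`, `v = iv x`, `ρ = iρ x` : `∑_{i < m} ρ^i v = 0`; `k = (1/m) ∑_{i < m} i ρ^i v` has `ρ k - k =
(1/m) (∑_{1 ≤ i ≤ m} (i - 1) ρ^i v - ∑_{0 ≤ i < m} i ρ^i v) = (1/m) ((m - 1) v - ∑_{1 ≤ i < m} ρ^i v) = (1/m) (m v) = v` (with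
`ρ^m = 1`).  For `x = gc j` take `m = ` a positive number with `gc j ^ m ∈ K.normalCore` (finite index) and
`iv (gc j ^ m) q = f (q.out⁻¹ gc j ^ m q.out) = 0` (`hf.marked`). -/
def St_IndA : Prop := ∀ {g n : ℕ} (K : Subgroup (F g n)) [K.FiniteIndex] [Fintype (F g n ⧸ K)]
  (f : K → ℚ), IsClass K f → bdry g n ∈ K.normalCore →
  (∀ x y, iv K f (x * y) = iv K f x + iρ K x (iv K f y)) ∧
  (∀ x (u w : EuclideanSpace ℝ (F g n ⧸ K)), inner ℝ (iρ K x u) (iρ K x w) = (inner ℝ u w : ℝ)) ∧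
  (Set.range (iρ K)).Finite ∧ iρ K (bdry g n) = 1 ∧ iv K f (bdry g n) = 0 ∧
  ∀ j : Fin n, ∃ k, iv K f (gc j) = iρ K (gc j) k - k

/-- (IndC) The orbit of the induced cocycle.  Used: IndA.  Proof: as in `Pool/Agent/PWM/IndOrb.lean` (read it; there the
cosets are of the normal core and on the other side).  `N = K.normalCore`.  (1) There are finitely many homomorphisms
`F → F ⧸ N`, so there is a finite set `P ⊆ H` such that for all `φ ∈ H` there is `φ₁ ∈ P` with `φ x (φ₁ x)⁻¹ ∈ N` for all `x`.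
(2) For `ψ ∈ H` with `ψ x x⁻¹ ∈ N` for all `x` we have `x ∈ K ↔ ψ x ∈ K`, so `f ∘ ψ` is in the finite set `orbitH H K f`; let `P'` be
a finite set of such `ψ` which gives all these functions.  (3) `φ ∈ H`, `φ₁ ∈ P`, `ψ = φ φ₁⁻¹`, `ψ₁ ∈ P'` for `ψ`.  (4) The cocycles
`x ↦ iv (ψ x)` and `x ↦ iv (ψ₁ x)` of `iρ` (`iρ (ψ x) = iρ x`, since `N` acts trivially on `F ⧸ K`) agree on `N`: for `x ∈ N`
`iv (ψ x) q = f (q.out⁻¹ ψ x q.out) = f (ψ (q.out⁻¹ x q.out))` since `ψ (q.out) = n' q.out = q.out n''`, `n'' ∈ N ≤ K`, and `f` is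
additive on `K` with commutative values.  So their difference `D` is a cocycle which vanishes on `N`; averaging over the
finite group `F ⧸ N` : `D x = iρ x u - u`.  (5) Put `φ₁ x` for `x`. -/
def St_IndC : Prop := ∀ {g n : ℕ} (H : Subgroup (MulAut (F g n))) (K : Subgroup (F g n))
  [K.FiniteIndex] [Fintype (F g n ⧸ K)] (f : K → ℚ), IsClass K f → bdry g n ∈ K.normalCore →
  (orbitH H K f).Finite → ∃ T : Set (F g n → EuclideanSpace ℝ (F g n ⧸ K)), T.Finite ∧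
    ∀ φ ∈ H, ∃ s ∈ T, ∃ u, ∀ x, iv K f (φ x) = s x + (iρ K (φ x) u - u)

/-- (Swi) A transposition acts as a reflection.  Proof.  The permutation of `x` on `F ⧸ K` swaps `p ≠ q`.
`e = (1 / √2) (δ_p - δ_q)` (`EuclideanSpace.single`).  `‖e‖ = 1`.  `(iρ x H) r = H (x⁻¹ r)` is `H q` at `p`, `H p` at `q` and
`H r` at the other `r`; `⟪e, H⟫ = (H p - H q) / √2`, `(2 ⟪e, H⟫) e = (H p - H q) (δ_p - δ_q)`. -/
def St_Swi : Prop := ∀ {g n : ℕ} (K : Subgroup (F g n)) [Fintype (F g n ⧸ K)] (x : F g n),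
  Simple K x → ∃ e : EuclideanSpace ℝ (F g n ⧸ K), ‖e‖ = 1 ∧
    ∀ y, iρ K x y = y - (2 * (inner ℝ e y : ℝ)) • e

/-- (Ext) From invariant flows to an extension.  Here `fl x = iv K f x + iρ K x h - h`.  Proof.  `N = ` normal closure of
`c`, `L = K ⊔ N`.  `fl (x y) = fl x + iρ x (fl y)`, `fl x⁻¹ = - iρ x⁻¹ (fl x)`.  `iρ m (fl x) = fl x` for all `m ∈ N` (the
conjugates of `c` generate `N`: closure induction).  Put `F' x = (fl x) (1 K)`, a real number, `1 K` the coset of `1`.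
(1) For `x ∈ L`: `F' (x y) = F' x + (fl y) (x⁻¹ K)` and `x⁻¹ = m k`, `m ∈ N`, `k ∈ K` (`Subgroup.mem_sup`, normal), so `(fl y) (x⁻¹ K) =
(fl y) (m K) = (iρ m⁻¹ (fl y)) (1 K) = F' y`.  (2) For `x ∈ K`: `x⁻¹ (1 K) = 1 K`, `F' x = iv K f x (1 K) = f (t⁻¹ x t) = f x`, `t = (1 K).out ∈ K`.
(3) For `x ∈ L` there is `m > 0` with `x ^ m ∈ K` (finite index), `m F' x = F' (x ^ m) = f (x ^ m)`; so `F' x` is rational.
Define `f' x` = the rational number with the cast `F' x`.  (4) `IsClass L f'`: additive by (1); if `x ∈ L` is conjugate to `bdry`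
then `x ∈ K` (normal core) and `f' x = f x = 0`; if `x ∈ L` is conjugate to `gc j ^ r` then `x ^ m ∈ K` is conjugate to
`gc j ^ (r m)`, so `m f' x = f (x ^ m) = 0`. -/
def St_Ext : Prop := ∀ {g n : ℕ} (K : Subgroup (F g n)) [K.FiniteIndex] [Fintype (F g n ⧸ K)]
  (f : K → ℚ), IsClass K f → bdry g n ∈ K.normalCore →
  (∀ x y, iv K f (x * y) = iv K f x + iρ K x (iv K f y)) → ∀ (c : F g n)
  (h : EuclideanSpace ℝ (F g n ⧸ K)),
  (∀ x w, iρ K (w * c * w⁻¹) (iv K f x + iρ K x h - h) = iv K f x + iρ K x h - h) →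
  ∃ f' : ↥(K ⊔ Subgroup.normalClosure {c}) → ℚ, IsClass (K ⊔ Subgroup.normalClosure {c}) f' ∧
    ∀ x : K, f' ⟨x, Subgroup.mem_sup_left x.2⟩ = f x

/-- (Con) The converse.  Proof.  `N_j ≤ K ⊔ N_j`; `f'` vanishes on the conjugates of `gc j` (`marked` with `m = 1`)
and is additive, so it vanishes on `N_j` (closure induction, also inverses).  For `φ ∈ PushAt j` with `x ∈ K ↔ φ x ∈ K` and
`x ∈ K`: `f (φ x) = f' (φ x) = f' (φ x x⁻¹) + f' x = f x`.  So the orbit is contained in `{f}`. -/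
def St_Con : Prop := ∀ {g n : ℕ} (j : Fin n) (K : Subgroup (F g n)) (f : K → ℚ)
  (f' : ↥(K ⊔ Nj g j) → ℚ), IsClass (K ⊔ Nj g j) f' →
  (∀ x : K, f' ⟨x, Subgroup.mem_sup_left x.2⟩ = f x) → (orbitH (PushAt j) K f).Finite

/-- (Brd) Braiding the marked points.  Proof.  The automorphism `c_l ↦ c_l c_{l+1} c_l⁻¹`, `c_{l+1} ↦ c_l` (`l + 1 < m + 1`), the other
generators fixed, keeps `c_l c_{l+1}` and so `bdry` (`bdry_eq`, `cseg_add`, `cseg_congr`); `gc l` goes to a conjugate of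
`gc (l+1)` and `gc (l+1)` to `gc l`.  (Its inverse: `c_l ↦ c_{l+1}`, `c_{l+1} ↦ c_{l+1}⁻¹ c_l c_{l+1}`; `mkAut`.)  Compose for
`l = j, j + 1, .., m - 1`; induction on `m - j`. -/
def St_Brd : Prop := ∀ {g m : ℕ} (j : Fin (m + 1)), ∃ (σ : MulAut (F g (m + 1)))
  (π : Equiv.Perm (Fin (m + 1))), IsConj (σ (bdry g (m + 1))) (bdry g (m + 1)) ∧
  (∀ i, IsConj (σ (gc i)) (gc (π i) : F g (m + 1))) ∧ π j = Fin.last m

/-- (Jth) From the last marked point to all marked points.  Used: Brd.  Proof.  `σ`, `π` from Brd, `K₁ = K.map σ`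
(or the comap of `σ⁻¹`), `f₁ = f ∘ σ⁻¹` on `K₁`.  `IsClass K₁ f₁` (`σ⁻¹` keeps the class of `bdry` and permutes the classes
of the `gc i`).  `bdry ∈ K₁.normalCore`: `x ∈ K.normalCore → σ x ∈ K₁.normalCore`, `σ bdry` is conjugate to `bdry`.  `Simple K₁ cc`: `F ⧸ K`
and `F ⧸ K₁` correspond by `σ`, and `cc` is conjugate to `σ (gc j)`; a conjugate of a transposition is a
transposition.  `φ ∈ PushAt (last)` gives `σ⁻¹ φ σ ∈ PushAt j` (`σ (N_j) = ` the normal closure of `cc`), so the orbit of `f₁` is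
finite.  Pull `f'` back by `σ`: `σ (K ⊔ N_j) = K₁ ⊔ N_last`. -/
def St_Jth : Prop := (∀ {g m : ℕ} (K : Subgroup (F g (m + 1))) [K.FiniteIndex] (f : K → ℚ),
  IsClass K f → bdry g (m + 1) ∈ K.normalCore → Simple K (cc g m) →
  (orbitH (Push g m) K f).Finite →
  ∃ f' : ↥(K ⊔ Subgroup.normalClosure {cc g m}) → ℚ,
    IsClass (K ⊔ Subgroup.normalClosure {cc g m}) f' ∧
    ∀ x : K, f' ⟨x, Subgroup.mem_sup_left x.2⟩ = f x) →
  ∀ {g n : ℕ} (j : Fin n) (K : Subgroup (F g n)) [K.FiniteIndex] (f : K → ℚ),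
  IsClass K f → bdry g n ∈ K.normalCore → Simple K (gc j) → (orbitH (PushAt j) K f).Finite →
  ∃ f' : ↥(K ⊔ Nj g j) → ℚ, IsClass (K ⊔ Nj g j) f' ∧
    ∀ x : K, f' ⟨x, Subgroup.mem_sup_left x.2⟩ = f x

/-- (Prm) Classes which extend to the whole group.  Proof.  `f' (gc j) = 0`: `gc j ^ m ∈ K` for some `m > 0` and
`m f' (gc j) = f (gc j ^ m) = 0`.  Let `i : Fin g`.  The automorphisms `e2 i k : ga i ↦ ga i * gb i ^ k` (PW/Autos.lean,
`e2_mem`, `e2_pow`) : there is `L > 0` with `x ∈ K ↔ (e2 i (L m)) x ∈ K` for all `m : ℕ` (the powers of `e2 i 1` permute the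
finitely many subgroups of the index of `K`; or: the compositions `F → F ⧸ K.normalCore` of its powers are finitely many,
so `e2 i 1 ^ L x x⁻¹ ∈ K.normalCore` for some `L > 0`).  So the functions `x ↦ f (e2 i (L m) x)`, `m : ℕ`, are in the
finite orbit.  At `x = ga i ^ r ∈ K` (`r > 0`): `f' (e2 i (L m) (ga i ^ r)) = r (f' (ga i) + L m f' (gb i))`; finitely many
values, so `f' (gb i) = 0`.  In the same way `f' (ga i) = 0` with `e1`.  So `f' = 0` on the generators, `f' = 0`, `f = 0`. -/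
def St_Prm : Prop := ∀ {g n : ℕ} (K : Subgroup (F g n)) [K.FiniteIndex] (f : K → ℚ),
  IsClass K f → (orbit K f).Finite → ∀ f' : F g n → ℚ, (∀ x y, f' (x * y) = f' x + f' y) →
  (∀ x : K, f' x = f x) → f = 0

/-- (Trf) Orbits of an extension.  Proof.  `C = K.normalCore ⊓ (core of L)`, in fact `C = K.normalCore ≤ L`.  The homomorphisms
`F → F ⧸ K.normalCore` are finitely many, so there is a finite set `P ⊆ {φ ∈ MCG | φ keeps L}` such that for all `φ ∈ MCG` which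
keep `L` there is `φ₁ ∈ P` with `φ x (φ₁ x)⁻¹ ∈ K.normalCore` for all `x`; `ψ = φ φ₁⁻¹` has `ψ x x⁻¹ ∈ K.normalCore`, so it keeps `K` and `L`.
`f' ∘ φ = (f' ∘ ψ) ∘ φ₁` and `f' ∘ ψ` is determined by its restriction to `K` (`x ^ m ∈ K`, `f' (ψ x) = f' (ψ (x ^ m)) / m`), which is in
`orbit K (f'|K)`, finite. -/
def St_Trf : Prop := ∀ {g n : ℕ} (K L : Subgroup (F g n)) [K.FiniteIndex] (hKL : K ≤ L)
  (f' : L → ℚ), IsClass L f' → (orbit K fun x : K => f' ⟨x, hKL x.2⟩).Finite → (orbit L f').Finite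

/-- (Sim) Two simple branch points.  Proof.  `L = K ⊔ N`, `N` the normal closure of `c`.  If `d` acts trivially on `G ⧸ K`,
then `w⁻¹ d w ∈ K ≤ L` for all `w`.  Otherwise `d` swaps two points `p ≠ q` of `G ⧸ K`.  Let `w ∈ G` with `w⁻¹ d w ∉ L`, that is
`d w L ≠ w L` in `G ⧸ L`.  `c` acts nontrivially, so a conjugate of `c` is not in `K` and `K ≠ L`: there is `l ∈ L`, `l ∉ K`.  The
points `w K ≠ w l K` are both moved by `d` (their images in `G ⧸ L` are moved), so `{p, q} = {w K, w l K}`, and `d` maps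
`w K` to `w l K`, which has the same image in `G ⧸ L`, a contradiction.  So all conjugates of `d` are in `L`. -/
def St_Sim : Prop := ∀ {G : Type} [Group G] (K : Subgroup G) (c d : G), Simple K c →
  (Simple K d ∨ ∀ r : G ⧸ K, d • r = r) → ∀ w, w⁻¹ * d * w ∈ K ⊔ Subgroup.normalClosure {c}

/-- (Mxl) Maximal subgroups.  Proof.  `gc j` acts nontrivially, so `w⁻¹ * gc j * w ∉ K` for some `w`; so
`K < K ⊔ N_j`, hence `= ⊤`. -/
def St_Mxl : Prop := ∀ {g n : ℕ} (j : Fin n) (K : Subgroup (F g n)), IsCoatom K →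
  Simple K (gc j) → K ⊔ Nj g j = ⊤

end Pool.Agent.PSB
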