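import Pool.Agent.PSB.St
import Pool.Agent.PSB.StB

/-!
# Simple branch points: assembly
-/

namespace Pool.Agent.PSB

open Pool.Agent.PW

/-- The last marked point. -/
theorem asm_last (hA : St_IndA) (hC : St_IndC) (hS : St_Swi) (hE : St_Ext) (hcore : St_Core)
    {g m : ℕ} (K : Subgroup (F g (m + 1))) [K.FiniteIndex] (f : K → ℚ) (hf : IsClass K f)
    (hb : bdry g (m + 1) ∈ K.normalCore) (hs : Simple K (cc g m))
    (ho : (orbitH (Push g m) K f).Finite) :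
    ∃ f' : ↥(K ⊔ Subgroup.normalClosure {cc g m}) → ℚ,
      IsClass (K ⊔ Subgroup.normalClosure {cc g m}) f' ∧
      ∀ x : K, f' ⟨x, Subgroup.mem_sup_left x.2⟩ = f x := by
  have : Fintype (F g (m + 1) ⧸ K) := Fintype.ofFinite _
  obtain ⟨h1, h2, h3, h4, h5, h6⟩ := hA K f hf hb
  let S : RSys g m (EuclideanSpace ℝ (F g (m + 1) ⧸ K)) :=
    { ρ := iρ K, v := iv K f, coc := h1, iso := h2, fin := h3, bd := h4, bv := h5, par := h6
      orb := hC (Push g m) K f hf hb ho }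
  obtain ⟨e, he⟩ := hS K (cc g m) hs
  obtain ⟨h, hh⟩ := hcore S e he
  exact hE K f hf hb h1 (cc g m) h hh

/-- The extension for every marked point. -/
def St_Fin1 : Prop := ∀ {g n : ℕ} (j : Fin n) (K : Subgroup (F g n)) [K.FiniteIndex] (f : K → ℚ),
  IsClass K f → bdry g n ∈ K.normalCore → Simple K (gc j) → (orbitH (PushAt j) K f).Finite →
  ∃ f' : ↥(K ⊔ Nj g j) → ℚ, IsClass (K ⊔ Nj g j) f' ∧
    ∀ x : K, f' ⟨x, Subgroup.mem_sup_left x.2⟩ = f x

theorem asm_fin1 (hA : St_IndA) (hC : St_IndC) (hS : St_Swi) (hE : St_Ext) (hcore : St_Core)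
    (hJ : St_Jth) : St_Fin1 :=
  hJ fun K _ f hf hb hs ho => asm_last hA hC hS hE hcore K f hf hb hs ho

theorem orbitH_subset {g n : ℕ} (j : Fin n) (K : Subgroup (F g n)) (f : K → ℚ) :
    orbitH (PushAt j) K f ⊆ orbit K f := by
  rintro f' ⟨φ, h1, h2, h3⟩
  exact ⟨φ, h1.1, h2, h3⟩

/-- Reduction to the intermediate cover. -/
theorem asm_two (hF : St_Fin1) (hT : St_Trf) {g n : ℕ} (j : Fin n) (K : Subgroup (F g n))
    [K.FiniteIndex] (f : K → ℚ) (hf : IsClass K f) (hb : bdry g n ∈ K.normalCore)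
    (hs : Simple K (gc j)) (ho : (orbit K f).Finite) :
    ∃ f' : ↥(K ⊔ Nj g j) → ℚ, IsClass (K ⊔ Nj g j) f' ∧
      (∀ x : K, f' ⟨x, Subgroup.mem_sup_left x.2⟩ = f x) ∧ (orbit (K ⊔ Nj g j) f').Finite := by
  obtain ⟨f', h1, h2⟩ := hF j K f hf hb hs (ho.subset (orbitH_subset j K f))
  refine ⟨f', h1, h2, hT K (K ⊔ Nj g j) le_sup_left f' h1 ?_⟩
  have e : (fun x : K => f' ⟨x, Subgroup.mem_sup_left x.2⟩) = f := funext h2
  rwa [e]

theorem asm_three (hF : St_Fin1) (hP : St_Prm) {g n : ℕ} (j : Fin n) (K : Subgroup (F g n))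
    [K.FiniteIndex] (f : K → ℚ) (hf : IsClass K f) (hb : bdry g n ∈ K.normalCore)
    (hs : Simple K (gc j)) (ht : K ⊔ Nj g j = ⊤) (h0 : f ≠ 0) : (orbit K f).Infinite := by
  intro ho
  obtain ⟨f', h1, h2⟩ := hF j K f hf hb hs (ho.subset (orbitH_subset j K f))
  have hm : ∀ x, x ∈ K ⊔ Nj g j := fun x => by
    rw [ht]
    exact Subgroup.mem_top x
  exact h0 (hP K f hf ho (fun x => f' ⟨x, hm x⟩) (fun x y => h1.add ⟨x, hm x⟩ ⟨y, hm y⟩) h2)

/-- Mapping classes which keep `K` keep `K ⊔ N_j`. -/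
theorem asm_keep {g n : ℕ} (j : Fin n) (K : Subgroup (F g n)) {φ : MulAut (F g n)}
    (hφ : φ ∈ MCG g n) (h : ∀ x, x ∈ K ↔ φ x ∈ K) (x : F g n) (hx : x ∈ K ⊔ Nj g j) :
    φ x ∈ K ⊔ Nj g j := by
  have h1 : K ⊔ Nj g j ≤ (K ⊔ Nj g j).comap φ.toMonoidHom := by
    apply sup_le
    · intro y hy
      exact (le_sup_left : K ≤ K ⊔ Nj g j) ((h y).1 hy)
    · have h2 : (gc j : F g n) ∈ (Nj g j).comap φ.toMonoidHom := by
        obtain ⟨w, hw⟩ := isConj_iff.1 (hφ.2 j)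
        have h3 : φ (gc j) = w⁻¹ * gc j * (w⁻¹)⁻¹ := by
          have e : w⁻¹ * (w * φ (gc j) * w⁻¹) * (w⁻¹)⁻¹ = φ (gc j) := by group
          rw [hw] at e
          exact e.symm
        show φ (gc j) ∈ Nj g j
        rw [h3]
        exact Subgroup.normalClosure_normal.conj_mem _
          (Subgroup.subset_normalClosure (s := {(gc j : F g n)}) rfl) w⁻¹
      have h4 : Nj g j ≤ (Nj g j).comap φ.toMonoidHom := by
        have : ((Nj g j).comap φ.toMonoidHom).Normal := Subgroup.normalClosure_normal.comap _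
        apply Subgroup.normalClosure_le_normal
        rintro _ rfl
        exact h2
      exact h4.trans (Subgroup.comap_mono le_sup_right)
  exact h1 hx

theorem asm_conv {g n : ℕ} (j : Fin n) (K : Subgroup (F g n)) (f : K → ℚ)
    (f' : ↥(K ⊔ Nj g j) → ℚ) (h1 : ∀ x : K, f' ⟨x, Subgroup.mem_sup_left x.2⟩ = f x)
    (ho : (orbit (K ⊔ Nj g j) f').Finite) : (orbit K f).Finite := by
  apply (ho.image fun (F' : ↥(K ⊔ Nj g j) → ℚ) (x : K) =>
    F' ⟨x, Subgroup.mem_sup_left x.2⟩).subset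
  rintro f1 ⟨φ, hφ, h, hf1⟩
  have hinv : ∀ x, x ∈ K ↔ φ⁻¹ x ∈ K := by
    intro x
    have h2 := h (φ⁻¹ x)
    have e : φ (φ⁻¹ x) = x := by simp
    rw [e] at h2
    exact h2.symm
  have hL : ∀ x, x ∈ K ⊔ Nj g j ↔ φ x ∈ K ⊔ Nj g j := by
    intro x
    constructor
    · exact asm_keep j K hφ h x
    · intro hx
      have := asm_keep j K ((MCG g n).inv_mem hφ) hinv (φ x) hx
      have e : φ⁻¹ (φ x) = x := by simp
      rwa [e] at this
  refine ⟨fun x => f' ⟨φ x, (hL x).1 x.2⟩, ⟨φ, hφ, hL, fun _ => rfl⟩, ?_⟩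
  funext x
  rw [hf1 x, ← h1 ⟨φ x, (h x).1 x.2⟩]

/-- All marked points simple or unbranched. -/
theorem asm_four (hSim : St_Sim) {g n : ℕ} (j : Fin n) (K : Subgroup (F g n))
    (hs : Simple K (gc j)) (ha : ∀ i, Simple K (gc i) ∨ ∀ r : F g n ⧸ K, (gc i : F g n) • r = r) :
    K ⊔ Nj g j = K ⊔ Subgroup.normalClosure (Set.range gc) := by
  apply le_antisymm
  · apply sup_le le_sup_left
    apply le_trans _ le_sup_right
    apply Subgroup.normalClosure_mono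
    rintro _ rfl
    exact ⟨j, rfl⟩
  · apply sup_le le_sup_left
    have h1 : ∀ i, ∀ w, w * gc i * w⁻¹ ∈ K ⊔ Nj g j := by
      intro i w
      have := hSim K (gc j) (gc i) hs (ha i) w⁻¹
      rwa [inv_inv] at this
    rw [Subgroup.normalClosure, Subgroup.closure_le]
    intro x hx
    rw [Group.mem_conjugatesOfSet_iff] at hx
    obtain ⟨_, ⟨i, rfl⟩, hc⟩ := hx
    obtain ⟨w, hw⟩ := isConj_iff.1 hc
    rw [← hw]
    exact h1 i w

end Pool.Agent.PSB
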