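import Pool.Agent.PWM.ThmF
import Pool.Agent.PWM.Sep
import Pool.Agent.PWM.Fix
import Pool.Agent.PWM.Gen
import Pool.Agent.PWM.IndKill
import Pool.Agent.PWM.IndOrb
import Pool.Agent.PWM.IndA
import Pool.Agent.PWM.Van
import Pool.Agent.PWM.RC1
import Pool.Agent.PWM.RC2
import Pool.Agent.PWM.RC3
import Pool.Agent.PWM.RN
import Pool.Agent.PWM.R
import Pool.Agent.PWM.Rot0
import Pool.Agent.PWM.GrpR
import Pool.Agent.PWM.RotC
import Pool.Agent.PWM.G1
import Pool.Agent.PWM.G2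
import Pool.Agent.PWM.G4
import Pool.Agent.PWM.G5
import Pool.Agent.PWM.G7
import Pool.Agent.PWM.GF
import Pool.Agent.PWM.GFl
import Pool.Agent.PWM.GrpC
import Pool.Agent.PWM.C
import Pool.Agent.PWM.A
import Pool.Agent.PWM.Star
import Pool.Agent.PWM.CaseA
import Pool.Agent.PWM.B0
import Pool.Agent.PWM.CaseB
import Pool.Agent.PWM.Blk
import Pool.Agent.PWM.Swp
import Pool.Agent.PWM.Euclid
import Pool.Agent.PWM.PuT
import Pool.Agent.PWM.Two
import Pool.Agent.PWM.J4
import Pool.Agent.PWM.N5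
import Pool.Agent.PWM.Clm

/-!
# Metabelian deck groups (the theorem of the hand-in Metabelian)
-/

namespace Pool.Agent.PSB

open Pool.Agent.PW Pool.Agent.PWM

theorem metabelian (g n : ℕ) (hg : 9 ≤ g) (K : Subgroup (F g n)) [K.FiniteIndex]
    (hR : bdry g n ∈ K.normalCore) (hK : derivedSeries (Deck K) 2 = ⊥)
    (f : K → ℚ) (hf : IsClass K f) (h0 : f ≠ 0) : (orbit K f).Infinite := by
  have rot : St_Rot := st_Rot (st_Rot0 (st_R st_RC1 (st_RC2 st_RC1) st_RC3 st_RN)) st_GrpR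
  have g1 : St_G1 := st_G1 st_Blk st_J
  have gfl : St_GFl := st_GFl g1 (st_GF st_Fix (st_G2 st_Fix g1)
    (st_G7 g1 (st_G5 st_Blk st_Two st_Sep (st_G4 st_Push g1))))
  have lc : St_C := st_C st_Blk st_J gfl rot st_GrpC
  have la : St_A := st_A st_Blk st_N (st_Claim lc)
  have hF : St_ThmF := st_ThmF
    (st_CaseA st_Blk st_Euc st_Swap st_Gen la (st_Star la gfl))
    (st_CaseB st_Blk st_Euc st_Gen (st_B0 st_Blk st_J) gfl)
  exact infinite_of_metabelian hF (st_Ind (st_IndKill st_Move) st_IndOrb) (st_Van st_Sep) hg hR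
    (fun d hd e he => cm_mem_of_metabelian hK hd he) hf h0

end Pool.Agent.PSB
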