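import Pool.Agent.PSB.Asm
import Pool.Agent.PSB.Met

/-!
# Simple branch points: the theorem from the modules
-/

namespace Pool.Agent.PSB

open Pool.Agent.PW

theorem asm_core {g n : ℕ} {K L : Subgroup (F g n)} (h : K ≤ L) : K.normalCore ≤ L.normalCore := by
  intro x hx w
  exact h (hx w)

theorem asm_result (hF : St_Fin1) (hT : St_Trf) (hP : St_Prm) (hCon : St_Con) (hSim : St_Sim)
    (g n : ℕ) (j : Fin n) (K : Subgroup (F g n)) [K.FiniteIndex]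
    (hb : bdry g n ∈ K.normalCore) (hs : Simple K (gc j)) (f : K → ℚ) (hf : IsClass K f) :
    ((orbitH (PushAt j) K f).Finite ↔ ∃ f' : ↥(K ⊔ Nj g j) → ℚ, IsClass (K ⊔ Nj g j) f' ∧
      ∀ x : K, f' ⟨x, Subgroup.mem_sup_left x.2⟩ = f x) ∧
    ((orbit K f).Finite ↔ ∃ f' : ↥(K ⊔ Nj g j) → ℚ, IsClass (K ⊔ Nj g j) f' ∧
      (∀ x : K, f' ⟨x, Subgroup.mem_sup_left x.2⟩ = f x) ∧ (orbit (K ⊔ Nj g j) f').Finite) ∧
    ((K ⊔ Nj g j = ⊤ ∨ 9 ≤ g ∧ derivedSeries (Deck (K ⊔ Nj g j)) 2 = ⊥) → f ≠ 0 →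
      (orbit K f).Infinite) ∧
    ((∀ i, Simple K (gc i) ∨ ∀ r : F g n ⧸ K, (gc i : F g n) • r = r) →
      K ⊔ Nj g j = K ⊔ Subgroup.normalClosure (Set.range gc)) := by
  refine ⟨⟨hF j K f hf hb hs, ?_⟩, ⟨asm_two hF hT j K f hf hb hs, ?_⟩, ?_, asm_four hSim j K hs⟩
  · rintro ⟨f', h1, h2⟩
    exact hCon j K f f' h1 h2
  · rintro ⟨f', -, h2, h3⟩
    exact asm_conv j K f f' h2 h3
  · rintro (ht | ⟨hg, hd⟩) h0
    · exact asm_three hF hP j K f hf hb hs ht h0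
    · intro ho
      obtain ⟨f', h1, h2, h3⟩ := asm_two hF hT j K f hf hb hs ho
      have hfi : (K ⊔ Nj g j).FiniteIndex := Subgroup.finiteIndex_of_le le_sup_left
      refine metabelian g n hg (K ⊔ Nj g j) (asm_core le_sup_left hb) hd f' h1 ?_ h3
      intro h4
      apply h0
      funext x
      rw [← h2 x, h4]
      rfl

end Pool.Agent.PSB
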