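import Pool.Agent.PWM.StB

/-!
# Simple branch points: definitions (paper: /team-store/PSB_paper.md)

The last marked point, with the loop `cc g n`, moves on the surface; its monodromy is a reflection.
-/

namespace Pool.Agent.PSB

open Pool.Agent.PW

/-! ### Point pushes and orbits -/

/-- The point pushes of the marked point `j`: the mapping classes which act trivially modulo the
normal closure of the loop `gc j`. -/
def PushAt {g n : ℕ} (j : Fin n) : Subgroup (MulAut (F g n)) where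
  carrier := {φ | φ ∈ MCG g n ∧ ∀ x, φ x * x⁻¹ ∈ Subgroup.normalClosure {(gc j : F g n)}}
  one_mem' := ⟨(MCG g n).one_mem, fun x => by simp⟩
  mul_mem' := by
    rintro φ ψ ⟨h1, h2⟩ ⟨h3, h4⟩
    refine ⟨(MCG g n).mul_mem h1 h3, fun x => ?_⟩
    have := Subgroup.mul_mem _ (h2 (ψ x)) (h4 x)
    rwa [MulAut.mul_apply, show φ (ψ x) * x⁻¹ = φ (ψ x) * (ψ x)⁻¹ * (ψ x * x⁻¹) by group]
  inv_mem' := by
    rintro φ ⟨h1, h2⟩
    refine ⟨(MCG g n).inv_mem h1, fun x => ?_⟩
    have := Subgroup.inv_mem _ (h2 (φ⁻¹ x))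
    have e : φ (φ⁻¹ x) = x := by simp
    rw [e] at this
    rwa [show φ⁻¹ x * x⁻¹ = (x * (φ⁻¹ x)⁻¹)⁻¹ by group]

/-- The orbit of `f` under the mapping classes in `H` which keep `K`. -/
def orbitH {g n : ℕ} (H : Subgroup (MulAut (F g n))) (K : Subgroup (F g n)) (f : K → ℚ) :
    Set (K → ℚ) :=
  {f' | ∃ φ ∈ H, ∃ h : ∀ x, x ∈ K ↔ φ x ∈ K, ∀ x : K, f' x = f ⟨φ x, (h x).1 x.2⟩}

/-! ### The free group with the moving marked point -/

/-- The loop around the last marked point, the moving point. -/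
def cc (g n : ℕ) : F g (n + 1) := gc (Fin.last n)

/-- The normal closure of the loop around the moving point. -/
abbrev NC (g n : ℕ) : Subgroup (F g (n + 1)) := Subgroup.normalClosure {cc g n}

/-- The point pushes of the moving point. -/
abbrev Push (g n : ℕ) : Subgroup (MulAut (F g (n + 1))) := PushAt (Fin.last n)

variable {g n : ℕ}

/-- The embedding of the other generators. -/
def em : Gen g n → Gen g (n + 1)
  | Gen.a i => Gen.a i
  | Gen.b i => Gen.b i
  | Gen.c j => Gen.c j.castSucc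

/-- The letters: the generators other than `cc`. -/
def lt (X : Gen g n) : F g (n + 1) := FreeGroup.of (em X)

/-- The vertex of a letter of the graph: `none` is the base vertex, `some j` is the vertex at the
marked point `j`. -/
def vx : Gen g n → Option (Fin n)
  | Gen.a _ => none
  | Gen.b _ => none
  | Gen.c j => some j

/-- The generators as a sum. -/
def genEquiv (g n : ℕ) : Gen g n ≃ (Fin g ⊕ Fin g) ⊕ Fin n where
  toFun
    | Gen.a i => Sum.inl (Sum.inl i)
    | Gen.b i => Sum.inl (Sum.inr i)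
    | Gen.c j => Sum.inr j
  invFun
    | Sum.inl (Sum.inl i) => Gen.a i
    | Sum.inl (Sum.inr i) => Gen.b i
    | Sum.inr j => Gen.c j
  left_inv := by rintro (i | i | j) <;> rfl
  right_inv := by rintro ((i | i) | j) <;> rfl

instance : Fintype (Gen g n) := Fintype.ofEquiv _ (genEquiv g n).symm

/-! ### Elementary automorphisms -/

theorem em_ne_last (X : Gen g n) : em X ≠ Gen.c (Fin.last n) := by
  intro h
  cases X with
  | a i => simp [em] at h
  | b i => simp [em] at h
  | c j =>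
    simp only [em, Gen.c.injEq] at h
    exact absurd h (Fin.castSucc_lt_last j).ne

theorem em_inj : Function.Injective (em : Gen g n → Gen g (n + 1)) := by
  intro X Y h
  cases X <;> cases Y <;> simp_all [em]

/-- `lt X ↦ cc ^ k * lt X`. -/
def lmh (X : Gen g n) (k : ℤ) : F g (n + 1) →* F g (n + 1) :=
  FreeGroup.lift fun y => if y = em X then cc g n ^ k * lt X else FreeGroup.of y

/-- `lt X ↦ lt X * cc ^ k`. -/
def rmh (X : Gen g n) (k : ℤ) : F g (n + 1) →* F g (n + 1) :=
  FreeGroup.lift fun y => if y = em X then lt X * cc g n ^ k else FreeGroup.of y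

/-- `cc ↦ lt X ^ (- k) * cc * lt X ^ k`. -/
def mph (X : Gen g n) (k : ℤ) : F g (n + 1) →* F g (n + 1) :=
  FreeGroup.lift fun y => if y = Gen.c (Fin.last n) then lt X ^ (-k) * cc g n * lt X ^ k
    else FreeGroup.of y

theorem lmh_cc (X : Gen g n) (k : ℤ) : lmh X k (cc g n) = cc g n := by
  simp [lmh, cc, gc, (em_ne_last X).symm]

theorem rmh_cc (X : Gen g n) (k : ℤ) : rmh X k (cc g n) = cc g n := by
  simp [rmh, cc, gc, (em_ne_last X).symm]

theorem mph_cc (X : Gen g n) (k : ℤ) : mph X k (cc g n) = lt X ^ (-k) * cc g n * lt X ^ k := by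
  simp [mph, cc, gc]

theorem lmh_self (X : Gen g n) (k : ℤ) : lmh X k (lt X) = cc g n ^ k * lt X := by
  simp [lmh, lt]

theorem rmh_self (X : Gen g n) (k : ℤ) : rmh X k (lt X) = lt X * cc g n ^ k := by
  simp [rmh, lt]

theorem lmh_ne {X Y : Gen g n} (h : Y ≠ X) (k : ℤ) : lmh X k (lt Y) = lt Y := by
  simp [lmh, lt, em_inj.ne h]

theorem rmh_ne {X Y : Gen g n} (h : Y ≠ X) (k : ℤ) : rmh X k (lt Y) = lt Y := by
  simp [rmh, lt, em_inj.ne h]

theorem mph_lt (X Y : Gen g n) (k : ℤ) : mph X k (lt Y) = lt Y := by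
  simp [mph, lt, em_ne_last Y]

theorem gen_cases (y : Gen g (n + 1)) : y = Gen.c (Fin.last n) ∨ ∃ X : Gen g n, y = em X := by
  cases y with
  | a i => exact Or.inr ⟨Gen.a i, rfl⟩
  | b i => exact Or.inr ⟨Gen.b i, rfl⟩
  | c j =>
    rcases Fin.eq_castSucc_or_eq_last j with ⟨i, rfl⟩ | rfl
    · exact Or.inr ⟨Gen.c i, rfl⟩
    · exact Or.inl rfl

/-- Homomorphisms which agree on the letters and on `cc`. -/
theorem hom_ext' {H : Type*} [Group H] {φ ψ : F g (n + 1) →* H} (h1 : φ (cc g n) = ψ (cc g n))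
    (h2 : ∀ X : Gen g n, φ (lt X) = ψ (lt X)) : φ = ψ := by
  apply FreeGroup.ext_hom
  intro y
  rcases gen_cases y with rfl | ⟨X, rfl⟩
  · exact h1
  · exact h2 X

theorem lmh_comp (X : Gen g n) (k l : ℤ) : (lmh X k).comp (lmh X l) = lmh X (k + l) := by
  apply hom_ext'
  · simp [lmh_cc]
  · intro Y
    by_cases h : Y = X
    · subst h
      simp only [MonoidHom.comp_apply, lmh_self, map_mul, map_zpow, lmh_cc]
      rw [← mul_assoc, ← zpow_add, add_comm l k]
    · simp [lmh_ne h]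

theorem rmh_comp (X : Gen g n) (k l : ℤ) : (rmh X k).comp (rmh X l) = rmh X (k + l) := by
  apply hom_ext'
  · simp [rmh_cc]
  · intro Y
    by_cases h : Y = X
    · subst h
      simp only [MonoidHom.comp_apply, rmh_self, map_mul, map_zpow, rmh_cc]
      rw [mul_assoc, ← zpow_add]
    · simp [rmh_ne h]

theorem mph_comp (X : Gen g n) (k l : ℤ) : (mph X k).comp (mph X l) = mph X (k + l) := by
  apply hom_ext'
  · simp only [MonoidHom.comp_apply, mph_cc, map_mul, map_zpow, mph_lt]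
    group
  · intro Y
    simp [mph_lt]

theorem lmh_zero (X : Gen g n) : lmh X 0 = MonoidHom.id _ := by
  apply hom_ext'
  · simp [lmh_cc]
  · intro Y
    by_cases h : Y = X
    · subst h
      simp [lmh_self]
    · simp [lmh_ne h]

theorem rmh_zero (X : Gen g n) : rmh X 0 = MonoidHom.id _ := by
  apply hom_ext'
  · simp [rmh_cc]
  · intro Y
    by_cases h : Y = X
    · subst h
      simp [rmh_self]
    · simp [rmh_ne h]

theorem mph_zero (X : Gen g n) : mph X 0 = MonoidHom.id _ := by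
  apply hom_ext'
  · simp [mph_cc]
  · intro Y
    simp [mph_lt]

/-- `lt X ↦ cc * lt X` : the moving point crosses the beginning of the edge `X`. -/
def lm (X : Gen g n) : MulAut (F g (n + 1)) := mkAut (lmh X 1) (lmh X (-1))
  (by rw [lmh_comp, neg_add_cancel, lmh_zero]) (by rw [lmh_comp, add_neg_cancel, lmh_zero])

/-- `lt X ↦ lt X * cc⁻¹` : the moving point crosses the end of the edge `X`. -/
def rm (X : Gen g n) : MulAut (F g (n + 1)) := mkAut (rmh X (-1)) (rmh X 1)
  (by rw [rmh_comp, add_neg_cancel, rmh_zero]) (by rw [rmh_comp, neg_add_cancel, rmh_zero])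

/-- `cc ↦ (lt X)⁻¹ * cc * lt X` : the moving point moves along the edge `X`. -/
def mp (X : Gen g n) : MulAut (F g (n + 1)) := mkAut (mph X 1) (mph X (-1))
  (by rw [mph_comp, neg_add_cancel, mph_zero]) (by rw [mph_comp, add_neg_cancel, mph_zero])

/-! ### Positions of the moving point -/

/-- The boundary word of the handle `i` with `cc` inserted at the stage `r`. -/
def stg (i : Fin g) (r : ℕ) : F g (n + 1) :=
  if r = 0 then cc g n * ga i * gb i * (ga i)⁻¹ * (gb i)⁻¹
  else if r = 1 then ga i * gb i * (ga i)⁻¹ * cc g n * (gb i)⁻¹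
  else if r = 2 then ga i * gb i * cc g n * (ga i)⁻¹ * (gb i)⁻¹
  else ga i * cc g n * gb i * (ga i)⁻¹ * (gb i)⁻¹

/-- The boundary word with `cc` at the position `k`, `k ≤ 4 * g + n`: the positions
`4 * i + r` are at the handle `i`, the position `4 * g + j` is before the marked point `j`, and
`4 * g + n` is the end. -/
def wd (g n k : ℕ) : F g (n + 1) :=
  if h : k / 4 < g then
    seg g (n + 1) 0 (k / 4) * stg ⟨k / 4, h⟩ (k % 4) *
      (seg g (n + 1) (k / 4 + 1) (g - k / 4 - 1) * cseg g (n + 1) 0 n)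
  else
    seg g (n + 1) 0 g * cseg g (n + 1) 0 (k - 4 * g) * cc g n *
      cseg g (n + 1) (k - 4 * g) (n - (k - 4 * g))

/-- The frames with the moving point at the position with the word `w`. -/
def Fr (w : F g (n + 1)) : Set (MulAut (F g (n + 1))) :=
  {α | IsConj (α w) (bdry g (n + 1)) ∧ (∀ j, IsConj (α (gc j)) (gc j : F g (n + 1))) ∧
    ∀ x, α x * x⁻¹ ∈ NC g n}

/-- The crossing from the position `k` to the position `k + 1`. -/
def chi (g n k : ℕ) : MulAut (F g (n + 1)) :=
  if h : k / 4 < g then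
    if k % 4 = 0 then lm (Gen.a ⟨k / 4, h⟩)
    else if k % 4 = 1 then rm (Gen.b ⟨k / 4, h⟩)
    else if k % 4 = 2 then rm (Gen.a ⟨k / 4, h⟩)
    else lm (Gen.b ⟨k / 4, h⟩)
  else if h : k - 4 * g < n then lm (Gen.c ⟨k - 4 * g, h⟩) * rm (Gen.c ⟨k - 4 * g, h⟩)
  else 1

/-- The first `k` crossings. -/
def xk (g n : ℕ) : ℕ → MulAut (F g (n + 1))
  | 0 => 1
  | k + 1 => xk g n k * chi g n k

/-- The label of the half edge after the position `k`, for `k < 4 * g`. -/
def lab (g n k : ℕ) : F g (n + 1) :=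
  if h : k / 4 < g then
    if k % 4 = 0 then ga ⟨k / 4, h⟩
    else if k % 4 = 1 then (gb ⟨k / 4, h⟩)⁻¹
    else if k % 4 = 2 then (ga ⟨k / 4, h⟩)⁻¹
    else gb ⟨k / 4, h⟩
  else 1

/-- The move along the half edge after the position `k`, for `k < 4 * g`. -/
def mv (g n k : ℕ) : MulAut (F g (n + 1)) :=
  if h : k / 4 < g then
    if k % 4 = 0 then mp (Gen.a ⟨k / 4, h⟩)
    else if k % 4 = 1 then (mp (Gen.b ⟨k / 4, h⟩))⁻¹
    else if k % 4 = 2 then (mp (Gen.a ⟨k / 4, h⟩))⁻¹
    else mp (Gen.b ⟨k / 4, h⟩)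
  else 1

/-- The position after the move. -/
def tg (k : ℕ) : ℕ := if k % 4 = 0 ∨ k % 4 = 1 then k + 3 else k - 1

/-- The moving point turns once around the marked point `j`, inside the monogon. -/
def zt (j : Fin n) : MulAut (F g (n + 1)) :=
  lm (Gen.c j : Gen g n) * (mp (Gen.c j : Gen g n))⁻¹ * (lm (Gen.c j : Gen g n))⁻¹

/-! ### Systems -/

/-- Crossed homomorphisms with values in an orthogonal representation. -/
structure RSys (g n : ℕ) (V : Type) [NormedAddCommGroup V] [InnerProductSpace ℝ V] where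
  ρ : F g (n + 1) →* Module.End ℝ V
  v : F g (n + 1) → V
  coc : ∀ x y, v (x * y) = v x + ρ x (v y)
  iso : ∀ x u w, inner ℝ (ρ x u) (ρ x w) = inner ℝ u w
  fin : (Set.range ρ).Finite
  bd : ρ (bdry g (n + 1)) = 1
  bv : v (bdry g (n + 1)) = 0
  par : ∀ j, ∃ k, v (gc j) = ρ (gc j) k - k
  orb : ∃ S : Set (F g (n + 1) → V), S.Finite ∧
    ∀ φ ∈ Push g n, ∃ s ∈ S, ∃ u, ∀ x, v (φ x) = s x + (ρ (φ x) u - u)

variable {V : Type} [NormedAddCommGroup V] [InnerProductSpace ℝ V]

/-- The affine action. -/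
def RSys.aff (S : RSys g n V) (x : F g (n + 1)) (h : V) : V := S.v x + S.ρ x h

/-- The flow along `x` at the potential `h`. -/
def RSys.fl (S : RSys g n V) (x : F g (n + 1)) (h : V) : V := S.aff x h - h

/-- `x` acts as the reflection in the hyperplane orthogonal to `e`. -/
def RSys.IsRef (S : RSys g n V) (x : F g (n + 1)) (e : V) : Prop :=
  ‖e‖ = 1 ∧ ∀ y, S.ρ x y = y - (2 * inner ℝ e y) • e

/-- Potentials on the vertices of the graph. -/
abbrev Pt (n : ℕ) (V : Type) : Type := Option (Fin n) → V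

/-- The outflow in the stems. -/
def stem (p : Pt n V) : Option (Fin n) → V
  | none => ∑ j, (p (some j) - p none)
  | some j => p none - p (some j)

/-- The energy. -/
def RSys.Q (S : RSys g n V) (α : MulAut (F g (n + 1))) (p : Pt n V) : ℝ :=
  ∑ X : Gen g n, ‖S.fl (α (lt X)) (p (vx X))‖ ^ 2 + ∑ j, ‖p (some j) - p none‖ ^ 2

/-- The homogeneous energy. -/
def RSys.Q0 (S : RSys g n V) (α : MulAut (F g (n + 1))) (z : Pt n V) : ℝ :=
  ∑ X : Gen g n, ‖S.ρ (α (lt X)) (z (vx X)) - z (vx X)‖ ^ 2 + ∑ j, ‖z (some j) - z none‖ ^ 2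

/-- The total outflow at the vertex `w`. -/
def RSys.out (S : RSys g n V) (α : MulAut (F g (n + 1))) (p : Pt n V) (w : Option (Fin n)) : V :=
  ∑ X : Gen g n, (if vx X = w then S.fl (α (lt X)) (p w) + S.fl (α (lt X))⁻¹ (p w) else 0) +
    stem p w

/-- Optimal potentials with the moving point at the vertex `w`; `T` is the discrepancy. -/
structure RSys.Opt (S : RSys g n V) (α : MulAut (F g (n + 1))) (w : Option (Fin n)) (e : V)
    (p : Pt n V) (T : ℝ) : Prop where
  ref : S.IsRef (α (cc g n)) e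
  fix : S.aff (α (cc g n)) (p w) = p w
  at_w : S.out α p w = T • e
  off_w : ∀ w', w' ≠ w → S.out α p w' = 0

/-- The outer face is empty. -/
def RSys.OutRel (S : RSys g n V) (α : MulAut (F g (n + 1))) : Prop :=
  ∀ x : V, (∀ X : Gen g n, S.ρ (α (lt X)) x = x) → S.ρ (α (cc g n)) x = x

/-- The admissible frames with the moving point at the vertex `w`. -/
def Adm (g n : ℕ) (α : MulAut (F g (n + 1))) : Option (Fin n) → Prop
  | none => ∃ k ≤ 4 * g + n, α ∈ Fr (wd g n k)
  | some j => α ∈ Fr (wd g n (4 * g + j)) ∨ α ∈ Fr (wd g n (4 * g + j + 1))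

/-- `M` bounds the energies of the optimal potentials in the admissible frames. -/
def RSys.Bd (S : RSys g n V) (M : ℝ) : Prop :=
  ∀ w α e p T, Adm g n α w → S.Opt α w e p T → S.Q α p ≤ M

/-- A zero of the discrepancy at a maximal energy. -/
def RSys.Zero (S : RSys g n V) (M : ℝ) (α : MulAut (F g (n + 1))) (k : ℕ) (e : V)
    (p : Pt n V) : Prop :=
  k ≤ 4 * g + n ∧ α ∈ Fr (wd g n k) ∧ S.Opt α none e p 0 ∧ S.Q α p = M

/-- The frames which are reached from `α₀`, `k₀` by crossings and moves. -/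
inductive Rch (g n : ℕ) (α₀ : MulAut (F g (n + 1))) (k₀ : ℕ) : MulAut (F g (n + 1)) → ℕ → Prop
  | base : Rch g n α₀ k₀ α₀ k₀
  | cr {α k} : Rch g n α₀ k₀ α k → k < 4 * g + n → Rch g n α₀ k₀ (α * chi g n k) (k + 1)
  | wr {α} : Rch g n α₀ k₀ α (4 * g + n) → Rch g n α₀ k₀ α 0
  | mv {α k} : Rch g n α₀ k₀ α k → k < 4 * g → Rch g n α₀ k₀ (α * mv g n k) (tg k)
  | pu {α} (j : Fin n) : Rch g n α₀ k₀ α (4 * g + j) →
      Rch g n α₀ k₀ (α * mp (Gen.c j : Gen g n)) (4 * g + j + 1)

end Pool.Agent.PSB
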