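import Pool.Agent.PSB.St

/-!
# Simple branch points: the move along an edge
-/

namespace Pool.Agent.PSB

open Pool.Agent.PW

variable {g n : ℕ} {V : Type} [NormedAddCommGroup V] [InnerProductSpace ℝ V]

/-- The energy after a change of the potential. -/
theorem Mov_gre (h1 : St_Gre) {S : RSys g n V} {α : MulAut (F g (n + 1))} {w : Option (Fin n)}
    {e : V} {p : Pt n V} {T : ℝ} (hO : S.Opt α w e p T) (p' : Pt n V) :
    S.Q α p' = S.Q α p - 2 * T * inner ℝ e ((p' - p) w) + S.Q0 α (p' - p) := by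
  have h := h1 S α p (p' - p)
  rw [add_sub_cancel] at h
  rw [h]
  have h2 : ∑ w', inner ℝ (S.out α p w') ((p' - p) w') = T * inner ℝ e ((p' - p) w) := by
    rw [Finset.sum_eq_single w]
    · rw [hO.at_w, real_inner_smul_left]
    · intro w' _ hw'
      rw [hO.off_w w' hw', inner_zero_left]
    · intro h
      exact absurd (Finset.mem_univ _) h
  rw [h2]
  ring

theorem thm_Mov (h1 : St_Gre) (h2 : St_Low) (h3 : St_Zer) : St_Mov := by
  intro g n V _ _ S α w e p p' T X y hO hX hy hfix
  have hg := Mov_gre h1 hO p'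
  have hx : inner ℝ e (S.ρ (α y) ((p' - p) w)) = -inner ℝ e (S.fl (α y) (p w)) := by
    have h4 := hO.ref.fix_inner ((aff_conj_iff S (α (cc g n)) (α y) (p' w)).1 hfix) hO.fix
    have h5 : S.aff (α y) (p' w) - p w = S.fl (α y) (p w) + S.ρ (α y) ((p' - p) w) := by
      have h6 : p' w = p w + (p' - p) w := by
        rw [Pi.sub_apply]
        abel
      rw [h6, aff_add]
      simp only [RSys.fl]
      abel
    rw [h5, inner_add_right] at h4
    linarith
  have hlow := (h2 S α (p' - p) e hO.ref.norm).1 X y hy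
  rw [hX, inner_sub_right, hx] at hlow
  generalize inner ℝ e (S.fl (α y) (p w)) = x at hx hlow ⊢
  generalize hY : inner ℝ e ((p' - p) w) = Y at hlow hg
  refine ⟨by nlinarith [sq_nonneg (x + Y - T)], ?_⟩
  intro hT hQ
  subst hT
  have h0 : S.Q0 α (p' - p) = 0 := by
    have : (0 : ℝ) ≤ S.Q0 α (p' - p) := le_trans (sq_nonneg _) hlow
    linarith
  refine ⟨h0, fun hout => ?_⟩
  obtain ⟨z1, z2, -, -, -⟩ := h3 S α p (p' - p) h0
  have hc : S.ρ (α (cc g n)) ((p' - p) none) = (p' - p) none := hout _ z2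
  have h6 : S.ρ (α y) ((p' - p) w) = (p' - p) w := by
    rw [z1 w]
    rcases hy with rfl | rfl
    · exact z2 X
    · rw [map_inv]
      have := congrArg (S.ρ (α (lt X))⁻¹) (z2 X)
      rw [ρ_inv_apply] at this
      exact this.symm
  rw [h6, z1 w, hO.ref.inner_eq_zero hc] at hx
  linarith

end Pool.Agent.PSB
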