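import Pool.Agent.PSB.StB

/-!
# Simple branch points: module Mxl (maximal subgroups)
-/

namespace Pool.Agent.PSB

open Pool.Agent.PW

theorem thm_Mxl : St_Mxl := by
  intro g n j K hK hS
  obtain ⟨p, q, hpq, hp, -, -⟩ := hS
  obtain ⟨a, rfl⟩ := QuotientGroup.mk_surjective p
  have hmem : a⁻¹ * gc j * a ∈ Nj g j := by
    have h1 : (gc j : F g n) ∈ Nj g j := Subgroup.subset_normalClosure rfl
    have h2 := (Subgroup.normalClosure_normal (s := {(gc j : F g n)})).conj_mem _ h1 a⁻¹
    rwa [inv_inv] at h2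
  have hnot : a⁻¹ * gc j * a ∉ K := by
    intro h
    apply hpq
    rw [← hp]
    apply QuotientGroup.eq.mpr
    change a⁻¹ * (gc j * a) ∈ K
    rwa [← mul_assoc]
  apply hK.2
  refine lt_of_le_of_ne le_sup_left ?_
  intro h
  apply hnot
  rw [h]
  exact Subgroup.mem_sup_right hmem

end Pool.Agent.PSB
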