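import Pool.Agent.PSB.Bas

/-!
# Simple branch points: statements (paper: /team-store/PSB_paper.md)

Each statement `St_X` is proved in its own file as `theorem thm_X (h : St_Y) .. : St_X`, where the
statements `St_Y` are the ones named in the text of `St_X` as used.  The complete proofs are in the
texts.  Notation in the texts: `c = cc g n`, `R = S.ρ ∘ α`, `w = S.v ∘ α`, `⟪,⟫` the inner product,
`f_X = S.fl (α (lt X)) (p (vx X))`.
-/

namespace Pool.Agent.PSB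

open Pool.Agent.PW

/-! ### Section 3: energies -/

/-- (Gre) The first variation.  Proof.  `S.fl (α (lt X)) (p + z) = f_X + (R z - z)` (`fl_add`), so
`‖.‖² = ‖f_X‖² + 2 ⟪f_X, R z - z⟫ + ‖R z - z‖²`, and `inner_fl` : `⟪f_X, R z - z⟫ =
- ⟪f_X + fl (α (lt X))⁻¹ (p (vx X)), z (vx X)⟫`.  Sum over `X`, grouping by the vertex: `∑ X, F X (vx X) =
∑ w, ∑ X, if vx X = w then F X w else 0`.  Stems: `⟪p_j - p_u, z_j - z_u⟫ = - ⟪stem p (some j), z_j⟫ -
⟪p_j - p_u, z_u⟫` and `stem p none = ∑ j, (p_j - p_u)`; `Fintype.sum_option`. -/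
def St_Gre : Prop := ∀ {g n : ℕ} {V : Type} [NormedAddCommGroup V] [InnerProductSpace ℝ V]
  (S : RSys g n V) (α : MulAut (F g (n + 1))) (p z : Pt n V),
  S.Q α (p + z) = S.Q α p - 2 * ∑ w, inner ℝ (S.out α p w) (z w) + S.Q0 α z

/-- (Zer) Potentials of zero homogeneous energy.  Proof.  `Q0` is a sum of nonnegative terms, so all are
zero; then `S.fl (α (lt X)) (p w + z w) = S.fl (α (lt X)) (p w)` for `vx X = w` (`fl_add`), the same for the
inverse (`S.ρ (α (lt X)) z = z` gives `S.ρ (α (lt X))⁻¹ z = z`), and the stems do not change. -/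
def St_Zer : Prop := ∀ {g n : ℕ} {V : Type} [NormedAddCommGroup V] [InnerProductSpace ℝ V]
  (S : RSys g n V) (α : MulAut (F g (n + 1))) (p z : Pt n V), S.Q0 α z = 0 →
  (∀ w, z w = z none) ∧ (∀ X : Gen g n, S.ρ (α (lt X)) (z none) = z none) ∧
  (∀ w, S.out α (p + z) w = S.out α p w) ∧
  (∀ X : Gen g n, S.fl (α (lt X)) ((p + z) (vx X)) = S.fl (α (lt X)) (p (vx X))) ∧
  S.Q α (p + z) = S.Q α p

/-- (Low) Lower bounds of the homogeneous energy.  Proof.  One term of the sum, Cauchy-Schwarz with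
`‖e‖ = 1`; for `y = (lt X)⁻¹`: `‖R⁻¹ z - z‖ = ‖z - R z‖` (`norm_ρ`).  For the second statement the
term of the stem `j`. -/
def St_Low : Prop := ∀ {g n : ℕ} {V : Type} [NormedAddCommGroup V] [InnerProductSpace ℝ V]
  (S : RSys g n V) (α : MulAut (F g (n + 1))) (z : Pt n V) (e : V), ‖e‖ = 1 →
  (∀ (X : Gen g n) (y : F g (n + 1)), (y = lt X ∨ y = (lt X)⁻¹) →
    (inner ℝ e (S.ρ (α y) (z (vx X)) - z (vx X)) : ℝ) ^ 2 ≤ S.Q0 α z) ∧
  ∀ j : Fin n, (inner ℝ e (z (some j) - z none) : ℝ) ^ 2 ≤ S.Q0 α z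

/-- (Exi) Existence of optimal potentials.  Used: Gre.  Proof.  Let `h` be the fixed point and
`p₀ = fun _ => h`.  `W = {z | ⟪e, z w⟫ = 0}` is a subspace of the finite-dimensional space `Pt n V`.  The
function `z ↦ S.Q α (p₀ + z)` on `W` is `‖A z + b‖²` in the space `PiLp 2 (fun _ : Gen g n ⊕ Fin n => V)`,
`A z = (R z_{vx X} - z_{vx X}, z_j - z_u)` linear, `b = (f_X(p₀), 0)`.  The subspace `A(W)` is finite
dimensional, so there is a closest point `A z₀` to `-b` (orthogonal projection), and `A z₀ + b` is orthogonal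
to `A(W)`.  Put `p = p₀ + z₀`.  By the computation of Gre the orthogonality says
`∑ w', ⟪S.out α p w', z w'⟫ = 0` for `z ∈ W` (or: `t ↦ S.Q α (p + t z)` is a quadratic polynomial with minimum
at `t = 0`, so its linear coefficient is zero by Gre).  `z = ` the out vector at one vertex
`w' ≠ w` gives `S.out α p w' = 0`; at `w` : the out vector is orthogonal to all `y` with `⟪e,y⟫ = 0`, so it is
`T • e` with `T = ⟪e, out⟫` (take `y = out - T • e`).  `fix` by `RSys.IsRef.fix_of_inner`. -/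
def St_Exi : Prop := ∀ {g n : ℕ} {V : Type} [NormedAddCommGroup V] [InnerProductSpace ℝ V]
  [FiniteDimensional ℝ V] (S : RSys g n V) (α : MulAut (F g (n + 1))) (w : Option (Fin n)) (e : V),
  S.IsRef (α (cc g n)) e → (∃ h, S.aff (α (cc g n)) h = h) → ∃ p T, S.Opt α w e p T

/-- (Uni) Uniqueness.  Used: Gre, Zer.  Proof.  Let `p'' = fun w => p w - u`.  Then `S.fl (α' x) (h - u) =
S.fl (α x) h` for all `x`, `h`, so `S.Q α' p'' = S.Q α p`, `S.out α' p'' = S.out α p`, `S.Opt α' w e p'' T`.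
So we may compare `p''` and `p'`, both for `α'`.  `z = p' - p''`: `⟪e, z w⟫ = 0` (`RSys.IsRef.fix_inner`), so
Gre gives `Q(p') = Q(p'') + Q0(z)`, and with `-z` and `e'` : `Q(p'') = Q(p') + Q0(-z)`, `Q0(-z) = Q0(z) ≥ 0`.
So `Q0(z) = 0`, the energies agree, and by Zer the out vectors agree: `T • e = T' • e'`. -/
def St_Uni : Prop := ∀ {g n : ℕ} {V : Type} [NormedAddCommGroup V] [InnerProductSpace ℝ V]
  (S : RSys g n V) (α α' : MulAut (F g (n + 1))) (w : Option (Fin n)) (e e' : V) (p p' : Pt n V)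
  (T T' : ℝ) (u : V), S.Opt α w e p T → S.Opt α' w e' p' T' →
  (∀ x, S.ρ (α' x) = S.ρ (α x)) → (∀ x, S.v (α' x) = S.v (α x) + (S.ρ (α x) u - u)) →
  S.Q α p = S.Q α' p' ∧ T • e = T' • e'

/-- (Cro) Crossings of the ends of an edge.  Proof.  `lm`: `α' = α * lm X`, `α' (lt X) = α c * α (lt X)`, the
other letters and `c` do not change.  `S.fl (α c * α (lt X)) (p w) = S.ρ (α c) f` (`fl_fix_mul`) with
`f = S.fl (α (lt X)) (p w)`, the same norm; the inverse: `S.fl ((α (lt X))⁻¹ * (α c)⁻¹) (p w) =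
S.fl (α (lt X))⁻¹ (p w)` (`fl_mul_fix`, `aff_inv_fix`).  So the out vector at `w` changes by
`S.ρ (α c) f - f = - 2 ⟪e, f⟫ e`, and at the other vertices it does not change.  `rm`: `α' (lt X) =
α (lt X) * (α c)⁻¹`; the flow does not change, the flow of the inverse becomes `S.ρ (α c) f'`.  The
inverses of `lm X` and `rm X` : the same with `(α c)⁻¹`, which acts as the same reflection
(`RSys.IsRef.inv`) and fixes `p w`. -/
def St_Cro : Prop := ∀ {g n : ℕ} {V : Type} [NormedAddCommGroup V] [InnerProductSpace ℝ V]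
  (S : RSys g n V) (α : MulAut (F g (n + 1))) (w : Option (Fin n)) (e : V) (p : Pt n V) (T : ℝ)
  (X : Gen g n), S.Opt α w e p T → vx X = w →
  (S.Opt (α * lm X) w e p (T - 2 * inner ℝ e (S.fl (α (lt X)) (p w))) ∧
    S.Q (α * lm X) p = S.Q α p) ∧
  (S.Opt (α * rm X) w e p (T - 2 * inner ℝ e (S.fl (α (lt X))⁻¹ (p w))) ∧
    S.Q (α * rm X) p = S.Q α p) ∧
  (S.Opt (α * (lm X)⁻¹) w e p (T - 2 * inner ℝ e (S.fl (α (lt X)) (p w))) ∧
    S.Q (α * (lm X)⁻¹) p = S.Q α p) ∧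
  (S.Opt (α * (rm X)⁻¹) w e p (T - 2 * inner ℝ e (S.fl (α (lt X))⁻¹ (p w))) ∧
    S.Q (α * (rm X)⁻¹) p = S.Q α p)

/-- (Stc) Crossing of a stem.  Proof.  `α' = α * (lm X * rm X)`, `X = Gen.c j`; `α' (lt X) = α c * α (lt X) *
(α c)⁻¹`, the other letters and `c` do not change; `p' = ` `p` with the value `S.aff (α c) p_j` at `some j`.
Flow in the loop: `S.fl (c' x c'⁻¹) (S.aff c' h) = S.ρ c' (S.fl x h)` for `c' = α c` (`aff_mul`, `aff_sub`), also for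
`x⁻¹`; stem: `S.aff (α c) p_j - p_u = S.aff (α c) p_j - S.aff (α c) p_u = S.ρ (α c) (p_j - p_u)`.  The
norms do not change; the out vector at `some j` becomes `S.ρ (α c) (0) = 0`; at `none` it changes by
`S.ρ (α c) (p_j - p_u) - (p_j - p_u) = - 2 ⟪e, p_j - p_u⟫ e`; at the other vertices no change. -/
def St_Stc : Prop := ∀ {g n : ℕ} {V : Type} [NormedAddCommGroup V] [InnerProductSpace ℝ V]
  (S : RSys g n V) (α : MulAut (F g (n + 1))) (e : V) (p : Pt n V) (T : ℝ) (j : Fin n),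
  S.Opt α none e p T →
  S.Opt (α * (lm (Gen.c j : Gen g n) * rm (Gen.c j : Gen g n))) none e
    (Function.update p (some j) (S.aff (α (cc g n)) (p (some j))))
    (T - 2 * inner ℝ e (p (some j) - p none)) ∧
  S.Q (α * (lm (Gen.c j : Gen g n) * rm (Gen.c j : Gen g n)))
    (Function.update p (some j) (S.aff (α (cc g n)) (p (some j)))) = S.Q α p

/-- (Inn) The full circle.  Proof.  `α' x = α c * α x * (α c)⁻¹`, `p' w' = S.aff (α c) (p w')`; all flows, stems and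
out vectors are the images under `S.ρ (α c)`; `S.ρ (α c) (T • e) = - T • e`; `α' c = α c`; `fix` :
`S.aff (α c) (S.aff (α c) (p w)) = S.aff (α c) (p w)` as `S.aff (α c) (p w) = p w`. -/
def St_Inn : Prop := ∀ {g n : ℕ} {V : Type} [NormedAddCommGroup V] [InnerProductSpace ℝ V]
  (S : RSys g n V) (α : MulAut (F g (n + 1))) (w : Option (Fin n)) (e : V) (p : Pt n V) (T : ℝ),
  S.Opt α w e p T →
  S.Opt (α * MulAut.conj (cc g n)) w e (fun w' => S.aff (α (cc g n)) (p w')) (-T) ∧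
  S.Q (α * MulAut.conj (cc g n)) (fun w' => S.aff (α (cc g n)) (p w')) = S.Q α p

/-- (Mov) The move along an edge.  Used: Gre, Low, Zer.  Proof.  `z = p' - p`, `x = ⟪e, S.fl (α y) (p w)⟫`, `Y0 =
⟪e, z w⟫`.  Gre and `at_w`, `off_w` : `Q(p') = Q(p) - 2 T Y0 + Q0(z)`.  `aff_conj_iff` and the hypothesis:
`S.aff (α y) (p' w)` is fixed by `α c`, so `0 = ⟪e, S.aff (α y) (p' w) - p w⟫ =
⟪e, S.fl (α y) (p w) + S.ρ (α y) (z w)⟫`, that is `⟪e, S.ρ (α y) (z w)⟫ = - x`.  Low: `Q0(z) ≥ (x + Y0)²`.  So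
`Q(p') ≥ Q(p) - 2 T Y0 + (x + Y0)² ≥ Q(p) - T (T - 2 x)`, as the difference is `(x + Y0 - T)²`.
If `T = 0` and `Q(p') ≤ Q(p)` then `Q0(z) ≤ 0`, so `= 0`; then (Zer) `z` is constant and fixed by the
letters, with OutRel fixed by `α c`, so `⟪e, z w⟫ = 0` and `S.ρ (α y) (z w) = z w`, `x = - ⟪e, z w⟫ = 0`. -/
def St_Mov : Prop := ∀ {g n : ℕ} {V : Type} [NormedAddCommGroup V] [InnerProductSpace ℝ V]
  (S : RSys g n V) (α : MulAut (F g (n + 1))) (w : Option (Fin n)) (e : V) (p p' : Pt n V) (T : ℝ)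
  (X : Gen g n) (y : F g (n + 1)), S.Opt α w e p T → vx X = w → (y = lt X ∨ y = (lt X)⁻¹) →
  S.aff ((α y)⁻¹ * α (cc g n) * α y) (p' w) = p' w →
  S.Q α p - T * (T - 2 * inner ℝ e (S.fl (α y) (p w))) ≤ S.Q α p' ∧
  (T = 0 → S.Q α p' ≤ S.Q α p → S.Q0 α (p' - p) = 0 ∧
    (S.OutRel α → inner ℝ e (S.fl (α y) (p w)) = (0 : ℝ)))

/-- (Stm) The move along a stem.  Used: Gre, Low, Zer.  Proof.  `z = p' - p`, `x = ⟪e, p w' - p w⟫`, `Y0 =
⟪e, z w⟫`; `Q(p') = Q(p) - 2 T Y0 + Q0(z)`.  `p' w'` and `p w` are fixed by `α c`: `0 = ⟪e, p' w' - p w⟫ =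
⟪e, z w'⟫ + x`.  Low: `Q0(z) ≥ ⟪e, z w' - z w⟫² = (x + Y0)²`.  The rest as in Mov; in the last statement
`z` is constant, fixed by the letters, by OutRel by `α c`: `x = - ⟪e, z w'⟫ = 0`. -/
def St_Stm : Prop := ∀ {g n : ℕ} {V : Type} [NormedAddCommGroup V] [InnerProductSpace ℝ V]
  (S : RSys g n V) (α : MulAut (F g (n + 1))) (w w' : Option (Fin n)) (e : V) (p p' : Pt n V) (T : ℝ)
  (j : Fin n), S.Opt α w e p T → (w = none ∧ w' = some j ∨ w = some j ∧ w' = none) →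
  S.aff (α (cc g n)) (p' w') = p' w' →
  S.Q α p - T * (T - 2 * inner ℝ e (p w' - p w)) ≤ S.Q α p' ∧
  (T = 0 → S.Q α p' ≤ S.Q α p → S.Q0 α (p' - p) = 0 ∧
    (S.OutRel α → inner ℝ e (p w' - p w) = (0 : ℝ)))

/-! ### Section 4: frames -/

/-- The subgroup of the letters other than `cc`. -/
def Lts (g n : ℕ) : Subgroup (F g (n + 1)) := Subgroup.closure (Set.range (lt : Gen g n → F g (n + 1)))

/-- (Wds) Words.  Proof.  Definitions `wd`, `stg`, `seg`, `cseg` (PW/Words.lean: `seg_add`, `cseg_add`,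
`seg_one`, `cseg_one`, `seg_congr`, `cseg_congr`, `bdry_eq`..).  Four stages of a handle `i`, from
`cc a b a⁻¹ b⁻¹` (0) with `lm a` : `a ↦ cc a`, to `a b a⁻¹ cc b⁻¹` (1) with `rm b` : `b ↦ b cc⁻¹`, to `a b cc a⁻¹ b⁻¹` (2)
with `rm a`, to `a cc b a⁻¹ b⁻¹` (3) with `lm b`, to `a b a⁻¹ b⁻¹ cc`, which is the stage 0 of the next handle
or the position `4 * g`.  E.g. `lm a (a b a⁻¹ cc b⁻¹) = cc a b a⁻¹ cc⁻¹ cc b⁻¹ = cc a b a⁻¹ b⁻¹`.  At the
marked points `(lm (c j) * rm (c j)) (c_j cc) = cc c_j cc⁻¹ cc = cc c_j`.  The automorphism fixes the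
other letters and so the segments which do not contain the handle (`seg_congr`, with the identity).
Moves: `mp a : cc ↦ a⁻¹ cc a`; `mv k (wd (tg k)) = wd k`: `mp a (a cc b a⁻¹ b⁻¹) = cc a b a⁻¹ b⁻¹` (0 from 3);
`(mp b)⁻¹ : cc ↦ b cc b⁻¹`, `(mp b)⁻¹ (cc at the end) : a b a⁻¹ b⁻¹ cc ↦ a b a⁻¹ cc b⁻¹` (1 from 4);
`(mp a)⁻¹ : cc ↦ a cc a⁻¹`, `(a b a⁻¹ cc b⁻¹) ↦ a b cc a⁻¹ b⁻¹` (2 from 1); `mp b : (a b cc a⁻¹ b⁻¹) ↦
a cc b a⁻¹ b⁻¹` (3 from 2).  `mp (c j) (c_j cc) = cc c_j`.  `zt j`: `cc ↦ z cc z⁻¹`, `c_j ↦ z c_j z⁻¹`,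
`z = cc c_j`, so `cc c_j` is fixed.  Suggestion: first prove `wd g n (4 * i + r) = seg 0 i * stg i r *
(seg (i+1) .. * cseg ..)` and `wd g n (4 * g + j) = ..` as separate lemmas, and a lemma that the
position `4 * i + 4` is `seg 0 i * (ga i * gb i * (ga i)⁻¹ * (gb i)⁻¹ * cc) * (seg (i+1) .. * cseg ..)` also for
`i + 1 = g`. -/
def St_Wds : Prop := ∀ {g n : ℕ},
  (∀ k, k < 4 * g + n → chi g n k (wd g n (k + 1)) = wd g n k) ∧
  (∀ k, k < 4 * g → mv g n k (wd g n (tg k)) = wd g n k ∧ tg k ≤ 4 * g + n) ∧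
  (∀ j : Fin n, mp (Gen.c j : Gen g n) (wd g n (4 * g + j + 1)) = wd g n (4 * g + j)) ∧
  (∀ j : Fin n, zt j (wd g n (4 * g + j)) = wd g n (4 * g + j)) ∧
  wd g n (4 * g + n) = bdry g (n + 1) ∧ cc g n * bdry g (n + 1) * (cc g n)⁻¹ = wd g n 0

/-- (Prs) The words contain `cc` once.  Proof.  Definitions; `seg`, `cseg` in `Lts`; in the last
statement `P = seg 0 g * cseg 0 j`, `Q = cseg (j + 1) (n - j - 1)`. -/
def St_Prs : Prop := ∀ {g n : ℕ},
  (∀ k, k ≤ 4 * g + n → ∃ P ∈ Lts g n, ∃ Q ∈ Lts g n, wd g n k = P * cc g n * Q) ∧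
  ∀ j : Fin n, wd g n (4 * g + j) = seg g (n + 1) 0 g * cseg g (n + 1) 0 j *
    (cc g n * lt (Gen.c j)) * cseg g (n + 1) (j + 1) (n - j - 1)

/-- (Cls) The automorphisms keep the classes of the marked points and are trivial modulo `NC`.
Proof.  For `x ∈ {lt X, cc}` check `γ x * x⁻¹ ∈ NC`, then for all `x` (`γ` and the identity agree in the quotient
by `NC`; `hom_ext'`).  `gc l` is `lt (Gen.c l')` with `l = l'.castSucc` or `cc`.  The automorphisms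
`lm X`, `rm X` for `X = a i, b i` fix all `gc l`; `lm (c j) * rm (c j)` and `zt j` send `c_j` to a conjugate;
`mp X` sends `cc` to a conjugate and fixes the letters. -/
def St_Cls : Prop := ∀ {g n : ℕ} (γ : MulAut (F g (n + 1))),
  ((∃ k, γ = chi g n k) ∨ (∃ k, γ = (chi g n k)⁻¹) ∨ (∃ k, γ = mv g n k) ∨
    (∃ j, γ = mp (Gen.c j : Gen g n)) ∨ (∃ j, γ = zt j) ∨ γ = MulAut.conj (cc g n)) →
  (∀ l, IsConj (γ (gc l)) (gc l : F g (n + 1))) ∧ ∀ x, γ x * x⁻¹ ∈ NC g n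

/-- (Frm) Frames.  Used: Wds, Cls.  Proof.  If `α ∈ Fr w`, `γ` keeps the classes of `gc l` and is trivial modulo
`NC` and `IsConj (γ w') w`, then `α * γ ∈ Fr w'` : `(α γ) w' ~ α w ~ bdry`; `α (γ (gc l)) ~ α (gc l) ~ gc l`;
`α (γ x) x⁻¹ = (α (γ x) (γ x)⁻¹) (γ x x⁻¹) ∈ NC` (NC is normal).  Apply to the equations of Wds.  `Fr (wd 0)`
: `wd 0` is conjugate to `bdry`; `Fr (bdry) = Push` by definition. -/
def St_Frm : Prop := ∀ {g n : ℕ},
  (∀ k, k < 4 * g + n → ∀ α ∈ Fr (wd g n k), α * chi g n k ∈ Fr (wd g n (k + 1))) ∧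
  (∀ k, k < 4 * g + n → ∀ α ∈ Fr (wd g n (k + 1)), α * (chi g n k)⁻¹ ∈ Fr (wd g n k)) ∧
  (∀ k, k < 4 * g → ∀ α ∈ Fr (wd g n k), α * mv g n k ∈ Fr (wd g n (tg k)) ∧ tg k ≤ 4 * g + n) ∧
  (∀ j : Fin n, ∀ α ∈ Fr (wd g n (4 * g + j)),
    α * mp (Gen.c j : Gen g n) ∈ Fr (wd g n (4 * g + j + 1)) ∧ α * zt j ∈ Fr (wd g n (4 * g + j))) ∧
  (∀ α, α ∈ Fr (wd g n 0) ↔ α ∈ Push g n) ∧ (∀ α, α ∈ Fr (wd g n (4 * g + n)) ↔ α ∈ Push g n)

/-- (Xk) The full circle.  Used: Wds.  Proof.  `xk k cc = cc`: all crossings fix `cc`.  The last statement: two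
automorphisms, by `aut_ext`; on the letter `a i`: the crossings of index `< 4 i` and `> 4 i + 3` fix it, and the
four crossings `lm a * rm b * rm a * lm b` send `a` to `cc a cc⁻¹` and `b` to `cc b cc⁻¹`; `c_j` is changed only
by the crossing `4 g + j`, to `cc c_j cc⁻¹`.  Suggestion: prove by induction on `k` that `xk k` is the
identity on the letters whose crossings are `≥ k`, and conjugation by `cc` on the letters whose
crossings are all `< k`.  `xk k (wd k) = wd 0` by induction with Wds. -/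
def St_Xk : Prop := ∀ {g n : ℕ}, (∀ k, xk g n k (cc g n) = cc g n) ∧
  (∀ k, k ≤ 4 * g + n → xk g n k (wd g n k) = wd g n 0) ∧
  xk g n (4 * g + n) = MulAut.conj (cc g n)

/-- (Bak) Frames come from point pushes.  Used: Xk, Cls, Wds.  Proof.  `β = α * (xk k)⁻¹`: `xk k` keeps the
classes and is trivial modulo `NC` (induction, Cls), so its inverse too, and `(xk k)⁻¹ (wd 0) = wd k`; so
`β ∈ Fr (wd 0)`, and `wd 0` is conjugate to `bdry` (the last item of Wds). -/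
def St_Bak : Prop := ∀ {g n : ℕ} (k : ℕ), k ≤ 4 * g + n → ∀ α ∈ Fr (wd g n k),
  α * (xk g n k)⁻¹ ∈ Push g n

/-- (Pos) In the frames.  Used: Prs.  Proof.  `α w = y bdry y⁻¹`, `S.ρ bdry = 1` and `S.v bdry = 0` give the first two
(`S.v (y b y⁻¹) = v y + ρ y (v b) + ρ (y b) (v y⁻¹)`, and `v y + ρ y (v y⁻¹) = v 1 = 0`).  Third: `α (gc l) = y (gc l) y⁻¹`
and `gc l` has a fixed point `-k` by `S.par` (`v = ρ k - k`, so `aff (gc l) (-k) = -k`); `aff y (-k)` is fixed by the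
conjugate.  Fourth: the same with `RSys.IsRef.conj`.  Fifth (OutRel): `wd k = P cc Q` (Prs), `R(P)`, `R(Q)`
fix `x` if all letters do (closure induction), `R(wd k) = 1`, so `R(P) R(cc) x = x`, `R(cc) x = R(P)⁻¹ x = x`. -/
def St_Pos : Prop := ∀ {g n : ℕ} {V : Type} [NormedAddCommGroup V] [InnerProductSpace ℝ V]
  (S : RSys g n V) (e : V), S.IsRef (cc g n) e → ∀ (w : F g (n + 1)), ∀ α ∈ Fr w,
  S.ρ (α w) = 1 ∧ S.v (α w) = 0 ∧ (∀ l : Fin (n + 1), ∃ h, S.aff (α (gc l)) h = h) ∧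
  (∃ e', S.IsRef (α (cc g n)) e') ∧
  ((∃ k, k ≤ 4 * g + n ∧ w = wd g n k) → S.OutRel α)

/-! ### Section 5: the orbit -/

/-- (Pig) The pigeonhole.  Proof.  The `S.ρ ∘ φ^m` take finitely many values (they are homomorphisms of the
finitely generated group with values in the finite set `Set.range S.ρ`; determined by the values at the
generators), so `ρ φ^a = ρ φ^b` for some `a < b`, and `ρ φ^M₀ = ρ` with `M₀ = b - a`.  For `i = 0, 1, ..` :
`v (φ^(M₀ i) x) = s_i x + (ρ x u_i - u_i)`, `s_i ∈ T` finite (`S.orb`), so `s_i = s_j` for some `i < j`;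
`v (φ^(M₀ j) x) - v (φ^(M₀ i) x) = ρ x u' - u'`, and with `x = φ^(- M₀ i) y` (`ρ x = ρ y`): `v (φ^M₁ y) = v y +
(ρ y u' - u')`, `M₁ = M₀ (j - i)`.  Iterate `N` times: `v (φ^(N M₁) y) = v y + (ρ y (N u') - N u')`. -/
def St_Pig : Prop := ∀ {g n : ℕ} {V : Type} [NormedAddCommGroup V] [InnerProductSpace ℝ V]
  (S : RSys g n V), ∀ φ ∈ Push g n, ∀ N : ℕ, 0 < N → ∃ M, 0 < M ∧ N ∣ M ∧
  (∀ x, S.ρ ((φ ^ M) x) = S.ρ x) ∧ ∃ u, ∀ x, S.v ((φ ^ M) x) = S.v x + (S.ρ x u - u)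

/-- (Kil) The loop `c c_j` has finite order.  Used: Pig, Frm, Pos (only the first three parts), Prs.
Proof.  `X = Gen.c j`, `z = cc * lt X`, `φ = α * zt j * α⁻¹ ∈ Push` : `φ (bdry)`: `α * zt j ∈ Fr (wd)`, `φ * α = α * zt j`,
`φ (α wd) = α (zt j wd) = α wd`, `α wd ~ bdry`, so `φ bdry ~ φ (α wd) = α wd ~ bdry`; the same for `gc l`:
`gc l ~ α (gc l)`, `φ (α (gc l)) = α (zt j (gc l)) ~ gc l` (as `α * zt j ∈ Fr`); `φ y y⁻¹ ∈ NC` with `y = α x`:
`α (zt j x) (α x)⁻¹ = α (zt j x) x⁻¹ (α x x⁻¹)⁻¹ ∈ NC`.  By Pig: `M > 0`, `N ∣ M`, `w (zt j ^ M x) =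
v (φ^M (α x)) = w x + (R x u - u)` for all `x`, where `w = S.v ∘ α`, `R = S.ρ ∘ α`.
`zt j ^ M` fixes the letters other than `X` and conjugates `cc` and `lt X` by `z ^ M` (`zt j z = z`).
(a) letters `Y ≠ X`: `R Y u = u`.  (b) `y = cc` or `lt X`; `ν = w (z ^ M)`, `R (z ^ M) = 1` :
`w (z^M y z^(-M)) = ν + w y - R y ν`, so `R y u - u = ν - R y ν`, `R y (u + ν) = u + ν`.
(c) `⟪ν, u⟫ = 0`: the function `x ↦ ⟪w x, u⟫` is additive on the subgroup of the `x` with `R x u = u`.  It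
vanishes on the commutators `[a_i, b_i]` and on `c_l`, `l ≠ j` (`w (c_l) = h - R h` for a fixed point `h`, Pos; and
`⟪h - R h, u⟫ = ⟪h, u - R⁻¹ u⟫ = 0`), so on `P = seg 0 g * cseg 0 j` and `Q = cseg (j+1) ..`, and on `wd = P z Q`
(`w wd = 0`, `R wd = 1`), so on `z`, and `R z u = u`.  So `⟪ν, u⟫ = M ⟪w z, u⟫ = 0`.
(d) `⟪ν, u + ν⟫ = 0`: `x ↦ ⟪w x, u + ν⟫` is additive on the subgroup generated by `cc`, `lt X`, and
vanishes at `cc` and `lt X` by the fixed points, so at `z ^ M`.  Hence `⟪ν, ν⟫ = 0`, `ν = 0`.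
(e) `M = N m`, `R (z ^ N) = 1`: `ν = m • w (z ^ N)`, so `w (z ^ N) = 0`. -/
def St_Kil : Prop := ∀ {g n : ℕ} {V : Type} [NormedAddCommGroup V] [InnerProductSpace ℝ V]
  (S : RSys g n V) (e : V), S.IsRef (cc g n) e → ∀ (j : Fin n) (N : ℕ), 0 < N →
  ∀ α ∈ Fr (wd g n (4 * g + j)), S.ρ (α (cc g n * lt (Gen.c j))) ^ N = 1 →
  S.v (α (cc g n * lt (Gen.c j)) ^ N) = 0

/-- (Fin) Finitely many energies.  Used: Uni, Bak.  Proof.  `α ∈ Fr (wd k)`, `β = α * (xk k)⁻¹ ∈ Push`, `α = β * xk k`.  `S.orb` :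
`v (β y) = s y + (ρ (β y) u - u)`.  So `v (α x) = s (xk k x) + (ρ (α x) u - u)`.  Let two optimal states `(α, w, p)`,
`(α', w, p')` have the same `w`, `k`, `s` and the same `ρ ∘ β` (values at the generators in the finite
set `Set.range ρ`).  Then `ρ ∘ α = ρ ∘ α'` and `v (α' x) = v (α x) + (ρ (α x) (u' - u) - (u' - u))`, so by Uni the energies
agree.  So the energy is a function on a finite set of data (`w`, `k ≤ 4 g + n`, `s`, `ρ ∘ β`).  For
`w = some j` the frame is in `Fr (wd (4 g + j))` or `Fr (wd (4 g + j + 1))`. -/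
def St_Fin : Prop := ∀ {g n : ℕ} {V : Type} [NormedAddCommGroup V] [InnerProductSpace ℝ V]
  (S : RSys g n V), {E | ∃ w α e p T, Adm g n α w ∧ S.Opt α w e p T ∧ S.Q α p = E}.Finite

/-- (Max) A state of maximal energy.  Used: Fin, Exi, Pos, Frm, Cro.  Proof.  The finite set of Fin is not
empty (`α = 1 ∈ Fr (wd (4 g + n))`, Exi); `M` = its maximum.  If the maximum is attained at `w = some j` and
`α ∈ Fr (wd (4 g + j + 1))`, then `α * (chi (4 g + j))⁻¹ ∈ Fr (wd (4 g + j))`, and by Cro for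
`(lm X * rm X)⁻¹ = (rm X)⁻¹ * (lm X)⁻¹`, `X = Gen.c j` (two steps), it carries an optimal state with the same
energy. -/
def St_Max : Prop := ∀ {g n : ℕ} {V : Type} [NormedAddCommGroup V] [InnerProductSpace ℝ V]
  [FiniteDimensional ℝ V] (S : RSys g n V) (e₀ : V), S.IsRef (cc g n) e₀ → ∃ M, S.Bd M ∧
  ((∃ k α e p T, k ≤ 4 * g + n ∧ α ∈ Fr (wd g n k) ∧ S.Opt α none e p T ∧ S.Q α p = M) ∨
    ∃ (j : Fin n) (α : _) (e : _) (p : _) (T : _), α ∈ Fr (wd g n (4 * g + j)) ∧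
      S.Opt α (some j) e p T ∧ S.Q α p = M)

/-! ### Section 6: the chain -/

/-- (Stp) One crossing.  Used: Cro, Stc, Mov, Stm, Exi, Pos, Frm.  Proof.  `k < 4 g`: `chi k` is
`lm X` or `rm X` with `vx X = none`, and `lab k = lt X` or `(lt X)⁻¹`; `x = ⟪e, S.fl (α (lab k)) (p none)⟫`; by Cro the
state `(α * chi k, e, p)` has `T' = T - 2 x` and the same energy.  By Exi and Pos there is an optimal state
`p'` at the frame `α * mv k ∈ Fr (wd (tg k))`, with `(α * mv k) cc = α ((lab k)⁻¹ cc lab k)`; its energy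
is `≤ M`, and `S.Q (α * mv k) p' = S.Q α p'` (the letters do not change: `mp_lt`).  Mov with `y = lab k`: `M ≥ M - T (T - 2 x)`,
so `T T' ≥ 0`; and if `T = 0` then (OutRel by Pos) `x = 0`, so `T' = 0`.
`k = 4 g + j`: Stc with `x = ⟪e, p_j - p_u⟫`; by Exi an optimal state for `some j` in the same frame, Adm; Stm.
If `T = 0` then `x = 0`, so `p_j` is fixed by `α c` (`RSys.IsRef.fix_of_inner`) and `p' = p`. -/
def St_Stp : Prop := ∀ {g n : ℕ} {V : Type} [NormedAddCommGroup V] [InnerProductSpace ℝ V]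
  [FiniteDimensional ℝ V] (S : RSys g n V) (e₀ : V), S.IsRef (cc g n) e₀ → ∀ M, S.Bd M →
  ∀ k, k < 4 * g + n → ∀ α ∈ Fr (wd g n k), ∀ (e : V) (p : Pt n V) (T : ℝ),
  S.Opt α none e p T → S.Q α p = M →
  (∃ p' T', S.Opt (α * chi g n k) none e p' T' ∧ S.Q (α * chi g n k) p' = M ∧ 0 ≤ T * T') ∧
  (T = 0 → S.Opt (α * chi g n k) none e p 0 ∧ S.Q (α * chi g n k) p = M ∧
    (k < 4 * g → inner ℝ e (S.fl (α (lab g n k)) (p none)) = (0 : ℝ)) ∧
    ∀ j : Fin n, k = 4 * g + j → inner ℝ e (p (some j) - p none) = (0 : ℝ))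

/-- (Chn) A zero at the base vertex.  Used: Stp, Inn, Uni, Xk, Frm.  Proof.  First move by crossings (Stp) from
`k` to `4 g + n`, always with the energy `M`; as `Fr (wd (4 g + n)) = Fr (wd 0)` (Frm) we may assume `k = 0`.
Assume there is no Zero state.  By induction on `k ≤ 4 g + n` there are `p_k`, `T_k` with `S.Opt (α * xk k) none e p_k T_k`,
energy `M` and `T_0 T_k > 0` (`T_k ≠ 0` since otherwise `(α * xk k, k)` is Zero; the first is `T_0 ≠ 0`).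
At `k = 4 g + n`: `xk = MulAut.conj cc` (Xk) and Inn and Uni (with `u = 0`, `α' = α`) give `T_k • e = - T_0 • e`, so
`T_k = - T_0`, a contradiction. -/
def St_Chn : Prop := ∀ {g n : ℕ} {V : Type} [NormedAddCommGroup V] [InnerProductSpace ℝ V]
  [FiniteDimensional ℝ V] (S : RSys g n V) (e₀ : V), S.IsRef (cc g n) e₀ → ∀ M, S.Bd M →
  ∀ k, k ≤ 4 * g + n → ∀ α ∈ Fr (wd g n k), ∀ (e : V) (p : Pt n V) (T : ℝ),
  S.Opt α none e p T → S.Q α p = M → ∃ α k e p, S.Zero M α k e p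

/-- (Wst) One step at the vertex of a marked point.  Used: Cro, Mov, Stm, Zer, Exi, Pos, Frm.
Proof.  `X = Gen.c j`, `f = S.fl (α (lt X)) p_j`, `f' = S.fl (α (lt X))⁻¹ p_j`, `x = ⟪e, p_u - p_j⟫`,
`T1 = T - 2 ⟪e, f⟫`, `T2 = T1 - 2 ⟪e, f'⟫`.  `at_w`: `T e = f + f' + (p_u - p_j)`, so `T = ⟪e,f⟫ + ⟪e,f'⟫ + x` and
`T2 = - (T - 2 x)`.  By Cro: `(α * lm X, e, p, T1)` and `(α * lm X * rm X, e, p, T2)` are optimal at `some j` with the
energy `M` (for the second: `S.fl ((α * lm X) (lt X))⁻¹ p_j = f'` by `fl_mul_fix`).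
(i) Mov from `α` with `y = lt X` to an optimal state in `α * mp X ∈ Fr (wd (4 g + j + 1))` (Adm): `T T1 ≥ 0`.
(ii) Mov from `α₁ = α * lm X` with `y = (lt X)⁻¹`: the target frame `α₁ * (mp X)⁻¹`, an optimal state `p''` there
(Exi; its `cc` is `(α * zt j) cc`, and `α * zt j = α₁ * (mp X)⁻¹ * (lm X)⁻¹ ∈ Fr (wd (4 g + j))`), which by Cro for `(lm X)⁻¹`
is optimal in `α * zt j` with the same energy, so `≤ M`: `T1 T2 ≥ 0`.
(iii) Stm from `some j` to `none` in the frame `α`: `T (T - 2 x) ≥ 0`, that is `- T T2 ≥ 0`.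
If `T = 0`: by (iii) with equality `Q0 (p' - p) = 0` for the optimal `p'` at `none`, so by Zer its out vectors
are those of `p`, all zero, so its `T'` is zero (`T' • e' = 0`) and its energy is `M`: Zero at `(α, 4 g + j)`.
If `T2 = 0`: the same in the frame `α * chi (4 g + j) = α * (lm X * rm X) ∈ Fr (wd (4 g + j + 1))`, `k = 4 g + j + 1`.
Otherwise `T`, `T2` have opposite signs and `T T1 ≥ 0`, `T1 T2 ≥ 0`, so `T1 = 0`.  With `γ = α (cc * lt X)`,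
`G = S.fl γ p_j = S.ρ (α c) f`: `⟪e, G⟫ = - ⟪e, f⟫ = - T / 2`; `f' = S.fl γ⁻¹ p_j = - S.ρ γ⁻¹ G`
so `⟪S.ρ γ e, G⟫ = - ⟪e, f'⟫ = T2 / 2`.  So `⟪e, G⟫ ⟪S.ρ γ e, G⟫ = - T T2 / 4 > 0`.  By (ii) with equality
(`T1 = 0`, `Q(p'') ≤ M`): `Q0 (p'' - p) = 0` in the frame `α₁`; `z = p'' - p` is constant and fixed by the
letters of `α₁`, in particular by `α₁ (lt X) = γ`, so `S.fl γ (p''_j) = G`, and the energy of `p''` is `M` (Zer).  The
vector of the new state is `S.ρ ((α₁ (lt X)⁻¹)⁻¹) e = S.ρ γ e` (`RSys.IsRef.conj'`, and choose it in Exi). -/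
def St_Wst : Prop := ∀ {g n : ℕ} {V : Type} [NormedAddCommGroup V] [InnerProductSpace ℝ V]
  [FiniteDimensional ℝ V] (S : RSys g n V) (e₀ : V), S.IsRef (cc g n) e₀ → ∀ M, S.Bd M →
  ∀ j : Fin n, ∀ α ∈ Fr (wd g n (4 * g + j)), ∀ (e : V) (p : Pt n V) (T : ℝ),
  S.Opt α (some j) e p T → S.Q α p = M → (∃ α k e p, S.Zero M α k e p) ∨
  (0 < inner ℝ e (S.fl (α (cc g n * lt (Gen.c j))) (p (some j))) *
      inner ℝ (S.ρ (α (cc g n * lt (Gen.c j))) e) (S.fl (α (cc g n * lt (Gen.c j))) (p (some j))) ∧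
    ∃ p' T', S.Opt (α * zt j) (some j) (S.ρ (α (cc g n * lt (Gen.c j))) e) p' T' ∧
      S.Q (α * zt j) p' = M ∧ S.fl (α (cc g n * lt (Gen.c j))) (p' (some j)) =
        S.fl (α (cc g n * lt (Gen.c j))) (p (some j)))

/-- (Wlk) A zero from a state at a marked point.  Used: Wst, Kil, Frm.  Proof.  `z = cc * lt X`, `γ = α z`,
`zt j z = z`, so `(α * zt j ^ i) z = γ` and `α * zt j ^ i ∈ Fr (wd (4 g + j))` for all `i`.  Assume there is no Zero
state.  By induction on `i` (Wst) there are optimal states in `α * zt j ^ i` at `some j` with the vector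
`S.ρ γ ^ i e`, the energy `M` and the same `G = S.fl γ (p (some j))`, and `a_i a_{i+1} > 0` for
`a_i = ⟪S.ρ γ ^ i e, G⟫`.  So `a_0 a_i > 0` for all `i`.  `S.fin`: `S.ρ γ ^ N = 1` for some `N > 0`, and Kil: `S.v (γ ^ N) = 0`, so
`0 = S.fl (γ ^ N) h = ∑_{i < N} S.ρ γ ^ i G` (`h = p (some j)`, `fl_mul`).  Also `∑_{i < N} ⟪S.ρ γ ^ i e, G⟫ = ∑ ⟪e, S.ρ γ ^ (- i) G⟫ =
⟪e, ∑_{i < N} S.ρ γ ^ i G⟫ = 0` (`S.ρ γ ^ N = 1`; e.g. `S.ρ γ ^ i` and `S.ρ γ ^ (N - i)`), a contradiction. -/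
def St_Wlk : Prop := ∀ {g n : ℕ} {V : Type} [NormedAddCommGroup V] [InnerProductSpace ℝ V]
  [FiniteDimensional ℝ V] (S : RSys g n V) (e₀ : V), S.IsRef (cc g n) e₀ → ∀ M, S.Bd M →
  ∀ j : Fin n, ∀ α ∈ Fr (wd g n (4 * g + j)), ∀ (e : V) (p : Pt n V) (T : ℝ),
  S.Opt α (some j) e p T → S.Q α p = M → ∃ α k e p, S.Zero M α k e p

/-- (Gmv) From a Zero state along a half edge at the base vertex.  Used: Stp, Frm, Pos.  Proof.  By Stp
`⟪e, S.fl (α (lab k)) p_u⟫ = 0`; so `S.aff (α (lab k)) p_u` is fixed by `α c`, and `p_u` is fixed by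
`(α * mv k) cc = (α (lab k))⁻¹ * α c * α (lab k)` (`aff_conj_iff`); the letters and so the energy and the out vectors
(all zero: `0 • e' = 0`) do not change.  `RSys.IsRef.conj'`. -/
def St_Gmv : Prop := ∀ {g n : ℕ} {V : Type} [NormedAddCommGroup V] [InnerProductSpace ℝ V]
  [FiniteDimensional ℝ V] (S : RSys g n V) (e₀ : V), S.IsRef (cc g n) e₀ → ∀ M, S.Bd M →
  ∀ (k : ℕ) (α : _) (e : V) (p : Pt n V), k < 4 * g → S.Zero M α k e p →
  inner ℝ e (S.fl (α (lab g n k)) (p none)) = (0 : ℝ) ∧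
  S.Zero M (α * mv g n k) (tg k) (S.ρ (α (lab g n k))⁻¹ e) p

/-- (Gpu) From a Zero state through a monogon.  Used: Stp, Mov, Stm, Exi, Pos, Frm.  Proof.  `X = Gen.c j`.
By Stp `⟪e, p_j - p_u⟫ = 0`, so `p_j` is fixed by `α c` and `p` is also optimal at `some j` with `T = 0` (all out
vectors are zero).  Mov at `some j` with `y = lt X` to an optimal state in `α * mp X ∈ Fr (wd (4 g + j + 1))`
(Adm, energy `≤ M`): `⟪e, S.fl (α (lt X)) p_j⟫ = 0`.  So `p_j` is fixed by `(α * mp X) cc` and `p` is optimal in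
`α * mp X` at `some j` with `T = 0`, the vector `e' = S.ρ (α (lt X))⁻¹ e` and the energy `M`.  Stm in this frame
from `some j` to `none` (Exi gives the optimal state at `none`, Adm): `⟪e', p_u - p_j⟫ = 0`, so `p_u` is
fixed too and `p` is Zero at `(α * mp X, 4 g + j + 1)`. -/
def St_Gpu : Prop := ∀ {g n : ℕ} {V : Type} [NormedAddCommGroup V] [InnerProductSpace ℝ V]
  [FiniteDimensional ℝ V] (S : RSys g n V) (e₀ : V), S.IsRef (cc g n) e₀ → ∀ M, S.Bd M →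
  ∀ (j : Fin n) (α : _) (e : V) (p : Pt n V), S.Zero M α (4 * g + j) e p →
  inner ℝ e (p (some j) - p none) = (0 : ℝ) ∧
  inner ℝ e (S.fl (α (lt (Gen.c j))) (p (some j))) = (0 : ℝ) ∧
  S.Zero M (α * mp (Gen.c j : Gen g n)) (4 * g + j + 1) (S.ρ (α (lt (Gen.c j)))⁻¹ e) p

/-- (Rch) All reached frames.  Used: Stp, Gmv, Gpu, Frm.  Proof.  Induction on `Rch`.  `cr`: Stp with `T = 0`; flows:
`k < 4 g`: `chi k = lm X`: the flow in `X` becomes `S.ρ (α c) f` with `⟪e, f⟫ = 0`, so `f`; `rm X`: it does not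
change; `k = 4 g + j`: the flow in `X = Gen.c j` becomes `S.fl (c' x c'⁻¹) p_j = S.ρ c' (S.fl x p_j)` as `p_j` is fixed by
`c' = α c`, and `⟪e, S.fl x p_j⟫ = 0` (Gpu).  `wr`: `Fr (wd (4 g + n)) = Fr (wd 0)`.  `mv`, `pu`: Gmv, Gpu, the
letters do not change. -/
def St_Rch : Prop := ∀ {g n : ℕ} {V : Type} [NormedAddCommGroup V] [InnerProductSpace ℝ V]
  [FiniteDimensional ℝ V] (S : RSys g n V) (e₀ : V), S.IsRef (cc g n) e₀ → ∀ M, S.Bd M →
  ∀ (α₀ : _) (k₀ : ℕ) (e₁ : V) (p : Pt n V), S.Zero M α₀ k₀ e₁ p → ∀ α k, Rch g n α₀ k₀ α k →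
  ∃ e, S.Zero M α k e p ∧
    ∀ X : Gen g n, S.fl (α (lt X)) (p (vx X)) = S.fl (α₀ (lt X)) (p (vx X))

/-- (Spn) The span of the vectors is invariant.  Used: Rch, Gmv, Gpu.  Proof.  `E` is the span of the `e` of all
reached frames.  Rotation: from a reached `(α, k)` and `k' ≤ 4 g + n` the crossings `cr` and `wr` reach some
`(α', k')` with `α' cc = α cc`.  The corner of a letter: `4 i` for `a i` (`lab = ga i`), `4 i + 3` for `b i`
(`lab = gb i`), `4 g + j` for `c j`.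
(A) For `(α, k)` reached, a letter `X` and `y : V`: `S.ρ (α (lt X))⁻¹ y - S.ρ (α₀ (lt X))⁻¹ y ∈ E`.  Induction on `Rch`: only `cr` changes the
letters.  `chi k = lm X`: `S.ρ (α c * α (lt X))⁻¹ y = S.ρ (α (lt X))⁻¹ (y - 2 ⟪e, y⟫ e)`, and `S.ρ (α (lt X))⁻¹ e ∈ E` as it is the vector of
the frame `α * mv k` (`lab k = lt X` for `k % 4 = 0, 3`, which is where `chi k = lm X`).  `chi k = rm X`: `S.ρ (α (lt X) * (α c)⁻¹)⁻¹ y =
S.ρ (α c) (S.ρ (α (lt X))⁻¹ y)`, which differs from `S.ρ (α (lt X))⁻¹ y` by a multiple of `e ∈ E`.  `k = 4 g + j`: `lm X * rm X`: both.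
(B) For `(α, k)` reached with the vector `e` and a letter `X`: rotate to the corner `(α', k')` of `X`: the vector of
`(α', k')` is `e` or `-e` (`RSys.IsRef.unique`); the next frame by `mv` or `pu` has the vector `S.ρ (α' (lt X))⁻¹ e ∈ E`, so
by (A) `S.ρ (α₀ (lt X))⁻¹ e ∈ E`.  Also `⟪e, S.fl (α' (lt X)) (p (vx X))⟫ = 0` by Gmv, Gpu, that is
`⟪e, S.fl (α₀ (lt X)) (p (vx X))⟫ = 0` (Rch), and `⟪e, p_j - p_u⟫ = 0` by Gpu.
(C) `E` is invariant under `S.ρ (α₀ (lt X))⁻¹` and under `S.ρ (α₀ c)` (`e₁ ∈ E`), it is finite dimensional and the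
maps are injective, so it is invariant under the inverses too and under `S.ρ (α₀ x)` for all `x` (the
letters and `c` generate), so under `S.ρ x` for all `x`. -/
def St_Spn : Prop := ∀ {g n : ℕ} {V : Type} [NormedAddCommGroup V] [InnerProductSpace ℝ V]
  [FiniteDimensional ℝ V] (S : RSys g n V) (e₀ : V), S.IsRef (cc g n) e₀ → ∀ M, S.Bd M →
  ∀ (α₀ : _) (k₀ : ℕ) (e₁ : V) (p : Pt n V), S.Zero M α₀ k₀ e₁ p → ∃ E : Submodule ℝ V, e₁ ∈ E ∧
    (∀ x, ∀ y ∈ E, S.ρ x y ∈ E) ∧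
    (∀ y ∈ E, ∀ X : Gen g n, inner ℝ y (S.fl (α₀ (lt X)) (p (vx X))) = (0 : ℝ)) ∧
    ∀ y ∈ E, ∀ j : Fin n, inner ℝ y (p (some j) - p none) = (0 : ℝ)

/-- (Core) The core theorem.  Used: Max, Chn, Wlk, Spn.  Proof.  Max, and Chn or Wlk, give a Zero state
`(α₀, k₀, e₁, p)`; Spn gives `E`.  `h = p none`.  The set `{y | ∀ y' ∈ E, ⟪y', y⟫ = 0}` is invariant under
`S.ρ` (`inner_ρ`).  `S.fl (α₀ (lt X)) h` is orthogonal to `E`: for `vx X = none` directly; for `X = Gen.c j`: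
`S.fl (α₀ (lt X)) h = S.fl (α₀ (lt X)) p_j + (S.ρ .. (h - p_j) - (h - p_j))` (`fl_add`).  `S.fl (α₀ c) h = 0`.  By `fl_mul`, `fl_inv` and
induction `S.fl (α₀ x) h` is orthogonal to `E` for all `x`, so `S.fl x h` for all `x` (`α₀` is onto).  `α₀ c ~ c`
(Fr), so every conjugate `w c w⁻¹` is a conjugate of `α₀ c` and acts as the reflection in some
`S.ρ w' e₁ ∈ E` (`RSys.IsRef.conj`), so it fixes the vectors orthogonal to `E` (`RSys.IsRef.eq_self`). -/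
def St_Core : Prop := ∀ {g n : ℕ} {V : Type} [NormedAddCommGroup V] [InnerProductSpace ℝ V]
  [FiniteDimensional ℝ V] (S : RSys g n V) (e : V), S.IsRef (cc g n) e →
  ∃ h, ∀ x w, S.ρ (w * cc g n * w⁻¹) (S.fl x h) = S.fl x h

end Pool.Agent.PSB
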