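import Pool.Agent.PSB.All

/-!
# Simple branch points: the theorem in named terms
-/

namespace Pool.Agent.PSB

open Pool.Agent.PW

variable {g n : ℕ}

/-- `K` times the normal closure of `gc j`: the largest intermediate cover which is not branched
over the marked point `j`. -/
def Big (K : Subgroup (F g n)) (j : Fin n) : Subgroup (F g n) := K ⊔ Nj g j

/-- The class `f` is the restriction of the class `f'`. -/
def Comes (K L : Subgroup (F g n)) (f : K → ℚ) (f' : L → ℚ) : Prop :=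
  IsClass L f' ∧ ∀ (x : K) (y : L), (x : F g n) = y → f' y = f x

/-- The property of Putman and Wieland. -/
def PutmanWieland (K : Subgroup (F g n)) : Prop :=
  ∀ f : K → ℚ, IsClass K f → f ≠ 0 → (orbit K f).Infinite

/-- All branch points are simple. -/
def SimplyBranched (K : Subgroup (F g n)) : Prop :=
  ∀ i : Fin n, Simple K (gc i) ∨ ∀ r : F g n ⧸ K, (gc i : F g n) • r = r

/-- The cover does not factor through a nontrivial unbranched cover. -/
def Surj (K : Subgroup (F g n)) : Prop := K ⊔ Subgroup.normalClosure (Set.range gc) = ⊤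

theorem thm_main (g n : ℕ) (j : Fin n) (K : Subgroup (F g n)) [K.FiniteIndex]
    (hR : bdry g n ∈ K.normalCore) (hs : Simple K (gc j)) :
    (∀ f : K → ℚ, IsClass K f →
      ((orbitH (PushAt j) K f).Finite ↔ ∃ f', Comes K (Big K j) f f') ∧
      ((orbit K f).Finite ↔ ∃ f', Comes K (Big K j) f f' ∧ (orbit (Big K j) f').Finite)) ∧
    (Big K j = ⊤ ∨ SimplyBranched K ∧ Surj K ∨
      9 ≤ g ∧ derivedSeries (Deck (Big K j)) 2 = ⊥ → PutmanWieland K) := by
  refine ⟨fun f hf => ?_, fun h f hf h0 => ?_⟩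
  · obtain ⟨h1, h2, -, -⟩ := simple_branch g n j K hR hs f hf
    refine ⟨h1.trans ⟨?_, ?_⟩, h2.trans ⟨?_, ?_⟩⟩
    · rintro ⟨f', h3, h4⟩
      refine ⟨f', h3, ?_⟩
      rintro x ⟨y, hy⟩ hxy
      subst hxy
      exact h4 x
    · rintro ⟨f', h3, h4⟩
      exact ⟨f', h3, fun x => h4 x ⟨x, Subgroup.mem_sup_left x.2⟩ rfl⟩
    · rintro ⟨f', h3, h4, h5⟩
      refine ⟨f', ⟨h3, ?_⟩, h5⟩
      rintro x ⟨y, hy⟩ hxy
      subst hxy
      exact h4 x
    · rintro ⟨f', ⟨h3, h4⟩, h5⟩
      exact ⟨f', h3, fun x => h4 x ⟨x, Subgroup.mem_sup_left x.2⟩ rfl, h5⟩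
  · obtain ⟨-, -, h3, h4⟩ := simple_branch g n j K hR hs f hf
    rcases h with h | ⟨h5, h6⟩ | h
    · exact h3 (Or.inl h) h0
    · exact h3 (Or.inl ((h4 h5).trans h6)) h0
    · exact h3 (Or.inr h) h0

end Pool.Agent.PSB
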