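import Pool.Agent.PSB.St

/-!
# Simple branch points: potentials of zero homogeneous energy
-/

namespace Pool.Agent.PSB

open Pool.Agent.PW

theorem Zer_stem {n : ℕ} {V : Type} [NormedAddCommGroup V] [InnerProductSpace ℝ V]
    (p z : Pt n V) (h : ∀ w, z w = z none) (w : Option (Fin n)) :
    stem (p + z) w = stem p w := by
  cases w with
  | none =>
    show ∑ j, ((p + z) (some j) - (p + z) none) = ∑ j, (p (some j) - p none)
    refine Finset.sum_congr rfl fun j _ => ?_
    rw [Pi.add_apply, Pi.add_apply, h (some j), add_sub_add_right_eq_sub]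
  | some j =>
    show (p + z) none - (p + z) (some j) = p none - p (some j)
    rw [Pi.add_apply, Pi.add_apply, h (some j), add_sub_add_right_eq_sub]

theorem thm_Zer : St_Zer := by
  intro g n V _ _ S α p z h
  have h' : ∑ X : Gen g n, ‖S.ρ (α (lt X)) (z (vx X)) - z (vx X)‖ ^ 2 +
    ∑ j, ‖z (some j) - z none‖ ^ 2 = 0 := h
  have hA : 0 ≤ ∑ X : Gen g n, ‖S.ρ (α (lt X)) (z (vx X)) - z (vx X)‖ ^ 2 :=
    Finset.sum_nonneg fun _ _ => sq_nonneg _
  have hB : 0 ≤ ∑ j, ‖z (some j) - z none‖ ^ 2 := Finset.sum_nonneg fun _ _ => sq_nonneg _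
  have hA0 : ∑ X : Gen g n, ‖S.ρ (α (lt X)) (z (vx X)) - z (vx X)‖ ^ 2 = 0 := by linarith
  have hB0 : ∑ j, ‖z (some j) - z none‖ ^ 2 = 0 := by linarith
  have h1 : ∀ X : Gen g n, S.ρ (α (lt X)) (z (vx X)) = z (vx X) := by
    intro X
    have := (Finset.sum_eq_zero_iff_of_nonneg (fun _ _ => sq_nonneg _)).1 hA0 X
      (Finset.mem_univ _)
    exact sub_eq_zero.1 (norm_eq_zero.1 ((pow_eq_zero_iff two_ne_zero).1 this))
  have h2 : ∀ j, z (some j) = z none := by
    intro j
    have := (Finset.sum_eq_zero_iff_of_nonneg (fun _ _ => sq_nonneg _)).1 hB0 j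
      (Finset.mem_univ _)
    exact sub_eq_zero.1 (norm_eq_zero.1 ((pow_eq_zero_iff two_ne_zero).1 this))
  have h3 : ∀ w, z w = z none := by
    intro w
    cases w with
    | none => rfl
    | some j => exact h2 j
  have h4 : ∀ X : Gen g n,
      S.fl (α (lt X)) ((p + z) (vx X)) = S.fl (α (lt X)) (p (vx X)) := by
    intro X
    rw [Pi.add_apply, fl_add, h1 X, sub_self, add_zero]
  refine ⟨h3, fun X => ?_, fun w => ?_, h4, ?_⟩
  · have := h1 X
    rwa [h3 (vx X)] at this
  · show ∑ X : Gen g n, (if vx X = w then S.fl (α (lt X)) ((p + z) w) +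
        S.fl (α (lt X))⁻¹ ((p + z) w) else 0) + stem (p + z) w =
      ∑ X : Gen g n, (if vx X = w then S.fl (α (lt X)) (p w) +
        S.fl (α (lt X))⁻¹ (p w) else 0) + stem p w
    rw [Zer_stem p z h3]
    congr 1
    refine Finset.sum_congr rfl fun X _ => ?_
    split_ifs with hx
    · subst hx
      have h5 : S.ρ (α (lt X))⁻¹ (z (vx X)) = z (vx X) := by
        conv_lhs => rw [← h1 X]
        exact ρ_inv_apply S _ _
      rw [h4 X, Pi.add_apply, fl_add, h5, sub_self, add_zero]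
    · rfl
  · show ∑ X : Gen g n, ‖S.fl (α (lt X)) ((p + z) (vx X))‖ ^ 2 +
        ∑ j, ‖(p + z) (some j) - (p + z) none‖ ^ 2 =
      ∑ X : Gen g n, ‖S.fl (α (lt X)) (p (vx X))‖ ^ 2 + ∑ j, ‖p (some j) - p none‖ ^ 2
    congr 1
    · exact Finset.sum_congr rfl fun X _ => by rw [h4 X]
    · refine Finset.sum_congr rfl fun j _ => ?_
      rw [Pi.add_apply, Pi.add_apply, h2 j, add_sub_add_right_eq_sub]

end Pool.Agent.PSB
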